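import Pool.Agent.Work.MP_60d5ce_nt.Bs.Stmt
import Pool.Agent.Work.MP_60d5ce_nt.Bs.Main

/-!
# The definitions of the statement file agree with the working definitions
-/

namespace Pool.Agent.Bsd

open Polynomial

variable {F : Type} [Field F] (D : F[X]) (Ω : Type) [Field Ω] [Algebra F Ω]

theorem finite_iff : Finite (Jac D Ω) ↔ Finite (Bs.Jac D Ω) := Iff.rfl

variable {Ω} in
theorem splits_iff (L : Type) [Field L] [Algebra F L] (c : (Ω ≃ₐ[F] Ω) → Bs.Jac D Ω) :
    SplitsOver D L c ↔ Bs.SplitsOver D L c := by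
  refine ⟨fun ⟨Λ, _, _, _, _, _, ι, P, h⟩ => ?_, fun ⟨ι, P, h⟩ =>
    ⟨SeparableClosure L, _, _, _, inferInstance, inferInstance, ι, P, h⟩⟩
  let e := IsSepClosure.equiv L Λ (SeparableClosure L)
  let e' := e.toAlgHom.restrictScalars F
  change Bs.Jac D Λ at P
  refine ⟨e'.comp ι, Bs.jmap D e' P, fun τ σ hσ => ?_⟩
  have h1 : Bs.jmap D ι (c σ) = Bs.jmap D (((e.trans τ).trans e.symm).toAlgHom.restrictScalars F)
      P - P :=
    h ((e.trans τ).trans e.symm) σ fun x => e.eq_symm_apply.2 (hσ x)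
  rw [← Bs.jm_comp ι e' _ fun _ => rfl, h1, map_sub,
    Bs.jm_sq _ e' e' (τ.toAlgHom.restrictScalars F) fun x => e.apply_symm_apply _]

theorem sha_iff : ShaTwoFinite D Ω ↔ Bs.ShaTwoFinite D Ω := by
  refine exists_congr fun S => and_congr_right fun _ => forall_congr' fun c => imp_congr_left ?_
  exact and_congr_right fun _ => forall₂_congr fun v _ => splits_iff D _ c

end Pool.Agent.Bsd
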