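import Pool.Agent.Work.MP_60d5ce_nt.Qt.Alg
import Pool.Agent.Work.MP_60d5ce_nt.Hy.WeX
import Pool.Agent.Work.MP_60d5ce_nt.Hy.Form

-- merged part: Pool.Agent.Work.MP_60d5ce_nt.Hy.CZ
section
-- merged part: Pool.Agent.Work.MP_60d5ce_nt.Hy.CZ
section
/-!
# Traces on cocycles with values in torsion points  (task LB CZ)

* `adm_level`: `U = {g | T.deg g = 0 ∧ (mat R x g).map (rO j) = 1}` is a normal subgroup containing the one of `R.act_sm`; `T.adm_mono`.
* `hasTr_Z`: `trace_formula` for `ρ g = (mat R x g).map (rO (j + 1))`, then `HasTr.map` along `c ↦ e ∘ c`, `e` from `M.toTateI.exists_emb`; `e (ρ g y) = M.a g (e y)`.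
* `hasTr_B`: `M.toTateI.hasTr`, `HasTr.map` along `cob T M.a` (`cob_mem` with `X₀ = tors 𝒜 _`; injective by `Rep.VD_of_fix`; onto by `GM.GeoM_lev`; `GM.GeoM_conj`).
* `conj_sub`: from `c (h * (h⁻¹ g h)) = c (g * h)`, with the point `c h`.
-/

namespace Pool.Agent.Hyp

open Pool.Agent.Lef

variable [Par]

open scoped Classical
open Pool.Agent.Quad

noncomputable section

variable {W P : Type} [Group W] {T : Tame W P}

/-- the matrix of the twisted action -/
def mat (R : Rep T) (x : W → F2) (g : W) : Matrix Ix Ix O := sg (x g) • R.ρ g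

variable {R : Rep T} {x : W → F2} {𝒜 : Type} [AddCommGroup 𝒜] {A : Finset P}

/-- torsion cocycles, unramified outside `A` -/
def ZT (M : GM R x 𝒜) (A : Finset P) : AddSubgroup (W → 𝒜) where
  carrier := {c | c ∈ ZH T T.G0 M.a A ∧ Tor2 c}
  zero_mem' := ⟨zero_mem _, GM.GeoM_zero⟩
  add_mem' h h' := ⟨add_mem h.1 h'.1, GM.GeoM_add h.2 h'.2⟩
  neg_mem' h := ⟨neg_mem h.1, GM.GeoM_neg h.2⟩

theorem act_eq (g : W) (t : V) : R.act x g t = (mat R x g).mulVec t := by
  rw [mat, Matrix.smul_mulVec]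
  rfl

theorem mat_mul (hx : T.IsHom x) (g h : W) : mat R x (g * h) = mat R x g * mat R x h := by
  rw [mat, mat, mat, hx.2, sg_add, R.ρ_mul, smul_mul_smul_comm]

theorem mat_one (hx : T.IsHom x) : mat R x 1 = 1 := by
  rw [mat, Tame.hom_one hx, sg_zero, R.ρ_one, one_smul]

theorem mat_symp (g : W) (a b : V) :
    ee ((mat R x g).mulVec a) ((mat R x g).mulVec b) = T.cq g * ee a b := by
  rw [mat, Matrix.smul_mulVec, Matrix.smul_mulVec, ee_smul_left, ee_smul_right, ← mul_assoc,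
    sg_mul_self, one_mul, R.symp]

/-- the matrix as a homomorphism -/
def CZ_hom (hx : T.IsHom x) : W →* Matrix Ix Ix O where
  toFun := mat R x
  map_one' := mat_one hx
  map_mul' := mat_mul hx

theorem mat_rel (hx : T.IsHom x) (v : P) :
    mat R x (T.σ v) * mat R x (T.τ v) = mat R x (T.τ v) ^ T.Q v * mat R x (T.σ v) := by
  have h : mat R x (T.τ v ^ T.Q v) = mat R x (T.τ v) ^ T.Q v := map_pow (CZ_hom hx) _ _
  rw [← h, ← mat_mul hx, ← mat_mul hx, mat, mat, Tame.sm_rel hx.1 v, Lat.rho_rel v]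

theorem adm_level (hx : T.IsHom x) (j : ℕ) :
    ∃ U, T.Adm U ∧ ∀ g, g ∈ U ↔ T.deg g = 0 ∧ (mat R x g).map (rO j) = 1 := by
  obtain ⟨U, hU, h⟩ := R.act_sm hx j
  have := T.adm_normal _ T.adm_G0
  refine ⟨T.G0 ⊓ ((rO j).mapMatrix.toMonoidHom.comp (CZ_hom hx)).ker,
    T.adm_mono U _ hU (fun u hu => ⟨T.adm_le U hU hu, ?_⟩) inferInstance inf_le_left,
    fun g => Iff.rfl⟩
  show (mat R x u).map (rO j) = 1
  rw [← Matrix.map_one (rO j) (map_zero _) (map_one _)]
  ext a b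
  have h1 := rO_eq_zero.2 (h u hu (Pi.single b 1) a)
  rw [act_eq, Matrix.mulVec_single_one, Pi.sub_apply, map_sub, sub_eq_zero] at h1
  rw [Matrix.map_apply, Matrix.map_apply, Matrix.one_apply, ← Pi.single_apply]
  exact h1

theorem CZ_tau (hunr : ∀ v ∉ A, mat R x (T.τ v) = 1) {j : ℕ} {U : Subgroup W}
    (hm : ∀ g, g ∈ U ↔ T.deg g = 0 ∧ (mat R x g).map (rO j) = 1) : ∀ v ∉ A, T.τ v ∈ U :=
  fun v hv => (hm _).2 ⟨T.deg_τ v, by
    rw [hunr v hv, Matrix.map_one (rO j) (map_zero _) (map_one _)]⟩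

variable (M : GM R x 𝒜)

theorem CZ_act (hx : T.IsHom x) {j : ℕ} {U : Subgroup W}
    (hm : ∀ g, g ∈ U ↔ T.deg g = 0 ∧ (mat R x g).map (rO j) = 1) :
    Act U T.G0 M.a (tors 𝒜 (2 ^ j)) := by
  refine ⟨fun g _ y hy => mem_tors.2 ?_, fun g _ h _ y hy => GM.GeoM_mul hx g h ⟨j, hy⟩,
    fun u hu y hy => ?_⟩
  · rw [← map_nsmul, mem_tors.1 hy, map_zero]
  · obtain ⟨a, rfl⟩ := M.surj j y hy
    rw [M.a_pt, M.pt_eq_iff]
    intro i
    rw [← rO_eq_zero, map_sub, act_eq, RingHom.map_mulVec, ((hm u).1 hu).2, Matrix.one_mulVec]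
    exact sub_self _

theorem hasTr_Z (L : LefAx T) (hx : T.IsHom x) (hA : A.Nonempty)
    (hunr : ∀ v ∉ A, mat R x (T.τ v) = 1) (j : ℕ) {n : ℕ} (hn : 0 < n) {w : W} (hw : T.deg w = n) :
    ∃ t, HasTr (2 ^ (j + 1)) (ZT M A ⊓ tors (W → 𝒜) (2 ^ (j + 1))) (conjOp M.a w) t ∧
      (T.q : ZMod (2 ^ (j + 1))) ^ n * t =
        (T.q : ZMod (2 ^ (j + 1))) ^ n * rO (j + 1) (mat R x w).trace -
          ∑ v ∈ Pd T A n, (T.dg v : ZMod (2 ^ (j + 1))) *
            rO (j + 1) (mat R x (T.σ v ^ (n / T.dg v))).trace := by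
  obtain ⟨U, hU, hm⟩ := adm_level (R := R) hx (j + 1)
  obtain ⟨e, he, hr, hp⟩ := M.toTateI.exists_emb (j + 1)
  obtain ⟨t, h1, h2⟩ := trace_formula (ρ := fun g => (mat R x g).map (rO (j + 1))) L hU hA
    (CZ_tau hunr hm) (fun g h => by rw [mat_mul hx, Matrix.map_mul]) (fun u hu => ((hm u).1 hu).2)
    hn hw
  have key : ∀ g y, e (mv (fun g => (mat R x g).map (rO (j + 1))) g y) = M.a g (e y) := by
    intro g y
    choose a ha using fun i => rO_surj (j + 1) (y i)
    obtain rfl : y = fun i => rO (j + 1) (a i) := funext fun i => (ha i).symm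
    have h3 : mv (fun g => (mat R x g).map (rO (j + 1))) g (fun i => rO (j + 1) (a i)) =
        fun i => rO (j + 1) ((mat R x g).mulVec a i) :=
      funext fun i => (RingHom.map_mulVec (rO (j + 1)) (mat R x g) a i).symm
    rw [h3, hp, hp, ← act_eq]
    exact (M.a_pt g _ a).symm
  have tor : ∀ y, 2 ^ (j + 1) • e y = 0 := fun y => mem_tors.1 (hr ▸ ⟨y, rfl⟩)
  refine ⟨t, h1.map (j := fun c g => e (c g)) (fun c _ d _ => funext fun g => map_add e _ _)
    (fun c _ d _ h => funext fun g => he (congrFun h g)) ?_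
    (fun c _ => funext fun g => key _ _), ?_⟩
  · ext d
    constructor
    · rintro ⟨c, ⟨a1, ⟨U', hU', a2⟩, a3, a4⟩, rfl⟩
      have h3 : 2 ^ (j + 1) • (fun g => e (c g)) = 0 := funext fun g => tor _
      refine ⟨⟨⟨fun g hg => ?_, ⟨U', hU', fun g hg u hu => ?_⟩, fun g hg h hh => ?_,
        fun t ht => ?_⟩, _, h3⟩, h3⟩
      · beta_reduce
        rw [a1 g hg, map_zero]
      · beta_reduce
        rw [a2 g hg u hu]
      · beta_reduce
        rw [a3 g hg h hh, map_add, key]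
      · beta_reduce
        rw [a4 t ht, map_zero]
    · rintro ⟨⟨⟨a1, ⟨U', hU', a2⟩, a3, a4⟩, -⟩, h3⟩
      have h4 : ∀ g, ∃ y, e y = d g := fun g =>
        show d g ∈ e.range from hr ▸ congrFun (mem_tors.1 h3) g
      choose c hc using h4
      refine ⟨c, ⟨fun g hg => he ?_, ⟨U', hU', fun g hg u hu => he ?_⟩, fun g hg h hh => he ?_,
        fun t ht => he ?_⟩, funext hc⟩
      · rw [hc, a1 g hg, map_zero]
      · rw [hc, hc, a2 g hg u hu]
      · rw [map_add, key, hc, hc, hc, a3 g hg h hh]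
      · rw [hc, a4 t ht, map_zero]
  · simp only [AddMonoidHom.map_trace (rO (j + 1))]
    exact h2

theorem cob_mem_ZT (hx : T.IsHom x) (hunr : ∀ v ∉ A, mat R x (T.τ v) = 1) {y : 𝒜} (hy : Tor2 y) :
    cob T M.a y ∈ ZT M A := by
  obtain ⟨j, hj⟩ := hy
  obtain ⟨U, hU, hm⟩ := adm_level (R := R) hx j
  exact ⟨cob_mem hU (CZ_tau hunr hm) (CZ_act M hx hm) hj, j, by rw [← map_nsmul, hj, map_zero]⟩

theorem hasTr_B (hx : T.IsHom x) (hunr : ∀ v ∉ A, mat R x (T.τ v) = 1) (j : ℕ) (w : W) :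
    HasTr (2 ^ j) (ZT M A ⊓ tors (W → 𝒜) (2 ^ j) ⊓ GM.GeoM_B M) (conjOp M.a w)
      (rO j (mat R x w).trace) := by
  refine (M.toTateI.hasTr (f := M.a w) (m := mat R x w) fun a => ?_).map (j := cob T M.a)
    (fun y _ z _ => map_add _ y z) (fun y hy z hz h => ?_) ?_ fun y hy => funext fun g => ?_
  · rw [← act_eq]
    exact M.a_pt w j a
  · obtain ⟨t, ht⟩ := M.surj j (y - z) (sub_mem hy hz)
    rw [← sub_eq_zero, ← ht, M.ker]
    refine R.VD_of_fix (x := x) fun g hg => (M.pt_eq_iff j _ _).1 ?_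
    have h1 := congrFun h g
    rw [cob_apply, cob_apply, if_pos hg, if_pos hg, sub_eq_sub_iff_sub_eq_sub] at h1
    rw [← M.a_pt, ht, map_sub, h1]
  · ext d
    constructor
    · rintro ⟨y, hy, rfl⟩
      refine ⟨⟨cob_mem_ZT M hx hunr ⟨j, hy⟩, mem_tors.2 ?_⟩, y, ⟨j, hy⟩, fun g hg => if_pos hg⟩
      rw [← map_nsmul, mem_tors.1 hy, map_zero]
    · rintro ⟨⟨h1, h2⟩, h3⟩
      obtain ⟨s, hs⟩ := GM.GeoM_lev (n := j) h3 fun g _ => congrFun (mem_tors.1 h2) g
      refine ⟨M.pt j s, M.pow_smul_pt j s, funext fun g => ?_⟩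
      rw [cob_apply]
      split_ifs with hg
      · rw [hs g hg, M.a_pt]
      · exact (h1.1.1 g hg).symm
  · rw [conjOp_apply, cob_apply, cob_apply]
    by_cases hg : T.deg g = 0
    · rw [if_pos hg, if_pos (GM.GeoM_deg w hg), map_sub, GM.GeoM_conj hx w g ⟨j, hy⟩]
    · rw [if_neg hg, if_neg fun h : T.deg (w⁻¹ * g * w) = 0 => hg (BDef_conj.1 h), map_zero]

variable {M}

theorem conj_mem (hx : T.IsHom x) {c : W → 𝒜} (hc : c ∈ ZT M A) (w : W) :
    conjOp M.a w c ∈ ZT M A := by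
  obtain ⟨h1, j, hj⟩ := hc
  exact ⟨conjOp_mem (X₀ := tors 𝒜 (2 ^ j)) (fun g h y hy => GM.GeoM_mul hx g h ⟨j, hy⟩) h1
    (fun g => congrFun hj g) w, j, by rw [← map_nsmul, hj, map_zero]⟩

theorem conj_memB (hx : T.IsHom x) {c : W → 𝒜} (hc : M.IsB c) (w : W) :
    M.IsB (conjOp M.a w c) := by
  obtain ⟨y, hy, e⟩ := hc
  exact ⟨M.a w y, GM.GeoM_a w hy, fun g hg => by
    rw [conjOp_apply, e _ (GM.GeoM_deg w hg), map_sub, GM.GeoM_conj hx w g hy]⟩

theorem conj_mul (hx : T.IsHom x) {c : W → 𝒜} (hc : c ∈ ZT M A) (w w' : W) :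
    conjOp M.a (w * w') c = conjOp M.a w (conjOp M.a w' c) := by
  obtain ⟨-, j, hj⟩ := hc
  funext g
  rw [conjOp_apply, conjOp_apply, conjOp_apply, GM.GeoM_mul hx w w' ⟨j, congrFun hj _⟩,
    show (w * w')⁻¹ * g * (w * w') = w'⁻¹ * (w⁻¹ * g * w) * w' by group]

theorem conj_sub (hx : T.IsHom x) {c : W → 𝒜} (hc : c ∈ ZT M A) {h : W} (h0 : T.deg h = 0) :
    M.IsB (conjOp M.a h c - c) := by
  have _ := hx
  obtain ⟨h1, j, hj⟩ := hc
  refine ⟨c h, ⟨j, congrFun hj h⟩, fun g hg => ?_⟩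
  have e1 := h1.2.2.1 g hg h h0
  have e2 := h1.2.2.1 h h0 _ (GM.GeoM_deg h hg)
  rw [show h * (h⁻¹ * g * h) = g * h by group, e1] at e2
  rw [Pi.sub_apply, conjOp_apply, sub_eq_sub_iff_add_eq_add, add_comm, ← e2, add_comm]

theorem nu_eq (φ : W) (c : W → 𝒜) : M.nu φ c = conjOp M.a φ c - c := rfl

end

end Pool.Agent.Hyp
end

-- merged part: Pool.Agent.Work.MP_60d5ce_nt.Hy.CH
section
/-!
# The Tate module of the first cohomology group  (task LB CH)

Let `Hq = ZT M A ⧸ (GM.GeoM_B M).addSubgroupOf (ZT M A)`, `Φ : Hq →+ Hq` induced by `conjOp M.a φ` (`conj_mem`, `conj_memB`), `π c = if h : c ∈ ZT M A then mk ⟨c, h⟩ else 0`.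
* `π` maps `ZT ⊓ tors (2 ^ j)` onto `tors Hq (2 ^ j)`: if `2 ^ j • c` is the coboundary of `y`, write `y = 2 ^ j • y'` (`M.surj`, `M.pow_smul_add`) and subtract `cob T M.a y'` (`cob_mem_ZT`).
* `ZT` is divisible by two: `Fr.div` for `hasTr_Z` (with `w = φ`, `n = 1`).  `tors Hq 2` is finite (`Fr.finite`).  So `exists_tateR`, `TateR.exists_mat`.
* `HasTr.quot` with `hasTr_B`, `hasTr_Z` for `w = φ ^ n` and `g = Φ^[n]` (`conj_mul`; for the zeroth power `mat_one`), `TateR.hasTr` for `Ψ ^ n`, `HasTr.unique`, `eq_of_rO`.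
-/

namespace Pool.Agent.Hyp

open Pool.Agent.Lef

variable [Par]

open scoped Classical
open Pool.Agent.Quad

variable {W P : Type} [Group W] {T : Tame W P} {R : Rep T} {x : W → F2} {𝒜 : Type}
  [AddCommGroup 𝒜] {A : Finset P}

/-- coordinates on the first cohomology group -/
structure Coh (M : GM R x 𝒜) (A : Finset P) (φ : W) (r : ℕ) where
  Ψ : Matrix (Fin r) (Fin r) O
  cc : ℕ → (Fin r → O) → W → 𝒜
  mem : ∀ j t, cc j t ∈ ZT M A
  add : ∀ j s t, M.IsB (cc j (s + t) - (cc j s + cc j t))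
  two : ∀ j t, M.IsB (2 • cc (j + 1) t - cc j t)
  ker : ∀ j t, M.IsB (cc j t) ↔ VD j t
  op : ∀ j t, M.IsB (conjOp M.a φ (cc j t) - cc j (Ψ.mulVec t))
  tr : ∀ n : ℕ, 0 < n → (T.q : O) ^ n * (Ψ ^ n).trace =
    -∑ v ∈ Pd T A n, (T.dg v : O) * (mat R x (T.σ v ^ (n / T.dg v))).trace

theorem CH_quot {X : Type} [AddCommGroup X] (Z B : AddSubgroup X) (f : X →+ X)
    (hZ : ∀ c ∈ Z, f c ∈ Z) (hB : ∀ c ∈ B, f c ∈ B) :
    ∃ (H : Type) (_ : AddCommGroup H) (π : X → H) (Φ : H →+ H), AddOn Z π ∧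
      (∀ h, ∃ c ∈ Z, π c = h) ∧ (∀ c ∈ Z, π c = 0 ↔ c ∈ B) ∧ ∀ c ∈ Z, π (f c) = Φ (π c) := by
  refine ⟨Z ⧸ B.addSubgroupOf Z, inferInstance,
    fun c => if h : c ∈ Z then QuotientAddGroup.mk ⟨c, h⟩ else 0,
    QuotientAddGroup.map _ _ ((f.comp Z.subtype).codRestrict Z fun c => hZ c c.2)
      fun c hc => hB c hc, fun c hc d hd => ?_, fun h => ?_, fun c hc => ?_, fun c hc => ?_⟩
  · simp only [dif_pos hc, dif_pos hd, dif_pos (add_mem hc hd)]
    rfl
  · obtain ⟨c, rfl⟩ := QuotientAddGroup.mk_surjective h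
    exact ⟨c, c.2, dif_pos c.2⟩
  · simp only [dif_pos hc]
    exact QuotientAddGroup.eq_zero_iff _
  · simp only [dif_pos hc, dif_pos (hZ c hc)]
    rfl

theorem CH_norm (M : GM R x 𝒜) (hx : T.IsHom x) (hunr : ∀ v ∉ A, mat R x (T.τ v) = 1)
    {c : W → 𝒜} (hc : c ∈ ZT M A) {j : ℕ} (h : M.IsB (2 ^ j • c)) :
    ∃ d ∈ ZT M A, M.IsB d ∧ 2 ^ j • (c - d) = 0 := by
  obtain ⟨y, ⟨i, hi⟩, e⟩ := h
  obtain ⟨t, rfl⟩ := M.surj i y hi
  have hy : Tor2 (M.pt (j + i) t) := ⟨_, M.pow_smul_pt _ t⟩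
  refine ⟨_, cob_mem_ZT M hx hunr hy, ⟨_, hy, fun g hg => if_pos hg⟩, funext fun g => ?_⟩
  rw [Pi.smul_apply, Pi.sub_apply, cob_apply, Pi.zero_apply]
  by_cases hg : T.deg g = 0
  · rw [if_pos hg, smul_sub, smul_sub, ← map_nsmul, M.pow_smul_add, ← e g hg, Pi.smul_apply,
      sub_self]
  · rw [if_neg hg, hc.1.1 g hg, sub_zero, smul_zero]

theorem exists_coh (M : GM R x 𝒜) (L : LefAx T) (hx : T.IsHom x) (hA : A.Nonempty)
    (hunr : ∀ v ∉ A, mat R x (T.τ v) = 1) {φ : W} (hφ : T.deg φ = 1) :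
    ∃ r, Nonempty (Coh M A φ r) := by
  obtain ⟨H, _, π, Φ, ha, hs, hk, hf⟩ := CH_quot (ZT M A) (GM.GeoM_B M) (conjOp M.a φ)
    (fun c hc => conj_mem hx hc φ) fun c hc => conj_memB hx hc φ
  have hdeg : ∀ n : ℕ, T.deg (φ ^ n) = n := fun n => by
    induction n with
    | zero => rw [pow_zero, T.deg_one, Nat.cast_zero]
    | succ n ih => rw [pow_succ, T.deg_mul, ih, hφ, Nat.cast_succ]
  have him : ∀ j, π '' (ZT M A ⊓ tors (W → 𝒜) (2 ^ j) : AddSubgroup _) = tors H (2 ^ j) := by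
    intro j
    ext h
    constructor
    · rintro ⟨c, hc, rfl⟩
      rw [SetLike.mem_coe, mem_tors, ← ha.nsmul hc.1, mem_tors.1 hc.2, ha.zero]
    · intro hh
      obtain ⟨c, hc, rfl⟩ := hs h
      obtain ⟨d, hd, h1, h2⟩ := CH_norm M hx hunr hc (j := j)
        ((hk _ (nsmul_mem hc _)).1 (by rw [ha.nsmul hc]; exact hh))
      exact ⟨c - d, ⟨(ZT M A).sub_mem hc hd, h2⟩, by rw [ha.sub hc hd, (hk d hd).2 h1, sub_zero]⟩
  have hfr := fun j => (hasTr_Z M L hx hA hunr j one_pos (hdeg 1)).choose_spec.1.fr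
  obtain ⟨r, ⟨B⟩⟩ := exists_tateR (A := H) (fun h => by
    obtain ⟨c, hc, rfl⟩ := hs h
    obtain ⟨j, hj⟩ := hc.2
    obtain ⟨y, hy, e⟩ := (hfr j).div c ⟨hc, GM.GeoM_le hj j.le_succ⟩ hj
    exact ⟨π y, by rw [← ha.nsmul hy.1, ← e]⟩) (him 1 ▸ (hfr 0).finite.image π)
  obtain ⟨Ψ, hΨ⟩ := B.exists_mat Φ
  choose cc hcc e using fun j t => hs (B.pt j t)
  have key : ∀ {c d}, c ∈ ZT M A → d ∈ ZT M A → π c = π d → M.IsB (c - d) := fun hc hd h =>
    (hk _ (sub_mem hc hd)).1 (by rw [ha.sub hc hd, h, sub_self])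
  refine ⟨r, ⟨Ψ, cc, hcc, fun j s t => key (hcc _ _) (add_mem (hcc _ _) (hcc _ _)) ?_,
    fun j t => key (nsmul_mem (hcc _ _) _) (hcc _ _) ?_,
    fun j t => (hk _ (hcc j t)).symm.trans ?_,
    fun j t => key (conj_mem hx (hcc _ _) φ) (hcc _ _) ?_, fun n hn => eq_of_rO fun j => ?_⟩⟩
  · rw [ha _ (hcc _ _) _ (hcc _ _), e, e, e, map_add]
  · rw [ha.nsmul (hcc _ _), e, e, B.two]
  · rw [e, B.ker]
  · rw [hf _ (hcc _ _), e, e, hΨ]
  have h1 : ∀ n : ℕ, ∀ c ∈ ZT M A, π (conjOp M.a (φ ^ n) c) = Φ^[n] (π c) := by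
    intro n c hc
    induction n with
    | zero =>
      have := (hk _ (sub_mem (conj_mem hx hc _) hc)).2 (conj_sub hx hc (hdeg 0))
      rwa [ha.sub (conj_mem hx hc _) hc, sub_eq_zero] at this
    | succ n ih =>
      rw [pow_succ', conj_mul hx hc, hf _ (conj_mem hx hc _), ih, Function.iterate_succ_apply']
  have h2 : ∀ (n : ℕ) t, Φ^[n] (B.pt (j + 1) t) = B.pt (j + 1) ((Ψ ^ n).mulVec t) := by
    intro n t
    induction n with
    | zero => rw [pow_zero, Matrix.one_mulVec, Function.iterate_zero_apply]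
    | succ n ih => rw [Function.iterate_succ_apply', ih, hΨ, Matrix.mulVec_mulVec, pow_succ']
  obtain ⟨t, h3, h4⟩ := hasTr_Z M L hx hA hunr j hn (hdeg n)
  have h5 := (B.hasTr (h2 n)).unique ((hasTr_B M hx hunr (j + 1) (φ ^ n)).quot h3
    (fun c hc d hd => ha c hc.1 d hd.1)
    (fun c => ⟨fun hc => ⟨hc.1, (hk c hc.1.1).2 hc.2⟩, fun hc => ⟨hc.1, (hk c hc.1.1).1 hc.2⟩⟩)
    (him _) fun c hc => h1 n c hc.1)
  simp only [map_mul, map_pow, map_natCast, map_neg, map_sum]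
  rw [h5, mul_sub, h4]
  ring

end Pool.Agent.Hyp
end

-- merged part: Pool.Agent.Work.MP_60d5ce_nt.Hy.CH2
section
/-!
# The inverse of Frobenius on the first cohomology group  (task HY CH2)

* `hasTr_Z'`: as `hasTr_Z` in `Hy/CZ.lean`, with `trace_formula'`; `T.Q v ^ (n / T.dg v) = T.q ^ n` if `T.dg v ∣ n`.
* `exists_coh2`: copy the proof of `exists_coh` in `Hy/CH.lean`.  Let `Φ'` be induced by `conjOp M.a φ⁻¹` (`QuotientAddGroup.map`; or strengthen `CH_quot` to a family of maps with the same `π`), `Ψ'` its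
  matrix.  `Φ ∘ Φ' = id` (`conj_mul`, `conj_sub` for `h = 1`), so `Ψ * Ψ' = 1` (`TateR.ker`, `eq_zero_of_forall_dvd`).  Then `HasTr.quot` with `hasTr_B`, `hasTr_Z'` for `w = φ ^ n`, `w⁻¹ = φ⁻¹ ^ n`.
-/

namespace Pool.Agent.Hyp

open Pool.Agent.Lef

variable [Par]

open scoped Classical
open Pool.Agent.Quad

variable {W P : Type} [Group W] {T : Tame W P} {R : Rep T} {x : W → F2} {𝒜 : Type}
  [AddCommGroup 𝒜] {A : Finset P}

theorem CH2_map (M : GM R x 𝒜) (j : ℕ) {w : W} {t : ZMod (2 ^ (j + 1))}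
    (h1 : HasTr (2 ^ (j + 1)) (ZH T T.G0 (mv fun g => (mat R x g).map (rO (j + 1))) A)
      (conjOp (mv fun g => (mat R x g).map (rO (j + 1))) w) t) :
    HasTr (2 ^ (j + 1)) (ZT M A ⊓ tors (W → 𝒜) (2 ^ (j + 1))) (conjOp M.a w) t := by
  obtain ⟨e, he, hr, hp⟩ := M.toTateI.exists_emb (j + 1)
  have key : ∀ g y, e (mv (fun g => (mat R x g).map (rO (j + 1))) g y) = M.a g (e y) := by
    intro g y
    choose a ha using fun i => rO_surj (j + 1) (y i)
    obtain rfl : y = fun i => rO (j + 1) (a i) := funext fun i => (ha i).symm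
    have h3 : mv (fun g => (mat R x g).map (rO (j + 1))) g (fun i => rO (j + 1) (a i)) =
        fun i => rO (j + 1) ((mat R x g).mulVec a i) :=
      funext fun i => (RingHom.map_mulVec (rO (j + 1)) (mat R x g) a i).symm
    rw [h3, hp, hp, ← act_eq]
    exact (M.a_pt g _ a).symm
  have tor : ∀ y, 2 ^ (j + 1) • e y = 0 := fun y => mem_tors.1 (hr ▸ ⟨y, rfl⟩)
  refine h1.map (j := fun c g => e (c g)) (fun c _ d _ => funext fun g => map_add e _ _)
    (fun c _ d _ h => funext fun g => he (congrFun h g)) ?_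
    (fun c _ => funext fun g => key _ _)
  ext d
  constructor
  · rintro ⟨c, ⟨a1, ⟨U', hU', a2⟩, a3, a4⟩, rfl⟩
    have h3 : 2 ^ (j + 1) • (fun g => e (c g)) = 0 := funext fun g => tor _
    refine ⟨⟨⟨fun g hg => ?_, ⟨U', hU', fun g hg u hu => ?_⟩, fun g hg h hh => ?_,
      fun t ht => ?_⟩, _, h3⟩, h3⟩
    · beta_reduce
      rw [a1 g hg, map_zero]
    · beta_reduce
      rw [a2 g hg u hu]
    · beta_reduce
      rw [a3 g hg h hh, map_add, key]
    · beta_reduce
      rw [a4 t ht, map_zero]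
  · rintro ⟨⟨⟨a1, ⟨U', hU', a2⟩, a3, a4⟩, -⟩, h3⟩
    have h4 : ∀ g, ∃ y, e y = d g := fun g =>
      show d g ∈ e.range from hr ▸ congrFun (mem_tors.1 h3) g
    choose c hc using h4
    refine ⟨c, ⟨fun g hg => he ?_, ⟨U', hU', fun g hg u hu => he ?_⟩, fun g hg h hh => he ?_,
      fun t ht => he ?_⟩, funext hc⟩
    · rw [hc, a1 g hg, map_zero]
    · rw [hc, hc, a2 g hg u hu]
    · rw [map_add, key, hc, hc, hc, a3 g hg h hh]
    · rw [hc, a4 t ht, map_zero]

theorem hasTr_Z' (M : GM R x 𝒜) (L : LefAx T) (L2 : LefAx2 T) (hx : T.IsHom x) (hA : A.Nonempty)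
    (hunr : ∀ v ∉ A, mat R x (T.τ v) = 1) (j : ℕ) {n : ℕ} (hn : 0 < n) {w : W}
    (hw : T.deg w = n) :
    HasTr (2 ^ (j + 1)) (ZT M A ⊓ tors (W → 𝒜) (2 ^ (j + 1))) (conjOp M.a w⁻¹)
      (rO (j + 1) ((mat R x w⁻¹).trace -
        eul T A (fun v m => (mat R x (T.σ v ^ m)⁻¹).trace) n +
        lsum T A (fun v m => ∑ i ∈ Finset.range (T.Q v ^ m - 1),
          (mat R x (T.σ v ^ m * T.τ v ^ i)⁻¹).trace) n)) := by
  obtain ⟨U, hU, hm⟩ := adm_level (R := R) hx (j + 1)
  have h1 := CH2_map M j (trace_formula' (ρ := fun g => (mat R x g).map (rO (j + 1))) L L2 hU hA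
    (CZ_tau hunr hm) (fun g h => by rw [mat_mul hx, Matrix.map_mul]) (fun u hu => ((hm u).1 hu).2)
    hn hw)
  have h2 : lsum T A (fun v m => ∑ i ∈ Finset.range (T.Q v ^ m - 1),
      (mat R x (T.σ v ^ m * T.τ v ^ i)⁻¹).trace) n =
      ∑ v ∈ A.filter fun v => T.dg v ∣ n, (T.dg v : O) * ∑ i ∈ Finset.range (T.q ^ n - 1),
        (mat R x (T.σ v ^ (n / T.dg v) * T.τ v ^ i)⁻¹).trace := by
    refine Finset.sum_congr rfl fun v hv => ?_
    have h3 : T.Q v ^ (n / T.dg v) = T.q ^ n := by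
      rw [Pre.Q, ← pow_mul, Nat.mul_div_cancel' (Finset.mem_filter.1 hv).2]
    beta_reduce
    rw [h3]
  rw [h2, eul]
  simp only [map_add, map_sub, map_sum, map_mul, map_natCast,
    AddMonoidHom.map_trace (rO (j + 1))]
  exact h1

omit [Par] in
theorem CH2_quot {X : Type} [AddCommGroup X] (Z B : AddSubgroup X) :
    ∃ (H : Type) (_ : AddCommGroup H) (π : X → H), AddOn Z π ∧
      (∀ h, ∃ c ∈ Z, π c = h) ∧ (∀ c ∈ Z, π c = 0 ↔ c ∈ B) ∧
      ∀ f : X →+ X, (∀ c ∈ Z, f c ∈ Z) → (∀ c ∈ B, f c ∈ B) →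
        ∃ Φ : H →+ H, ∀ c ∈ Z, π (f c) = Φ (π c) := by
  refine ⟨Z ⧸ B.addSubgroupOf Z, inferInstance,
    fun c => if h : c ∈ Z then QuotientAddGroup.mk ⟨c, h⟩ else 0,
    fun c hc d hd => ?_, fun h => ?_, fun c hc => ?_, fun f hZ hB =>
    ⟨QuotientAddGroup.map _ _ ((f.comp Z.subtype).codRestrict Z fun c => hZ c c.2)
      fun c hc => hB c hc, fun c hc => ?_⟩⟩
  · simp only [dif_pos hc, dif_pos hd, dif_pos (add_mem hc hd)]
    rfl
  · obtain ⟨c, rfl⟩ := QuotientAddGroup.mk_surjective h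
    exact ⟨c, c.2, dif_pos c.2⟩
  · simp only [dif_pos hc]
    exact QuotientAddGroup.eq_zero_iff _
  · simp only [dif_pos hc, dif_pos (hZ c hc)]
    rfl

omit [Par] in
theorem CH2_mat {H : Type} [AddCommGroup H] {r : ℕ} (B : TateR r H)
    {m m' : Matrix (Fin r) (Fin r) O}
    (h : ∀ j t, B.pt j (m.mulVec t) = B.pt j (m'.mulVec t)) : m = m' := by
  refine Matrix.ext_of_mulVec_single fun i => sub_eq_zero.1 (VD.eq_zero fun j => ?_)
  rw [← B.ker, map_sub, h, sub_self]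

theorem exists_coh2 (M : GM R x 𝒜) (L : LefAx T) (L2 : LefAx2 T) (hx : T.IsHom x)
    (hA : A.Nonempty) (hunr : ∀ v ∉ A, mat R x (T.τ v) = 1) {φ : W} (hφ : T.deg φ = 1) :
    ∃ (r : ℕ) (D : Coh M A φ r) (Ψ' : Matrix (Fin r) (Fin r) O), D.Ψ * Ψ' = 1 ∧
      ∀ n, 0 < n → (Ψ' ^ n).trace = -eul T A (fun v m => (mat R x (T.σ v ^ m)⁻¹).trace) n +
        lsum T A (fun v m => ∑ i ∈ Finset.range (T.Q v ^ m - 1),
          (mat R x (T.σ v ^ m * T.τ v ^ i)⁻¹).trace) n := by
  obtain ⟨H, _, π, ha, hs, hk, hf⟩ := CH2_quot (ZT M A) (GM.GeoM_B M)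
  choose Φ hf using fun w => hf (conjOp M.a w) (fun c hc => conj_mem hx hc w)
    fun c hc => conj_memB hx hc w
  have hdeg : ∀ n : ℕ, T.deg (φ ^ n) = n := fun n => by
    induction n with
    | zero => rw [pow_zero, T.deg_one, Nat.cast_zero]
    | succ n ih => rw [pow_succ, T.deg_mul, ih, hφ, Nat.cast_succ]
  have him : ∀ j, π '' (ZT M A ⊓ tors (W → 𝒜) (2 ^ j) : AddSubgroup _) = tors H (2 ^ j) := by
    intro j
    ext h
    constructor
    · rintro ⟨c, hc, rfl⟩
      rw [SetLike.mem_coe, mem_tors, ← ha.nsmul hc.1, mem_tors.1 hc.2, ha.zero]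
    · intro hh
      obtain ⟨c, hc, rfl⟩ := hs h
      obtain ⟨d, hd, h1, h2⟩ := CH_norm M hx hunr hc (j := j)
        ((hk _ (nsmul_mem hc _)).1 (by rw [ha.nsmul hc]; exact hh))
      exact ⟨c - d, ⟨(ZT M A).sub_mem hc hd, h2⟩, by rw [ha.sub hc hd, (hk d hd).2 h1, sub_zero]⟩
  have hfr := fun j => (hasTr_Z M L hx hA hunr j one_pos (hdeg 1)).choose_spec.1.fr
  obtain ⟨r, ⟨B⟩⟩ := exists_tateR (A := H) (fun h => by
    obtain ⟨c, hc, rfl⟩ := hs h
    obtain ⟨j, hj⟩ := hc.2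
    obtain ⟨y, hy, e⟩ := (hfr j).div c ⟨hc, GM.GeoM_le hj j.le_succ⟩ hj
    exact ⟨π y, by rw [← ha.nsmul hy.1, ← e]⟩) (him 1 ▸ (hfr 0).finite.image π)
  choose Ψ hΨ using fun w => B.exists_mat (Φ w)
  choose cc hcc e using fun j t => hs (B.pt j t)
  have key : ∀ {c d}, c ∈ ZT M A → d ∈ ZT M A → π c = π d → M.IsB (c - d) := fun hc hd h =>
    (hk _ (sub_mem hc hd)).1 (by rw [ha.sub hc hd, h, sub_self])
  have m1 : Ψ 1 = 1 := CH2_mat B fun j t => by
    have := (hk _ (sub_mem (conj_mem hx (hcc j t) _) (hcc j t))).2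
      (conj_sub hx (hcc j t) T.deg_one)
    rw [ha.sub (conj_mem hx (hcc j t) _) (hcc j t), sub_eq_zero, hf _ _ (hcc j t), e, hΨ] at this
    rw [this, Matrix.one_mulVec]
  have m2 : ∀ w w', Ψ (w * w') = Ψ w * Ψ w' := fun w w' => CH2_mat B fun j t => by
    rw [← Matrix.mulVec_mulVec, ← hΨ, ← hΨ, ← hΨ, ← e, ← hf _ _ (hcc j t), ← hf _ _ (hcc j t),
      ← hf _ _ (conj_mem hx (hcc j t) _), conj_mul hx (hcc j t)]
  have m3 : ∀ w (n : ℕ), Ψ (w ^ n) = Ψ w ^ n := fun w n => map_pow (⟨⟨Ψ, m1⟩, m2⟩ : W →* _) w n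
  have h5 : ∀ j w t, HasTr (2 ^ (j + 1)) (ZT M A ⊓ tors (W → 𝒜) (2 ^ (j + 1))) (conjOp M.a w) t →
      rO (j + 1) (Ψ w).trace = t - rO (j + 1) (mat R x w).trace := fun j w t h3 =>
    (B.hasTr (hΨ w (j + 1))).unique ((hasTr_B M hx hunr (j + 1) w).quot h3
      (fun c hc d hd => ha c hc.1 d hd.1)
      (fun c => ⟨fun hc => ⟨hc.1, (hk c hc.1.1).2 hc.2⟩, fun hc => ⟨hc.1, (hk c hc.1.1).1 hc.2⟩⟩)
      (him _) fun c hc => hf w c hc.1)
  refine ⟨r, ⟨Ψ φ, cc, hcc, fun j s t => key (hcc _ _) (add_mem (hcc _ _) (hcc _ _)) ?_,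
    fun j t => key (nsmul_mem (hcc _ _) _) (hcc _ _) ?_,
    fun j t => (hk _ (hcc j t)).symm.trans ?_,
    fun j t => key (conj_mem hx (hcc _ _) φ) (hcc _ _) ?_, fun n hn => eq_of_rO fun j => ?_⟩,
    Ψ φ⁻¹, ?_, fun n hn => eq_of_rO fun j => ?_⟩
  · rw [ha _ (hcc _ _) _ (hcc _ _), e, e, e, map_add]
  · rw [ha.nsmul (hcc _ _), e, e, B.two]
  · rw [e, B.ker]
  · rw [hf _ _ (hcc _ _), e, e, hΨ]
  · obtain ⟨t, h3, h4⟩ := hasTr_Z M L hx hA hunr j hn (hdeg n)
    simp only [map_mul, map_pow, map_natCast, map_neg, map_sum]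
    rw [← m3, h5 j _ t h3, mul_sub, h4]
    ring
  · exact (m2 _ _).symm.trans (by rw [mul_inv_cancel, m1])
  · rw [← m3, inv_pow, h5 j _ _ (hasTr_Z' M L L2 hx hA hunr j hn (hdeg n)), ← map_sub]
    congr 1
    ring

end Pool.Agent.Hyp
end
end

-- merged part: Pool.Agent.Work.MP_60d5ce_nt.Hy.LocMat
section
/-!
# A local matrix identity  (task HY LocMat)

Put `N = B - 1`, `S' = (∑ i < Q, B ^ i) * S`; then `S * N = N * S'` (`mul_neg_geom_sum`, `Commute.geom_sum`), so `aeval S p * N = N * aeval S' p`.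
* `LocMat_surj`: over `K = ℚ_[2]` the map `(a, b) ↦ (S - Q) a + N b` is onto: otherwise a nonzero linear form (`Submodule.exists_dual_map_eq_bot_of_lt_top`, `exists_ee` over `K`) `ee t` kills its range;
  `ee t (B b) = ee t b = ee (B t) (B b)` and `ee t (S b) = Q * ee t b = ee (S t) (S b)`; `B` and `S` are injective (`eq_zero_of_ee'`), so onto; hence `B t = t`, `S t = t`; clear denominators
  (`IsLocalization.exist_integer_multiples_of_finite`).  The hypotheses on `ee` pass to `K` by evaluating on basis vectors, or by clearing denominators (`ee_map`).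
* `loc_mat`: by induction `κ₀ ^ m • 1 = (S - Q) ^ m * X + N * Y`.  Write `charpoly S = (X - C Q) ^ m * p`, `p.eval Q ≠ 0` (`Polynomial.exists_eq_pow_rootMultiplicity_mul_and_not_dvd`),
  `p = (X - C Q) * c + C (p.eval Q)`; `Matrix.aeval_self_charpoly`.  Then `κ = κ₀ ^ m * p.eval Q`, `C = -κ₀ ^ m • aeval S c`, `C' = -κ₀ ^ m • aeval S' c`, `D = aeval S' p * Y`.
-/

namespace Pool.Agent.Hyp

open Pool.Agent.Quad

variable [Par]

omit [Par] in
theorem LocMat_right {m n : Type} [Fintype m] [Fintype n] [DecidableEq m] [DecidableEq n]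
    (M : Matrix m n O) (h : ∀ v, M.vecMul v = 0 → v = 0) :
    ∃ (κ : O) (Z : Matrix n m O), κ ≠ 0 ∧ κ • (1 : Matrix m m O) = M * Z := by
  have inj : Function.Injective (algebraMap O ℚ_[2]) := IsFractionRing.injective _ _
  have a1 : LinearMap.ker (M.map (algebraMap O ℚ_[2])).vecMulLinear = ⊥ := by
    refine LinearMap.ker_eq_bot'.2 fun v hv => ?_
    obtain ⟨c, hc⟩ := IsLocalization.exist_integer_multiples_of_finite (nonZeroDivisors O) v
    choose w hw using hc
    have a2 : w = 0 := h w (funext fun j => inj (by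
      have a3 := congrFun hv j
      simp only [Matrix.vecMulLinear_apply, Matrix.vecMul, dotProduct, Matrix.map_apply,
        Pi.zero_apply] at a3
      simp only [Matrix.vecMul, dotProduct, map_sum, map_mul, hw, Pi.zero_apply, map_zero,
        smul_mul_assoc, ← Finset.smul_sum, a3, smul_zero]))
    funext i
    have a4 := hw i
    rw [a2, Pi.zero_apply, map_zero, Algebra.smul_def] at a4
    exact (mul_eq_zero.1 a4.symm).resolve_left
      ((map_ne_zero_iff _ inj).2 (nonZeroDivisors.coe_ne_zero c))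
  obtain ⟨g, hg⟩ := LinearMap.exists_leftInverse_of_injective _ a1
  obtain ⟨c, hc⟩ := IsLocalization.exist_integer_multiples_of_finite (nonZeroDivisors O)
    fun x : n × m => g (Pi.single x.1 1) x.2
  choose Z hZ using hc
  refine ⟨c, Matrix.of fun j i => Z (j, i), nonZeroDivisors.coe_ne_zero c, ?_⟩
  ext1 i l
  refine inj ?_
  have a5 := congrFun (LinearMap.congr_fun hg (Pi.single i 1)) l
  rw [LinearMap.comp_apply, Matrix.vecMulLinear_apply, Matrix.single_one_vecMul,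
    pi_eq_sum_univ' (Matrix.row _ i), map_sum, Finset.sum_apply] at a5
  simp only [map_smul, Pi.smul_apply, smul_eq_mul, Matrix.row, Matrix.map_apply,
    LinearMap.id_apply] at a5
  simp only [Matrix.mul_apply, Matrix.of_apply, map_sum, map_mul, hZ, mul_smul_comm,
    ← Finset.smul_sum, a5]
  rw [Matrix.smul_apply, Matrix.one_apply, Pi.single_apply, Algebra.smul_def (c : O) (ite _ _ _ : ℚ_[2])]
  by_cases k : i = l
  · simp [k]
  · simp [k, Ne.symm k]

theorem LocMat_orth {M : Matrix Ix Ix O} {q : O} (hq : q ≠ 0)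
    (hM : ∀ a b, ee (M.mulVec a) (M.mulVec b) = q * ee a b) {w : V}
    (hw : ∀ b, ee w (M.mulVec b) = 0) : w = 0 := by
  have a1 : M.det ≠ 0 := fun h => by
    obtain ⟨v, hv, h0⟩ := Matrix.exists_mulVec_eq_zero_iff.2 h
    refine hv (eq_zero_of_ee' fun b => (mul_eq_zero.1 ?_).resolve_left hq)
    rw [← hM, h0, ee_zero_left]
  refine eq_zero_of_ee' fun b => (mul_eq_zero.1 ?_).resolve_left a1
  rw [← ee_smul_right, ← hw (M.adjugate.mulVec b), Matrix.mulVec_mulVec, Matrix.mul_adjugate,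
    Matrix.smul_mulVec, Matrix.one_mulVec]

omit [Par] in
theorem LocMat_semi {A : Type} [Ring A] [Algebra O A] {S S' N : A} (h : S * N = N * S')
    (p : Polynomial O) : Polynomial.aeval S p * N = N * Polynomial.aeval S' p := by
  induction p using Polynomial.induction_on' with
  | add p q hp hq => rw [map_add, map_add, add_mul, mul_add, hp, hq]
  | monomial n a =>
    rw [Polynomial.aeval_monomial, Polynomial.aeval_monomial, ← Algebra.smul_def,
      ← Algebra.smul_def, smul_mul_assoc, mul_smul_comm, (SemiconjBy.pow_right h.symm n).eq]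

theorem LocMat_surj {S B : Matrix Ix Ix O} {Q : ℕ} (hQ : Q ≠ 0)
    (hS : ∀ a b, ee (S.mulVec a) (S.mulVec b) = Q * ee a b)
    (hB : ∀ a b, ee (B.mulVec a) (B.mulVec b) = ee a b)
    (h1 : ∀ t, S.mulVec t = t → B.mulVec t = t → t = 0) :
    ∃ (κ : O) (X Y : Matrix Ix Ix O), κ ≠ 0 ∧
      κ • (1 : Matrix Ix Ix O) = (S - (Q : O) • 1) * X + (B - 1) * Y := by
  obtain ⟨κ, Z, h0, hZ⟩ := LocMat_right (Matrix.fromCols (S - (Q : O) • 1) (B - 1)) fun v hv => by
    rw [Matrix.vecMul_fromCols] at hv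
    replace hv : Matrix.vecMul v (S - (Q : O) • 1) = 0 ∧ Matrix.vecMul v (B - 1) = 0 :=
      ⟨funext fun j => congrFun hv (Sum.inl j), funext fun j => congrFun hv (Sum.inr j)⟩
    obtain ⟨t, ht⟩ := exists_ee (dotProductBilin O O v)
    have a1 : ∀ b, ee t b = v ⬝ᵥ b := fun b => (ht b).symm
    have a2 : ∀ b, ee t (S.mulVec b) = Q * ee t b := fun b => by
      have a3 := Matrix.dotProduct_mulVec v (S - (Q : O) • 1) b
      rw [hv.1, zero_dotProduct, Matrix.sub_mulVec, Matrix.smul_mulVec, Matrix.one_mulVec, ← a1,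
        ee_sub_right, ee_smul_right] at a3
      exact sub_eq_zero.1 a3
    have a4 : ∀ b, ee t (B.mulVec b) = ee t b := fun b => by
      have a3 := Matrix.dotProduct_mulVec v (B - 1) b
      rw [hv.2, zero_dotProduct, Matrix.sub_mulVec, Matrix.one_mulVec, ← a1, ee_sub_right] at a3
      exact sub_eq_zero.1 a3
    have a5 : t = 0 := h1 t
      (sub_eq_zero.1 (LocMat_orth (Nat.cast_ne_zero.2 hQ) hS fun b => by
        rw [ee_sub_left, hS, a2, sub_self]))
      (sub_eq_zero.1 (LocMat_orth one_ne_zero (fun a b => by rw [hB, one_mul]) fun b => by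
        rw [ee_sub_left, hB, a4, sub_self]))
    exact dotProduct_eq_zero v fun b => by rw [← a1, a5, ee_zero_left]
  refine ⟨κ, Z.toRows₁, Z.toRows₂, h0, ?_⟩
  rw [hZ, ← Matrix.fromCols_mul_fromRows, Matrix.fromRows_toRows]

theorem loc_mat {S B : Matrix Ix Ix O} {Q : ℕ} (hQ : Q ≠ 0)
    (hS : ∀ a b, ee (S.mulVec a) (S.mulVec b) = Q * ee a b)
    (hB : ∀ a b, ee (B.mulVec a) (B.mulVec b) = ee a b) (hrel : S * B = B ^ Q * S)
    (h1 : ∀ t, S.mulVec t = t → B.mulVec t = t → t = 0) :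
    ∃ (κ : O) (C C' D : Matrix Ix Ix O), κ ≠ 0 ∧
      κ • (1 : Matrix Ix Ix O) = C * (S - (Q : O) • 1) + (B - 1) * D ∧
        C * (B - 1) = (B - 1) * C' := by
  obtain ⟨κ, X, Y, h0, hκ⟩ := LocMat_surj hQ hS hB h1
  have hN : S * (B - 1) = (B - 1) * ((∑ i ∈ Finset.range Q, B ^ i) * S) := by
    rw [← mul_assoc, mul_geom_sum, mul_sub, sub_mul, hrel, mul_one, one_mul]
  generalize (∑ i ∈ Finset.range Q, B ^ i) * S = S' at hN
  generalize B - 1 = N at *
  have hA : Polynomial.aeval S (Polynomial.X - Polynomial.C (Q : O)) = S - (Q : O) • 1 := by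
    rw [map_sub, Polynomial.aeval_X, Polynomial.aeval_C, Algebra.algebraMap_eq_smul_one]
  generalize S - (Q : O) • 1 = A at *
  have a1 : ∀ m : ℕ, ∃ X' Y', κ ^ m • (1 : Matrix Ix Ix O) = A ^ m * X' + N * Y' := fun m => by
    induction m with
    | zero => exact ⟨1, 0, by simp⟩
    | succ m ih =>
      obtain ⟨X', Y', h⟩ := ih
      have a2 := LocMat_semi hN ((Polynomial.X - Polynomial.C (Q : O)) ^ m)
      rw [map_pow, hA] at a2
      refine ⟨X * X', Polynomial.aeval S' ((Polynomial.X - Polynomial.C (Q : O)) ^ m) * Y * X' +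
        κ • Y', ?_⟩
      have a3 : κ • (A ^ m * X') = A ^ m * ((κ • (1 : Matrix Ix Ix O)) * X') := by simp
      rw [pow_succ', mul_smul, h, smul_add, a3, hκ, pow_succ, mul_add N, mul_assoc _ Y,
        ← mul_assoc N, ← a2, mul_smul_comm]
      noncomm_ring
  obtain ⟨p, hp, hd⟩ := Polynomial.exists_eq_pow_rootMultiplicity_mul_and_not_dvd S.charpoly
    S.charpoly_monic.ne_zero (Q : O)
  generalize Polynomial.rootMultiplicity (Q : O) S.charpoly = m at hp
  obtain ⟨c, hc⟩ := Polynomial.X_sub_C_dvd_sub_C_eval (p := p) (a := (Q : O))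
  obtain ⟨X', Y', h⟩ := a1 m
  have b1 : Polynomial.aeval S p * A ^ m = 0 := by
    rw [← hA, ← map_pow, ← map_mul, mul_comm p, ← hp, Matrix.aeval_self_charpoly]
  have b2 : p.eval (Q : O) • (1 : Matrix Ix Ix O) =
      Polynomial.aeval S p - Polynomial.aeval S c * A := by
    rw [← hA, ← map_mul, mul_comm c, ← hc, map_sub, Polynomial.aeval_C,
      Algebra.algebraMap_eq_smul_one, sub_sub_cancel]
  have b3 : κ ^ m • Polynomial.aeval S p = N * (Polynomial.aeval S' p * Y') := by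
    rw [← mul_assoc, ← LocMat_semi hN, ← mul_one (Polynomial.aeval S p), ← mul_smul_comm, h,
      mul_add, ← mul_assoc, b1, zero_mul, zero_add, mul_one, mul_assoc]
  refine ⟨κ ^ m * p.eval (Q : O), -(κ ^ m • Polynomial.aeval S c),
    -(κ ^ m • Polynomial.aeval S' c), Polynomial.aeval S' p * Y',
    mul_ne_zero (pow_ne_zero _ h0) fun k => hd (Polynomial.dvd_iff_isRoot.2 k), ?_, ?_⟩
  · rw [mul_smul, b2, smul_sub, b3, neg_mul, smul_mul_assoc, sub_eq_neg_add]
  · rw [neg_mul, mul_neg, smul_mul_assoc, mul_smul_comm, LocMat_semi hN]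

end Pool.Agent.Hyp
end

-- merged part: Pool.Agent.Work.MP_60d5ce_nt.Hy.CLoc
section
/-!
# Classes killed by a power of `φ - 1` satisfy the local conditions  (task LB CLoc)

* `pow_kill`: pass to the ring `AddMonoid.End (Z ⧸ B)`, where `Φ` becomes a homomorphism depending only on the degree; `x ^ n - 1 = (∑ x ^ i) (x - 1)`.  (Or argue with congruences modulo `B`.)
* `loc_step`: with `c' = conjOp σ c`: `c' (σ τ σ⁻¹) = a σ (c τ)`, `τ ^ Q = σ τ σ⁻¹ u` (`T.rel`, normality), `c' (τ ^ Q) = ∑ i < Q, (a τ)^[i] (c' τ) ≡ Q • c' τ` modulo `NB`.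
* `loc_unif`: induction on `m` for `D = conjOp σ - 1`: `(S - Q) (c τ) ≡ Q • (D c) τ`; `loc_mat` in the coordinates `M.pt`; `κ = 2 ^ b * unit`.  `det (S - 1) = 0` and `B = 1` contradict `hloc`
  (`Matrix.exists_mulVec_eq_zero_iff`).
* `zg_of_nu`: apply `loc_unif` to `conjOp g⁻¹ c` (`pow_kill`), `c (g τ g⁻¹) = a g ((conjOp g⁻¹ c) τ)`; one `a` for the finitely many `v ∈ A`; for `v ∉ A` take `y = 0`.
-/

namespace Pool.Agent.Hyp

open Pool.Agent.Lef

variable [Par]

open scoped Classical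
open Pool.Agent.Quad

variable {W P : Type} [Group W] {T : Tame W P}

theorem CLoc_sub {X : Type} [AddCommGroup X] {B : AddSubgroup X} (f : X →+ X)
    (h : ∀ c ∈ B, f c ∈ B) (m : ℕ) :
    ∃ L : AddSubgroup X, B ≤ L ∧ ∀ y, y ∈ L ↔ (fun c => f c - c)^[m] y ∈ B := by
  induction m with
  | zero => exact ⟨B, le_rfl, fun _ => Iff.rfl⟩
  | succ m ih =>
    obtain ⟨L, h1, h2⟩ := ih
    exact ⟨L.comap (f - AddMonoidHom.id X), fun y hy => h1 (sub_mem (h y hy) hy),
      fun y => h2 (f y - y)⟩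

theorem pow_kill {X : Type} [AddCommGroup X] {Z B : AddSubgroup X} {Φ : W → X →+ X}
    (hZ : ∀ w, ∀ c ∈ Z, Φ w c ∈ Z) (hB : ∀ w, ∀ c ∈ B, Φ w c ∈ B)
    (hm : ∀ w w', ∀ c ∈ Z, Φ (w * w') c = Φ w (Φ w' c))
    (h0 : ∀ h, T.deg h = 0 → ∀ c ∈ Z, Φ h c - c ∈ B) {φ : W} (hφ : T.deg φ = 1) {m : ℕ} {c : X}
    (hc : c ∈ Z) (h : (fun c => Φ φ c - c)^[m] c ∈ B) {w : W} {n : ℕ} (hw : T.deg w = n) (g : W) :
    (fun c => Φ w c - c)^[m] (Φ g c) ∈ B := by
  have hd : ∀ i : ℕ, T.deg (φ ^ i) = i := fun i => by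
    induction i with
    | zero => rw [pow_zero, T.deg_one, Nat.cast_zero]
    | succ i ih => rw [pow_succ, T.deg_mul, ih, hφ, Nat.cast_succ]
  induction m generalizing c g with
  | zero => exact hB g c h
  | succ m ih =>
    obtain ⟨L, h1, h2⟩ := CLoc_sub (Φ w) (hB w) m
    have h3 : ∀ i : ℕ, Φ (g * φ ^ i) c - Φ g c ∈ L := fun i => by
      induction i with
      | zero => rw [pow_zero, mul_one, sub_self]; exact zero_mem _
      | succ i ih' =>
        have h4 := (h2 _).2 (ih (sub_mem (hZ φ c hc) hc) h (g * φ ^ i))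
        rw [map_sub, ← hm _ _ c hc, mul_assoc, ← pow_succ] at h4
        simpa using add_mem h4 ih'
    have h5 := hB (g * φ ^ n) _ (h0 ((g * φ ^ n)⁻¹ * (w * g)) (by
      rw [T.deg_mul, T.deg_inv, T.deg_mul, T.deg_mul, hd, hw]
      ring) c hc)
    rw [map_sub, ← hm _ _ c hc, mul_inv_cancel_left, hm _ _ c hc] at h5
    refine (h2 (Φ w (Φ g c) - Φ g c)).1 ?_
    simpa using add_mem (h1 h5) (h3 n)

variable {R : Rep T} {x : W → F2} {𝒜 : Type} [AddCommGroup 𝒜] {A : Finset P} {M : GM R x 𝒜}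

variable (M) in
/-- local coboundaries -/
def NB (g : W) : AddSubgroup 𝒜 where
  carrier := {z | ∃ y, Tor2 y ∧ z = M.a g y - y}
  zero_mem' := ⟨0, GM.GeoM_zero, by simp⟩
  add_mem' := by
    rintro _ _ ⟨y, hy, rfl⟩ ⟨z, hz, rfl⟩
    exact ⟨y + z, GM.GeoM_add hy hz, by rw [map_add, add_sub_add_comm]⟩
  neg_mem' := by
    rintro _ ⟨y, hy, rfl⟩
    exact ⟨-y, GM.GeoM_neg hy, by rw [map_neg, neg_sub', sub_neg_eq_add]⟩

theorem CLoc_one (hx : T.IsHom x) {y : 𝒜} (hy : Tor2 y) : M.a 1 y = y := by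
  obtain ⟨j, hj⟩ := hy
  obtain ⟨t, rfl⟩ := M.surj j y hj
  rw [M.a_pt, act_eq, mat_one hx, Matrix.one_mulVec]

theorem CLoc_tor {c : W → 𝒜} (hc : c ∈ ZT M A) (g : W) : Tor2 (c g) :=
  hc.2.imp fun _ h => congrFun h g

theorem CLoc_pow (hx : T.IsHom x) {c : W → 𝒜} (hc : c ∈ ZT M A) {g : W} (hg : g ∈ T.G0) (n : ℕ) :
    c (g ^ n) - n • c g ∈ NB M g := by
  induction n with
  | zero =>
    have h := hc.1.2.2.1 1 (one_mem _) 1 (one_mem _)
    rw [mul_one, CLoc_one hx (CLoc_tor hc 1), left_eq_add] at h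
    rw [pow_zero, h, zero_smul, sub_zero]
    exact zero_mem _
  | succ n ih =>
    have h := add_mem (show M.a g (c (g ^ n)) - c (g ^ n) ∈ NB M g from
      ⟨_, CLoc_tor hc _, rfl⟩) ih
    rw [pow_succ', hc.1.2.2.1 g hg _ (pow_mem hg n), succ_nsmul]
    convert h using 1
    abel

theorem loc_step (hx : T.IsHom x) {c : W → 𝒜} (hc : c ∈ ZT M A) (v : P) :
    M.a (T.σ v) (c (T.τ v)) - T.Q v • conjOp M.a (T.σ v) c (T.τ v) ∈ NB M (T.τ v) := by
  have h1 := conj_mem hx hc (T.σ v)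
  obtain ⟨U, hU, h2⟩ := h1.1.2.1
  have h3 := h2 (T.σ v * T.τ v * (T.σ v)⁻¹) (show T.deg _ = 0 by
    rw [T.deg_mul, T.deg_mul, T.deg_inv, T.deg_τ]
    ring) _ ((T.adm_normal U hU).conj_mem _ (T.rel U hU v) (T.σ v))
  have e1 : T.σ v * T.τ v * (T.σ v)⁻¹ * (T.σ v * ((T.σ v * T.τ v)⁻¹ * (T.τ v ^ T.Q v * T.σ v)) *
      (T.σ v)⁻¹) = T.τ v ^ T.Q v := by group
  have e2 : conjOp M.a (T.σ v) c (T.σ v * T.τ v * (T.σ v)⁻¹) = M.a (T.σ v) (c (T.τ v)) :=
    congrArg (fun g => M.a (T.σ v) (c g)) (by group)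
  rw [e1, e2] at h3
  rw [← h3]
  exact CLoc_pow hx h1 (T.deg_τ v) _

theorem CLoc_key (hx : T.IsHom x) {v : P}
    (hloc : ∀ t, R.act x (T.σ v) t = t → R.act x (T.τ v) t = t → t = 0) :
    ∃ b : ℕ, ∀ y, Tor2 y → M.a (T.σ v) y - T.Q v • y ∈ NB M (T.τ v) → 2 ^ b • y ∈ NB M (T.τ v) := by
  obtain ⟨κ, C, C', D, h0, h1, h2⟩ := loc_mat (S := mat R x (T.σ v)) (B := mat R x (T.τ v))
    (Q := T.Q v) (by have := Tame.one_lt_Q (T := T) v; omega)
    (fun a b => by rw [mat_symp, Tame.cq_σ])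
    (fun a b => by rw [mat_symp, Tame.cq_of_deg_zero (T.deg_τ v), one_mul]) (mat_rel hx v)
    fun t h k => hloc t (by rw [act_eq, h]) (by rw [act_eq, k])
  obtain ⟨u, b, rfl⟩ : ∃ (u : Oˣ) (b : ℕ), κ = u * 2 ^ b := ⟨_, _, PadicInt.unitCoeff_spec h0⟩
  refine ⟨b, ?_⟩
  rintro y ⟨i, hi⟩ ⟨z, ⟨j, hj⟩, h3⟩
  obtain ⟨t, rfl⟩ := M.surj (i + j) y (GM.GeoM_le hi le_self_add)
  obtain ⟨s, rfl⟩ := M.surj (i + j) z (GM.GeoM_le hj le_add_self)
  rw [M.a_pt, M.a_pt, act_eq, act_eq, ← map_nsmul, ← map_sub, ← map_sub, M.pt_eq_iff] at h3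
  have h4 := (VD.mulVec (a := (mat R x (T.σ v)).mulVec t - T.Q v • t -
    ((mat R x (T.τ v)).mulVec s - s)) h3 C).smul ((u⁻¹ : Oˣ) : O)
  refine ⟨M.pt (i + j) (((u⁻¹ : Oˣ) : O) • (C'.mulVec s + D.mulVec t)), ⟨_, M.pow_smul_pt _ _⟩, ?_⟩
  rw [M.a_pt, act_eq, ← map_nsmul, ← map_sub, ← sub_eq_zero, ← map_sub, M.ker]
  have e1 := congrArg (fun m : Matrix Ix Ix O => m.mulVec t) h1
  have e2 := congrArg (fun m : Matrix Ix Ix O => m.mulVec s) h2
  simp only [Matrix.add_mulVec, Matrix.sub_mulVec, Matrix.smul_mulVec, Matrix.one_mulVec,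
    ← Matrix.mulVec_mulVec, Matrix.mulVec_sub, Matrix.mulVec_smul] at e1 e2
  have e3 : 2 ^ b • t = ((u⁻¹ : Oˣ) : O) • (((u : O) * 2 ^ b) • t) := by
    rw [smul_smul, Units.inv_mul_cancel_left, ← Nat.cast_smul_eq_nsmul O, Nat.cast_pow,
      Nat.cast_ofNat]
  refine (congrArg (VD (i + j)) ?_).mpr h4
  rw [e3, e1, ← Nat.cast_smul_eq_nsmul O]
  simp only [Matrix.mulVec_sub, Matrix.mulVec_smul, Matrix.mulVec_add, e2]
  module

theorem loc_unif (hx : T.IsHom x) {v : P}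
    (hloc : ∀ t, R.act x (T.σ v) t = t → R.act x (T.τ v) t = t → t = 0) (m : ℕ) :
    ∃ a : ℕ, ∀ c ∈ ZT M A, M.IsB ((fun c => conjOp M.a (T.σ v) c - c)^[m] c) →
      2 ^ a • c (T.τ v) ∈ NB M (T.τ v) := by
  obtain ⟨b, hb⟩ := CLoc_key (M := M) hx hloc
  induction m with
  | zero =>
    refine ⟨0, fun c _ ⟨y, hy, h⟩ => ⟨y, hy, ?_⟩⟩
    rw [pow_zero, one_smul]
    exact h _ (T.deg_τ v)
  | succ m ih =>
    obtain ⟨a, ha⟩ := ih
    refine ⟨b + a, fun c hc h => ?_⟩
    have h1 := ha _ (sub_mem (conj_mem hx hc (T.σ v)) hc) h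
    have h2 := add_mem (nsmul_mem (loc_step hx hc v) (2 ^ a)) (nsmul_mem h1 (T.Q v))
    rw [pow_add, mul_smul]
    refine hb _ (CLoc_tor (nsmul_mem hc (2 ^ a)) (T.τ v)) ?_
    convert h2 using 1
    rw [map_nsmul, Pi.sub_apply]
    module

theorem zg_of_nu (hx : T.IsHom x)
    (hloc : ∀ v ∈ A, ∀ t, R.act x (T.σ v) t = t → R.act x (T.τ v) t = t → t = 0) {φ : W}
    (hφ : T.deg φ = 1) (m : ℕ) :
    ∃ a : ℕ, ∀ c ∈ ZT M A, M.IsB ((M.nu φ)^[m] c) → M.ZG (2 ^ a • c) := by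
  choose a ha using fun v : A => loc_unif (M := M) (A := A) hx (hloc v v.2) m
  refine ⟨Finset.univ.sup a, fun c hc h => ?_⟩
  obtain ⟨⟨-, ⟨U, hU, h1⟩, h2, h3⟩, j, hj⟩ := nsmul_mem hc (2 ^ Finset.univ.sup a)
  refine ⟨⟨j, fun g _ => congrFun hj g⟩, ⟨U, hU, h1⟩, fun g k hg hk => h2 g hg k hk, fun v g => ?_⟩
  by_cases hv : v ∈ A
  swap
  · exact ⟨0, GM.GeoM_zero, by rw [h3 _ ⟨v, hv, g, rfl⟩, map_zero, sub_zero]⟩
  have h4 := ha ⟨v, hv⟩ _ (conj_mem hx hc g⁻¹) (pow_kill (T := T) (Z := ZT M A)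
    (B := GM.GeoM_B M) (Φ := conjOp M.a) (fun w c hc => conj_mem hx hc w)
    (fun w c hc => conj_memB hx hc w) (fun w w' c hc => conj_mul hx hc w w')
    (fun k hk c hc => conj_sub hx hc hk) hφ hc h (T.deg_σ v) g⁻¹)
  obtain ⟨k, hk⟩ := Nat.exists_eq_add_of_le' (Finset.le_sup (f := a) (Finset.mem_univ ⟨v, hv⟩))
  obtain ⟨y, hy, h5⟩ := nsmul_mem h4 (2 ^ k)
  rw [← mul_smul, ← pow_add, ← hk] at h5
  refine ⟨M.a g y, GM.GeoM_a g hy, ?_⟩
  have h6 : M.a g (conjOp M.a g⁻¹ c (T.τ v)) = c (g * T.τ v * g⁻¹) := by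
    change M.a g (M.a g⁻¹ (c (g⁻¹⁻¹ * T.τ v * g⁻¹))) = _
    rw [← GM.GeoM_mul hx _ _ (CLoc_tor hc _), mul_inv_cancel, CLoc_one hx (CLoc_tor hc _), inv_inv]
  rw [Pi.smul_apply, ← h6, ← map_nsmul, h5, map_sub, ← GM.GeoM_mul hx _ _ hy,
    ← GM.GeoM_mul hx _ _ hy, inv_mul_cancel_right]

end Pool.Agent.Hyp
end

-- merged part: Pool.Agent.Work.MP_60d5ce_nt.Bs.HGood
section
-- merged part: Pool.Agent.Work.MP_60d5ce_nt.Bs.MCls
section
/-!
# The class in the Picard group of an invertible ideal of a domain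
-/

namespace Pool.Agent.Bs

open CommRing TensorProduct

set_option linter.unusedSectionVars false

variable {R S : Type} [CommRing R] [CommRing S]

/-- `c` is the class of the nonzero ideal `I`. -/
def Cls (I : Ideal R) (c : Pic R) : Prop := I ≠ ⊥ ∧ ∃ f : c →ₗ[R] R, LinearMap.range f = I

open Classical in
/-- The class of the ideal `I` (`1` if `I` is not invertible). -/
noncomputable def cls (I : Ideal R) : Pic R := if h : ∃ c, Cls I c then h.choose else 1

theorem cls_spec {I : Ideal R} (h : ∃ c, Cls I c) : Cls I (cls I) := by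
  rw [cls, dif_pos h]; exact h.choose_spec

theorem Cls.map (φ : R →+* S) {I : Ideal R} {c : Pic R} (h : Cls I c) (h0 : I.map φ ≠ ⊥) :
    Cls (I.map φ) (Pic.mapRingHom φ c) := by
  obtain ⟨-, f, rfl⟩ := h
  refine ⟨h0, ?_⟩
  let _ := φ.toAlgebra
  let e : Pic.mapRingHom φ c ≃ₗ[S] S ⊗[R] c := Pic.mk.linearEquiv S _
  refine ⟨((AlgebraTensorModule.rid R S S).toLinearMap ∘ₗ f.baseChange S) ∘ₗ e.toLinearMap, ?_⟩
  rw [LinearMap.range_comp_of_range_eq_top _ e.range]
  apply le_antisymm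
  · rintro _ ⟨x, rfl⟩
    induction x with
    | zero => simp
    | add x y hx hy => rw [map_add]; exact add_mem hx hy
    | tmul s m =>
      have : ((AlgebraTensorModule.rid R S S).toLinearMap ∘ₗ f.baseChange S) (s ⊗ₜ m)
          = s * φ (f m) := by
        simp [Algebra.smul_def, mul_comm]; rfl
      rw [this]
      exact Ideal.mul_mem_left _ _ (Ideal.mem_map_of_mem _ ⟨m, rfl⟩)
  · rw [Ideal.map_le_iff_le_comap]
    rintro _ ⟨m, rfl⟩
    refine ⟨1 ⊗ₜ m, ?_⟩
    simp [Algebra.smul_def]; rfl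

variable [IsDomain R]

theorem inj_of_ne_zero {M : Type} [AddCommGroup M] [Module R M] [Module.Invertible R M]
    (f : M →ₗ[R] R) (h : LinearMap.range f ≠ ⊥) : Function.Injective f := by
  rw [injective_iff_map_eq_zero]
  intro m hm
  obtain ⟨_, ⟨n, rfl⟩, hn⟩ := Submodule.exists_mem_ne_zero_of_ne_bot h
  have h1 := congrArg (fun z => TensorProduct.lid R M (f.rTensor M z))
    (Module.Invertible.tmul_comm (R := R) (m₁ := m) (m₂ := n))
  simp only [LinearMap.rTensor_tmul, lid_tmul, hm, zero_smul] at h1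
  exact (smul_eq_zero.mp h1.symm).resolve_left hn

theorem Cls.equiv {I : Ideal R} {c : Pic R} (h : Cls I c) : Nonempty (c ≃ₗ[R] I) := by
  obtain ⟨h0, f, rfl⟩ := h
  exact ⟨LinearEquiv.ofInjective f (inj_of_ne_zero f h0)⟩

theorem Cls.unique {I : Ideal R} {c d : Pic R} (h : Cls I c) (h' : Cls I d) : c = d :=
  Pic.ext_iff.mpr ⟨h.equiv.some ≪≫ₗ h'.equiv.some.symm⟩

theorem Cls.eq {I : Ideal R} {c : Pic R} (h : Cls I c) : cls I = c :=
  (cls_spec ⟨c, h⟩).unique h

theorem cls_of_equiv {I : Ideal R} {c : Pic R} (h0 : I ≠ ⊥) (e : c ≃ₗ[R] I) : Cls I c :=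
  ⟨h0, I.subtype ∘ₗ e.toLinearMap, by
    rw [LinearMap.range_comp_of_range_eq_top _ e.range, Submodule.range_subtype]⟩

theorem exists_cls (c : Pic R) : ∃ I, Cls I c := by
  obtain ⟨I, ⟨e⟩⟩ := Module.Invertible.exists_linearEquiv_ideal R c
  refine ⟨I, cls_of_equiv ?_ e⟩
  rintro rfl
  have : Subsingleton c := e.toEquiv.subsingleton
  exact one_ne_zero (FaithfulSMul.eq_of_smul_eq_smul (M := R) (α := c) (m₁ := 1) (m₂ := 0)
    fun _ => Subsingleton.elim _ _)

theorem Cls.mul {I J : Ideal R} {c d : Pic R} (h : Cls I c) (h' : Cls J d) :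
    Cls (I * J) (c * d) := by
  refine ⟨mul_ne_zero h.1 h'.1, ?_⟩
  obtain ⟨-, f, rfl⟩ := h
  obtain ⟨-, g, rfl⟩ := h'
  rw [Pic.mul_eq_tensor]
  let e := Pic.mk.linearEquiv R (c ⊗[R] d)
  refine ⟨(LinearMap.mul' R R ∘ₗ TensorProduct.map f g) ∘ₗ e.toLinearMap, ?_⟩
  rw [LinearMap.range_comp_of_range_eq_top _ e.range]
  apply le_antisymm
  · rintro _ ⟨x, rfl⟩
    induction x with
    | zero => simp
    | add x y hx hy => rw [map_add]; exact add_mem hx hy
    | tmul m n => simpa using Ideal.mul_mem_mul (LinearMap.mem_range_self f m) (LinearMap.mem_range_self g n)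
  · rw [Ideal.mul_le]
    rintro _ ⟨m, rfl⟩ _ ⟨n, rfl⟩
    exact ⟨m ⊗ₜ n, by simp⟩

theorem cls_span {a : R} (ha : a ≠ 0) : Cls (Ideal.span {a}) 1 := by
  refine ⟨by simpa using ha, ?_⟩
  obtain ⟨e⟩ := Pic.mk_eq_one_iff.mp (Pic.mk_eq_self (M := (1 : Pic R)))
  refine ⟨LinearMap.toSpanSingleton R R a ∘ₗ e.toLinearMap, ?_⟩
  rw [LinearMap.range_comp_of_range_eq_top _ e.range, ← LinearMap.span_singleton_eq_range]

theorem Cls.principal {I : Ideal R} (h : Cls I 1) : ∃ a, a ≠ 0 ∧ I = Ideal.span {a} := by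
  obtain ⟨h0, f, rfl⟩ := h
  obtain ⟨e⟩ := Pic.mk_eq_one_iff.mp (Pic.mk_eq_self (M := (1 : Pic R)))
  have : LinearMap.range f = Ideal.span {f (e.symm 1)} := by
    apply le_antisymm
    · rintro _ ⟨m, rfl⟩
      refine Ideal.mem_span_singleton'.mpr ⟨e m, ?_⟩
      rw [← smul_eq_mul, ← map_smul, ← map_smul]; simp
    · rw [Ideal.span_singleton_le_iff_mem]; exact ⟨_, rfl⟩
  exact ⟨_, fun h => h0 (by rw [this, h]; simp), this⟩

theorem exists_cls_of_mul {I J : Ideal R} {a : R} (ha : a ≠ 0) (h : I * J = Ideal.span {a}) :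
    ∃ c, Cls I c := by
  have h0 : I ≠ ⊥ := by
    rintro rfl
    rw [Ideal.bot_mul, eq_comm, Ideal.span_singleton_eq_bot] at h
    exact ha h
  let K := FractionRing R
  have ha' : algebraMap R K a ≠ 0 := by simpa using ha
  have hu : IsUnit (IsLocalization.coeSubmodule K I) := by
    apply isUnit_of_mul_isUnit_left (y := IsLocalization.coeSubmodule K J)
    rw [← IsLocalization.coeSubmodule_mul, h, IsLocalization.coeSubmodule_span_singleton]
    exact (ha'.isUnit).map (Submodule.spanSingleton R).toMonoidHom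
  refine ⟨Submodule.unitsToPic R K hu.unit, cls_of_equiv h0 (Submodule.unitsToPicEquiv _ ≪≫ₗ ?_)⟩
  exact (Submodule.equivMapOfInjective (Algebra.linearMap R K)
    (IsFractionRing.injective R K) I).symm

theorem Cls.inv {I J : Ideal R} {a : R} (ha : a ≠ 0) (h : I * J = Ideal.span {a}) {c : Pic R}
    (hc : Cls I c) : Cls J c⁻¹ := by
  obtain ⟨d, hd⟩ := exists_cls_of_mul ha ((mul_comm _ _).trans h)
  have := (hc.mul hd).unique (h ▸ cls_span ha)
  rwa [← eq_inv_of_mul_eq_one_right this]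

theorem cancel_of_mul {I J A B : Ideal R} {a : R} (ha : a ≠ 0) (h : I * J = Ideal.span {a})
    (hAB : I * A ≤ I * B) : A ≤ B := by
  have := Ideal.mul_mono_right (I := J) hAB
  rw [← mul_assoc, ← mul_assoc, mul_comm J, h] at this
  intro x hx
  obtain ⟨y, hy, e⟩ := Ideal.span_singleton_mul_le_span_singleton_mul.mp this x hx
  rwa [mul_left_cancel₀ ha e]

end Pool.Agent.Bs
end

-- merged part: Pool.Agent.Work.MP_60d5ce_nt.Bs.MMum
section
/-!
# Mumford ideals (U(x), y - V(x)) of the coordinate ring of `y ^ 2 = D(x)`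
-/

namespace Pool.Agent.Bs

open Polynomial CommRing QuadraticAlgebra

/-- The ideal generated by `U(x)` and `y - V(x)`. -/
noncomputable def Mum {A : Type} [CommRing A] (D U V : A[X]) : Ideal (Crd D) :=
  Ideal.span {⟨U, 0⟩, ⟨-V, 1⟩}

section Ring

variable {A B : Type} [CommRing A] [CommRing B] {D U V W : A[X]}

theorem left_mem_mum : (⟨U, 0⟩ : Crd D) ∈ Mum D U V := Ideal.subset_span (by simp)

theorem right_mem_mum : (⟨-V, 1⟩ : Crd D) ∈ Mum D U V := Ideal.subset_span (by simp)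

theorem mem_mum (h : U ∣ V ^ 2 - D) {z : Crd D} : z ∈ Mum D U V ↔ U ∣ z.re + V * z.im := by
  rw [Mum, Ideal.mem_span_pair]
  constructor
  · rintro ⟨p, q, rfl⟩
    obtain ⟨W, hW⟩ := h
    exact ⟨p.re + V * p.im - W * q.im, by simp; linear_combination (-q.im) * hW⟩
  · rintro ⟨t, ht⟩
    refine ⟨⟨t, 0⟩, ⟨z.im, 0⟩, ?_⟩
    ext1
    · simp; linear_combination -ht
    · simp

theorem map_mum (φ : A →+* B) {E : B[X]} (h : D.map φ = E) :
    (Mum D U V).map (cmap φ h) = Mum E (U.map φ) (V.map φ) := by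
  rw [Mum, Ideal.map_span, Set.image_pair, Mum]
  congr 2 <;> ext1 <;> simp [cmap]

theorem star_mum : (Mum D U V).map (starRingEnd (Crd D)) = Mum D U (-V) := by
  rw [Mum, Ideal.map_span, Set.image_pair, Mum]
  have h1 : starRingEnd (Crd D) ⟨U, 0⟩ = ⟨U, 0⟩ := by ext1 <;> simp [starRingEnd_apply]
  have h2 : starRingEnd (Crd D) ⟨-V, 1⟩ = -⟨- -V, 1⟩ := by ext1 <;> simp [starRingEnd_apply]
  rw [h1, h2, Ideal.span_insert, Ideal.span_singleton_neg, ← Ideal.span_insert]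

theorem mum_congr {V' : A[X]} (h : U ∣ V - V') : Mum D U V = Mum D U V' := by
  obtain ⟨t, ht⟩ := h
  have : (⟨-V', 1⟩ : Crd D) = ⟨-V, 1⟩ + ⟨t, 0⟩ * ⟨U, 0⟩ := by
    ext1
    · simp; linear_combination ht
    · simp
  rw [Mum, Mum, this, Ideal.span_pair_add_mul_left]

theorem mum_unit {u : A[X]} (hu : IsUnit u) : Mum D (U * u) V = Mum D U V := by
  have : (⟨U * u, 0⟩ : Crd D) = ⟨U, 0⟩ * algebraMap A[X] _ u := by ext1 <;> simp
  rw [Mum, Mum, this, Ideal.span_insert, Ideal.span_singleton_mul_right_unit (hu.map _),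
    ← Ideal.span_insert]

theorem mum_one : Mum D 1 V = ⊤ := (Ideal.eq_top_iff_one _).mpr left_mem_mum

theorem mum_full (h : U * W = V ^ 2 - D) : Mum D (U * W) V = Ideal.span {⟨-V, 1⟩} := by
  apply le_antisymm
  · rw [Mum, Ideal.span_le]
    rintro _ (rfl | rfl)
    · refine Ideal.mem_span_singleton'.mpr ⟨⟨-V, -1⟩, ?_⟩
      ext1
      · simp; linear_combination -h
      · simp
    · exact Ideal.mem_span_singleton_self _
  · rw [Ideal.span_singleton_le_iff_mem]; exact right_mem_mum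

theorem mum_mul (h2 : IsUnit (2 : A)) (hs : D.Separable) {U₁ U₂ : A[X]}
    (h : U₁ * U₂ ∣ V ^ 2 - D) : Mum D U₁ V * Mum D U₂ V = Mum D (U₁ * U₂) V := by
  obtain ⟨W, hW⟩ := h
  obtain ⟨a, b, hab⟩ := hs
  obtain ⟨i, hi⟩ := (h2.map (C : A →+* A[X])).exists_left_inv
  rw [map_ofNat] at hi
  have e : (⟨U₁ * U₂, 0⟩ : Crd D) = ⟨U₁, 0⟩ * ⟨U₂, 0⟩ := by ext1 <;> simp
  apply le_antisymm
  · rw [Mum, Mum, Ideal.span_pair_mul_span_pair, Ideal.span_le]
    rintro _ (rfl | rfl | rfl | rfl)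
    · exact e ▸ left_mem_mum
    · exact Ideal.mul_mem_left _ _ right_mem_mum
    · exact Ideal.mul_mem_right _ _ right_mem_mum
    · exact Ideal.mul_mem_right _ _ right_mem_mum
  · have hD : D = V ^ 2 - U₁ * U₂ * W := by linear_combination -hW
    have hD' := congrArg derivative hD
    simp only [derivative_sub, derivative_mul, derivative_sq, map_ofNat] at hD'
    conv_lhs => rw [Mum]
    rw [Ideal.span_le]
    rintro _ (rfl | rfl)
    · exact e ▸ Ideal.mul_mem_mul left_mem_mum left_mem_mum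
    · have m1 := Ideal.mul_mem_mul (left_mem_mum (D := D) (U := U₁) (V := V))
        (left_mem_mum (D := D) (U := U₂) (V := V))
      have m2 := Ideal.mul_mem_mul (left_mem_mum (D := D) (U := U₁) (V := V))
        (right_mem_mum (D := D) (U := U₂) (V := V))
      have m3 := Ideal.mul_mem_mul (right_mem_mum (D := D) (U := U₁) (V := V))
        (left_mem_mum (D := D) (U := U₂) (V := V))
      have m4 := Ideal.mul_mem_mul (right_mem_mum (D := D) (U := U₁) (V := V))
        (right_mem_mum (D := D) (U := U₂) (V := V))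
      set s := a * V + 2 * b * derivative V
      rw [SetLike.mem_coe]
      convert add_mem (add_mem (Ideal.mul_mem_left _ ⟨-s * i * W, 0⟩ m1)
        (Ideal.mul_mem_left _ ⟨-(a * U₂ * W + b * derivative U₂ * W + b * U₂ * derivative W), 0⟩ m2))
        (add_mem (Ideal.mul_mem_left _ ⟨-(b * derivative U₁ * W), 0⟩ m3)
        (Ideal.mul_mem_left _ ⟨-s * i, 0⟩ m4)) using 1
      ext1
      · simp only [s, re_add, re_mul]
        linear_combination V * hab - V * a * hD - V * b * hD' + V * V * s * hi - s * i * hW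
      · simp only [s, im_add, im_mul, re_mul]
        linear_combination -hab + a * hD + b * hD' - V * s * hi

theorem mum_mul_neg (h2 : IsUnit (2 : A)) (hs : D.Separable) (h : U ∣ V ^ 2 - D) :
    Mum D U V * Mum D U (-V) = Ideal.span {⟨U, 0⟩} := by
  obtain ⟨W, hW⟩ := h
  obtain ⟨a, b, hab⟩ := hs
  obtain ⟨i, hi⟩ := (h2.map (C : A →+* A[X])).exists_left_inv
  rw [map_ofNat] at hi
  have e : (⟨-V, 1⟩ : Crd D) * ⟨- -V, 1⟩ = ⟨-W, 0⟩ * ⟨U, 0⟩ := by
    ext1
    · simp; linear_combination -hW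
    · simp
  apply le_antisymm
  · rw [Mum, Mum, Ideal.span_pair_mul_span_pair, Ideal.span_le]
    rintro _ (rfl | rfl | rfl | rfl)
    · exact Ideal.mul_mem_left _ _ (Ideal.mem_span_singleton_self _)
    · exact Ideal.mul_mem_right _ _ (Ideal.mem_span_singleton_self _)
    · exact Ideal.mul_mem_left _ _ (Ideal.mem_span_singleton_self _)
    · exact e ▸ Ideal.mul_mem_left _ _ (Ideal.mem_span_singleton_self _)
  · have hD : D = V ^ 2 - U * W := by linear_combination -hW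
    have hD' := congrArg derivative hD
    simp only [derivative_sub, derivative_mul, derivative_sq, map_ofNat] at hD'
    rw [Ideal.span_singleton_le_iff_mem]
    have m1 := Ideal.mul_mem_mul (left_mem_mum (D := D) (U := U) (V := V))
      (left_mem_mum (D := D) (U := U) (V := -V))
    have m2 := Ideal.mul_mem_mul (left_mem_mum (D := D) (U := U) (V := V))
      (right_mem_mum (D := D) (U := U) (V := -V))
    have m3 := Ideal.mul_mem_mul (right_mem_mum (D := D) (U := U) (V := V))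
      (left_mem_mum (D := D) (U := U) (V := -V))
    have m4 := Ideal.mul_mem_mul (right_mem_mum (D := D) (U := U) (V := V))
      (right_mem_mum (D := D) (U := U) (V := -V))
    set s := a * V + 2 * b * derivative V
    convert add_mem (add_mem (Ideal.mul_mem_left _ ⟨-(a * W + b * derivative W), 0⟩ m1)
      (Ideal.mul_mem_left _ ⟨s * i, 0⟩ m2))
      (add_mem (Ideal.mul_mem_left _ ⟨-s * i, 0⟩ m3)
      (Ideal.mul_mem_left _ ⟨b * derivative U, 0⟩ m4)) using 1
    ext1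
    · simp only [s, re_add, re_mul]
      linear_combination -U * hab + U * a * hD + U * b * hD' - U * V * s * hi
        + b * derivative U * hW
    · simp only [s, im_add, im_mul, re_mul]
      ring

end Ring

/-- `y ^ 2 = D(x)` is a hyperelliptic curve of genus `g` with one point at infinity. -/
structure Hy {K : Type} [Field K] (D : K[X]) (g : ℕ) : Prop where
  two : (2 : K) ≠ 0
  sep : D.Separable
  deg : D.natDegree = 2 * g + 1

variable {K L : Type} [Field K] [Field L] {D U V W : K[X]} {g : ℕ}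

theorem Hy.map (H : Hy D g) (φ : K →+* L) {E : L[X]} (h : D.map φ = E) : Hy E g where
  two := by rw [← map_ofNat φ]; exact (map_ne_zero φ).mpr H.two
  sep := h ▸ H.sep.map
  deg := by rw [← h, natDegree_map, H.deg]

theorem Hy.ne_zero (H : Hy D g) : D ≠ 0 := H.sep.ne_zero

theorem norm_crd {A : Type} [CommRing A] {D : A[X]} (z : Crd D) :
    norm z = z.re ^ 2 - D * z.im ^ 2 := by
  rw [norm_def]; ring

theorem Hy.natDegree_norm (H : Hy D g) {z : Crd D} (hz : z.im ≠ 0) :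
    (norm z).natDegree = max (2 * z.re.natDegree) (2 * g + 1 + 2 * z.im.natDegree) := by
  have h1 : (D * z.im ^ 2).natDegree = 2 * g + 1 + 2 * z.im.natDegree := by
    rw [natDegree_mul H.ne_zero (pow_ne_zero _ hz), H.deg, natDegree_pow]
  have h2 : (z.re ^ 2).natDegree = 2 * z.re.natDegree := natDegree_pow _ _
  rw [norm_crd]
  rcases lt_or_gt_of_ne (show (z.re ^ 2).natDegree ≠ (D * z.im ^ 2).natDegree by omega) with h | h
  · rw [natDegree_sub_eq_right_of_natDegree_lt h]; omega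
  · rw [natDegree_sub_eq_left_of_natDegree_lt h]; omega

theorem Hy.norm_ne_zero (H : Hy D g) {z : Crd D} (hz : z ≠ 0) : norm z ≠ 0 := by
  by_cases h : z.im = 0
  · rw [norm_crd, h]
    simpa using fun h' => hz (by ext1 <;> simp [h, h'])
  · intro h0
    have := H.natDegree_norm h
    rw [h0, natDegree_zero] at this
    omega

theorem Hy.isDomain (H : Hy D g) : IsDomain (Crd D) := by
  have : NoZeroDivisors (Crd D) := ⟨fun {a b} h => by
    by_contra! hc
    exact mul_ne_zero (H.norm_ne_zero hc.1) (H.norm_ne_zero hc.2) (by rw [← map_mul, h, QuadraticAlgebra.norm_zero])⟩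
  exact NoZeroDivisors.to_isDomain _

theorem mk_ne_zero (hU : U ≠ 0) : (⟨U, 0⟩ : Crd D) ≠ 0 := fun h => hU (congrArg re h)

theorem mum_ne_bot : Mum D U V ≠ ⊥ := fun h =>
  one_ne_zero (congrArg im (Ideal.mem_bot.mp (h ▸ right_mem_mum (D := D) (U := U) (V := V))))

theorem Hy.sq_sub_ne (H : Hy D g) (V : K[X]) : V ^ 2 - D ≠ 0 := by
  have := H.norm_ne_zero (z := ⟨V, 1⟩) fun h => one_ne_zero (congrArg im h)
  simpa [norm_crd] using this

/-- Every nonzero ideal is a polynomial times a Mumford ideal. -/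
theorem Hy.exists_mum (H : Hy D g) {I : Ideal (Crd D)} (hI : I ≠ ⊥) :
    ∃ c U V : K[X], c ≠ 0 ∧ U.Monic ∧ U ∣ V ^ 2 - D ∧ I = Ideal.span {⟨c, 0⟩} * Mum D U V := by
  have := H.isDomain
  have him : ∀ z ∈ I, z.im ∈ (I.restrictScalars K[X]).map (imₗ D 0) := fun z hz => ⟨z, hz, rfl⟩
  have hre : ∀ z ∈ I, z.re ∈ (I.restrictScalars K[X]).map (imₗ D 0) := fun z hz =>
    ⟨⟨0, 1⟩ * z, I.mul_mem_left _ hz, by simp⟩
  obtain ⟨c, hc⟩ := (inferInstance :
    Submodule.IsPrincipal ((I.restrictScalars K[X]).map (imₗ D 0))).principal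
  have hc0 : c ≠ 0 := by
    rintro rfl
    refine hI (eq_bot_iff.mpr fun z hz => ?_)
    have h1 := him z hz
    have h2 := hre z hz
    rw [hc] at h1 h2
    simp only [Submodule.span_zero_singleton, Submodule.mem_bot] at h1 h2
    exact Ideal.mem_bot.mpr (by ext1 <;> simp [h1, h2])
  have hdvd : ∀ z ∈ I, ∃ w : Crd D, ⟨c, 0⟩ * w = z := fun z hz => by
    have h1 := him z hz
    have h2 := hre z hz
    rw [hc] at h1 h2
    obtain ⟨a, ha⟩ := Submodule.mem_span_singleton.mp h1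
    obtain ⟨b, hb⟩ := Submodule.mem_span_singleton.mp h2
    exact ⟨⟨b, a⟩, by ext1 <;> simp [← ha, ← hb, mul_comm]⟩
  let J : Ideal (Crd D) := Submodule.comap (LinearMap.mulLeft (Crd D) (⟨c, 0⟩ : Crd D)) I
  have hJ : ∀ w, w ∈ J ↔ (⟨c, 0⟩ : Crd D) * w ∈ I := fun w => Iff.rfl
  obtain ⟨z, hz, hzc⟩ : c ∈ (I.restrictScalars K[X]).map (imₗ D 0) :=
    hc ▸ Submodule.mem_span_singleton_self c
  obtain ⟨w, rfl⟩ := hdvd z hz
  have hw1 : w.im = 1 := mul_left_cancel₀ hc0 (by simpa using hzc)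
  have hw : (⟨- -w.re, 1⟩ : Crd D) ∈ J := by
    rw [neg_neg, ← hw1]; exact hz
  generalize -w.re = V at hw
  obtain ⟨U, hU⟩ := (inferInstance :
    Submodule.IsPrincipal (J.comap (algebraMap K[X] (Crd D)))).principal
  have hmem : ∀ a : K[X], (⟨a, 0⟩ : Crd D) ∈ J ↔ U ∣ a := fun a => by
    rw [← Ideal.mem_span_singleton, Ideal.span, ← hU]; rfl
  have hdv : U ∣ V ^ 2 - D := (hmem _).mp (by
    convert J.mul_mem_left ⟨-V, -1⟩ hw using 1
    ext1
    · simp; ring
    · simp)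
  have hU0 : U ≠ 0 := ne_zero_of_dvd_ne_zero (H.sq_sub_ne V) hdv
  have hu : IsUnit (C U.leadingCoeff⁻¹) := isUnit_C.mpr (by simpa using hU0)
  refine ⟨c, U * C U.leadingCoeff⁻¹, V, hc0, monic_mul_leadingCoeff_inv hU0,
    (hu.mul_right_dvd).mpr hdv, ?_⟩
  have hJM : J = Mum D U V := by
    apply le_antisymm
    · intro z hz
      rw [mem_mum hdv, ← hmem]
      convert J.sub_mem hz (J.mul_mem_left ⟨z.im, 0⟩ hw) using 1
      ext1
      · simp; ring
      · simp
    · rw [Mum, Ideal.span_le]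
      rintro _ (rfl | rfl)
      · exact (hmem U).mpr dvd_rfl
      · exact hw
  rw [mum_unit hu, ← hJM]
  ext z
  rw [Ideal.mem_span_singleton_mul]
  constructor
  · intro hz
    obtain ⟨w, rfl⟩ := hdvd z hz
    exact ⟨w, hz, rfl⟩
  · rintro ⟨w, hw, rfl⟩; exact hw

end Pool.Agent.Bs
end

-- merged part: Pool.Agent.Work.MP_60d5ce_nt.Bs.MRep
section
/-!
# The reduced Mumford representative of a class
-/

namespace Pool.Agent.Bs

open Polynomial CommRing QuadraticAlgebra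

variable {K L : Type} [Field K] [Field L] {D U V W : K[X]} {g : ℕ}

theorem Hy.unit (H : Hy D g) : IsUnit (2 : K) := H.two.isUnit

theorem Hy.cls_mum (H : Hy D g) (h : U ∣ V ^ 2 - D) : Cls (Mum D U V) (cls (Mum D U V)) := by
  have := H.isDomain
  exact cls_spec (exists_cls_of_mul (mk_ne_zero (ne_zero_of_dvd_ne_zero (H.sq_sub_ne V) h))
    (mum_mul_neg H.unit H.sep h))

theorem Hy.cls_neg (H : Hy D g) (h : U ∣ V ^ 2 - D) {c : Pic (Crd D)} (hc : Cls (Mum D U V) c) :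
    Cls (Mum D U (-V)) c⁻¹ := by
  have := H.isDomain
  exact hc.inv (mk_ne_zero (ne_zero_of_dvd_ne_zero (H.sq_sub_ne V) h)) (mum_mul_neg H.unit H.sep h)

/-- Every nonzero ideal is invertible. -/
theorem Hy.exists_mul (H : Hy D g) {I : Ideal (Crd D)} (hI : I ≠ ⊥) :
    ∃ (J : Ideal (Crd D)) (a : Crd D), a ≠ 0 ∧ I * J = Ideal.span {a} := by
  have := H.isDomain
  obtain ⟨c, U, V, hc, hU, h, rfl⟩ := H.exists_mum hI
  exact ⟨Mum D U (-V), _, mul_ne_zero (mk_ne_zero hc) (mk_ne_zero hU.ne_zero), by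
    rw [mul_assoc, mum_mul_neg H.unit H.sep h, Ideal.span_singleton_mul_span_singleton]⟩

theorem Hy.cls_spec (H : Hy D g) {I : Ideal (Crd D)} (hI : I ≠ ⊥) : Cls I (cls I) := by
  have := H.isDomain
  obtain ⟨J, a, ha, h⟩ := H.exists_mul hI
  exact Bs.cls_spec (exists_cls_of_mul ha h)

theorem Hy.cancel (H : Hy D g) {I A B : Ideal (Crd D)} (hI : I ≠ ⊥) (h : I * A ≤ I * B) :
    A ≤ B := by
  have := H.isDomain
  obtain ⟨J, a, ha, hJ⟩ := H.exists_mul hI
  exact cancel_of_mul ha hJ h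

theorem Hy.cls_mul (H : Hy D g) {I J : Ideal (Crd D)} (hI : I ≠ ⊥) (hJ : J ≠ ⊥) :
    cls (I * J) = cls I * cls J := by
  have := H.isDomain
  exact ((H.cls_spec hI).mul (H.cls_spec hJ)).eq

/-- `U, V` is a reduced Mumford pair whose ideal has class `c`. -/
structure Rep (D : K[X]) (g : ℕ) (c : Pic (Crd D)) (U V : K[X]) : Prop where
  monic : U.Monic
  le : U.natDegree ≤ g
  lt : V.degree < U.degree
  dvd : U ∣ V ^ 2 - D
  cls : Cls (Mum D U V) c

theorem Hy.rep_aux (H : Hy D g) (n : ℕ) : ∀ (c : Pic (Crd D)) (U V : K[X]), U.natDegree = n →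
    U ∣ V ^ 2 - D → Cls (Mum D U V) c → ∃ U V, Rep D g c U V := by
  have := H.isDomain
  induction n using Nat.strong_induction_on with
  | _ n ih =>
  intro c U₀ V₀ hn h₀ hc
  have hU0 : U₀ ≠ 0 := ne_zero_of_dvd_ne_zero (H.sq_sub_ne _) h₀
  have hu : IsUnit (C U₀.leadingCoeff⁻¹) := isUnit_C.mpr (by simpa using hU0)
  have hm := monic_mul_leadingCoeff_inv hU0
  rw [← mum_unit hu] at hc
  rw [← hu.mul_right_dvd] at h₀
  rw [← natDegree_mul_leadingCoeff_inv U₀ hU0] at hn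
  generalize U₀ * C U₀.leadingCoeff⁻¹ = U at hm hc h₀ hn
  have hV : U ∣ V₀ - V₀ %ₘ U := ⟨V₀ /ₘ U, by linear_combination -modByMonic_add_div V₀ U⟩
  have hlt := degree_modByMonic_lt V₀ hm
  rw [mum_congr hV] at hc
  have h : U ∣ (V₀ %ₘ U) ^ 2 - D := by
    convert h₀.sub (hV.mul_right (V₀ + V₀ %ₘ U)) using 1; ring
  generalize V₀ %ₘ U = V at hlt hc h
  by_cases hg : U.natDegree ≤ g
  · exact ⟨U, V, hm, hg, hlt, h, hc⟩
  obtain ⟨W, hW⟩ := h
  have hW0 : W ≠ 0 := by rintro rfl; exact H.sq_sub_ne V (by simpa using hW)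
  have hVn : V.natDegree < U.natDegree := by
    by_cases hV0 : V = 0
    · rw [hV0, natDegree_zero]; omega
    · exact natDegree_lt_natDegree hV0 hlt
  have hd : U.natDegree + W.natDegree ≤ max (2 * V.natDegree) (2 * g + 1) := by
    rw [← natDegree_mul hm.ne_zero hW0, ← hW, ← H.deg, ← natDegree_pow]
    exact natDegree_sub_le _ _
  have hW' : W ∣ V ^ 2 - D := Dvd.intro_left U hW.symm
  have h1 : Cls (Mum D W V) c⁻¹ := hc.inv (a := ⟨-V, 1⟩) (fun h => one_ne_zero (congrArg im h))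
    (by rw [mum_mul H.unit H.sep hW.symm.dvd, mum_full hW.symm])
  refine ih W.natDegree (by omega) c W (-V) rfl (by rwa [neg_sq]) ?_
  simpa using H.cls_neg hW' h1

theorem Hy.exists_rep (H : Hy D g) (c : Pic (Crd D)) : ∃ U V, Rep D g c U V := by
  have := H.isDomain
  obtain ⟨I, hI⟩ := exists_cls c
  obtain ⟨a, U, V, ha, -, h, rfl⟩ := H.exists_mum hI.1
  refine H.rep_aux _ c U V rfl h ?_
  have := ((cls_span (mk_ne_zero ha)).mul (H.cls_mum h)).unique hI
  rw [one_mul] at this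
  exact this ▸ H.cls_mum h

theorem dvd_of_mem_span {A : Type} [CommRing A] {D a : A[X]} {I : Ideal (Crd D)} {z : Crd D}
    (h : z ∈ Ideal.span {(⟨a, 0⟩ : Crd D)} * I) : a ∣ z.re ∧ a ∣ z.im := by
  obtain ⟨w, -, rfl⟩ := Ideal.mem_span_singleton_mul.mp h
  constructor <;> simp

theorem Hy.mum_eq (H : Hy D g) {U₁ V₁ U₂ V₂ : K[X]} (h₁ : U₁ ∣ V₁ ^ 2 - D) (h₂ : U₂ ∣ V₂ ^ 2 - D)
    (hd : U₁.natDegree + U₂.natDegree ≤ 2 * g) {c : Pic (Crd D)} (c₁ : Cls (Mum D U₁ V₁) c)
    (c₂ : Cls (Mum D U₂ V₂) c) : Mum D U₁ V₁ = Mum D U₂ V₂ := by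
  have := H.isDomain
  have n₁ : U₁ ≠ 0 := ne_zero_of_dvd_ne_zero (H.sq_sub_ne _) h₁
  have n₂ : U₂ ≠ 0 := ne_zero_of_dvd_ne_zero (H.sq_sub_ne _) h₂
  have h := c₁.mul (H.cls_neg h₂ c₂)
  rw [mul_inv_cancel] at h
  obtain ⟨φ, hφ, e⟩ := h.principal
  have e' := congrArg (Ideal.map (starRingEnd (Crd D))) e
  rw [Ideal.map_mul, star_mum, star_mum, neg_neg, Ideal.map_span, Set.image_singleton] at e'
  have e2 : Ideal.span {(⟨U₁ * U₂, 0⟩ : Crd D)} = Ideal.span {⟨norm φ, 0⟩} * ⊤ := by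
    have : (⟨U₁ * U₂, 0⟩ : Crd D) = ⟨U₁, 0⟩ * ⟨U₂, 0⟩ := by ext1 <;> simp
    rw [Ideal.mul_top, ← algebraMap_eq (norm φ), algebraMap_norm_eq_mul_star, this,
      ← Ideal.span_singleton_mul_span_singleton, ← Ideal.span_singleton_mul_span_singleton,
      ← starRingEnd_apply, ← e, ← e', ← mum_mul_neg H.unit H.sep h₁, ← mum_mul_neg H.unit H.sep h₂]
    ring
  have hN := natDegree_le_of_dvd (dvd_of_mem_span (e2 ▸ Ideal.mem_span_singleton_self _)).1
    (mul_ne_zero n₁ n₂)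
  rw [natDegree_mul n₁ n₂] at hN
  have him : φ.im = 0 := by
    by_contra h0
    have := H.natDegree_norm h0
    omega
  obtain ⟨a, b⟩ := φ
  obtain rfl : b = 0 := him
  have e3 : Ideal.span {(⟨U₂, 0⟩ : Crd D)} * Mum D U₁ V₁ = Ideal.span {⟨a, 0⟩} * Mum D U₂ V₂ := by
    rw [← e, ← mum_mul_neg H.unit H.sep h₂]; ring
  have d1 := (dvd_of_mem_span (e3 ▸ Ideal.mul_mem_mul (Ideal.mem_span_singleton_self _)
    right_mem_mum)).2
  have d2 := (dvd_of_mem_span (e3.symm ▸ Ideal.mul_mem_mul (Ideal.mem_span_singleton_self _)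
    right_mem_mum)).2
  simp only [im_mul, mul_one, zero_mul, add_zero, mul_zero] at d1 d2
  have e4 : Ideal.span {(⟨a, 0⟩ : Crd D)} = Ideal.span {⟨U₂, 0⟩} :=
    Ideal.span_singleton_eq_span_singleton.mpr
      ((associated_of_dvd_dvd d1 d2).map (algebraMap K[X] (Crd D)))
  rw [e4] at e3
  have n : Ideal.span {(⟨U₂, 0⟩ : Crd D)} ≠ ⊥ := by simpa using mk_ne_zero n₂
  exact le_antisymm (H.cancel n e3.le) (H.cancel n e3.ge)

theorem Rep.unique (H : Hy D g) {c : Pic (Crd D)} {U' V' : K[X]} (h : Rep D g c U V)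
    (h' : Rep D g c U' V') : U = U' ∧ V = V' := by
  have e := H.mum_eq h.dvd h'.dvd (by have := h.le; have := h'.le; omega) h.cls h'.cls
  have d1 := (mem_mum h'.dvd).mp (e ▸ left_mem_mum)
  have d2 := (mem_mum h.dvd).mp (e.symm ▸ left_mem_mum)
  have d3 := (mem_mum h.dvd).mp (e.symm ▸ right_mem_mum)
  simp only [mul_zero, add_zero, mul_one] at d1 d2 d3
  obtain rfl := eq_of_monic_of_associated h.monic h'.monic (associated_of_dvd_dvd d2 d1)
  refine ⟨rfl, ?_⟩
  have := eq_zero_of_dvd_of_degree_lt d3 ((degree_add_le _ _).trans_lt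
    (max_lt (by rw [degree_neg]; exact h'.lt) h.lt))
  linear_combination this

theorem Rep.eq (H : Hy D g) {c c' : Pic (Crd D)} (h : Rep D g c U V) (h' : Rep D g c' U V) :
    c = c' := by
  have := H.isDomain
  exact h.cls.unique h'.cls

theorem rep_one (H : Hy D g) : Rep D g 1 1 0 := by
  have := H.isDomain
  refine ⟨monic_one, by simp, by simp, one_dvd _, ?_⟩
  rw [mum_one, ← Ideal.span_singleton_one]
  exact cls_span one_ne_zero

theorem Rep.inv (H : Hy D g) {c : Pic (Crd D)} (h : Rep D g c U V) : Rep D g c⁻¹ U (-V) :=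
  ⟨h.monic, h.le, by rw [degree_neg]; exact h.lt, by rw [neg_sq]; exact h.dvd,
    H.cls_neg h.dvd h.cls⟩

/-- The map of Picard groups induced by `φ` on the coefficients. -/
noncomputable abbrev pmap (φ : K →+* L) {E : L[X]} (h : D.map φ = E) :
    Pic (Crd D) →* Pic (Crd E) := Pic.mapRingHom (cmap φ h)

theorem cls_map_mum (φ : K →+* L) {E : L[X]} (h : D.map φ = E) {c : Pic (Crd D)}
    (hc : Cls (Mum D U V) c) : Cls (Mum E (U.map φ) (V.map φ)) (pmap φ h c) := by
  rw [← map_mum φ h]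
  exact hc.map _ (by rw [map_mum]; exact mum_ne_bot)

theorem Rep.map (φ : K →+* L) {E : L[X]} (h : D.map φ = E) {c : Pic (Crd D)} (r : Rep D g c U V) :
    Rep E g (pmap φ h c) (U.map φ) (V.map φ) where
  monic := r.monic.map φ
  le := by rw [natDegree_map]; exact r.le
  lt := by rw [degree_map, degree_map]; exact r.lt
  dvd := by simpa [h] using Polynomial.map_dvd φ r.dvd
  cls := cls_map_mum φ h r.cls

theorem pmap_pmap {M : Type} [Field M] (φ : K →+* L) (ψ : L →+* M) {E : L[X]} {G : M[X]}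
    (h : D.map φ = E) (h' : E.map ψ = G) (h'' : D.map (ψ.comp φ) = G) (c : Pic (Crd D)) :
    pmap ψ h' (pmap φ h c) = pmap (ψ.comp φ) h'' c := by
  rw [Pic.mapRingHom_mapRingHom]
  congr 2
  ext1 z
  ext1 <;> simp [cmap, Polynomial.map_map]

theorem pmap_id (h : D.map (RingHom.id K) = D) (c : Pic (Crd D)) : pmap (.id K) h c = c := by
  have : cmap (.id K) h = .id _ := by
    ext1 z
    ext1 <;> simp [cmap]
  rw [pmap, this, Pic.mapRingHom_id_apply]

/-- (M1) Extension of the field is injective on classes. -/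
theorem Hy.pmap_injective (H : Hy D g) (φ : K →+* L) {E : L[X]} (h : D.map φ = E) :
    Function.Injective (pmap φ h) := by
  intro c c' e
  obtain ⟨U, V, r⟩ := H.exists_rep c
  obtain ⟨U', V', r'⟩ := H.exists_rep c'
  obtain ⟨e1, e2⟩ := (r.map φ h).unique (H.map φ h) (e ▸ r'.map φ h)
  obtain rfl := map_injective φ φ.injective e1
  obtain rfl := map_injective φ φ.injective e2
  exact r.eq H r'

/-- (M2, M3) A class has a finite set of coordinates: two embeddings agree on the class iff they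
agree on the coordinates, and the class is defined over every subfield containing them. -/
theorem Hy.exists_coords (H : Hy D g) (c : Pic (Crd D)) : ∃ S : Finset K,
    (∀ (L : Type) [Field L] (φ ψ : K →+* L) (E : L[X]) (h : D.map φ = E) (h' : D.map ψ = E),
      pmap φ h c = pmap ψ h' c ↔ ∀ s ∈ S, φ s = ψ s) ∧
    ∀ (F : Type) [Field F] (φ : F →+* K) (E : F[X]) (h : E.map φ = D),
      c ∈ (pmap φ h).range ↔ ∀ s ∈ S, s ∈ φ.range := by
  classical
  obtain ⟨U, V, r⟩ := H.exists_rep c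
  have key : ∀ (p : K → Prop), p 0 → ((∀ s ∈ U.coeffs ∪ V.coeffs, p s) ↔
      (∀ n, p (U.coeff n)) ∧ ∀ n, p (V.coeff n)) := fun p h0 => by
    constructor
    · intro h
      constructor <;> intro n
      · by_cases e : U.coeff n = 0
        · rwa [e]
        · exact h _ (Finset.mem_union_left _ (coeff_mem_coeffs e))
      · by_cases e : V.coeff n = 0
        · rwa [e]
        · exact h _ (Finset.mem_union_right _ (coeff_mem_coeffs e))
    · rintro ⟨h1, h2⟩ s hs
      rcases Finset.mem_union.mp hs with h | h <;> obtain ⟨n, -, rfl⟩ := mem_coeffs_iff.mp h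
      exacts [h1 n, h2 n]
  refine ⟨U.coeffs ∪ V.coeffs, fun L _ φ ψ E h h' => ?_, fun F _ φ E h => ?_⟩
  · rw [key (fun s => φ s = ψ s) (by simp)]
    simp only [← coeff_map, ← Polynomial.ext_iff]
    exact ⟨fun e => (r.map φ h).unique (H.map φ h) (e ▸ r.map ψ h'),
      fun e => (r.map φ h).eq (H.map φ h) (e.1 ▸ e.2 ▸ r.map ψ h')⟩
  · rw [key (fun s => s ∈ φ.range) (zero_mem _)]
    have HE : Hy E g := ⟨fun e => H.two (by rw [← map_ofNat φ, e, map_zero]),
      (separable_map φ).mp (h ▸ H.sep), by rw [← H.deg, ← h, natDegree_map]⟩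
    constructor
    · rintro ⟨c, rfl⟩
      obtain ⟨U', V', r'⟩ := HE.exists_rep c
      obtain ⟨rfl, rfl⟩ := r.unique H (r'.map φ h)
      simp
    · rintro ⟨h1, h2⟩
      obtain ⟨U', rfl⟩ := (mem_lifts U).mp ((lifts_iff_coeff_lifts U).mpr h1)
      obtain ⟨V', rfl⟩ := (mem_lifts V).mp ((lifts_iff_coeff_lifts V).mpr h2)
      have hd : U' ∣ V' ^ 2 - E := (map_dvd_map' φ).mp (by simpa [h] using r.dvd)
      have := H.isDomain
      exact ⟨_, (cls_map_mum φ h (HE.cls_mum hd)).unique r.cls⟩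

end Pool.Agent.Bs
end

-- merged part: Pool.Agent.Work.MP_60d5ce_nt.Bs.MPt
section
/-!
# Points, `2`-torsion, purely inseparable descent
-/

namespace Pool.Agent.Bs

open Polynomial CommRing QuadraticAlgebra

variable {K L : Type} [Field K] [Field L] {D U V W : K[X]} {g : ℕ} {a b : K}

/-- The ideal generated by `x - a` and `y - b`, of the point `P = (a, b)`. -/
noncomputable abbrev PI {A : Type} [CommRing A] (D : A[X]) (P : A × A) : Ideal (Crd D) :=
  Mum D (X - C P.1) (C P.2)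

/-- The class of the point `P = (a, b)`. -/
noncomputable def pt (D : K[X]) (a b : K) : Pic (Crd D) := cls (PI D (a, b))

theorem pt_dvd {A : Type} [CommRing A] {D : A[X]} {a b : A} (h : b ^ 2 = D.eval a) :
    X - C a ∣ C b ^ 2 - D := by
  rw [dvd_iff_isRoot]; simp [h]

theorem mem_PI {A : Type} [CommRing A] {D : A[X]} {P : A × A} (h : P.2 ^ 2 = D.eval P.1)
    {z : Crd D} : z ∈ PI D P ↔ z.re.eval P.1 + P.2 * z.im.eval P.1 = 0 := by
  rw [mem_mum (pt_dvd h), dvd_iff_isRoot]; simp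

theorem map_PI {A B : Type} [CommRing A] [CommRing B] (φ : A →+* B) {D : A[X]} {E : B[X]}
    (h : D.map φ = E) (P : A × A) : (PI D P).map (cmap φ h) = PI E (φ P.1, φ P.2) := by
  rw [map_mum]; simp

theorem PI_mul_neg {A : Type} [CommRing A] {D : A[X]} (h2 : IsUnit (2 : A)) (hs : D.Separable)
    {P : A × A} (h : P.2 ^ 2 = D.eval P.1) :
    PI D P * PI D (P.1, -P.2) = Ideal.span {⟨X - C P.1, 0⟩} := by
  rw [← mum_mul_neg h2 hs (pt_dvd h)]; simp [PI]

theorem Hy.cls_pt (H : Hy D g) (h : b ^ 2 = D.eval a) : Cls (PI D (a, b)) (pt D a b) :=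
  H.cls_mum (pt_dvd h)

theorem Hy.pt_neg (H : Hy D g) (h : b ^ 2 = D.eval a) : pt D a (-b) = (pt D a b)⁻¹ := by
  have := H.isDomain
  have h1 := H.cls_neg (pt_dvd h) (H.cls_pt h)
  rw [← Polynomial.C_neg] at h1
  exact h1.eq

theorem Hy.pmap_pt (H : Hy D g) (h : b ^ 2 = D.eval a) (φ : K →+* L) {E : L[X]}
    (hE : D.map φ = E) : pmap φ hE (pt D a b) = pt E (φ a) (φ b) := by
  have := (H.map φ hE).isDomain
  have h1 := cls_map_mum φ hE (H.cls_pt h)
  simp only [Polynomial.map_sub, map_X, map_C] at h1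
  exact h1.eq.symm

theorem Hy.cls_prod (H : Hy D g) (s : Multiset (K × K)) (hs : ∀ P ∈ s, P.2 ^ 2 = D.eval P.1) :
    Cls (s.map (PI D)).prod (s.map fun P => pt D P.1 P.2).prod := by
  have := H.isDomain
  induction s using Multiset.induction_on with
  | empty => simpa [← Ideal.span_singleton_one] using cls_span (one_ne_zero (α := Crd D))
  | cons P s ih =>
    rw [Multiset.map_cons, Multiset.prod_cons, Multiset.map_cons, Multiset.prod_cons]
    exact (H.cls_pt (hs P (Multiset.mem_cons_self ..))).mul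
      (ih fun Q hQ => hs Q (Multiset.mem_cons_of_mem hQ))

theorem Hy.mum_prod (H : Hy D g) (s : Multiset K) (h : (s.map (X - C ·)).prod ∣ V ^ 2 - D) :
    Mum D (s.map (X - C ·)).prod V = ((s.map fun a => (a, V.eval a)).map (PI D)).prod := by
  induction s using Multiset.induction_on with
  | empty => simp [mum_one]
  | cons a s ih =>
    simp only [Multiset.map_cons, Multiset.prod_cons] at h ⊢
    rw [← mum_mul H.unit H.sep h, ih (dvd_of_mul_left_dvd h), mum_congr (X_sub_C_dvd_sub_C_eval)]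

theorem sq_eval_of_root (h : U ∣ V ^ 2 - D) (ha : a ∈ U.roots) : V.eval a ^ 2 = D.eval a := by
  have := (isRoot_of_mem_roots ha).dvd h
  simpa [sub_eq_zero] using this

/-- A Mumford ideal whose `U` splits is the product of the ideals of its points. -/
theorem Hy.mum_split (H : Hy D g) (hU : U.Monic) (hs : U.Splits) (h : U ∣ V ^ 2 - D) :
    Mum D U V = ((U.roots.map fun a => (a, V.eval a)).map (PI D)).prod := by
  have e := hs.eq_prod_roots_of_monic hU
  conv_lhs => rw [e]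
  exact H.mum_prod _ (e ▸ h)

/-- (M5) Over an algebraically closed field every class is a sum of at most `g` points. -/
theorem Hy.exists_pts [IsAlgClosed K] (H : Hy D g) (c : Pic (Crd D)) :
    ∃ s : Multiset (K × K), s.card ≤ g ∧ (∀ P ∈ s, P.2 ^ 2 = D.eval P.1) ∧
      c = (s.map fun P => pt D P.1 P.2).prod := by
  have := H.isDomain
  obtain ⟨U, V, r⟩ := H.exists_rep c
  have hs : ∀ P ∈ U.roots.map fun a => (a, V.eval a), P.2 ^ 2 = D.eval P.1 := fun P hP => by
    obtain ⟨a, ha, rfl⟩ := Multiset.mem_map.mp hP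
    exact sq_eval_of_root r.dvd ha
  refine ⟨_, ?_, hs, ?_⟩
  · rw [Multiset.card_map]; exact (card_roots' U).trans r.le
  · exact r.cls.unique (H.mum_split r.monic (IsAlgClosed.splits U) r.dvd ▸ H.cls_prod _ hs)

/-- Over an algebraically closed field every nonzero ideal is a product of ideals of points. -/
theorem Hy.exists_prod [IsAlgClosed K] (H : Hy D g) {I : Ideal (Crd D)} (hI : I ≠ ⊥) :
    ∃ s : Multiset (K × K), (∀ P ∈ s, P.2 ^ 2 = D.eval P.1) ∧ I = (s.map (PI D)).prod := by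
  obtain ⟨c, U, V, hc, hU, h, rfl⟩ := H.exists_mum hI
  have key : ∀ t : Multiset K, ∃ s : Multiset (K × K), (∀ P ∈ s, P.2 ^ 2 = D.eval P.1) ∧
      Ideal.span {algebraMap K[X] (Crd D) (t.map (X - C ·)).prod} = (s.map (PI D)).prod := by
    intro t
    induction t using Multiset.induction_on with
    | empty => exact ⟨0, by simp, by simp⟩
    | cons a t ih =>
      obtain ⟨s, hs, e⟩ := ih
      obtain ⟨b, hb⟩ := IsAlgClosed.exists_pow_nat_eq (D.eval a) two_pos
      refine ⟨(a, b) ::ₘ (a, -b) ::ₘ s, ?_, ?_⟩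
      · simp only [Multiset.mem_cons]
        rintro P (rfl | rfl | hP)
        exacts [hb, by simpa using hb, hs P hP]
      · simp only [Multiset.map_cons, Multiset.prod_cons, map_mul]
        rw [← Ideal.span_singleton_mul_span_singleton, e, ← mul_assoc,
          PI_mul_neg H.unit H.sep (P := (a, b)) hb, QuadraticAlgebra.algebraMap_eq]
  obtain ⟨s, hs, e⟩ := key c.roots
  refine ⟨s + U.roots.map fun a => (a, V.eval a), fun P hP => ?_, ?_⟩
  · rcases Multiset.mem_add.mp hP with hP | hP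
    · exact hs P hP
    · obtain ⟨a, ha, rfl⟩ := Multiset.mem_map.mp hP
      exact sq_eval_of_root h ha
  · rw [Multiset.map_add, Multiset.prod_add, ← e, ← H.mum_split hU (IsAlgClosed.splits U) h,
      ← QuadraticAlgebra.algebraMap_eq]
    conv_lhs => rw [(IsAlgClosed.splits c).eq_prod_roots, map_mul,
      Ideal.span_singleton_mul_left_unit ((isUnit_C.mpr (by simpa using hc)).map _)]

/-- The `2`-torsion classes are those of the ideals generated by `U` and `y` with `U ∣ D`. -/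
theorem Hy.two_torsion (H : Hy D g) {c : Pic (Crd D)} (hc : c ^ 2 = 1) :
    ∃ U, U ∣ D ∧ Rep D g c U 0 := by
  obtain ⟨U, V, r⟩ := H.exists_rep c
  have r' := r.inv H
  rw [← eq_inv_of_mul_eq_one_left ((sq c).symm.trans hc)] at r'
  have h2 : (2 : K[X]) ≠ 0 := by rw [← map_ofNat C]; exact C_ne_zero.mpr H.two
  obtain rfl : V = 0 := (mul_eq_zero.mp (show 2 * V = 0 by
    linear_combination (r.unique H r').2)).resolve_left h2
  exact ⟨U, by simpa using r.dvd, r⟩

theorem Hy.span_pair_pow (H : Hy D g) {u w : Crd D} (h : Ideal.span {u, w} ≠ ⊥) (n : ℕ) :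
    Ideal.span {u, w} ^ n = Ideal.span {u ^ n, w ^ n} := by
  have := H.isDomain
  have hu : Ideal.span {u} ≤ Ideal.span {u, w} := Ideal.span_mono (by simp)
  have hw : Ideal.span {w} ≤ Ideal.span {u, w} := Ideal.span_mono (by simp)
  rw [Ideal.span_insert (u ^ n), ← Ideal.span_singleton_pow, ← Ideal.span_singleton_pow]
  refine le_antisymm (H.cancel (pow_ne_zero n h) ?_)
    (sup_le (Ideal.pow_right_mono hu n) (Ideal.pow_right_mono hw n))
  have e : Ideal.span {u, w} = Ideal.span {u} + Ideal.span {w} := Ideal.span_insert _ _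
  rw [← pow_add]
  conv_lhs => rw [e, add_pow, Ideal.sum_eq_sup]
  refine Finset.sup_le fun i hi => Ideal.mul_le_left.trans ?_
  rw [Finset.mem_range] at hi
  rcases le_total n i with hn | hn
  · obtain ⟨j, rfl⟩ := Nat.exists_eq_add_of_le hn
    calc _ = (Ideal.span {u} ^ j * Ideal.span {w} ^ (n - j)) * Ideal.span {u} ^ n := by
          rw [show n + n - (n + j) = n - j by omega]; ring
      _ ≤ (Ideal.span {u, w} ^ j * Ideal.span {u, w} ^ (n - j)) * _ :=
          Ideal.mul_mono (Ideal.mul_mono (Ideal.pow_right_mono hu _) (Ideal.pow_right_mono hw _))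
            le_sup_left
      _ = _ := by rw [← pow_add, show j + (n - j) = n by omega]
  · calc _ = (Ideal.span {u} ^ i * Ideal.span {w} ^ (n - i)) * Ideal.span {w} ^ n := by
          rw [show n + n - i = n - i + n by omega]; ring
      _ ≤ (Ideal.span {u, w} ^ i * Ideal.span {u, w} ^ (n - i)) * _ :=
          Ideal.mul_mono (Ideal.mul_mono (Ideal.pow_right_mono hu _) (Ideal.pow_right_mono hw _))
            le_sup_right
      _ = _ := by rw [← pow_add, show i + (n - i) = n by omega]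

theorem Cls.pow {R : Type} [CommRing R] [IsDomain R] {I : Ideal R} {c : Pic R} (h : Cls I c)
    (n : ℕ) : Cls (I ^ n) (c ^ n) := by
  induction n with
  | zero => simpa [← Ideal.span_singleton_one] using cls_span (one_ne_zero (α := R))
  | succ n ih => rw [pow_succ, pow_succ]; exact ih.mul h

/-- (M4) Over a purely inseparable extension a `q`-power multiple of every class descends. -/
theorem Hy.pow_mem_range (H : Hy D g) (φ : K →+* L) {E : L[X]} (h : D.map φ = E) (q : ℕ)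
    [ExpChar L q] (hφ : ∀ a : L, ∃ e, a ^ q ^ e ∈ φ.range) (c : Pic (Crd E)) :
    ∃ e, c ^ q ^ e ∈ (pmap φ h).range := by
  have HE := H.map φ h
  have := HE.isDomain
  have := H.isDomain
  have : ExpChar (Crd E) q := expChar_of_injective_algebraMap
    (QuadraticAlgebra.algebraMap_injective (R := L[X])) q
  let p : Crd E → Prop := fun z => ∃ e, z ^ q ^ e ∈ (cmap φ h).range
  have hboth : ∀ z w, p z → p w →
      ∃ e, z ^ q ^ e ∈ (cmap φ h).range ∧ w ^ q ^ e ∈ (cmap φ h).range := by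
    rintro z w ⟨e, he⟩ ⟨f, hf⟩
    refine ⟨e + f, ?_, ?_⟩
    · rw [pow_add, pow_mul]; exact pow_mem he _
    · rw [add_comm, pow_add, pow_mul]; exact pow_mem hf _
  have hadd : ∀ z w, p z → p w → p (z + w) := fun z w hz hw => by
    obtain ⟨e, h1, h2⟩ := hboth z w hz hw
    exact ⟨e, by rw [add_pow_expChar_pow]; exact add_mem h1 h2⟩
  have hmul : ∀ z w, p z → p w → p (z * w) := fun z w hz hw => by
    obtain ⟨e, h1, h2⟩ := hboth z w hz hw
    exact ⟨e, by rw [mul_pow]; exact mul_mem h1 h2⟩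
  have hpol : ∀ f : L[X], p (algebraMap _ _ f) := fun f => by
    induction f using Polynomial.induction_on' with
    | add f g hf hg => rw [map_add]; exact hadd _ _ hf hg
    | monomial n a =>
      rw [← C_mul_X_pow_eq_monomial, map_mul]
      obtain ⟨e, b, hb⟩ := hφ a
      refine hmul _ _ ⟨e, ⟨C b, 0⟩, ?_⟩ ⟨0, ⟨X ^ n, 0⟩, ?_⟩
      · rw [← map_pow, ← map_pow, ← hb]; ext1 <;> simp [cmap]
      · rw [pow_zero, pow_one]; ext1 <;> simp [cmap, -map_pow]
  obtain ⟨U, V, r⟩ := HE.exists_rep c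
  have hw : p ⟨-V, 1⟩ := by
    have : (⟨-V, 1⟩ : Crd E) = algebraMap _ _ (-V) + ⟨0, 1⟩ := by ext1 <;> simp
    rw [this]
    exact hadd _ _ (hpol _) ⟨0, ⟨0, 1⟩, by rw [pow_zero, pow_one]; ext1 <;> simp [cmap]⟩
  obtain ⟨e, ⟨u, hu⟩, ⟨w, hw⟩⟩ := hboth _ _ (hpol U) hw
  have e1 : (Ideal.span {u, w}).map (cmap φ h) = Mum E U V ^ q ^ e := by
    rw [Ideal.map_span, Set.image_pair, hu, hw, Mum, HE.span_pair_pow mum_ne_bot,
      QuadraticAlgebra.algebraMap_eq]
  have n1 : (Ideal.span {u, w}).map (cmap φ h) ≠ ⊥ := e1 ▸ pow_ne_zero _ mum_ne_bot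
  have n2 : Ideal.span {u, w} ≠ ⊥ := fun h0 => n1 (by rw [h0, Ideal.map_bot])
  exact ⟨e, _, ((H.cls_spec n2).map _ n1).unique (e1 ▸ r.cls.pow _)⟩

/-- (M4) Over a purely inseparable extension a class descends if a `2`-power multiple does. -/
theorem Hy.mem_range_of_two_pow (H : Hy D g) (φ : K →+* L) {E : L[X]} (h : D.map φ = E) (q : ℕ)
    [ExpChar L q] (hφ : ∀ a : L, ∃ e, a ^ q ^ e ∈ φ.range) {c : Pic (Crd E)} {j : ℕ}
    (hc : c ^ 2 ^ j ∈ (pmap φ h).range) : c ∈ (pmap φ h).range := by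
  obtain ⟨e, he⟩ := H.pow_mem_range φ h q hφ c
  have hq : Nat.Coprime 2 q := by
    cases ‹ExpChar L q› with
    | zero => simp
    | prime hp =>
      refine (Nat.coprime_primes Nat.prime_two hp).mpr ?_
      rintro rfl
      exact (H.map φ h).two (by exact_mod_cast CharP.cast_eq_zero L 2)
  rw [← QuotientGroup.eq_one_iff] at hc he ⊢
  rw [QuotientGroup.mk_pow] at hc he
  have := pow_gcd_eq_one.mpr ⟨hc, he⟩
  rwa [Nat.Coprime.pow j e hq, pow_one] at this

end Pool.Agent.Bs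
end

-- merged part: Pool.Agent.Work.MP_60d5ce_nt.Bs.Red
section
/-!
# Good reduction: inertia does not move a class by a nonzero `2`-power torsion class
-/

namespace Pool.Agent.Bs

open Polynomial CommRing QuadraticAlgebra IsLocalRing

variable {K : Type} [Field K] {D : K[X]} {g : ℕ}

theorem star_PI {A : Type} [CommRing A] {D : A[X]} (P : A × A) :
    (PI D P).map (starRingEnd (Crd D)) = PI D (P.1, -P.2) := by
  rw [star_mum]; simp [PI]

theorem span_norm {A : Type} [CommRing A] {D : A[X]} (ψ : Crd D) :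
    Ideal.span {(⟨norm ψ, 0⟩ : Crd D)} =
      Ideal.span {ψ} * (Ideal.span {ψ}).map (starRingEnd (Crd D)) := by
  rw [Ideal.map_span, Set.image_singleton, Ideal.span_singleton_mul_span_singleton,
    starRingEnd_apply, ← algebraMap_norm_eq_mul_star, QuadraticAlgebra.algebraMap_eq]

theorem Hy.prod_mul_star (H : Hy D g) (s : Multiset (K × K)) (hs : ∀ P ∈ s, P.2 ^ 2 = D.eval P.1) :
    (s.map (PI D)).prod * ((s.map (PI D)).prod).map (starRingEnd (Crd D)) =
      Ideal.span {⟨(s.map fun P => X - C P.1).prod, 0⟩} := by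
  induction s using Multiset.induction_on with
  | empty => simp [Ideal.map_top]; exact Ideal.span_singleton_one.symm
  | cons P s ih =>
    simp only [Multiset.map_cons, Multiset.prod_cons, Ideal.map_mul, star_PI]
    rw [mul_mul_mul_comm, ih fun Q hQ => hs Q (Multiset.mem_cons_of_mem hQ),
      PI_mul_neg H.unit H.sep (hs P (Multiset.mem_cons_self ..)),
      Ideal.span_singleton_mul_span_singleton]
    congr 2
    ext1 <;> simp

theorem Hy.norm_of_prod (H : Hy D g) (s : Multiset (K × K)) (hs : ∀ P ∈ s, P.2 ^ 2 = D.eval P.1)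
    {ψ : Crd D} (h : (s.map (PI D)).prod = Ideal.span {ψ}) :
    ∃ u : K, u ≠ 0 ∧ norm ψ = C u * (s.map fun P => X - C P.1).prod := by
  have e := H.prod_mul_star s hs
  rw [h, ← span_norm] at e
  have d1 := Ideal.mem_span_singleton.mp (e ▸ Ideal.mem_span_singleton_self _)
  have d2 := Ideal.mem_span_singleton.mp (e.symm ▸ Ideal.mem_span_singleton_self _)
  rw [← QuadraticAlgebra.algebraMap_eq, ← QuadraticAlgebra.algebraMap_eq,
    algebraMap_dvd_iff_dvd] at d1 d2
  obtain ⟨u, hu⟩ := associated_of_dvd_dvd d1 d2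
  obtain ⟨r, hr, e⟩ := Polynomial.isUnit_iff.mp u.isUnit
  exact ⟨r, hr.ne_zero, by rw [e, mul_comm, hu]⟩

theorem norm_cmap {A B : Type} [CommRing A] [CommRing B] (φ : A →+* B) {D : A[X]} {E : B[X]}
    (h : D.map φ = E) (z : Crd D) : norm (cmap φ h z) = (norm z).map φ := by
  simp [norm_crd, cmap, h]

variable (O : ValuationSubring K)

open Classical in
/-- The residue of `a`, or `0` if `a` is not integral. -/
noncomputable def rs (a : K) : ResidueField O := if h : a ∈ O then residue O ⟨a, h⟩ else 0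

theorem rs_coe (a : O) : rs O a = residue O a := dif_pos a.2

theorem rs_neg (a : K) : rs O (-a) = -rs O a := by
  by_cases h : a ∈ O
  · rw [rs, rs, dif_pos h, dif_pos (neg_mem h), ← map_neg]; rfl
  · rw [rs, rs, dif_neg h, dif_neg (by simpa using h), neg_zero]

open Classical in
/-- The ideal of the reduction of the point `P`. -/
noncomputable def rI (D₀ : O[X]) (P : K × K) : Ideal (Crd (D₀.map (residue O))) :=
  if P.1 ∈ O then PI _ (rs O P.1, rs O P.2) else ⊤

variable {O} {D₀ : O[X]}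

theorem rI_coe (a b : O) : rI O D₀ (a, b) = PI _ (residue O a, residue O b) := by
  rw [rI, if_pos a.2, rs_coe, rs_coe]

theorem rI_neg (P : K × K) : rI O D₀ (P.1, -P.2) = (rI O D₀ P).map (starRingEnd _) := by
  unfold rI
  split_ifs
  · rw [star_PI, rs_neg]
  · rw [Ideal.map_top]

theorem pt_cases (hD : D₀.map O.subtype = D) {P : K × K} (h : P.2 ^ 2 = D.eval P.1) :
    P.1 ∉ O ∨ ∃ a b : O, P = (↑a, ↑b) ∧ b ^ 2 = D₀.eval a := by
  refine or_iff_not_imp_left.mpr fun ha => ?_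
  rw [not_not] at ha
  have e : D.eval P.1 = (D₀.eval ⟨P.1, ha⟩ : O) := by
    rw [← hD]; exact eval_map_apply O.subtype ⟨P.1, ha⟩
  have hb : P.2 ∈ O := by
    rw [← O.valuation_le_one_iff, ← pow_le_one_iff two_ne_zero, ← map_pow, h, e]
    exact O.valuation_le_one _
  exact ⟨⟨_, ha⟩, ⟨_, hb⟩, rfl, Subtype.ext (h.trans e)⟩

theorem res_pt {a b : O} (h : b ^ 2 = D₀.eval a) :
    residue O b ^ 2 = (D₀.map (residue O)).eval (residue O a) := by
  rw [eval_map_apply, ← h, map_pow]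

theorem red_mem (hD : D₀.map O.subtype = D) (H : Hy D g) (H₀ : Hy (D₀.map (residue O)) g)
    (s : Multiset (K × K)) (hs : ∀ P ∈ s, P.2 ^ 2 = D.eval P.1) (ψ : Crd D₀)
    (h : cmap O.subtype hD ψ ∈ (s.map (PI D)).prod) :
    cmap (residue O) rfl ψ ∈ (s.map (rI O D₀)).prod := by
  have := H.isDomain
  induction s using Multiset.induction_on generalizing ψ with
  | empty => simp
  | cons P s ih =>
    replace ih := ih fun Q hQ => hs Q (Multiset.mem_cons_of_mem hQ)
    have hP := hs P (Multiset.mem_cons_self ..)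
    rw [Multiset.map_cons, Multiset.prod_cons] at h ⊢
    rcases pt_cases hD hP with ha | ⟨a, b, rfl, hab⟩
    · rw [rI, if_neg ha, Ideal.top_mul]
      exact ih ψ (Ideal.mul_le_right h)
    rw [rI_coe, ← Ideal.span_singleton_le_iff_mem]
    refine H₀.cancel (I := (PI D₀ (a, -b)).map (cmap (residue O) rfl))
      (by rw [map_PI]; exact mum_ne_bot) ?_
    rw [← Set.image_singleton, ← Ideal.map_span, ← Ideal.map_mul, Ideal.map_le_iff_le_comap,
      mul_comm, Ideal.span_singleton_mul_le_iff]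
    intro χ hχ
    have h1 := Ideal.mul_mem_mul h (Ideal.mem_map_of_mem (cmap O.subtype hD) hχ)
    rw [map_PI, mul_right_comm, ← map_mul, map_neg] at h1
    erw [PI_mul_neg H.unit H.sep hP] at h1
    have hm : (X - C a).map O.subtype = X - C (a : K) := by simp
    obtain ⟨d1, d2⟩ := dvd_of_mem_span h1
    obtain ⟨w₁, e1⟩ := (map_dvd_map O.subtype O.subtype_injective (monic_X_sub_C a)).mp (hm ▸ d1)
    obtain ⟨w₂, e2⟩ := (map_dvd_map O.subtype O.subtype_injective (monic_X_sub_C a)).mp (hm ▸ d2)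
    have e : ψ * χ = ⟨X - C a, 0⟩ * ⟨w₁, w₂⟩ := by
      ext1
      · rw [e1]; simp
      · rw [e2]; simp
    obtain ⟨w, hw, e'⟩ := Ideal.mem_span_singleton_mul.mp h1
    have e3 : cmap O.subtype hD ⟨X - C a, 0⟩ = ⟨X - C (a : K), 0⟩ := by ext1 <;> simp [cmap]
    rw [e, map_mul, e3] at e'
    have h2 := ih ⟨w₁, w₂⟩ (mul_left_cancel₀ (mk_ne_zero (X_sub_C_ne_zero _)) e' ▸ hw)
    rw [Ideal.mem_comap, e, map_mul, map_PI, ← mul_assoc, mul_comm (PI _ _), map_neg]
    erw [PI_mul_neg H₀.unit H₀.sep (P := (residue O a, residue O b)) (res_pt hab)]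
    refine Ideal.mul_mem_mul ?_ h2
    convert Ideal.mem_span_singleton_self _ using 1
    ext1 <;> simp [cmap]

theorem exists_lift {p : K[X]} (h : ∀ n, p.coeff n ∈ O) : ∃ q : O[X], q.map O.subtype = p :=
  (mem_lifts p).mp ((lifts_iff_coeff_lifts p).mpr fun n => ⟨⟨_, h n⟩, rfl⟩)

theorem exists_primitive' (hD : D₀.map O.subtype = D) {ψ : Crd D} (h : ψ ≠ 0) :
    ∃ (ψ₀ : Crd D₀) (m : K), m ≠ 0 ∧ cmap O.subtype hD ψ₀ = algebraMap K[X] _ (C m⁻¹) * ψ ∧
      cmap (residue O) rfl ψ₀ ≠ 0 := by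
  classical
  have hne : (ψ.re.coeffs ∪ ψ.im.coeffs).Nonempty := by
    by_contra hc
    rw [Finset.not_nonempty_iff_eq_empty, Finset.union_eq_empty, coeffs_empty_iff,
      coeffs_empty_iff] at hc
    exact h (by ext1 <;> simp [hc])
  obtain ⟨m, hm, hmax⟩ := Finset.exists_max_image _ O.valuation hne
  have hm0 : m ≠ 0 := by
    rintro rfl
    rcases Finset.mem_union.mp hm with h | h <;> simp [mem_coeffs_iff, eq_comm] at h
  have key : ∀ p : K[X], p.coeffs ⊆ ψ.re.coeffs ∪ ψ.im.coeffs →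
      ∃ q : O[X], q.map O.subtype = C m⁻¹ * p ∧ (m ∈ p.coeffs → q.map (residue O) ≠ 0) := by
    intro p hp
    obtain ⟨q, hq⟩ := exists_lift (O := O) (p := C m⁻¹ * p) fun n => by
      rw [coeff_C_mul]
      by_cases e : p.coeff n = 0
      · simp [e]
      · rw [← O.valuation_le_one_iff, map_mul, map_inv₀,
          inv_mul_le_one₀ (zero_lt_iff.mpr (by simpa using hm0))]
        exact hmax _ (hp (coeff_mem_coeffs e))
    refine ⟨q, hq, fun h h0 => ?_⟩
    obtain ⟨n, -, e⟩ := mem_coeffs_iff.mp h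
    have h1 : q.coeff n = 1 := by
      apply O.subtype_injective
      rw [← coeff_map, hq, coeff_C_mul, ← e, inv_mul_cancel₀ hm0, map_one]
    simpa [h1] using congrArg (coeff · n) h0
  obtain ⟨q₁, e1, n1⟩ := key _ Finset.subset_union_left
  obtain ⟨q₂, e2, n2⟩ := key _ Finset.subset_union_right
  refine ⟨⟨q₁, q₂⟩, m, hm0, ?_, fun h0 => ?_⟩
  · ext1 <;> simp [cmap, e1, e2]
  · rcases Finset.mem_union.mp hm with h | h
    exacts [n1 h (congrArg re h0), n2 h (congrArg im h0)]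

theorem exists_primitive (hD : D₀.map O.subtype = D) {ψ : Crd D} (h : ψ ≠ 0) :
    ∃ ψ₀ : Crd D₀, Ideal.span {cmap O.subtype hD ψ₀} = Ideal.span {ψ} ∧
      cmap (residue O) rfl ψ₀ ≠ 0 := by
  obtain ⟨ψ₀, m, hm, e, n⟩ := exists_primitive' hD h
  refine ⟨ψ₀, ?_, n⟩
  rw [e, Ideal.span_singleton_mul_left_unit ((isUnit_C.mpr (by simpa using hm)).map _)]

theorem exists_G (hD : D₀.map O.subtype = D) (H₀ : Hy (D₀.map (residue O)) g)
    (s : Multiset (K × K)) (hs : ∀ P ∈ s, P.2 ^ 2 = D.eval P.1) :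
    ∃ (G : O[X]) (u : K), u ≠ 0 ∧ G.map O.subtype = C u * (s.map fun P => X - C P.1).prod ∧
      G.map (residue O) ≠ 0 ∧ (s.map (rI O D₀)).prod *
        ((s.map (rI O D₀)).prod).map (starRingEnd _) = Ideal.span {⟨G.map (residue O), 0⟩} := by
  induction s using Multiset.induction_on with
  | empty =>
    refine ⟨1, 1, one_ne_zero, by simp, by simp, ?_⟩
    simp [Ideal.map_top]; exact Ideal.span_singleton_one.symm
  | cons P s ih =>
    obtain ⟨G, u, hu, e, n, h⟩ := ih fun Q hQ => hs Q (Multiset.mem_cons_of_mem hQ)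
    simp only [Multiset.map_cons, Multiset.prod_cons, Ideal.map_mul]
    rcases pt_cases hD (hs P (Multiset.mem_cons_self ..)) with ha | ⟨a, b, rfl, hab⟩
    · have hi := (O.mem_or_inv_mem P.1).resolve_left ha
      have h0 : P.1 ≠ 0 := fun h => ha (h ▸ zero_mem _)
      have hr : residue O ⟨_, hi⟩ = 0 := by
        rw [residue_eq_zero_iff, O.valuation_lt_one_iff]
        rw [← O.valuation_le_one_iff, not_le] at ha
        simpa using inv_lt_one_of_one_lt₀ ha
      refine ⟨(1 - C ⟨_, hi⟩ * X) * G, -P.1⁻¹ * u, by simp [h0, hu], ?_, by simpa [hr] using n, ?_⟩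
      · have : C P.1⁻¹ * C P.1 = 1 := by rw [← Polynomial.C_mul, inv_mul_cancel₀ h0, C_1]
        simp only [Polynomial.map_mul, e, Polynomial.map_sub, map_C, map_X, Polynomial.map_one,
          map_mul, map_neg, ValuationSubring.subtype_apply]
        linear_combination (-C u * (s.map fun P => X - C P.1).prod) * this
      · rw [rI, if_neg ha, Ideal.map_top, Ideal.top_mul, Ideal.top_mul, h]
        simp [hr]
    · refine ⟨(X - C a) * G, u, hu, ?_, ?_, ?_⟩
      · simp only [Polynomial.map_mul, e, Polynomial.map_sub, map_C, map_X,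
          ValuationSubring.subtype_apply]
        ring
      · simpa [n] using X_sub_C_ne_zero _
      · rw [mul_mul_mul_comm, h, rI_coe, star_PI,
          PI_mul_neg H₀.unit H₀.sep (P := (residue O a, residue O b)) (res_pt hab),
          Ideal.span_singleton_mul_span_singleton]
        congr 2
        ext1 <;> simp

/-- The reduction of a principal divisor is principal. -/
theorem red_principal (hD : D₀.map O.subtype = D) (H : Hy D g) (H₀ : Hy (D₀.map (residue O)) g)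
    (s : Multiset (K × K)) (hs : ∀ P ∈ s, P.2 ^ 2 = D.eval P.1) (h : Cls (s.map (PI D)).prod 1) :
    Cls (s.map (rI O D₀)).prod 1 := by
  have := H.isDomain
  have := H₀.isDomain
  obtain ⟨ψ', h0, e⟩ := h.principal
  obtain ⟨ψ, e', n⟩ := exists_primitive hD h0
  rw [← e'] at e
  have hm := red_mem hD H H₀ s hs ψ (e ▸ Ideal.mem_span_singleton_self _)
  obtain ⟨v, hv, eN⟩ := H.norm_of_prod s hs e
  obtain ⟨G, u, hu, eG, nG, hT⟩ := exists_G hD H₀ s hs
  rw [norm_cmap] at eN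
  have nN := H₀.norm_ne_zero n
  have hd : norm (cmap (residue O) rfl ψ) ∣ G.map (residue O) := by
    rw [norm_cmap] at nN ⊢
    rcases O.mem_or_inv_mem (v / u) with hi | hi
    · have : norm ψ = C ⟨_, hi⟩ * G := by
        apply map_injective O.subtype O.subtype_injective
        rw [Polynomial.map_mul, eN, eG, map_C, ← mul_assoc, ← Polynomial.C_mul]
        simp [hu]
      rw [this, Polynomial.map_mul, map_C] at nN ⊢
      exact (IsUnit.mul_left_dvd (isUnit_C.mpr (C_ne_zero.mp (left_ne_zero_of_mul nN)).isUnit)).mpr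
        dvd_rfl
    · refine Polynomial.map_dvd _ (Dvd.intro_left (C ⟨_, hi⟩) ?_)
      apply map_injective O.subtype O.subtype_injective
      rw [Polynomial.map_mul, eN, eG, map_C, ← mul_assoc, ← Polynomial.C_mul]
      simp [hv]
  generalize (s.map (rI O D₀)).prod = T at hm hT
  generalize cmap (residue O) rfl ψ = z at hm hd n
  rw [← Ideal.span_singleton_le_iff_mem] at hm
  have nT : T.map (starRingEnd _) ≠ ⊥ := fun h => mk_ne_zero nG (by
    rw [h, Ideal.mul_bot, eq_comm, Ideal.span_singleton_eq_bot] at hT; exact hT)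
  rw [le_antisymm (H₀.cancel nT ?_) hm]
  · exact cls_span n
  rw [mul_comm, hT, mul_comm]
  refine le_trans ?_ (Ideal.mul_mono_right (Ideal.map_mono hm))
  rw [← span_norm, Ideal.span_singleton_le_span_singleton, ← QuadraticAlgebra.algebraMap_eq,
    ← QuadraticAlgebra.algebraMap_eq]
  exact map_dvd _ hd

theorem root_mem (hD : D₀.map O.subtype = D) (H : Hy D g) (H₀ : Hy (D₀.map (residue O)) g) {w : K}
    (hw : D.eval w = 0) : w ∈ O := by
  have hd : D₀.natDegree = 2 * g + 1 := by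
    rw [← H.deg, ← hD, natDegree_map_eq_of_injective O.subtype_injective]
  have hl : residue O D₀.leadingCoeff ≠ 0 := by
    rw [leadingCoeff, ← coeff_map, hd, ← H₀.deg]
    exact leadingCoeff_ne_zero.mpr H₀.ne_zero
  obtain ⟨i, hi⟩ := ((residue_ne_zero_iff_isUnit _).mp hl).exists_left_inv
  have h1 := isIntegral_leadingCoeff_smul D₀ w (by
    rw [aeval_def, ← eval_map]; exact hD ▸ hw)
  obtain ⟨y, hy⟩ := IsIntegrallyClosed.isIntegral_iff.mp h1
  have : w = (i * y : O) := by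
    change w = algebraMap O K (i * y)
    rw [map_mul, hy, ← Algebra.smul_def, smul_smul, hi, one_smul]
  exact this ▸ (i * y).2

/-- Inertia at a place of good reduction does not move a class by a `2`-power torsion class. -/
theorem Hy.red [IsAlgClosed K] (O : ValuationSubring K) (D₀ : O[X]) (hD : D₀.map O.subtype = D)
    (H : Hy D g) (H₀ : Hy (D₀.map (residue O)) g) (τ : K →+* K) (ht : D.map τ = D)
    (h1 : ∀ a, τ a ∈ O ↔ a ∈ O) (h2 : ∀ a ∈ O, O.valuation (τ a - a) < 1) (c : Pic (Crd D))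
    (j : ℕ) (hc : (pmap τ ht c / c) ^ 2 ^ j = 1) : pmap τ ht c = c := by
  induction j generalizing c with
  | zero => simpa [div_eq_one] using hc
  | succ j ih =>
  have h2' : (pmap τ ht c / c) ^ 2 = 1 := by
    rw [div_pow, ← map_pow, div_eq_one]
    exact ih _ (by rw [map_pow, ← div_pow, ← pow_mul, ← pow_succ', hc])
  clear ih hc
  have := H.isDomain
  have := H₀.isDomain
  have hrs : ∀ a, rs O (τ a) = rs O a := fun a => by
    by_cases ha : a ∈ O
    · rw [rs, rs, dif_pos ha, dif_pos ((h1 a).mpr ha), ← sub_eq_zero, ← map_sub,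
        residue_eq_zero_iff, O.valuation_lt_one_iff]
      exact h2 a ha
    · rw [rs, rs, dif_neg ha, dif_neg (mt (h1 a).mp ha)]
  obtain ⟨u, hu, r⟩ := H.two_torsion h2'
  obtain ⟨s, -, hs, rfl⟩ := H.exists_pts c
  have hs1 : ∀ P ∈ s.map fun P => (τ P.1, τ P.2), P.2 ^ 2 = D.eval P.1 := fun P hP => by
    obtain ⟨Q, hQ, rfl⟩ := Multiset.mem_map.mp hP
    conv_rhs => rw [← ht, eval_map_apply, ← hs Q hQ, map_pow]
  have hs2 : ∀ P ∈ s.map fun P => (P.1, -P.2), P.2 ^ 2 = D.eval P.1 := fun P hP => by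
    obtain ⟨Q, hQ, rfl⟩ := Multiset.mem_map.mp hP
    simpa using hs Q hQ
  have hw : ∀ w ∈ u.roots, D.eval w = 0 := fun w hw => (isRoot_of_mem_roots hw).dvd hu
  have hs3 : ∀ P ∈ u.roots.map fun w => (w, (0 : K[X]).eval w), P.2 ^ 2 = D.eval P.1 :=
    fun P hP => by
      obtain ⟨w, h, rfl⟩ := Multiset.mem_map.mp hP
      simp [hw w h]
  have c1 := H.cls_prod _ hs1
  have c2 := H.cls_prod _ hs2
  have c3 := r.cls
  rw [H.mum_split r.monic (IsAlgClosed.splits u) r.dvd] at c3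
  have e1 : ((s.map fun P => (τ P.1, τ P.2)).map fun P => pt D P.1 P.2).prod =
      pmap τ ht (s.map fun P => pt D P.1 P.2).prod := by
    rw [map_multiset_prod, Multiset.map_map, Multiset.map_map]
    exact congrArg _ (Multiset.map_congr rfl fun P hP => (H.pmap_pt (hs P hP) τ ht).symm)
  have e2 : ((s.map fun P => (P.1, -P.2)).map fun P => pt D P.1 P.2).prod =
      (s.map fun P => pt D P.1 P.2).prod⁻¹ := by
    rw [← Multiset.prod_map_inv, Multiset.map_map]
    exact congrArg _ (Multiset.map_congr rfl fun P hP => H.pt_neg (hs P hP))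
  have c4 := (c1.mul c2).mul c3
  rw [e1, e2, ← div_eq_mul_inv, ← sq, h2', ← Multiset.prod_add, ← Multiset.prod_add,
    ← Multiset.map_add, ← Multiset.map_add] at c4
  have c5 := red_principal hD H H₀ _ (by
    simp only [Multiset.mem_add]
    rintro P ((h | h) | h)
    exacts [hs1 P h, hs2 P h, hs3 P h]) c4
  obtain ⟨G, -, -, -, nG, hT⟩ := exists_G hD H₀ s hs
  have e3 : ((s.map fun P => (τ P.1, τ P.2)).map (rI O D₀)).prod = (s.map (rI O D₀)).prod := by
    rw [Multiset.map_map]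
    exact congrArg _ (Multiset.map_congr rfl fun P _ => by
      classical
      simp only [Function.comp, rI, hrs]; exact if_congr (h1 _) rfl rfl)
  have e4 : ((s.map fun P => (P.1, -P.2)).map (rI O D₀)).prod =
      ((s.map (rI O D₀)).prod).map (starRingEnd _) := by
    rw [← Ideal.mapHom_apply, map_multiset_prod, Multiset.map_map, Multiset.map_map]
    exact congrArg _ (Multiset.map_congr rfl fun P _ => rI_neg P)
  obtain ⟨t, et⟩ : ∃ t : Multiset O, t.map (↑) = u.roots :=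
    CanLift.prf _ fun w h => root_mem hD H H₀ (hw w h)
  have hd : ((t.map (residue O)).map (X - C ·)).prod ∣ 0 ^ 2 - D₀.map (residue O) := by
    have : (t.map (X - C ·)).prod ∣ D₀ := by
      rw [← map_dvd_map O.subtype O.subtype_injective
        (monic_multiset_prod_of_monic _ _ fun a _ => monic_X_sub_C a), hD]
      convert hu
      conv_rhs => rw [(IsAlgClosed.splits u).eq_prod_roots_of_monic r.monic, ← et]
      simp [Polynomial.map_multiset_prod]
    simpa [Polynomial.map_multiset_prod] using Polynomial.map_dvd (residue O) this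
  have e5 : ((u.roots.map fun w => (w, (0 : K[X]).eval w)).map (rI O D₀)).prod =
      Mum _ ((t.map (residue O)).map (X - C ·)).prod 0 := by
    rw [H₀.mum_prod _ hd, ← et]
    simp only [Multiset.map_map]
    exact congrArg _ (Multiset.map_congr rfl fun a _ => by simpa using rI_coe a 0)
  rw [Multiset.map_add, Multiset.map_add, Multiset.prod_add, Multiset.prod_add, e3, e4, hT,
    e5] at c5
  have c6 := ((cls_span (mk_ne_zero nG)).mul (H₀.cls_mum hd)).unique c5
  rw [one_mul] at c6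
  have hm := monic_multiset_prod_of_monic (t.map (residue O)) _ fun a _ => monic_X_sub_C a
  have hn : ((t.map (residue O)).map (X - C ·)).prod.natDegree = u.natDegree := by
    rw [natDegree_multiset_prod_X_sub_C_eq_card, Multiset.card_map,
      (IsAlgClosed.splits u).natDegree_eq_card_roots, ← et, Multiset.card_map]
  have r' : Rep _ g 1 _ 0 := ⟨hm, hn ▸ r.le, by simpa [bot_lt_iff_ne_bot] using hm.ne_zero, hd,
    c6 ▸ H₀.cls_mum hd⟩
  rw [(r'.unique H₀ (rep_one H₀)).1, natDegree_one] at hn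
  obtain rfl := r.monic.natDegree_eq_zero.mp hn.symm
  exact div_eq_one.mp (r.eq H (rep_one H))

end Pool.Agent.Bs
end

-- merged part: Pool.Agent.Work.MP_60d5ce_nt.Bs.HLoc
section
/-!
# The local estimate for a function vanishing to high order at a point
-/

namespace Pool.Agent.Bs

open Polynomial CommRing QuadraticAlgebra IsLocalRing

variable {K : Type} [Field K] {D : K[X]} {g : ℕ}

theorem pow_dvd_conj {A : Type} [CommRing A] (φ : A →+* K) (hφ : Function.Injective φ) {D₀ : A[X]}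
    (hD : D₀.map φ = D) (H : Hy D g) {u w : A[X]} {δ : A} (hδ : u * D₀ + w * derivative D₀ = C δ)
    {a b : A} (hab : b ^ 2 = D₀.eval a) (m : ℕ) (ψ : Crd D₀)
    (h : cmap φ hD ψ ∈ PI D (φ a, φ b) ^ m) : b ^ m ∣ δ ^ m * (ψ.re.eval a - b * ψ.im.eval a) := by
  have := H.isDomain
  induction m generalizing ψ with
  | zero => simp
  | succ m ih =>
    have hP : φ b ^ 2 = D.eval (φ a) := by rw [← hD, eval_map_apply, ← hab, map_pow]
    obtain ⟨s, hs⟩ := ih ψ (Ideal.pow_le_pow_right m.le_succ h)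
    have hχ : (⟨-C (-b), 1⟩ : Crd D₀) ∈ PI D₀ (a, -b) := right_mem_mum
    have h1 := Ideal.mul_mem_mul h (Ideal.mem_map_of_mem (cmap φ hD) hχ)
    rw [map_PI, pow_succ, mul_assoc, ← map_mul, map_neg, mul_comm (_ ^ m)] at h1
    erw [PI_mul_neg H.unit H.sep (P := (φ a, φ b)) hP] at h1
    have hm : (X - C a).map φ = X - C (φ a) := by simp
    obtain ⟨d1, d2⟩ := dvd_of_mem_span h1
    obtain ⟨w₁, e1⟩ := (map_dvd_map φ hφ (monic_X_sub_C a)).mp (hm ▸ d1)
    obtain ⟨w₂, e2⟩ := (map_dvd_map φ hφ (monic_X_sub_C a)).mp (hm ▸ d2)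
    have e : ψ * ⟨-C (-b), 1⟩ = ⟨X - C a, 0⟩ * ⟨w₁, w₂⟩ := by
      ext1
      · rw [e1]; simp
      · rw [e2]; simp
    obtain ⟨z, hz, e'⟩ := Ideal.mem_span_singleton_mul.mp h1
    have e3 : cmap φ hD ⟨X - C a, 0⟩ = ⟨X - C (φ a), 0⟩ := by ext1 <;> simp [cmap]
    rw [e, map_mul, e3] at e'
    obtain ⟨r, hr⟩ := ih ⟨w₁, w₂⟩ (mul_left_cancel₀ (mk_ne_zero (X_sub_C_ne_zero _)) e' ▸ hz)
    have f0 := congrArg (eval a) e2
    have f1 := congrArg (fun f => (derivative f).eval a) e1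
    have f2 := congrArg (fun f => (derivative f).eval a) e2
    have f3 := congrArg (eval a) hδ
    simp at f0 f1 f2 f3 hr
    refine ⟨u.eval a * b * s - 2 * w.eval a * r, ?_⟩
    have k : (ψ.re.eval a - b * ψ.im.eval a) * (derivative D₀).eval a =
        -2 * b * (w₁.eval a - b * w₂.eval a) := by
      linear_combination (derivative D₀).eval a * f0 - 2 * b * f1 + 2 * b * b * f2
        - 2 * b * (derivative ψ.im).eval a * hab
    linear_combination (-δ ^ m * (ψ.re.eval a - b * ψ.im.eval a)) * f3 + δ ^ m * w.eval a * k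
      + u.eval a * b ^ 2 * hs - 2 * b * w.eval a * hr
      - δ ^ m * (ψ.re.eval a - b * ψ.im.eval a) * u.eval a * hab

section Val

variable {Γ : Type} [LinearOrderedCommGroupWithZero Γ] (v : Valuation K Γ)

theorem val_eval_le {p : K[X]} (hp : ∀ i, v (p.coeff i) ≤ 1) {d : ℕ} (hd : p.natDegree ≤ d)
    (a : K) : v (p.eval a) ≤ max 1 (v a) ^ d := by
  rw [eval_eq_sum_range]
  refine v.map_sum_le fun i hi => ?_
  rw [map_mul, map_pow]
  calc _ ≤ 1 * max 1 (v a) ^ i := mul_le_mul' (hp i) (pow_le_pow_left' (le_max_right ..) i)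
    _ ≤ _ := by
      rw [one_mul]
      exact pow_le_pow_right' (le_max_left ..) (by rw [Finset.mem_range] at hi; omega)

theorem val_eval_monic {p : K[X]} (hp : ∀ i, v (p.coeff i) ≤ 1) (hm : p.Monic) {d : ℕ}
    (hd : p.natDegree = d + 1) {a : K} (ha : 1 < v a) : v (p.eval a) = v a ^ (d + 1) := by
  have h := val_eval_le v (p := p.eraseLead) (d := d) (fun i => by
    rw [eraseLead_coeff]; split_ifs; exacts [by simp, hp i])
    ((eraseLead_natDegree_le p).trans (by omega)) a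
  rw [max_eq_right ha.le] at h
  conv_lhs => rw [← p.eraseLead_add_C_mul_X_pow, hm.leadingCoeff, hd]
  simp only [map_one, one_mul, eval_add, eval_pow, eval_X]
  rw [v.map_add_eq_of_lt_right, map_pow]
  rw [map_pow]
  exact h.trans_lt (pow_lt_pow_right₀ ha d.lt_succ_self)

theorem val_coeff_prod (t : Multiset K) (i : ℕ) :
    v ((t.map (X - C ·)).prod.coeff i) ≤ (t.map fun a => max 1 (v a)).prod := by
  induction t using Multiset.induction_on generalizing i with
  | empty =>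
    simp only [Multiset.map_zero, Multiset.prod_zero, coeff_one]
    split_ifs <;> simp
  | cons a t ih =>
    simp only [Multiset.map_cons, Multiset.prod_cons]
    have h : ∀ j, v (a * (t.map (X - C ·)).prod.coeff j) ≤
        max 1 (v a) * (t.map fun a => max 1 (v a)).prod := fun j => by
      rw [map_mul]; exact mul_le_mul' (le_max_right ..) (ih j)
    cases i with
    | zero => simpa using h 0
    | succ i =>
      rw [coeff_X_sub_C_mul]
      exact v.map_sub_le ((ih i).trans (le_mul_of_one_le_left' (le_max_left ..))) (h _)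

end Val

theorem norm_ne_zero_of_odd (h : D.natDegree = 2 * g + 1) {z : Crd D} (hz : z ≠ 0) :
    norm z ≠ 0 := by
  rw [norm_crd, sub_ne_zero]
  intro e
  have hD : D ≠ 0 := by rintro rfl; simp at h
  by_cases h0 : z.im = 0
  · rw [h0] at e
    exact hz (by ext1 <;> simp_all)
  · have := congrArg natDegree e
    rw [natDegree_mul hD (pow_ne_zero _ h0), natDegree_pow, natDegree_pow] at this
    omega

theorem loc_monic (O : ValuationSubring K) {D₀ : O[X]} (hD : D₀.map O.subtype = D) (hm : D₀.Monic)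
    (H : Hy D g) {u w : O[X]} {δ : O} (hδ : u * D₀ + w * derivative D₀ = C δ) {ψ : Crd D} {c : K}
    {t : Multiset K} (hN : norm ψ = C c * (t.map (X - C ·)).prod) {a b : K}
    (hab : b ^ 2 = D.eval a) {m : ℕ} (hψ : ψ ∈ PI D (a, b) ^ m) :
    O.valuation (ψ.re.eval a - b * ψ.im.eval a) ^ 2 *
        (O.valuation δ ^ 2 * max 1 (O.valuation a) ^ (2 * g + 1)) ^ m ≤
      O.valuation c * (t.map fun a => max 1 (O.valuation a)).prod *
        max 1 (O.valuation a) ^ t.card * (O.valuation b ^ 2) ^ m := by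
  rcases eq_or_ne ψ 0 with rfl | h0
  · simp
  set v := O.valuation
  obtain ⟨ψ₀, l, hl, e, n⟩ := exists_primitive' hD h0
  have hc : c ≠ 0 := by rintro rfl; exact H.norm_ne_zero h0 (by simpa using hN)
  have hM : (norm ψ).natDegree = t.card := by
    rw [hN, natDegree_C_mul hc, natDegree_multiset_prod_X_sub_C_eq_card]
  have hd : D₀.natDegree = 2 * g + 1 := by
    rw [← H.deg, ← hD, natDegree_map_eq_of_injective O.subtype_injective]
  have hvl : 0 < v l := zero_lt_iff.mpr (by simpa using hl)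
  have h1 : v l ^ 2 ≤ v c * (t.map fun a => max 1 (v a)).prod := by
    have nN := norm_ne_zero_of_odd (g := g) (by rw [hm.natDegree_map, hd]) n
    rw [norm_cmap] at nN
    obtain ⟨i, hi⟩ : ∃ i, ((norm ψ₀).map (residue O)).coeff i ≠ 0 :=
      ⟨_, leadingCoeff_ne_zero.mpr nN⟩
    rw [coeff_map, residue_ne_zero_iff_isUnit, O.valuation_eq_one_iff] at hi
    have := congrArg (fun z => v ((norm z).coeff i)) e
    simp only [norm_cmap, coeff_map, map_mul, QuadraticAlgebra.norm_algebraMap, hN] at this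
    rw [← Polynomial.C_pow, coeff_C_mul, coeff_C_mul, map_mul, map_mul, map_pow, map_inv₀,
      show v (O.subtype _) = 1 from hi, inv_pow, eq_inv_mul_iff_mul_eq₀ (pow_ne_zero 2 hvl.ne'),
      mul_one] at this
    rw [this]
    exact mul_le_mul' le_rfl (val_coeff_prod v t i)
  have hre : ψ₀.re.map O.subtype = C l⁻¹ * ψ.re := by simpa [cmap] using congrArg re e
  have him : ψ₀.im.map O.subtype = C l⁻¹ * ψ.im := by simpa [cmap] using congrArg im e
  have hE : ψ.re.eval a - b * ψ.im.eval a =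
      l * ((ψ₀.re.map O.subtype).eval a - b * (ψ₀.im.map O.subtype).eval a) := by
    rw [hre, him]; simp; field_simp
  rw [hE, map_mul, mul_pow, mul_assoc, mul_assoc (_ * _)]
  refine mul_le_mul' h1 ?_
  rcases pt_cases hD (P := (a, b)) hab with ha | ⟨a₀, b₀, e', hab₀⟩
  · rw [← O.valuation_le_one_iff, not_le] at ha
    have hcf : ∀ (p : O[X]) i, v ((p.map O.subtype).coeff i) ≤ 1 := fun p i => by
      rw [coeff_map]; exact O.valuation_le_one _
    have hb : v b ^ 2 = max 1 (v a) ^ (2 * g + 1) := by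
      rw [← map_pow, hab, max_eq_right ha.le]
      exact val_eval_monic v (hD ▸ hcf D₀) (hD ▸ hm.map _) H.deg ha
    have hL : 1 ≤ max 1 (v a) := le_max_left ..
    rw [hb]
    refine mul_le_mul' ?_ (pow_le_pow_left' (mul_le_of_le_one_left'
      (pow_le_one' (O.valuation_le_one δ) 2)) m)
    have k1 := val_eval_le v (hcf ψ₀.re) (d := ψ.re.natDegree)
      (by rw [hre]; exact natDegree_C_mul_le _ _) a
    have k2 := val_eval_le v (hcf ψ₀.im) (d := ψ.im.natDegree)
      (by rw [him]; exact natDegree_C_mul_le _ _) a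
    by_cases h0 : ψ.im = 0
    · have : t.card = ψ.re.natDegree * 2 := by
        rw [← hM, norm_crd, h0]; simp [natDegree_pow, mul_comm]
      rw [him, h0, this, pow_mul]
      simpa using pow_le_pow_left' k1 2
    · have := H.natDegree_norm h0
      rcases le_max_iff.mp (v.map_sub ((ψ₀.re.map O.subtype).eval a)
        (b * (ψ₀.im.map O.subtype).eval a)) with h | h
      · refine (pow_le_pow_left' (h.trans k1) 2).trans ?_
        rw [← pow_mul]
        exact pow_le_pow_right' hL (by omega)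
      · refine (pow_le_pow_left' h 2).trans ?_
        rw [map_mul, mul_pow, hb]
        refine (mul_le_mul' le_rfl (pow_le_pow_left' k2 2)).trans ?_
        rw [← pow_mul, ← pow_add]
        exact pow_le_pow_right' hL (by omega)
  · obtain ⟨rfl, rfl⟩ := Prod.mk.inj e'
    obtain ⟨s, hs⟩ := pow_dvd_conj O.subtype O.subtype_injective hD H hδ hab₀ m ψ₀
      (e ▸ Ideal.mul_mem_left _ _ hψ)
    have := congrArg (fun z => v (O.subtype z)) hs
    simp only [map_mul, map_pow, map_sub, ← eval_map_apply] at this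
    rw [max_eq_left (O.valuation_le_one a₀), one_pow, one_pow, mul_one, one_mul, ← pow_mul,
      ← pow_mul, mul_comm 2 m, pow_mul, pow_mul, ← mul_pow, mul_comm]
    exact pow_le_pow_left' (this.trans_le (mul_le_of_le_one_right' (O.valuation_le_one s))) 2

end Pool.Agent.Bs
end

-- merged part: Pool.Agent.Work.MP_60d5ce_nt.Bs.HGood
section
/-!
# The local estimate with a constant that is uniform over a bounded family of valuations
-/

namespace Pool.Agent.Bs

open Polynomial CommRing QuadraticAlgebra IsLocalRing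

variable {K : Type} [Field K] {D : K[X]} {g : ℕ}

/-- The change of variables `x = μ x'`, `y = y' / l`. -/
noncomputable def sc (D : K[X]) (μ : K) {l : K} (hl : l ≠ 0) :
    Crd D →+* Crd (C (l ^ 2) * D.comp (C μ * X)) where
  toFun z := ⟨z.re.comp (C μ * X), C l⁻¹ * z.im.comp (C μ * X)⟩
  map_one' := by ext1 <;> simp
  map_mul' z w := by
    have : C l * C l⁻¹ = 1 := by rw [← Polynomial.C_mul, mul_inv_cancel₀ hl, C_1]
    ext1
    · simp
      linear_combination (-(D.comp (C μ * X) * z.im.comp (C μ * X) * w.im.comp (C μ * X)) *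
        (C l * C l⁻¹ + 1)) * this
    · simp; ring
  map_zero' := by ext1 <;> simp
  map_add' z w := by ext1 <;> simp [mul_add]

theorem Hy.sc (H : Hy D g) {μ l : K} (hμ : μ ≠ 0) (hl : l ≠ 0) :
    Hy (C (l ^ 2) * D.comp (C μ * X)) g where
  two := H.two
  sep := by
    obtain ⟨a, b, h⟩ := H.sep
    have h1 : C (l ^ 2)⁻¹ * C (l ^ 2) = 1 := by
      rw [← Polynomial.C_mul, inv_mul_cancel₀ (pow_ne_zero 2 hl), C_1]
    have h2 : C μ⁻¹ * C μ = 1 := by rw [← Polynomial.C_mul, inv_mul_cancel₀ hμ, C_1]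
    have h3 := congrArg (·.comp (C μ * X)) h
    simp only [add_comp, mul_comp, one_comp] at h3
    refine ⟨C (l ^ 2)⁻¹ * a.comp (C μ * X), C (l ^ 2)⁻¹ * C μ⁻¹ * b.comp (C μ * X), ?_⟩
    simp only [derivative_mul, derivative_C, derivative_comp, derivative_X]
    linear_combination h3 + (a.comp (C μ * X) * D.comp (C μ * X) +
      C μ⁻¹ * C μ * b.comp (C μ * X) * (derivative D).comp (C μ * X)) * h1 +
      b.comp (C μ * X) * (derivative D).comp (C μ * X) * h2
  deg := by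
    rw [natDegree_C_mul (pow_ne_zero 2 hl), natDegree_comp, natDegree_C_mul_X _ hμ, mul_one, H.deg]

theorem norm_sc (μ : K) {l : K} (hl : l ≠ 0) (z : Crd D) :
    norm (sc D μ hl z) = (norm z).comp (C μ * X) := by
  have : C l * C l⁻¹ = 1 := by rw [← Polynomial.C_mul, mul_inv_cancel₀ hl, C_1]
  simp [norm_crd, sc]
  linear_combination (D.comp (C μ * X) * z.im.comp (C μ * X) ^ 2 * (C l * C l⁻¹ + 1)) * this

theorem prod_comp {ν : K} (hν : ν ≠ 0) (t : Multiset K) :
    (t.map (X - C ·)).prod.comp (C ν⁻¹ * X) =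
      C (ν⁻¹ ^ t.card) * ((t.map (ν * ·)).map (X - C ·)).prod := by
  induction t using Multiset.induction_on with
  | empty => simp
  | cons a t ih =>
    have : C ν⁻¹ * C ν = 1 := by rw [← Polynomial.C_mul, inv_mul_cancel₀ hν, C_1]
    simp only [Multiset.map_cons, Multiset.prod_cons, mul_comp, ih, Multiset.card_cons, pow_succ,
      map_mul, sub_comp, X_comp, C_comp]
    linear_combination (C (ν⁻¹ ^ t.card) * C a * ((t.map (ν * ·)).map (X - C ·)).prod) * this

/-- The local estimate holds at `O` with the constant `κ`. -/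
def Good (D : K[X]) (g : ℕ) (O : ValuationSubring K) (κ : K) : Prop :=
  ∀ (ψ : Crd D) (c : K) (t : Multiset K) (a b : K) (m : ℕ),
    norm ψ = C c * (t.map (X - C ·)).prod → t.card ≤ 2 * g * m → b ^ 2 = D.eval a →
    ψ ∈ PI D (a, b) ^ m →
    O.valuation (ψ.re.eval a - b * ψ.im.eval a) ^ 2 *
        (O.valuation κ * max 1 (O.valuation a) ^ (2 * g + 1)) ^ m ≤
      O.valuation c * (t.map fun a => max 1 (O.valuation a)).prod *
        max 1 (O.valuation a) ^ t.card * (O.valuation b ^ 2) ^ m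

theorem bdd_finset {F : Type} [Field F] (ι : F →+* K) {𝒱 : Set (ValuationSubring K)}
    (hb : ∀ x : K, ∃ δ : F, δ ≠ 0 ∧ ∀ O ∈ 𝒱, ι δ ∈ O ∧ ι δ * x ∈ O) (T : Finset K) :
    ∃ δ : F, δ ≠ 0 ∧ ∀ O ∈ 𝒱, ι δ ∈ O ∧ ∀ x ∈ T, ι δ * x ∈ O := by
  classical
  induction T using Finset.induction_on with
  | empty => exact ⟨1, one_ne_zero, fun O _ => by simp⟩
  | insert a T _ ih =>
    obtain ⟨δ, h0, h⟩ := ih
    obtain ⟨ε, h0', h'⟩ := hb a
    refine ⟨δ * ε, mul_ne_zero h0 h0', fun O hO => ?_⟩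
    rw [map_mul]
    refine ⟨mul_mem (h O hO).1 (h' O hO).1, fun x hx => ?_⟩
    rcases Finset.mem_insert.mp hx with rfl | hx
    · rw [mul_assoc]; exact mul_mem (h O hO).1 (h' O hO).2
    · rw [mul_right_comm]; exact mul_mem ((h O hO).2 x hx) (h' O hO).1

theorem exists_good [IsAlgClosed K] (H : Hy D g) {F : Type} [Field F] (ι : F →+* K)
    {𝒱 : Set (ValuationSubring K)}
    (hb : ∀ x : K, ∃ δ : F, δ ≠ 0 ∧ ∀ O ∈ 𝒱, ι δ ∈ O ∧ ι δ * x ∈ O) (T : Finset K) :
    ∃ κ : F, κ ≠ 0 ∧ ∀ O ∈ 𝒱, ι κ ∈ O ∧ (∀ x ∈ T, ι κ * x ∈ O) ∧ Good D g O (ι κ) := by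
  classical
  have hlc : D.leadingCoeff ≠ 0 := leadingCoeff_ne_zero.mpr H.ne_zero
  obtain ⟨δ₁, n1, h1⟩ := bdd_finset ι hb ((Finset.range (2 * g + 1)).image
    fun i => D.coeff i / D.leadingCoeff)
  have hν : ι δ₁ ≠ 0 := (map_ne_zero ι).mpr n1
  generalize ι δ₁ = ν at h1 hν
  obtain ⟨l, hl2⟩ := IsAlgClosed.exists_pow_nat_eq (ν ^ (2 * g + 1) / D.leadingCoeff) two_pos
  have hl : l ≠ 0 := by
    rintro rfl
    exact div_ne_zero (pow_ne_zero _ hν) hlc (hl2.symm.trans (by simp))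
  have H' := H.sc (inv_ne_zero hν) hl
  obtain ⟨u, w, huw⟩ := H'.sep
  obtain ⟨δ₂, n2, h2⟩ := bdd_finset ι hb (u.coeffs ∪ w.coeffs)
  have hδ : ι δ₂ ≠ 0 := (map_ne_zero ι).mpr n2
  generalize ι δ₂ = δ at h2 hδ
  obtain ⟨κ, n3, h3⟩ := bdd_finset ι hb (insert (l ^ 2 / (δ ^ 2 * ν ^ (2 * g + 1) * ν ^ (2 * g))) T)
  refine ⟨κ, n3, fun O hO => ⟨(h3 O hO).1, fun x hx => (h3 O hO).2 x (Finset.mem_insert_of_mem hx),
    fun ψ c t a b m hN ht hab hψ => ?_⟩⟩
  have hcf : ∀ i, (C (l ^ 2) * D.comp (C ν⁻¹ * X)).coeff i =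
      ν ^ (2 * g + 1) / D.leadingCoeff * (D.coeff i * ν⁻¹ ^ i) := fun i => by
    rw [coeff_C_mul, comp_C_mul_X_coeff, hl2]
  have hm : (C (l ^ 2) * D.comp (C ν⁻¹ * X)).Monic := by
    rw [Monic, leadingCoeff, H'.deg, hcf, ← H.deg, coeff_natDegree, inv_pow]
    field_simp
  obtain ⟨D₀, hD⟩ := exists_lift (O := O) (p := C (l ^ 2) * D.comp (C ν⁻¹ * X)) fun i => by
    rcases lt_trichotomy i (2 * g + 1) with h | rfl | h
    · obtain ⟨j, hj⟩ := Nat.exists_eq_add_of_lt h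
      have : ν ^ (2 * g + 1) / D.leadingCoeff * (D.coeff i * ν⁻¹ ^ i) =
          ν ^ j * (ν * (D.coeff i / D.leadingCoeff)) := by
        rw [hj, inv_pow]; field_simp; ring
      rw [hcf, this]
      exact mul_mem (pow_mem (h1 O hO).1 _) ((h1 O hO).2 _
        (Finset.mem_image_of_mem _ (Finset.mem_range.mpr h)))
    · rw [← H'.deg, hm.coeff_natDegree]; exact one_mem _
    · rw [coeff_eq_zero_of_natDegree_lt (H'.deg ▸ h)]; exact zero_mem _
  have key : ∀ p : K[X], p.coeffs ⊆ u.coeffs ∪ w.coeffs →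
      ∃ q : O[X], q.map O.subtype = C δ * p := fun p hp => exists_lift fun n => by
    rw [coeff_C_mul]
    by_cases e : p.coeff n = 0
    · simp [e]
    · exact (h2 O hO).2 _ (hp (coeff_mem_coeffs e))
  obtain ⟨u₀, hu⟩ := key u Finset.subset_union_left
  obtain ⟨w₀, hw⟩ := key w Finset.subset_union_right
  have hB : u₀ * D₀ + w₀ * derivative D₀ = C ⟨δ, (h2 O hO).1⟩ := by
    apply map_injective O.subtype O.subtype_injective
    rw [Polynomial.map_add, Polynomial.map_mul, Polynomial.map_mul, ← derivative_map, hu, hw, hD,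
      map_C, ValuationSubring.subtype_apply]
    linear_combination C δ * huw
  have hab' : (l * b) ^ 2 = (C (l ^ 2) * D.comp (C ν⁻¹ * X)).eval (ν * a) := by
    simp [eval_comp, inv_mul_cancel_left₀ hν, ← hab, mul_pow]
  have hev : ∀ (z : Crd D) (b : K), (sc D ν⁻¹ hl z).re.eval (ν * a) +
      l * b * (sc D ν⁻¹ hl z).im.eval (ν * a) = z.re.eval a + b * z.im.eval a := fun z b => by
    simp only [sc, RingHom.coe_mk, MonoidHom.coe_mk, OneHom.coe_mk, eval_comp, eval_mul, eval_C,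
      eval_X, inv_mul_cancel_left₀ hν]
    field_simp
  have hψ' : sc D ν⁻¹ hl ψ ∈ PI _ (ν * a, l * b) ^ m := by
    have := Ideal.mem_map_of_mem (sc D ν⁻¹ hl) hψ
    rw [Ideal.map_pow] at this
    refine Ideal.pow_right_mono (Ideal.map_le_iff_le_comap.mpr fun z hz => ?_) m this
    rw [Ideal.mem_comap, mem_PI hab', hev]
    exact (mem_PI hab).mp hz
  have R := loc_monic O hD (monic_of_injective O.subtype_injective (hD ▸ hm)) H' hB
    (ψ := sc D ν⁻¹ hl ψ) (c := c * ν⁻¹ ^ t.card) (t := t.map (ν * ·))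
    (by rw [norm_sc, hN, mul_comp, C_comp, prod_comp hν, map_mul, mul_assoc]) hab' hψ'
  have hE := hev ψ (-b)
  rw [mul_neg, neg_mul, neg_mul, ← sub_eq_add_neg, ← sub_eq_add_neg] at hE
  rw [hE, Multiset.card_map, Multiset.map_map] at R
  set v := O.valuation
  have v1 : v ν ≤ 1 := (O.valuation_le_one_iff _).mpr (h1 O hO).1
  have v0 : v ν ≠ 0 := by simpa using hν
  have vl : 0 < (v l ^ 2) ^ m := zero_lt_iff.mpr (by simp [hl])
  have vκ : v (ι κ) * v l ^ 2 ≤ v δ ^ 2 * v ν ^ (2 * g + 1) * v ν ^ (2 * g) := by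
    have := (O.valuation_le_one_iff _).mpr ((h3 O hO).2 _ (Finset.mem_insert_self ..))
    simp only [map_mul, map_div₀, map_pow] at this
    rwa [← mul_div_assoc, div_le_one₀ (zero_lt_iff.mpr (by simp [hδ, hν]))] at this
  have up : ∀ x, max 1 (v (ν * x)) ≤ max 1 (v x) := fun x =>
    max_le_max le_rfl (by rw [map_mul]; exact mul_le_of_le_one_left' v1)
  have lo : v ν * max 1 (v a) ≤ max 1 (v (ν * a)) := by
    rw [mul_max, mul_one, map_mul]
    exact max_le_max v1 le_rfl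
  refine le_of_mul_le_mul_right ?_ vl
  calc _ = v (ψ.re.eval a - b * ψ.im.eval a) ^ 2 *
        (v (ι κ) * v l ^ 2 * max 1 (v a) ^ (2 * g + 1)) ^ m := by
        simp only [mul_pow, mul_comm, mul_left_comm]
    _ ≤ v (ψ.re.eval a - b * ψ.im.eval a) ^ 2 *
        (v δ ^ 2 * v ν ^ (2 * g + 1) * v ν ^ (2 * g) * max 1 (v a) ^ (2 * g + 1)) ^ m := by gcongr
    _ = v (ψ.re.eval a - b * ψ.im.eval a) ^ 2 *
        (v δ ^ 2 * (v ν * max 1 (v a)) ^ (2 * g + 1)) ^ m * v ν ^ (2 * g * m) := by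
        rw [pow_mul (v ν) (2 * g) m]
        simp only [mul_pow, mul_assoc, mul_comm, mul_left_comm]
    _ ≤ v (ψ.re.eval a - b * ψ.im.eval a) ^ 2 *
        (v δ ^ 2 * max 1 (v (ν * a)) ^ (2 * g + 1)) ^ m * v ν ^ t.card :=
        mul_le_mul' (by gcongr) (pow_le_pow_right_of_le_one' v1 ht)
    _ ≤ _ := mul_le_mul' R le_rfl
    _ = v c * (t.map fun x => max 1 (v (ν * x))).prod * max 1 (v (ν * a)) ^ t.card *
        (v b ^ 2) ^ m * (v l ^ 2) ^ m * ((v ν)⁻¹ * v ν) ^ t.card := by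
        simp only [map_mul, map_pow, map_inv₀, mul_pow, Function.comp_def, mul_assoc, mul_comm,
          mul_left_comm]
    _ ≤ _ := by
        rw [inv_mul_cancel₀ v0, one_pow, mul_one]
        have := Multiset.prod_map_le_prod_map (s := t) _ _ fun x _ => up x
        have := up a
        gcongr

end Pool.Agent.Bs
end
end
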