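import Mathlib

/-!
# The Jacobian of `y ^ 2 = D(x)` and the two-primary part of its Tate-Shafarevich group

For `D` separable of odd degree in odd characteristic the affine curve `y ^ 2 = D(x)` is the smooth
projective curve minus its one rational point at infinity, so the Picard group of its coordinate
ring over a field `K` is the group `J(K)` of points of the Jacobian.  `Ω` is a separable closure of
`F`, and `H^1(F, J)` is the group of continuous (locally constant) 1-cocycles `Gal(Ω/F) → J(Ω)`
modulo coboundaries.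
-/

namespace Pool.Agent.Bsd

open Polynomial

/-- The coordinate ring `A[x, y] / (y ^ 2 - D(x))`; the pair `⟨a, b⟩` is `a(x) + b(x) y`. -/
abbrev Crd {A : Type} [CommRing A] (D : A[X]) : Type := QuadraticAlgebra A[X] D 0

/-- The map of coordinate rings that applies `φ` to the coefficients. -/
noncomputable def cmap {A B : Type} [CommRing A] [CommRing B] (φ : A →+* B) {D : A[X]} {E : B[X]}
    (h : D.map φ = E) : Crd D →+* Crd E where
  toFun z := ⟨z.re.map φ, z.im.map φ⟩
  map_one' := by ext1 <;> simp [QuadraticAlgebra.re_one, QuadraticAlgebra.im_one]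
  map_mul' z w := by ext1 <;> simp [h]
  map_zero' := by ext1 <;> simp
  map_add' z w := by ext1 <;> simp

/-- The map of Picard groups induced by a ring homomorphism. -/
noncomputable def pic {R S : Type} [CommRing R] [CommRing S] (φ : R →+* S) (P : CommRing.Pic R) :
    CommRing.Pic S := CommRing.Pic.mapRingHom φ P

variable {F : Type} [Field F] (D : F[X])

/-- The Picard group of the coordinate ring of `y ^ 2 = D(x)` over an extension `K` of `F`. -/
def Jac (K : Type) [Field K] [Algebra F K] : Type :=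
  CommRing.Pic (Crd (D.map (algebraMap F K)))

/-- The group law of the Picard group (written multiplicatively). -/
noncomputable instance jacGroup (K : Type) [Field K] [Algebra F K] : CommGroup (Jac D K) :=
  instCommGroupPic (Crd (D.map (algebraMap F K)))

/-- The map `Jac D K → Jac D L` induced by an embedding `K → L` over `F`. -/
noncomputable def jmap {K L : Type} [Field K] [Algebra F K] [Field L] [Algebra F L]
    (φ : K →ₐ[F] L) (P : Jac D K) : Jac D L :=
  pic (cmap (φ : K →+* L) (by rw [Polynomial.map_map, φ.comp_algebraMap])) P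

variable {Ω : Type} [Field Ω] [Algebra F Ω]

/-- Continuous (= locally constant for the Krull topology) 1-cocycles `Gal(Ω/F) → J(Ω)`. -/
def IsCocycle (c : (Ω ≃ₐ[F] Ω) → Jac D Ω) : Prop :=
  IsLocallyConstant c ∧ ∀ σ τ, c (σ * τ) = c σ * jmap D σ.toAlgHom (c τ)

/-- 1-coboundaries `σ ↦ σ P / P`, `P ∈ J(Ω)`. -/
def IsCob (c : (Ω ≃ₐ[F] Ω) → Jac D Ω) : Prop :=
  ∃ P : Jac D Ω, ∀ σ, c σ = jmap D σ.toAlgHom P / P

/-- For some embedding `ι : Ω → Λ` over `F` there is `P ∈ J(Λ)` with `ι (c σ) = τ P / P` whenever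
`τ` is an automorphism of `Λ` over `F` and `L` that restricts to `σ ∈ Gal(Ω/F)`. -/
def SplitsVia (L Λ : Type) [Field L] [Field Λ] [Algebra L Λ] [Algebra F Λ]
    (c : (Ω ≃ₐ[F] Ω) → Jac D Ω) : Prop :=
  ∃ (ι : Ω →ₐ[F] Λ) (P : Jac D Λ), ∀ (τ : Λ ≃ₐ[F] Λ) (σ : Ω ≃ₐ[F] Ω),
    (∀ y : L, τ (algebraMap L Λ y) = algebraMap L Λ y) → (∀ x, ι (σ x) = τ (ι x)) →
      jmap D ι (c σ) = jmap D τ.toAlgHom P / P

/-- The class of `c` restricts to zero in `H^1(L, J)`, for an extension field `L` of `F`. -/
def SplitsOver (L : Type) [Field L] [Algebra F L] (c : (Ω ≃ₐ[F] Ω) → Jac D Ω) : Prop :=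
  SplitsVia D L (SeparableClosure L) c

/-- `c` is a continuous cocycle whose class lies in the Tate-Shafarevich group, the kernel of
`H^1(F, J) → ∏_v H^1(F_v, J)`, `v` running over all nontrivial real absolute values of `F`. -/
def InSha (c : (Ω ≃ₐ[F] Ω) → Jac D Ω) : Prop :=
  IsCocycle D c ∧ ∀ v : AbsoluteValue F ℝ, v.IsNontrivial → SplitsOver D v.Completion c

variable (Ω) in
/-- The classes of two-power order in the Tate-Shafarevich group are finitely many. -/
def ShaTwoFinite : Prop :=
  ∃ S : Set ((Ω ≃ₐ[F] Ω) → Jac D Ω), S.Finite ∧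
    ∀ c, InSha D c → (∃ j : ℕ, IsCob D (c ^ 2 ^ j)) → ∃ s ∈ S, IsCob D (c / s)

end Pool.Agent.Bsd
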