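import Pool.Agent.Work.MP_60d5ce_nt.Bs.HGood
import Pool.Agent.Work.MP_60d5ce_nt.Qt.Alg
import Pool.Agent.Work.MP_60d5ce_nt.Hy.Cube
import Pool.Agent.Work.MP_60d5ce_nt.Hy.Form
import Pool.Agent.Work.MP_60d5ce_nt.Hy.Dens
import Pool.Agent.Work.MP_60d5ce_nt.Hy.WeX
import Pool.Agent.Work.MP_60d5ce_nt.Hy.Ov
import Pool.Agent.Work.MP_60d5ce_nt.Hy.HDefs
import Pool.Agent.Work.MP_60d5ce_nt.Hy.Lk2Main
import Pool.Agent.Work.MP_60d5ce_nt.Lb.Gen
import Mathlib
import Pool.Agent.Work.MP_60d5ce_nt.Bs.SDefs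

-- merged part: Pool.Agent.Work.MP_60d5ce_nt.Hy.ECnt
section
-- merged part: Pool.Agent.Work.MP_60d5ce_nt.Hy.CMain
section
/-!
# The order of vanishing is at most one  (task LB CMain)

* `Coh.nu_pow`: induction (`GM.GeoM_nu`, `GM.GeoM_nuB`, `D.add`, `D.op`; `M.IsB c` is `c ∈ GM.GeoM_B M`).
* `Coh.mult_le`: otherwise `exists_pair`; `m = r`, `a` from `zg_of_nu`, `N` from `hgeo`, `c i = 2 ^ a • D.cc (a + (N + 1)) (t i)`; `2 ^ i • D.cc (i + j) t ≡ D.cc j t`; `D.ker`.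
* `abs_main`: `geo_main`, `φ = T.σ T.inf`, `exists_coh`, `lser_poly` for `D.Ψ.map (algebraMap O ℚ_[2])`.
-/

namespace Pool.Agent.Hyp

open Pool.Agent.Lef

variable [Par]

open scoped Classical
open Pool.Agent.Quad Polynomial

variable {W P : Type} [Group W] {T : Tame W P} {R : Rep T} {x : W → F2} {𝒜 : Type}
  [AddCommGroup 𝒜] {A : Finset P} {M : GM R x 𝒜} {φ : W} {r : ℕ}

theorem Coh.nu_pow (D : Coh M A φ r) (hx : T.IsHom x) (j m : ℕ) (t : Fin r → O) :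
    M.IsB ((M.nu φ)^[m] (D.cc j t) - D.cc j (((D.Ψ - 1) ^ m).mulVec t)) := by
  induction m with
  | zero =>
    rw [Function.iterate_zero_apply, pow_zero, Matrix.one_mulVec, sub_self]
    exact (GM.GeoM_B M).zero_mem
  | succ m ih =>
    rw [Function.iterate_succ_apply', pow_succ', ← Matrix.mulVec_mulVec]
    generalize ((D.Ψ - 1) ^ m).mulVec t = u at ih ⊢
    generalize (M.nu φ)^[m] (D.cc j t) = c at ih ⊢
    have h1 := GM.GeoM_nuB hx φ (show _ ∈ GM.GeoM_B M from ih)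
    rw [map_sub] at h1
    have h2 : _ ∈ GM.GeoM_B M := D.op j u
    have h3 : _ ∈ GM.GeoM_B M := D.add j ((D.Ψ - 1).mulVec u) u
    have h4 : (D.Ψ - 1).mulVec u + u = D.Ψ.mulVec u := by
      rw [Matrix.sub_mulVec, Matrix.one_mulVec, sub_add_cancel]
    rw [h4] at h3
    have h5 := add_mem (add_mem h1 h2) h3
    have h6 : GM.GeoM_nu M φ (D.cc j u) = conjOp M.a φ (D.cc j u) - D.cc j u := nu_eq φ _
    rw [h6] at h5
    change GM.GeoM_nu M φ c - _ ∈ GM.GeoM_B M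
    convert h5 using 1
    abel

theorem Coh.CMain_pow (D : Coh M A φ r) (i j : ℕ) (t : Fin r → O) :
    2 ^ i • D.cc (i + j) t - D.cc j t ∈ GM.GeoM_B M := by
  induction i with
  | zero =>
    rw [pow_zero, one_smul, zero_add, sub_self]
    exact zero_mem _
  | succ i ih =>
    have h := add_mem ((GM.GeoM_B M).nsmul_mem (D.two (i + j) t) (2 ^ i)) ih
    rwa [smul_sub, sub_add_sub_cancel, ← mul_smul, ← pow_succ, add_right_comm] at h

theorem CMain_q : T.q ≠ 0 := by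
  have := T.q_ge
  omega

theorem Coh.mult_le (D : Coh M A φ r) (hx : T.IsHom x)
    (hloc : ∀ v ∈ A, ∀ t, R.act x (T.σ v) t = t → R.act x (T.τ v) t = t → t = 0)
    (hφ : T.deg φ = 1)
    (hgeo : ∀ m : ℕ, ∃ N : ℕ, ∀ c1 c2 : W → 𝒜, M.ZG c1 → M.ZG c2 → M.IsB ((M.nu φ)^[m] c1) →
      M.IsB ((M.nu φ)^[m] c2) → M.IsB (2 ^ (N + 1) • c1) → M.IsB (2 ^ (N + 1) • c2) →
      M.IsB (2 ^ N • c1) ∨ M.IsB (2 ^ N • c2) ∨ M.IsB (2 ^ N • (c1 + c2))) :
    (D.Ψ.map (algebraMap O ℚ_[2])).charpoly.rootMultiplicity 1 ≤ 1 := by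
  by_contra h
  obtain ⟨s, t, hs, ht, h1, h2, h3⟩ := exists_pair D.Ψ (not_le.1 h)
  obtain ⟨a, ha⟩ := zg_of_nu (M := M) hx hloc hφ r
  obtain ⟨N, hN⟩ := hgeo r
  have k1 : ∀ j u, ((D.Ψ - 1) ^ r).mulVec u = 0 → M.IsB ((M.nu φ)^[r] (D.cc j u)) := by
    intro j u hu
    have e1 : _ ∈ GM.GeoM_B M := D.nu_pow hx j r u
    have e2 : _ ∈ GM.GeoM_B M := (D.ker j 0).2 fun _ => dvd_zero _
    rw [hu] at e1
    have e3 := add_mem e1 e2
    rwa [sub_add_cancel] at e3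
  have k2 : ∀ j u, ((D.Ψ - 1) ^ r).mulVec u = 0 →
      M.IsB ((M.nu φ)^[r] (2 ^ a • D.cc j u)) := by
    intro j u hu
    have e1 : (M.nu φ)^[r] (2 ^ a • D.cc j u) = 2 ^ a • (M.nu φ)^[r] (D.cc j u) :=
      iterate_map_nsmul (GM.GeoM_nu M φ) r _ _
    rw [e1]
    exact (GM.GeoM_B M).nsmul_mem (k1 j u hu) _
  have k3 : ∀ u, M.IsB (2 ^ (N + 1) • 2 ^ a • D.cc (a + (N + 1)) u) := by
    intro u
    have e1 := D.CMain_pow (a + (N + 1)) 0 u
    have e2 : _ ∈ GM.GeoM_B M := (D.ker 0 u).2 fun _ => by simp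
    have e3 := add_mem e1 e2
    rwa [sub_add_cancel, add_zero, pow_add, mul_comm, mul_smul] at e3
  have k4 : ∀ u, M.IsB (2 ^ N • 2 ^ a • D.cc (a + (N + 1)) u) → VD 1 u := by
    intro u hu
    have e1 := D.CMain_pow (a + N) 1 u
    rw [pow_add, mul_comm, mul_smul, add_assoc] at e1
    have e3 := sub_mem (show _ ∈ GM.GeoM_B M from hu) e1
    rw [sub_sub_cancel] at e3
    exact (D.ker 1 u).1 e3
  rcases hN _ _ (ha _ (D.mem _ s) (k1 _ s hs)) (ha _ (D.mem _ t) (k1 _ t ht)) (k2 _ s hs)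
    (k2 _ t ht) (k3 s) (k3 t) with e | e | e
  · exact h1 (k4 s e)
  · exact h2 (k4 t e)
  · refine h3 (k4 _ ?_)
    have e1 := (GM.GeoM_B M).nsmul_mem ((GM.GeoM_B M).nsmul_mem
      (D.add (a + (N + 1)) s t) (2 ^ a)) (2 ^ N)
    have e2 := add_mem e1 (show _ ∈ GM.GeoM_B M from e)
    rwa [smul_sub, smul_sub, smul_add, sub_add_cancel] at e2

theorem abs_main (L : LefAx T) (R : Rep T) : ∃ c0 : ℕ, ∀ (x : W → F2) (A0 : Finset P),
    T.IsHom x → R.Ram x A0 → R.Good A0 x c0 → ∀ {𝒜 : Type} [AddCommGroup 𝒜] (_ : GM R x 𝒜)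
    (A : Finset P), A.Nonempty → (∀ v ∉ A, mat R x (T.τ v) = 1) →
    (∀ v ∈ A, ∀ t, R.act x (T.σ v) t = t → R.act x (T.τ v) t = t → t = 0) → ∀ a : ℕ → ℤ,
    (∀ n, (a n : O) = ∑ v ∈ Pd T A (n + 1),
      (T.dg v : O) * (mat R x (T.σ v ^ ((n + 1) / T.dg v))).trace) →
    ∃ p : ℚ[X], (PowerSeries.exp ℚ).subst
      (PowerSeries.X * PowerSeries.mk fun n => (a n : ℚ) / (n + 1)) = (p : PowerSeries ℚ) ∧
      p.rootMultiplicity (T.q : ℚ)⁻¹ ≤ 1 := by
  obtain ⟨c0, hc⟩ := geo_main R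
  refine ⟨c0, fun x A0 hx hA0 hg 𝒜 _ M A hA hunr hloc a ha => ?_⟩
  have hφ : T.deg (T.σ T.inf) = 1 := by rw [T.deg_σ, T.dg_inf, Nat.cast_one]
  obtain ⟨r, ⟨D⟩⟩ := exists_coh M L hx hA hunr hφ
  obtain ⟨p, h1, h2⟩ := lser_poly (D.Ψ.map (algebraMap O ℚ_[2])) (q := T.q) CMain_q a fun n => by
    have e1 := congrArg (algebraMap O ℚ_[2]) (ha n)
    rw [← neg_neg (∑ v ∈ Pd T A (n + 1), _), ← D.tr (n + 1) n.succ_pos, map_intCast, map_neg,
      map_mul, map_pow, map_natCast] at e1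
    rw [e1, ← RingHom.mapMatrix_apply, ← map_pow, RingHom.mapMatrix_apply]
    congr 2
    exact AddMonoidHom.map_trace (algebraMap O ℚ_[2]) _
  exact ⟨p, h1, h2.trans (D.mult_le hx hloc hφ (hc x A0 hx hA0 hg M _ hφ))⟩

end Pool.Agent.Hyp
end

-- merged part: Pool.Agent.Work.MP_60d5ce_nt.Hy.PRec
section
/-!
# The functional equation  (task HY PRec)

`mat J.rep x g = sg (x g) • J.ρ g`; `mat_mul`, `mat_one`, `mat_symp`, `Tame.cq_mul`, `Tame.cq_σ`, `Tame.cq_of_deg_zero`; `ee a b = eg a b` by `rfl`.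
* `tr_inv`: `trace_sim`.  `E_node`: `Nod.trace`, `tr_inv` twice, cancel `Q ^ m`.  `E_ram`: `mat (τ v) = -1`, `Q ^ m - 1` is even.
* `exists_L`: `exists_gm`, `exists_coh2`, `lf_cp`, `LF.scale`, `Coh.tr`.
* `mult_le`: as `abs_main`: `geo_main`, `exists_coh`, `Coh.mult_le`, `loc_sg`, `LF.unique`, `scale_mult`, `cp_mult`.
-/

namespace Pool.Agent.Hyp

open Pool.Agent.Lef

variable [Par]

open scoped Classical
open Pool.Agent.Quad Polynomial

variable {W P : Type} [Group W]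

/-- the inverse of `q` -/
noncomputable def qi (T : Tame W P) : O := Ring.inverse (T.q : O)

theorem q_mul_qi (T : Tame W P) : (T.q : O) * qi T = 1 := Ring.mul_inverse_cancel _ T.isUnit_q

theorem PRec_cq (T : Tame W P) (g : W) (m : ℕ) : T.cq (g ^ m) = T.cq g ^ m := by
  induction m with
  | zero => rw [pow_zero, pow_zero, T.cq_of_deg_zero T.deg_one]
  | succ m ih => rw [pow_succ, pow_succ, T.cq_mul, ih]

theorem PRec_pow {T : Tame W P} {R : Rep T} {x : W → F2} (hx : T.IsHom x) (g : W) (m : ℕ) :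
    mat R x (g ^ m) = mat R x g ^ m := by
  induction m with
  | zero => rw [pow_zero, pow_zero, mat_one hx]
  | succ m ih => rw [pow_succ, pow_succ, mat_mul hx, ih]

theorem PRec_tr {T : Tame W P} {R : Rep T} {x : W → F2} (hx : T.IsHom x) (g : W) :
    T.cq g * (mat R x g⁻¹).trace = (mat R x g).trace :=
  trace_sim (M := mat R x g) (fun a b => mat_symp g a b)
    (by rw [← mat_mul hx, mul_inv_cancel, mat_one hx])

theorem PRec_Q (T : Tame W P) (v : P) (m : ℕ) : (T.Q v : O) ^ m ≠ 0 := by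
  have := T.one_lt_Q v
  exact pow_ne_zero _ (Nat.cast_ne_zero.2 (by omega))

theorem PRec_deg (T : Tame W P) : T.deg (T.σ T.inf) = 1 := by
  rw [T.deg_σ, T.dg_inf, Nat.cast_one]

namespace JD

variable {T : Tame W P} {X : Type} [Fintype X] (J : JD T X) {x y : W → F2} {A A' : Finset P}
  {p p' : O[X]} {v : P}

/-- the bad places -/
noncomputable def A0 : Finset P := insert T.inf J.Nd

/-- the local traces -/
noncomputable def cS (x : W → F2) (v : P) (m : ℕ) : O := (mat J.rep x (T.σ v ^ m)).trace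

/-- `p` is the `L`-series of the twist by `x` outside `A` -/
def HasL (x : W → F2) (A : Finset P) (p : O[X]) : Prop :=
  LF (fun n => -eul T A (J.cS x) n) p

/-- `A` contains the bad places of the twist -/
structure Tw (x : W → F2) (A : Finset P) : Prop where
  hom : T.IsHom x
  sub : J.A0 ⊆ A
  unr : ∀ v ∉ A, x (T.τ v) = 0

/-- `A` is the set of bad places of a twist unramified at the nodes -/
structure Ex (x : W → F2) (A : Finset P) : Prop extends J.Tw x A where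
  nd : ∀ v ∈ J.Nd, x (T.τ v) = 0
  ram : ∀ v ∈ A, v ∉ J.A0 → x (T.τ v) = 1

variable {J}

theorem PRec_good (hv : v ∉ J.A0) : J.rep.ρ (T.τ v) = 1 :=
  J.good v (fun k => hv (Finset.mem_insert_of_mem k)) fun k => hv (k ▸ Finset.mem_insert_self _ _)

theorem Tw.PRec_ne (h : J.Tw x A) : A.Nonempty := ⟨T.inf, h.sub (Finset.mem_insert_self _ _)⟩

theorem PRec_L {𝒜 : Type} [AddCommGroup 𝒜] {M : GM J.rep x 𝒜} {φ : W} {r : ℕ}
    (D : Coh M A φ r) : J.HasL x A (D.Ψ.charpolyRev.comp (C (T.q : O) * Polynomial.X)) :=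
  ((lf_cp D.Ψ).scale (T.q : O)).congr fun n hn => D.tr n hn

theorem Tw.mat_τ (h : J.Tw x A) : ∀ v ∉ A, mat J.rep x (T.τ v) = 1 := by
  intro v hv
  rw [mat, h.unr v hv, sg_zero, one_smul, PRec_good fun k => hv (h.sub k)]

theorem tr_inv (hx : T.IsHom x) (v : P) (m i : ℕ) :
    (T.Q v : O) ^ m * (mat J.rep x (T.σ v ^ m * T.τ v ^ i)⁻¹).trace =
      (mat J.rep x (T.σ v ^ m * T.τ v ^ i)).trace := by
  rw [← PRec_tr hx (T.σ v ^ m * T.τ v ^ i), T.cq_mul, PRec_cq, PRec_cq, T.cq_σ,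
    T.cq_of_deg_zero (T.deg_τ v), one_pow, mul_one]

theorem nod (hx : T.IsHom x) (hv : v ∈ J.Nd) (h : x (T.τ v) = 0) :
    Nod (mat J.rep x (T.σ v)) (mat J.rep x (T.τ v)) (T.Q v) := by
  have e : mat J.rep x (T.τ v) = J.ρ (T.τ v) := by
    rw [mat, h, sg_zero, one_smul]
    rfl
  refine ⟨T.one_lt_Q v, fun a b => ?_, fun a b => ?_, mat_rel hx v, ?_, ?_⟩
  · rw [mat_symp, T.cq_σ]
  · rw [mat_symp, T.cq_of_deg_zero (T.deg_τ v), one_mul]
  · rw [e]
    exact J.τ_ne hv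
  · rw [e]
    exact J.rk1 v hv

theorem E_node (hx : T.IsHom x) (hv : v ∈ J.Nd) (h : x (T.τ v) = 0) {m : ℕ} (hm : 0 < m) :
    ∑ i ∈ Finset.range (T.Q v ^ m - 1), (mat J.rep x (T.σ v ^ m * T.τ v ^ i)⁻¹).trace =
      J.cS x v m - (mat J.rep x (T.σ v ^ m)⁻¹).trace := by
  refine mul_left_cancel₀ (PRec_Q T v m) ?_
  have e0 := tr_inv (J := J) hx v m 0
  rw [pow_zero, mul_one] at e0
  have e1 : ∀ i ∈ Finset.range (T.Q v ^ m - 1),
      (T.Q v : O) ^ m * (mat J.rep x (T.σ v ^ m * T.τ v ^ i)⁻¹).trace = J.cS x v m := fun i _ => by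
    rw [tr_inv hx, mat_mul hx, PRec_pow hx, PRec_pow hx, (nod hx hv h).trace hm, cS, PRec_pow hx]
  have e2 : 1 ≤ T.Q v ^ m := Nat.one_le_pow _ _ (by have := T.one_lt_Q v; omega)
  rw [Finset.mul_sum, Finset.sum_congr rfl e1, Finset.sum_const, Finset.card_range, nsmul_eq_mul,
    Nat.cast_sub e2, mul_sub, e0, cS]
  push_cast
  ring

theorem E_ram (hx : T.IsHom x) (hv : v ∉ J.A0) (h : x (T.τ v) = 1) (m : ℕ) :
    ∑ i ∈ Finset.range (T.Q v ^ m - 1), (mat J.rep x (T.σ v ^ m * T.τ v ^ i)⁻¹).trace = 0 := by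
  refine mul_left_cancel₀ (PRec_Q T v m) ?_
  have e : mat J.rep x (T.τ v) = (-1 : O) • 1 := by rw [mat, h, sg_one, PRec_good hv]
  have e1 : ∀ i ∈ Finset.range (T.Q v ^ m - 1),
      (T.Q v : O) ^ m * (mat J.rep x (T.σ v ^ m * T.τ v ^ i)⁻¹).trace =
        (-1) ^ i * J.cS x v m := fun i _ => by
    rw [tr_inv hx, mat_mul hx, PRec_pow hx (T.τ v), e, _root_.smul_pow, one_pow,
      Matrix.mul_smul, mul_one,
      Matrix.trace_smul, smul_eq_mul, cS]
  have e2 : Even (T.Q v ^ m - 1) :=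
    Nat.Odd.sub_odd (Odd.pow (Nat.odd_iff.2 (T.Q_mod v))) odd_one
  rw [Finset.mul_sum, Finset.sum_congr rfl e1, ← Finset.sum_mul, neg_one_geom_sum, if_pos e2,
    zero_mul, mul_zero]

theorem node_par (hv : v ∈ J.Nd) (x y : W → F2) :
    (((mat J.rep x (T.σ v)).charpolyRev.rootMultiplicity 1 +
      (mat J.rep y (T.σ v)).charpolyRev.rootMultiplicity 1 : ℕ) : F2) =
        x (T.σ v) + y (T.σ v) := by
  have e : ∀ g, mat J.rep 0 g = J.ρ g := fun g => by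
    rw [mat, Pi.zero_apply, sg_zero, one_smul]
    rfl
  have k := (nod (J := J) T.hom_zero hv rfl).mult (by
    rw [e, e]
    exact J.loc v)
  rw [e] at k
  have k' := congrArg (Nat.cast : ℕ → F2) k
  have e' : J.rep.ρ = J.ρ := rfl
  rw [Nat.cast_add, Nat.cast_one] at k'
  rw [mat, mat, e', Nat.cast_add]
  rcases F2_cases (x (T.σ v)) with a | a <;> rcases F2_cases (y (T.σ v)) with b | b <;>
    simp only [a, b, sg_zero, sg_one, one_smul, neg_smul, F2_add_self, zero_add, add_zero]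
  · exact k'
  · rw [add_comm]
    exact k'

theorem exists_L (L : LefAx T) (L2 : LefAx2 T) (h : J.Tw x A) :
    ∃ (r : ℕ) (Ψ Ψ' : Matrix (Fin r) (Fin r) O), Ψ * Ψ' = 1 ∧
      J.HasL x A (Ψ.charpolyRev.comp (C (T.q : O) * Polynomial.X)) ∧
      ∀ n, 0 < n → (Ψ' ^ n).trace = (Ψ ^ n).trace +
        lsum T A (fun v m => ∑ i ∈ Finset.range (T.Q v ^ m - 1),
          (mat J.rep x (T.σ v ^ m * T.τ v ^ i)⁻¹).trace) n := by
  obtain ⟨𝒜, _, ⟨M⟩⟩ := exists_gm J.rep x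
  obtain ⟨r, D, Ψ', h1, h2⟩ := exists_coh2 M L L2 h.hom h.PRec_ne h.mat_τ (PRec_deg T)
  refine ⟨r, D.Ψ, Ψ', h1, PRec_L D, fun n hn => ?_⟩
  rw [h2 n hn]
  congr 1
  refine mul_left_cancel₀ (pow_ne_zero n T.isUnit_q.ne_zero) ?_
  rw [D.tr n hn, mul_neg, eul, Finset.mul_sum]
  congr 1
  refine Finset.sum_congr rfl fun v hv => ?_
  have e0 := tr_inv (J := J) h.hom v (n / T.dg v) 0
  rw [pow_zero, mul_one, Pre.Q, Nat.cast_pow, ← pow_mul,
    Nat.mul_div_cancel' (mem_Pd.1 hv).2.1] at e0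
  rw [← e0]
  ring

theorem lead_unit (L : LefAx T) (L2 : LefAx2 T) (h : J.Tw x A) (hp : J.HasL x A p) :
    IsUnit p.leadingCoeff := by
  obtain ⟨r, Ψ, Ψ', h1, h2, -⟩ := exists_L L L2 h
  rw [LF.unique hp h2 fun _ _ => rfl, (scale_lead T.isUnit_q.ne_zero _).2]
  exact (T.isUnit_q.pow _).mul (rc_cp h1).2.1

variable (J) in
theorem mult_le (L : LefAx T) : ∃ c0 : ℕ, ∀ (x : W → F2) (B A : Finset P) (p : O[X]),
    J.rep.Ram x B → J.rep.Good B x c0 → J.Tw x A → J.HasL x A p →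
      p.rootMultiplicity (qi T) ≤ 1 := by
  obtain ⟨c0, hc⟩ := geo_main J.rep
  refine ⟨c0, fun x B A p hB hg h hp => ?_⟩
  obtain ⟨𝒜, _, ⟨M⟩⟩ := exists_gm J.rep x
  obtain ⟨r, ⟨D⟩⟩ := exists_coh M L h.hom h.PRec_ne h.mat_τ (PRec_deg T)
  rw [LF.unique hp (PRec_L D) fun _ _ => rfl, scale_mult (q_mul_qi T), cp_mult]
  exact D.mult_le h.hom (fun v _ t => J.loc_sg v _ _ t) (PRec_deg T)
    (hc x B h.hom hB hg M _ (PRec_deg T))

end JD

end Pool.Agent.Hyp
end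

-- merged part: Pool.Agent.Work.MP_60d5ce_nt.Bs.Coh
section
/-!
# Classes fixed by Frobenius when the `L`-series does not vanish at the central point
-/

namespace Pool.Agent.Hyp

open Pool.Agent.Lef Pool.Agent.Quad Polynomial
open scoped Classical

theorem tate_fix {H : Type} [AddCommGroup H] {r : ℕ} (B : TateR r H) {Φ : H →+ H}
    {Ψ : Matrix (Fin r) (Fin r) O} (h : ∀ j t, Φ (B.pt j t) = B.pt j (Ψ.mulVec t))
    (hd : Ψ.charpolyRev.rootMultiplicity 1 = 0) :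
    ∃ e : ℕ, ∀ y, Tor2 y → Φ y = y → 2 ^ e • y = 0 := by
  have h1 : (1 - Ψ).det ≠ 0 := fun h0 => by
    have h2 := rootMultiplicity_eq_zero_iff.1 hd (by
      rw [IsRoot.def, ← h0, Matrix.charpolyRev, ← coe_evalRingHom, RingHom.map_det]
      congr 1
      ext a b
      by_cases hab : a = b <;> simp [hab])
    have h3 := Matrix.eval_charpolyRev (M := Ψ)
    rw [h2, eval_zero] at h3
    exact zero_ne_one h3
  obtain ⟨e, he⟩ := exists_left (1 - Ψ) fun t ht => Matrix.eq_zero_of_mulVec_eq_zero h1 ht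
  refine ⟨e, fun y ⟨j, hj⟩ hy => ?_⟩
  obtain ⟨t, rfl⟩ := B.surj (e + j) y (by rw [pow_add, mul_smul, hj, smul_zero])
  rw [B.pow_smul_add, B.ker]
  have := he (e + j) t ((B.ker _ _).1 (by
    rw [Matrix.sub_mulVec, Matrix.one_mulVec, map_sub, ← h, hy, sub_self]))
  rwa [Nat.add_sub_cancel_left] at this

variable [Par] {W P : Type} [Group W] {T : Tame W P} {R : Rep T} {x : W → F2} {𝒜 : Type}
  [AddCommGroup 𝒜] {A : Finset P}

theorem coh_fin (M : GM R x 𝒜) (L : LefAx T) (hx : T.IsHom x) (hA : A.Nonempty)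
    (hunr : ∀ v ∉ A, mat R x (T.τ v) = 1) {φ : W} (hφ : T.deg φ = 1)
    (h0 : ∀ (r : ℕ) (Ψ : Matrix (Fin r) (Fin r) O), (∀ n : ℕ, 0 < n → (T.q : O) ^ n * (Ψ ^ n).trace =
      -∑ v ∈ Pd T A n, (T.dg v : O) * (mat R x (T.σ v ^ (n / T.dg v))).trace) →
      Ψ.charpolyRev.rootMultiplicity 1 = 0) :
    ∃ (e : ℕ) (S : Set (W → 𝒜)), S.Finite ∧ ∀ c ∈ ZT M A, M.IsB (conjOp M.a φ c - c) →
      M.IsB (2 ^ e • c) ∧ ∃ s ∈ S, M.IsB (c - s) := by
  obtain ⟨H, _, π, Φ, ha, hs, hk, hf⟩ := CH_quot (ZT M A) (GM.GeoM_B M) (conjOp M.a φ)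
    (fun c hc => conj_mem hx hc φ) fun c hc => conj_memB hx hc φ
  have hdeg : ∀ n : ℕ, T.deg (φ ^ n) = n := fun n => by
    induction n with
    | zero => rw [pow_zero, T.deg_one, Nat.cast_zero]
    | succ n ih => rw [pow_succ, T.deg_mul, ih, hφ, Nat.cast_succ]
  have him : ∀ j, π '' (ZT M A ⊓ tors (W → 𝒜) (2 ^ j) : AddSubgroup _) = tors H (2 ^ j) := by
    intro j
    ext h
    constructor
    · rintro ⟨c, hc, rfl⟩
      rw [SetLike.mem_coe, mem_tors, ← ha.nsmul hc.1, mem_tors.1 hc.2, ha.zero]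
    · intro hh
      obtain ⟨c, hc, rfl⟩ := hs h
      obtain ⟨d, hd, h1, h2⟩ := CH_norm M hx hunr hc (j := j)
        ((hk _ (nsmul_mem hc _)).1 (by rw [ha.nsmul hc]; exact hh))
      exact ⟨c - d, ⟨(ZT M A).sub_mem hc hd, h2⟩, by rw [ha.sub hc hd, (hk d hd).2 h1, sub_zero]⟩
  have hfr := fun j => (hasTr_Z M L hx hA hunr j one_pos (hdeg 1)).choose_spec.1.fr
  obtain ⟨r, ⟨B⟩⟩ := exists_tateR (A := H) (fun h => by
    obtain ⟨c, hc, rfl⟩ := hs h
    obtain ⟨j, hj⟩ := hc.2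
    obtain ⟨y, hy, e⟩ := (hfr j).div c ⟨hc, GM.GeoM_le hj j.le_succ⟩ hj
    exact ⟨π y, by rw [← ha.nsmul hy.1, ← e]⟩) (him 1 ▸ (hfr 0).finite.image π)
  obtain ⟨Ψ, hΨ⟩ := B.exists_mat Φ
  refine (tate_fix B hΨ (h0 r Ψ fun n hn => eq_of_rO fun j => ?_)).elim fun e he => ?_
  swap
  · choose s hs1 hs2 using hs
    refine ⟨e, s '' tors H (2 ^ e), (B.card_tors e).1.image s, fun c hc h => ?_⟩
    have h1 := (hk _ (sub_mem (conj_mem hx hc φ) hc)).2 h
    rw [ha.sub (conj_mem hx hc φ) hc, sub_eq_zero, hf c hc] at h1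
    have h2 := he (π c) (hc.2.imp fun j hj => by rw [← ha.nsmul hc, hj, ha.zero]) h1
    exact ⟨(hk _ (nsmul_mem hc _)).1 (by rw [ha.nsmul hc, h2]), _, ⟨π c, h2, rfl⟩,
      (hk _ (sub_mem hc (hs1 _))).1 (by rw [ha.sub hc (hs1 _), hs2, sub_self])⟩
  have h1 : ∀ n : ℕ, ∀ c ∈ ZT M A, π (conjOp M.a (φ ^ n) c) = Φ^[n] (π c) := by
    intro n c hc
    induction n with
    | zero =>
      have := (hk _ (sub_mem (conj_mem hx hc _) hc)).2 (conj_sub hx hc (hdeg 0))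
      rwa [ha.sub (conj_mem hx hc _) hc, sub_eq_zero] at this
    | succ n ih =>
      rw [pow_succ', conj_mul hx hc, hf _ (conj_mem hx hc _), ih, Function.iterate_succ_apply']
  have h2 : ∀ (n : ℕ) t, Φ^[n] (B.pt (j + 1) t) = B.pt (j + 1) ((Ψ ^ n).mulVec t) := by
    intro n t
    induction n with
    | zero => rw [pow_zero, Matrix.one_mulVec, Function.iterate_zero_apply]
    | succ n ih => rw [Function.iterate_succ_apply', ih, hΨ, Matrix.mulVec_mulVec, pow_succ']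
  obtain ⟨t, h3, h4⟩ := hasTr_Z M L hx hA hunr j hn (hdeg n)
  have h5 := (B.hasTr (h2 n)).unique ((hasTr_B M hx hunr (j + 1) (φ ^ n)).quot h3
    (fun c hc d hd => ha c hc.1 d hd.1)
    (fun c => ⟨fun hc => ⟨hc.1, (hk c hc.1.1).2 hc.2⟩, fun hc => ⟨hc.1, (hk c hc.1.1).1 hc.2⟩⟩)
    (him _) fun c hc => h1 n c hc.1)
  simp only [map_mul, map_pow, map_natCast, map_neg, map_sum]
  rw [h5, mul_sub, h4]
  ring

end Pool.Agent.Hyp
end

-- merged part: Pool.Agent.Work.MP_60d5ce_nt.Bs.Sel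
section
/-!
# Torsion cocycles of the Galois group that are unramified outside a finite set
-/

namespace Pool.Agent.Hyp

open Pool.Agent.Lef Pool.Agent.Quad Polynomial
open scoped Classical

variable {k : Type} [Field k] {Ω : Type} [Field Ω] [Algebra (RatFunc k) Ω] {𝒜 : Type}
  [AddCommGroup 𝒜] {ρ : Gam k Ω → 𝒜 →+ 𝒜} {c d : Gam k Ω → 𝒜}

/-- a continuous action -/
structure GA (ρ : Gam k Ω → 𝒜 →+ 𝒜) : Prop where
  mul : ∀ σ τ y, ρ (σ * τ) y = ρ σ (ρ τ y)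
  fin : ∀ y, ∃ S : Finset Ω, ∀ σ, (∀ a ∈ S, σ a = a) → ρ σ y = y

/-- continuous cocycles -/
structure Cc (ρ : Gam k Ω → 𝒜 →+ 𝒜) (c : Gam k Ω → 𝒜) : Prop where
  fin : ∃ S : Finset Ω, ∀ σ, (∀ a ∈ S, σ a = a) → c σ = 0
  mul : ∀ σ τ, c (σ * τ) = c σ + ρ σ (c τ)

theorem Cc.one (h : Cc ρ c) : c 1 = 0 := h.fin.choose_spec 1 fun _ _ => rfl

theorem Cc.sub (h : Cc ρ c) (h' : Cc ρ d) : Cc ρ (c - d) := by
  obtain ⟨S, hS⟩ := h.fin
  obtain ⟨S', hS'⟩ := h'.fin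
  refine ⟨⟨S ∪ S', fun σ hσ => ?_⟩, fun σ τ => ?_⟩
  · rw [Pi.sub_apply, hS σ fun a ha => hσ a (Finset.mem_union_left _ ha),
      hS' σ fun a ha => hσ a (Finset.mem_union_right _ ha), sub_zero]
  · simp only [Pi.sub_apply, h.mul, h'.mul, map_sub]
    abel

theorem Cc.nsmul (h : Cc ρ c) (n : ℕ) : Cc ρ (n • c) :=
  ⟨h.fin.imp fun _ hS σ hσ => by rw [Pi.smul_apply, hS σ hσ, smul_zero], fun σ τ => by
    simp only [Pi.smul_apply, h.mul, map_nsmul, smul_add]⟩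

theorem GA.cob (h : GA ρ) (y : 𝒜) : Cc ρ fun σ => ρ σ y - y :=
  ⟨(h.fin y).imp fun _ hS σ hσ => by rw [hS σ hσ, sub_self], fun σ τ => by
    rw [h.mul, map_sub, add_comm, sub_add_sub_cancel]⟩

theorem Cc.conj (h : Cc ρ c) (g w : Gam k Ω) : ρ w (c (w⁻¹ * g * w)) - c g = ρ g (c w) - c w := by
  have e := h.mul w (w⁻¹ * g * w)
  rw [show w * (w⁻¹ * g * w) = g * w by group, h.mul] at e
  rw [sub_eq_sub_iff_add_eq_add, add_comm, ← e, add_comm]

variable [Par] [Fintype k] [Algebra k Ω] [IsScalarTower k (RatFunc k) Ω]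
  [IsSepClosure (RatFunc k) Ω] {h6 : ((mo : ℕ) : k) ≠ 0} {ℓ : Locs k Ω} {R : Rep (tame h6 ℓ)}
  {x : WG k Ω → F2} {A : Finset (Pl k)} (M : GM R x 𝒜) (hM : ∀ g, M.a g = ρ (gal g))

include hM

theorem fix_zero {y : 𝒜} (hy : Tor2 y) (h : ∀ g, wdeg g = 0 → ρ (gal g) y = y) : y = 0 := by
  obtain ⟨j, hj⟩ := hy
  obtain ⟨t, rfl⟩ := M.surj j y hj
  exact (M.ker j t).2 (R.VD_of_fix (x := x) fun g hg => (M.pt_eq_iff j _ _).1 (by
    rw [← M.a_pt, hM, h g hg]))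

theorem Cc.zero (h : Cc ρ c) (ht : ∀ σ, Tor2 (c σ)) (h0 : ∀ g, wdeg g = 0 → c (gal g) = 0)
    (σ : Gam k Ω) : c σ = 0 := by
  obtain ⟨S, hS⟩ := h.fin
  obtain ⟨w, hw⟩ := dense (ℓ none).σ (ℓ none).deg_σ σ S
  have h1 : c (gal w) = 0 := fix_zero M hM (ht _) fun g hg => by
    have e := h.conj (gal g) (gal w)
    rw [← map_inv, ← map_mul, ← map_mul, h0 g hg, h0 _ (GM.GeoM_deg (T := tame h6 ℓ) w hg), map_zero,
      sub_self] at e
    exact sub_eq_zero.1 e.symm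
  have h2 := h.mul (gal w) ((gal w)⁻¹ * σ)
  rwa [mul_inv_cancel_left, h1, hS (_ * _) fun a ha => by
    rw [AlgEquiv.mul_apply, ← hw a ha, ← AlgEquiv.mul_apply, inv_mul_cancel, AlgEquiv.one_apply],
    map_zero, add_zero] at h2

/-- restriction to the geometric group -/
noncomputable def rsG (c : Gam k Ω → 𝒜) (g : WG k Ω) : 𝒜 := if wdeg g = 0 then c (gal g) else 0

omit [Par] [IsSepClosure (RatFunc k) Ω] [IsScalarTower k (RatFunc k) Ω] hM in
theorem rsG_pos (c : Gam k Ω → 𝒜) {g : WG k Ω} (hg : wdeg g = 0) : rsG c g = c (gal g) := if_pos hg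

theorem Cc.cob (hρ : GA ρ) (h : Cc ρ c) (ht : ∀ σ, Tor2 (c σ)) {e : WG k Ω → 𝒜} (hB : M.IsB e)
    (he : ∀ g, wdeg g = 0 → e g = c (gal g)) : ∃ y, Tor2 y ∧ ∀ σ, c σ = ρ σ y - y := by
  obtain ⟨y, hy, h1⟩ := hB
  refine ⟨y, hy, fun σ => sub_eq_zero.1 ((h.sub (hρ.cob y)).zero M hM (fun s => ?_)
    (fun g hg => ?_) σ)⟩
  · rw [Pi.sub_apply, sub_eq_add_neg, sub_eq_add_neg]
    refine GM.GeoM_add (ht s) (GM.GeoM_neg (GM.GeoM_add ?_ (GM.GeoM_neg hy)))
    exact hy.imp fun j hj => by rw [← map_nsmul, hj, map_zero]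
  · rw [Pi.sub_apply, ← he g hg, h1 g hg, hM, sub_self]

theorem rsG_mem (hρ : GA ρ) (hx : (tame h6 ℓ).IsHom x)
    (hunr : ∀ v ∉ A, mat R x ((tame h6 ℓ).τ v) = 1) (h : Cc ρ c) (ht : Tor2 c)
    (hv : ∀ v ∉ A, c (gal (ℓ v).τ) = 0) : rsG c ∈ ZT M A := by
  obtain ⟨j, hj⟩ := ht
  have hj' : ∀ σ, 2 ^ j • c σ = 0 := congrFun hj
  obtain ⟨S, hS⟩ := h.fin
  obtain ⟨U, hU, hm⟩ := adm_level (R := R) hx j
  have hact := CZ_act M hx hm
  let H : Subgroup (WG k Ω) :=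
    { carrier := {u | wdeg u = 0 ∧ c (gal u) = 0}
      mul_mem' := fun {a b} ha hb => ⟨by rw [wdeg_mul, ha.1, hb.1, add_zero], by
        rw [map_mul, h.mul, ha.2, hb.2, map_zero, add_zero]⟩
      one_mem' := ⟨wdeg_one, h.one⟩
      inv_mem' := fun {a} ha => ⟨by rw [wdeg_inv, ha.1, neg_zero], by
        have e := h.mul (gal a)⁻¹ (gal a)
        rw [inv_mul_cancel, h.one, ha.2, map_zero, add_zero] at e
        rw [map_inv, ← e]⟩ }
  refine ⟨⟨fun g hg => if_neg hg, ⟨H.normalCore, adm_core H (fun u hu => hu.1) S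
    (fun g h0 hg => ⟨h0, hS _ hg⟩) fun g h0 => ?_, fun g hg u hu => ?_⟩, fun g hg u hu => ?_, ?_⟩,
    j, funext fun g => ?_⟩
  · obtain ⟨i, hi⟩ := hU.2.2.2 g h0
    obtain ⟨m, hm'⟩ := pow_dvd_pow_of_dvd two_dvd_mo j
    refine ⟨i + j, ?_⟩
    rw [pow_add, pow_mul, hm', pow_mul]
    generalize g ^ mo ^ i = u at hi
    have h1 : ∀ n : ℕ, c (gal (u ^ n)) = n • c (gal u) := fun n => by
      induction n with
      | zero => rw [pow_zero, map_one, h.one, zero_smul]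
      | succ n ih =>
        rw [pow_succ', map_mul, h.mul, ← hM, hact.triv u hi _ (hj' _), ih, succ_nsmul']
    exact H.pow_mem ⟨by rw [wdeg_pow, hU.2.1 u hi, mul_zero], by rw [h1, hj']⟩ m
  · have hu' := H.normalCore_le hu
    rw [rsG_pos c hg, rsG_pos c (by rw [wdeg_mul, hu'.1, add_zero]; exact hg), map_mul, h.mul,
      hu'.2, map_zero, add_zero]
  · rw [rsG_pos c hg, rsG_pos c hu, rsG_pos c (mul_mem hg hu), map_mul, h.mul, hM]
  · rintro _ ⟨v, hv', g, rfl⟩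
    have h1 := CZ_tau hunr hm v hv'
    have h2 := h.conj (gal (ℓ v).τ) (gal g)⁻¹
    rw [hv v hv', ← hM, hact.triv (ℓ v).τ h1 _ (hj' _), sub_self, sub_zero, inv_inv] at h2
    have h3 := hρ.mul (gal g) (gal g)⁻¹ (c (gal g * gal (ℓ v).τ * (gal g)⁻¹))
    rw [h2, map_zero, mul_inv_cancel, (hρ.fin _).choose_spec 1 fun _ _ => rfl] at h3
    rw [rsG_pos c (hU.2.1 _ (hU.1.conj_mem _ h1 g)), map_mul, map_mul, map_inv]
    exact h3
  · rw [Pi.smul_apply, rsG, smul_ite, hj', smul_zero, ite_self, Pi.zero_apply]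

theorem sel_fin (hρ : GA ρ) (hx : (tame h6 ℓ).IsHom x) {φ : WG k Ω}
    (hunr : ∀ v ∉ A, mat R x ((tame h6 ℓ).τ v) = 1) {e : ℕ} {S : Set (WG k Ω → 𝒜)} (hS : S.Finite)
    (h : ∀ c ∈ ZT M A, M.IsB (conjOp M.a φ c - c) → M.IsB (2 ^ e • c) ∧ ∃ s ∈ S, M.IsB (c - s)) :
    ∃ S' : Set (Gam k Ω → 𝒜), S'.Finite ∧ ∀ c, Cc ρ c → Tor2 c →
      (∀ v ∉ A, c (gal (ℓ v).τ) = 0) → (∃ y, Tor2 y ∧ ∀ σ, 2 ^ e • c σ = ρ σ y - y) ∧
        ∃ s ∈ S', ∃ y, ∀ σ, (c - s) σ = ρ σ y - y := by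
  have h1 : ∀ s : WG k Ω → 𝒜, ∃ d, ∀ c, Cc ρ c → Tor2 c → M.IsB (rsG c - s) →
      Cc ρ d ∧ Tor2 d ∧ M.IsB (rsG d - s) := fun s => by
    by_cases hs : ∃ c, Cc ρ c ∧ Tor2 c ∧ M.IsB (rsG c - s)
    · exact hs.imp fun d hd _ _ _ _ => hd
    · exact ⟨0, fun c a b d => absurd ⟨c, a, b, d⟩ hs⟩
  choose d hd using h1
  have h2 : ∀ {c : Gam k Ω → 𝒜}, Tor2 c → ∀ σ, Tor2 (c σ) := fun h σ =>
    h.imp fun j hj => congrFun hj σ
  refine ⟨d '' S, hS.image d, fun c hc ht hv => ?_⟩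
  obtain ⟨h3, s, hs, h4⟩ := h _ (rsG_mem M hM hρ hx hunr hc ht hv) ⟨c (gal φ), h2 ht _,
    fun g hg => by
      rw [Pi.sub_apply, conjOp_apply, rsG_pos c hg, rsG_pos c (GM.GeoM_deg φ hg), hM, hM,
        map_mul, map_mul, map_inv, hc.conj]⟩
  obtain ⟨d1, d2, d3⟩ := hd s c hc ht h4
  refine ⟨(hc.nsmul (2 ^ e)).cob M hM hρ (fun σ => (h2 ht σ).imp fun j hj => ?_) h3
    fun g hg => ?_, _, ⟨s, hs, rfl⟩, ((hc.sub d1).cob M hM hρ (fun σ => ?_)
      ((GM.GeoM_B M).sub_mem h4 d3) fun g hg => ?_).imp fun y hy => hy.2⟩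
  · rw [smul_comm, hj, smul_zero]
  · rw [Pi.smul_apply, rsG_pos c hg]
  · rw [Pi.sub_apply, sub_eq_add_neg]
    exact GM.GeoM_add (h2 ht σ) (GM.GeoM_neg (h2 d2 σ))
  · rw [sub_sub_sub_cancel_right, Pi.sub_apply, Pi.sub_apply, rsG_pos c hg, rsG_pos _ hg]

end Pool.Agent.Hyp
end

-- merged part: Pool.Agent.Work.MP_60d5ce_nt.Hy.RtLoc
section
/-!
# The roots at a place  (task HY RtLoc)

* `w_le`: `w_root_le` with `c = 1` for `f.map (bp Ω)`, which is monic by `r.eq`.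
* `w_good`: `disc`, `w_base`: a product of numbers at most one is one.  `π_good`: `Loc.τ_res`.
* `w_node`: the product of the `w (α a - α b)` over all ordered pairs `a ≠ b` is `1 / 2` (`Pen.mult_eq`).  Call an ordered pair close if `a ≠ b` and `w (α a - α b) < 1`.  `τ` permutes the close pairs (`Loc.w_τ`);
  the product of the `α a - α b` over an orbit of `τ` is nonzero, fixed by `τ` and by the subgroup of `adm`, so its size is a power of two (`Loc.disc`), at most `1 / 2`.  Hence there is exactly one orbit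
  of close pairs (take the orbit as a `Finset.filter` of `SameCycle` for the permutation `Equiv.prodCongr (π τ) (π τ)`).  Let `(a, b)` be close and `t = π τ`.  Then `t ^ i a = b` for some `i`
  (the pair `(b, a)`).  If `(a, c)` is close then `t ^ j a = a`, `t ^ j b = c`, and `t ^ j b = t ^ j t ^ i a = t ^ i t ^ j a = b`.  Also `t z = z` or `(z, t z)` is close (`Loc.τ_res`), so `t` preserves `{a, b}`,
  every close pair lies in `{a, b}`, `t` fixes all other roots, and `t a ≠ a`.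
* `w_inf`: let `N = (2 gg + 1) (2 gg)` and `c = 2 ^ (D / N)` (`Real.rpow`, or `Real.pow_nat_rpow_nat_inv`), `c ^ N = 2 ^ D`.  By `Pen.inf` and `w_bp_inf` the coefficient `i` has size at most
  `c ^ (n - i)` (`pow_le_pow_left`-type cancellation); `w_root_le`; the product of the `N` differences, each at most `c`, is `c ^ N`.
-/

namespace Pool.Agent.Hyp

open scoped Classical
open Pool.Agent.Quad Polynomial

theorem RtLoc_eq {ι : Type} {s : Finset ι} {x : ι → ℝ} {c : ℝ} (h0 : ∀ i ∈ s, 0 < x i)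
    (h1 : ∀ i ∈ s, x i ≤ c) (h : ∏ i ∈ s, x i = c ^ s.card) : ∀ i ∈ s, x i = c := fun i hi => by
  by_contra hne
  have := Finset.prod_lt_prod h0 h1 ⟨i, hi, lt_of_le_of_ne (h1 i hi) hne⟩
  rw [h, Finset.prod_const] at this
  exact lt_irrefl _ this

theorem RtLoc_lt {ι : Type} {s : Finset ι} {x : ι → ℝ} (h0 : ∀ i ∈ s, 0 < x i)
    (h1 : ∀ i ∈ s, x i ≤ 1) {i : ι} (hi : i ∈ s) (h : x i < 1) : ∏ i ∈ s, x i < 1 := by
  simpa using Finset.prod_lt_prod h0 h1 ⟨i, hi, h⟩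

theorem RtLoc_comb {Z : Type} [DecidableEq Z] {t : Equiv.Perm Z} {R : Z → Z → Prop}
    (hne : ∀ a b, R a b → a ≠ b) (hs : ∀ a b, R a b → R b a)
    (h1 : ∀ a b c d, R a b → R c d → ∃ i : ℤ, (t ^ i) a = c ∧ (t ^ i) b = d)
    (h2 : ∀ z, t z = z ∨ R z (t z)) {a b : Z} (h : R a b) :
    t = Equiv.swap a b ∧ ∀ c d, R c d → (c = a ∧ d = b) ∨ (c = b ∧ d = a) := by
  have hu : ∀ a b c, R a b → R a c → c = b := fun a b c k k' => by
    obtain ⟨i, rfl, -⟩ := h1 a b b a k (hs _ _ k)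
    obtain ⟨j, e, rfl⟩ := h1 a _ a c k k'
    rw [← Equiv.Perm.mul_apply, ← zpow_add, add_comm, zpow_add, Equiv.Perm.mul_apply, e]
  have ht : ∀ a b, R a b → t a = b := fun a b k => (h2 a).elim (fun e => by
    obtain ⟨i, e', -⟩ := h1 a b b a k (hs _ _ k)
    exact absurd ((Equiv.Perm.zpow_apply_eq_self_of_apply_eq_self e i).symm.trans e') (hne _ _ k))
    (hu _ _ _ k)
  have e1 := ht a b h
  have e2 := ht b a (hs _ _ h)
  have hc : ∀ c d, R c d → (c = a ∧ d = b) ∨ (c = b ∧ d = a) := fun c d k => by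
    obtain ⟨i, e, -⟩ := h1 a b c d h k
    rcases Equiv.Perm.zpow_apply_eq_of_apply_apply_eq_self (f := t) (x := a) (by rw [e1, e2]) i
      with q | q
    · obtain rfl := e.symm.trans q
      exact .inl ⟨rfl, hu _ _ _ h k⟩
    · obtain rfl := e.symm.trans (q.trans e1)
      exact .inr ⟨rfl, hu _ _ _ (hs _ _ h) k⟩
  refine ⟨Equiv.ext fun z => ?_, hc⟩
  by_cases q : z = a
  · rw [q, e1, Equiv.swap_apply_left]
  by_cases q' : z = b
  · rw [q', e2, Equiv.swap_apply_right]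
  rw [Equiv.swap_apply_of_ne_of_ne q q']
  exact (h2 z).resolve_right fun k => (hc _ _ k).elim (fun e => q e.1) fun e => q' e.1

variable [Par] {k : Type} [Field k] [Fintype k] {f : k[X][X]} {Ω : Type} [Field Ω]
  [Algebra (RatFunc k) Ω] [Algebra k Ω] [IsScalarTower k (RatFunc k) Ω]
  [IsSepClosure (RatFunc k) Ω] {v : Pl k} {Z : Type} [Fintype Z]

namespace Rts

variable (r : Rts Ω f Z)

omit [Par] [Fintype k] [IsSepClosure (RatFunc k) Ω] in
theorem RtLoc_sub {w : AbsoluteValue Ω ℝ} (hw : IsNonarchimedean w) {a b : Ω} {c : ℝ}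
    (ha : w a ≤ c) (hb : w b ≤ c) : w (a - b) ≤ c := by
  rw [sub_eq_add_neg]
  exact (hw a (-b)).trans (max_le ha (by rwa [w.map_neg]))

omit [Par] [IsScalarTower k (RatFunc k) Ω] [IsSepClosure (RatFunc k) Ω] in
theorem RtLoc_root {w : AbsoluteValue Ω ℝ} (hw : IsNonarchimedean w) {c : ℝ} (hc : 0 ≤ c)
    (h : ∀ i < (f.map (bp Ω)).natDegree,
      w (bp Ω (f.coeff i)) ≤ c ^ ((f.map (bp Ω)).natDegree - i)) (a : Z) : w (r.α a) ≤ c := by
  refine w_root_le hw (p := f.map (bp Ω)) ?_ hc (fun i hi => by rw [coeff_map]; exact h i hi) ?_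
  · rw [r.eq]
    exact monic_prod_of_monic _ _ fun a _ => monic_X_sub_C _
  · rw [r.eq, eval_prod]
    exact Finset.prod_eq_zero (Finset.mem_univ a) (by simp)

omit [Par] [IsScalarTower k (RatFunc k) Ω] [IsSepClosure (RatFunc k) Ω] in
theorem RtLoc_pos (w : AbsoluteValue Ω ℝ) {a b : Z} (h : a ≠ b) : 0 < w (r.α a - r.α b) :=
  w.pos (sub_ne_zero.2 (r.inj.ne h))

theorem RtLoc_disc (h : Pen f) (w : AbsoluteValue Ω ℝ) :
    ∏ p ∈ Finset.univ.offDiag, w (r.α p.1 - r.α p.2) = w (bp Ω f.discr) := by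
  rw [← map_prod, Finset.prod_finset_product' _ Finset.univ (fun a => Finset.univ.erase a)
    (fun p => by simp [ne_comm]) (f := fun a b => r.α a - r.α b)]
  rcases r.disc h with e | e
  · rw [e]
  · rw [e, w.map_neg]

omit [IsSepClosure (RatFunc k) Ω] in
theorem RtLoc_zpow (l : Loc Ω v) (i : ℤ) (z : Ω) : l.w (gal (l.τ ^ i) z) = l.w z := by
  induction i using Int.induction_on generalizing z with
  | zero => simp
  | succ i ih => rw [zpow_add_one, map_mul, AlgEquiv.mul_apply, ih, l.w_τ]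
  | pred i ih =>
    rw [zpow_sub_one, map_mul, AlgEquiv.mul_apply, ih, ← l.w_τ, ← AlgEquiv.mul_apply, ← map_mul,
      mul_inv_cancel, map_one, AlgEquiv.one_apply]

theorem w_le (l : Loc Ω v) (hv : v ≠ none) (a : Z) : l.w (r.α a) ≤ 1 := by
  exact r.RtLoc_root l.w_na zero_le_one (fun i _ => by rw [one_pow]; exact l.w_bp_le hv _) a

theorem w_good (h : Pen f) (l : Loc Ω v) (hv : v ≠ none) (hv' : v ∉ fac f.discr) {a b : Z}
    (hab : a ≠ b) : l.w (r.α a - r.α b) = 1 := by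
  refine RtLoc_eq (s := Finset.univ.offDiag) (x := fun p => l.w (r.α p.1 - r.α p.2))
    (fun p hp => r.RtLoc_pos _ (Finset.mem_offDiag.1 hp).2.2)
    (fun p _ => RtLoc_sub l.w_na (r.w_le l hv _) (r.w_le l hv _)) ?_ (a, b) (by simpa using hab)
  rw [r.RtLoc_disc h, l.w_base hv h.ne, not_not.1 ((mem_fac h.ne).not.1 hv')]
  simp

theorem π_good (h : Pen f) (l : Loc Ω v) (hv : v ≠ none) (hv' : v ∉ fac f.discr) :
    r.π l.τ = 1 := by
  refine Equiv.ext fun a => by_contra fun e => ?_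
  have h1 := l.τ_res (r.w_le l hv a)
  rw [r.gal_α, r.w_good h l hv hv' (b := a) e] at h1
  exact lt_irrefl _ h1

theorem w_node (h : Pen f) (l : Loc Ω v) (hv : v ∈ fac f.discr) :
    ∃ a0 b0, a0 ≠ b0 ∧ r.π l.τ = Equiv.swap a0 b0 ∧
      ∀ a b, a ≠ b → l.w (r.α a - r.α b) < 1 → (a = a0 ∧ b = b0) ∨ (a = b0 ∧ b = a0) := by
  have hv0 : v ≠ none := ((mem_fac_iff h.ne).1 hv).1
  have hd := r.RtLoc_disc h l.w
  rw [l.w_base hv0 h.ne, h.mult_eq hv] at hd
  have h0 : ∀ p ∈ (Finset.univ : Finset Z).offDiag, 0 < l.w (r.α p.1 - r.α p.2) :=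
    fun p hp => r.RtLoc_pos _ (Finset.mem_offDiag.1 hp).2.2
  have h1 : ∀ p : Z × Z, l.w (r.α p.1 - r.α p.2) ≤ 1 :=
    fun p => RtLoc_sub l.w_na (r.w_le l hv0 _) (r.w_le l hv0 _)
  obtain ⟨U, hU, hU1⟩ := r.adm h
  obtain ⟨a0, b0, k0⟩ : ∃ a b, a ≠ b ∧ l.w (r.α a - r.α b) < 1 := by
    by_contra! hn
    rw [Finset.prod_eq_one fun p hp => le_antisymm (h1 p)
      (hn _ _ (Finset.mem_offDiag.1 hp).2.2)] at hd
    norm_num at hd
  have key := RtLoc_comb (t := r.π l.τ) (R := fun a b => a ≠ b ∧ l.w (r.α a - r.α b) < 1)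
    (fun _ _ k => k.1) (fun a b k => ⟨k.1.symm, by rw [AbsoluteValue.map_sub]; exact k.2⟩)
    (fun a b c d k k' => ?_) (fun z => or_iff_not_imp_left.2 fun e => ⟨Ne.symm e, by
      rw [AbsoluteValue.map_sub, ← r.gal_α]
      exact l.τ_res (r.w_le l hv0 z)⟩) k0
  · exact ⟨a0, b0, k0.1, key.1, fun a b e e' => key.2 a b ⟨e, e'⟩⟩
  by_contra hn
  let T : Finset (Z × Z) :=
    Finset.univ.filter fun p => ∃ i : ℤ, (r.π l.τ ^ i) a = p.1 ∧ (r.π l.τ ^ i) b = p.2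
  have hT : ∀ p, p ∈ T ↔ ∃ i : ℤ, (r.π l.τ ^ i) a = p.1 ∧ (r.π l.τ ^ i) b = p.2 := fun p => by
    simp [T]
  have hsub : T ⊆ Finset.univ.offDiag := fun p hp => by
    obtain ⟨i, e1, e2⟩ := (hT p).1 hp
    simpa [← e1, ← e2] using k.1
  obtain ⟨n, hn2⟩ := l.disc U hU (∏ p ∈ T, (r.α p.1 - r.α p.2))
    (Finset.prod_ne_zero_iff.2 fun p hp =>
      sub_ne_zero.2 (r.inj.ne (Finset.mem_offDiag.1 (hsub hp)).2.2))
    (fun u hu => by simp [r.gal_α, hU1 u hu]) (by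
      rw [map_prod]
      refine Finset.prod_equiv (Equiv.prodCongr (r.π l.τ) (r.π l.τ)) (fun p => ?_)
        fun p _ => by simp [r.gal_α]
      rw [hT, hT]
      constructor
      · rintro ⟨i, e1, e2⟩
        exact ⟨1 + i, by simp [zpow_add, e1], by simp [zpow_add, e2]⟩
      · rintro ⟨i, e1, e2⟩
        exact ⟨-1 + i, by simp [zpow_add, e1], by simp [zpow_add, e2]⟩)
  rw [← l.w_apply, map_prod] at hn2
  have h2 := RtLoc_lt (s := T) (x := fun p => l.w (r.α p.1 - r.α p.2))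
    (fun p hp => h0 p (hsub hp)) (fun p _ => h1 p) (i := (a, b)) ((hT _).2 ⟨0, rfl, rfl⟩) k.2
  have h3 := RtLoc_lt (s := Finset.univ.offDiag \ T) (x := fun p => l.w (r.α p.1 - r.α p.2))
    (fun p hp => h0 p (Finset.mem_sdiff.1 hp).1) (fun p _ => h1 p) (i := (c, d))
    (Finset.mem_sdiff.2 ⟨by simpa using k'.1, fun q => hn ((hT _).1 q)⟩) k'.2
  rw [← Finset.prod_sdiff hsub, hn2] at hd
  rw [hn2, zpow_lt_one_iff_right₀ one_lt_two] at h2
  have h4 : (2 : ℝ) ^ n ≤ 2 ^ (-((1 : ℕ) : ℤ)) := zpow_le_zpow_right₀ one_le_two (by omega)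
  have h5 : (0 : ℝ) < 2 ^ n := zpow_pos two_pos n
  nlinarith

theorem w_inf (h : Pen f) (l : Loc Ω (none : Pl k)) :
    (∀ a, l.w (r.α a) ^ ((2 * gg + 1) * (2 * gg)) ≤ 2 ^ f.discr.natDegree) ∧
      ∀ a b, a ≠ b → l.w (r.α a - r.α b) ^ ((2 * gg + 1) * (2 * gg)) = 2 ^ f.discr.natDegree := by
  have hN : (2 * gg + 1) * (2 * gg) ≠ 0 := by
    have := Par.gg_pos
    positivity
  obtain ⟨c, hc, hcN⟩ : ∃ c : ℝ, 0 ≤ c ∧ c ^ ((2 * gg + 1) * (2 * gg)) = 2 ^ f.discr.natDegree :=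
    ⟨_, by positivity, Real.rpow_inv_natCast_pow (by positivity) hN⟩
  have h1 : ∀ a, l.w (r.α a) ≤ c := r.RtLoc_root l.w_na hc fun i _ => by
    by_cases e : f.coeff i = 0
    · rw [e, map_zero, map_zero]
      positivity
    rw [l.w_bp_inf e, h.monic.natDegree_map, h.deg,
      ← pow_le_pow_iff_left₀ (by positivity) (by positivity) hN, ← pow_mul, ← pow_mul,
      pow_mul' c, hcN, ← pow_mul, mul_comm, mul_comm f.discr.natDegree]
    exact pow_le_pow_right₀ one_le_two (h.inf i)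
  refine ⟨fun a => hcN ▸ pow_le_pow_left₀ (l.w.nonneg _) (h1 a) _, fun a b hab => ?_⟩
  rw [← hcN, RtLoc_eq (s := Finset.univ.offDiag) (x := fun p => l.w (r.α p.1 - r.α p.2))
    (fun p hp => r.RtLoc_pos _ (Finset.mem_offDiag.1 hp).2.2)
    (fun p _ => RtLoc_sub l.w_na (h1 _) (h1 _)) ?_ (a, b) (by simpa using hab)]
  rw [r.RtLoc_disc h, l.w_bp_inf h.ne, Finset.offDiag_card, Finset.card_univ, r.card h, ← hcN,
    ← Nat.mul_sub_one, Nat.add_sub_cancel]

end Rts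

end Pool.Agent.Hyp
end

-- merged part: Pool.Agent.Work.MP_60d5ce_nt.Hy.GenC
section
/-!
# The generic curve and its Tate module  (task HY GenC)

* `iter_fix`: by induction on `i`: `f^[2 ^ i] c - c` is killed by `2 ^ j` when `c` is killed by `2 ^ (j + i + 1)`; with `M = g - 1`, `g * g - 1 = M * M + 2 * M` (work in `AddMonoid.End A`).
* `exists_two`: `e n = B.pt 1 (lftV n)`; `pt_eq_iff`, `mat_spec`, `VD_sub_lftV`, `digV_mulVec`.  `eq_zero_of_fin`: a power `2 ^ c` kills all `B.pt j t`; `pow_smul_add`, `B.ker`, `eq_zero_of_forall_dvd`.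
* `Cyc.inv`: `z = γ⁻¹ (γ z)`; exponents only matter modulo `2 ^ j` (`pow_val_mul`-like: `ZMod.val_mul`, `pow_mod`-type lemma `pow_eq_pow_mod`).
* `exists_gc`: `exists_cub` for `f.map (pj Ω)` and `ω = -1`; `pj Ω = (algebraMap Ω (Fb Ω)).comp (bp Ω)`; `Cub.act` for `(psi k Ω).comp gal`; `act_fx`, `fx_base`; `Spt.exists_symp`.
* `cyc`: `psi_frob` for `0 ≤ wdeg g`, where `cq g = q ^ n`; else `Cyc.inv` and `cq_mul`.
* `sm`: `adm_core` for the subgroup of the `g` of degree zero that fix the finite set `tors (2 ^ j)` (`Spt.card_tors`, `pa_fix`, `fx`); `pow_mo`, `two_fix`, `iter_fix`, `2 ^ j ∣ mo ^ j`; `mat_dvd_iff`.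
* `exists_δ`: `exists_two`, `Spt.cls_eq_zero`, `act_e1`; `c • n = c.val • n` for `c : F2`.
-/

namespace Pool.Agent.Hyp

open scoped Classical
open PR0 Polynomial Pool.Agent.Ell.AT Pool.Agent.Quad Pool.Agent.Lef

theorem iter_fix {A : Type} [AddCommGroup A] (f : A →+ A) (h : ∀ c, 2 • c = 0 → f c = c) (j : ℕ)
    {c : A} (hc : 2 ^ (j + 1) • c = 0) : f^[2 ^ j] c = c := by
  induction j generalizing c with
  | zero => exact h c (by simpa using hc)
  | succ j ih =>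
    have h1 := ih (c := 2 • c) (by rw [smul_smul, ← pow_succ, hc])
    have h2 : 2 • (f^[2 ^ j] c - c) = 0 := by
      rw [two_nsmul, iterate_map_add] at h1
      rw [smul_sub, two_nsmul, two_nsmul, h1, sub_self]
    have h3 := Function.iterate_fixed (h _ h2) (2 ^ j)
    rw [iterate_map_sub, sub_eq_iff_eq_add] at h3
    rw [pow_succ, mul_two, Function.iterate_add_apply, h3]
    rw [smul_sub, two_nsmul, two_nsmul, sub_eq_zero] at h2
    rw [sub_add_eq_add_sub, h2, add_sub_cancel_right]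

section

variable {A : Type} [AddCommGroup A] {I : Type} [Fintype I] [DecidableEq I] (B : TateI I A)

theorem TateI.exists_two : ∃ e : (I → F2) →+ A, Function.Injective e ∧
    (∀ c, 2 • c = 0 → ∃ n, e n = c) ∧
    ∀ (f : A →+ A) (n : I → F2), e (((B.mat f).map res).mulVec n) = f (e n) := by
  have h1 : ∀ t, B.pt 1 (lftV (digV 0 t)) = B.pt 1 t := fun t => by
    have h2 := (B.ker _ _).2 (VD_sub_lftV (VD.triv t))
    rw [pow_zero, one_smul, map_sub, sub_eq_zero] at h2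
    exact h2.symm
  refine ⟨AddMonoidHom.mk' (fun n => B.pt 1 (lftV n)) fun n n' => ?_,
    (injective_iff_map_eq_zero _).2 fun n hn => ?_, fun c hc => ?_, fun f n => ?_⟩
  · rw [← map_add, ← h1 (lftV n + lftV n'), digV_add (VD.triv _) (VD.triv _), digV_lftV, digV_lftV]
  · rw [← digV_lftV n]
    exact digV_of_VD ((B.ker 1 _).1 hn)
  · obtain ⟨a, rfl⟩ := B.surj 1 c (by rwa [pow_one])
    exact ⟨_, h1 a⟩
  · show B.pt 1 (lftV _) = f (B.pt 1 (lftV n))
    rw [B.mat_spec, ← h1 ((B.mat f).mulVec _), digV_mulVec _ (VD.triv _), digV_lftV]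

theorem TateI.eq_zero_of_fin {t : I → O} (h : (Set.range fun j => B.pt j t).Finite) : t = 0 := by
  choose n hn using fun P : Set.range fun j => B.pt j t => P.2
  have := h.to_subtype
  obtain ⟨c, hc⟩ := (Set.finite_range n).bddAbove
  refine VD.eq_zero fun j => (B.ker j t).1 ?_
  have h1 := hn ⟨_, c + j, rfl⟩
  obtain ⟨d, hd⟩ := Nat.exists_eq_add_of_le' (hc ⟨⟨_, c + j, rfl⟩, rfl⟩)
  rw [← B.pow_smul_add c j, ← show _ = B.pt (c + j) t from h1]
  nth_rewrite 1 [hd]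
  rw [pow_add, mul_smul, B.pow_smul_pt, smul_zero]

end

theorem GenC_pow {κ : Type} [Field κ] {z : κ} {N : ℕ} (hz : z ^ N = 1) (n : ℕ) :
    z ^ (n : ZMod N).val = z ^ n := by
  rw [ZMod.val_natCast, ← pow_eq_pow_mod n hz]

theorem Cyc.inv {κ K : Type} [Field κ] [Field K] [Algebra κ K] {γ : SA κ K} {u u' : O}
    (h : Cyc γ u) (e : u * u' = 1) : Cyc γ⁻¹ u' := by
  intro j z hz
  have h1 := h j (z ^ (rO j u').val) (by rw [← pow_mul, mul_comm, pow_mul, hz, one_pow])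
  rw [← pow_mul, ← GenC_pow hz (_ * _), Nat.cast_mul, ZMod.natCast_zmod_val, ZMod.natCast_zmod_val,
    ← map_mul, mul_comm, e, map_one, ← Nat.cast_one, GenC_pow hz, pow_one] at h1
  nth_rewrite 1 [← h1]
  rw [← RingAut.mul_apply, ← map_mul, inv_mul_cancel, map_one, RingAut.one_apply]

variable [Par] {k : Type} [Field k] [Fintype k] {f : k[X][X]} {Ω : Type} [Field Ω]
  [Algebra (RatFunc k) Ω] [Algebra k Ω] [IsScalarTower k (RatFunc k) Ω]
  [IsSepClosure (RatFunc k) Ω] {v : Pl k} {Z : Type} [Fintype Z]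

/-- the generic curve over the algebraic closure -/
structure Gc (r : Rts Ω f Z) where
  L : Type
  [fL : Field L]
  [aL : Algebra (Fb Ω) L]
  [ff : Fact (IsFF (Fb Ω) L)]
  C : Cub (Fb Ω) L
  spt : C.Spt fun a => algebraMap Ω (Fb Ω) (r.α a)
  act : WG k Ω →* SA (Fb Ω) L
  act_c : ∀ g, sc (act g) = psi k Ω (gal g)
  act_x : ∀ g, sl (act g) C.x = C.x
  act_y : ∀ g, sl (act g) C.y = C.y
  fx : ∀ S : Finset L, ∃ S' : Finset Ω, ∀ g, (∀ a ∈ S', gal g a = a) → ∀ u ∈ S, sl (act g) u = u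
  B : TateI Ix (Pic (Fb Ω) L)
  symp : ∀ (γ : SA (Fb Ω) L) (u : O), Cyc γ u → ∀ s t,
    ee ((B.mat (pa γ)).mulVec s) ((B.mat (pa γ)).mulVec t) = u * ee s t

attribute [instance] Gc.fL Gc.aL Gc.ff

theorem exists_gc (r : Rts Ω f Z) (h : Pen f) (h6 : ((mo : ℕ) : k) ≠ 0) : Nonempty (Gc r) := by
  have h2 : (2 : Fb Ω) ≠ 0 := two_ne_of_six (six_ne_map (algebraMap k (Fb Ω)) h6)
  have hω : IsPrimitiveRoot (-1 : Fb Ω) ll := IsPrimitiveRoot.mk_of_lt _ two_pos (by norm_num)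
    fun l h0 h1 e => h2 (by
      rw [show l = 1 by have : l < 2 := h1; omega, pow_one] at e
      linear_combination -e)
  obtain ⟨L, _, _, C, hf, -⟩ := exists_cub (f.map (pj Ω)) (-1) hω (by
    rw [h.monic.natDegree_map, h.deg]
    show ¬ 2 ∣ _
    omega)
  have : Fact (IsFF (Fb Ω) L) := ⟨C.isFF⟩
  have hs : C.Spt fun a => algebraMap Ω (Fb Ω) (r.α a) := by
    refine ⟨(algebraMap Ω (Fb Ω)).injective.comp r.inj, ?_⟩
    have e : (pj Ω : k[X] →+* Fb Ω) = (algebraMap Ω (Fb Ω)).comp (bp Ω) :=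
      RingHom.ext fun p => IsScalarTower.algebraMap_apply (RatFunc k) Ω (Fb Ω) _
    rw [hf, e, ← Polynomial.map_map, r.eq, Polynomial.map_prod]
    simp
  have hg : ∀ g : WG k Ω, C.f.map (((psi k Ω).comp gal) g : Fb Ω →+* Fb Ω) = C.f := fun g => by
    rw [hf, Polynomial.map_map]
    congr 1
    exact RingHom.ext fun p => psi_base (gal g) _
  obtain ⟨B, hB⟩ := hs.exists_symp (r.card h)
  refine ⟨⟨L, C, hs, C.act _ hg, C.act_c _ hg, C.act_x _ hg, C.act_y _ hg, fun S => ?_, B, hB⟩⟩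
  obtain ⟨S', h1⟩ := C.act_fx _ hg S
  obtain ⟨S'', h3⟩ := fx_base (k := k) S'
  exact ⟨S'', fun g hg' => h1 (h3 (gal g) hg')⟩

namespace Gc

variable {r : Rts Ω f Z} (G : Gc r)

/-- the representation on the Tate module -/
noncomputable def ρ (g : WG k Ω) : Matrix Ix Ix O := G.B.mat (pa (G.act g))

theorem ρ_pt (g : WG k Ω) (j : ℕ) (t : V) :
    pa (G.act g) (G.B.pt j t) = G.B.pt j ((G.ρ g).mulVec t) := G.B.mat_spec _ j t

theorem ρ_one : G.ρ 1 = 1 := G.B.mat_one fun _ P _ => by rw [map_one, pa_one]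

theorem ρ_mul (g h : WG k Ω) : G.ρ (g * h) = G.ρ g * G.ρ h :=
  G.B.mat_mul fun P => by rw [map_mul, pa_mul]

theorem GenC_cyc (h6 : ((mo : ℕ) : k) ≠ 0) (ℓ : Locs k Ω) {g : WG k Ω} {m : ℕ} (hg : wdeg g = m) :
    Cyc (G.act g) ((tame h6 ℓ).cq g) := by
  intro j z hz
  have h1 : (tame h6 ℓ).cq g = ((Fintype.card k ^ m : ℕ) : O) := by
    rw [Tame.cq, show (tame h6 ℓ).deg g = m from hg, zpow_natCast, Units.val_pow_eq_pow_val,
      IsUnit.unit_spec, Nat.cast_pow]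
    rfl
  rw [h1, map_natCast, GenC_pow hz, G.act_c]
  exact psi_frob g hg (IsAlgebraic.of_pow (pow_pos two_pos j) (hz ▸ isAlgebraic_one))

theorem cyc (h6 : ((mo : ℕ) : k) ≠ 0) (ℓ : Locs k Ω) (g : WG k Ω) :
    Cyc (G.act g) ((tame h6 ℓ).cq g) := by
  rcases Int.eq_nat_or_neg (wdeg g) with ⟨m, hm | hm⟩
  · exact G.GenC_cyc h6 ℓ hm
  · have h1 := (G.GenC_cyc h6 ℓ (g := g⁻¹) (m := m) (by rw [wdeg_inv, hm, neg_neg])).inv
      (u' := (tame h6 ℓ).cq g) (by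
        rw [← Tame.cq_mul, inv_mul_cancel]
        exact Tame.cq_of_deg_zero wdeg_one)
    rwa [map_inv, inv_inv] at h1

theorem act_e1 (g : WG k Ω) (a : Z) : pa (G.act g) (G.C.e1 (algebraMap Ω (Fb Ω) (r.α a))) =
    G.C.e1 (algebraMap Ω (Fb Ω) (r.α (r.π g a))) := by
  exact G.spt.pa_e1 (G.act_x g) (by rw [G.act_c, psi_alg, r.gal_α])

theorem two_fix {g : WG k Ω} (hg : r.π g = 1) {c : Pic (Fb Ω) G.L} (hc : 2 • c = 0) :
    pa (G.act g) c = c := by
  obtain ⟨n, rfl⟩ := G.spt.two hc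
  rw [Cub.cls, map_sum]
  refine Finset.sum_congr rfl fun a _ => ?_
  rw [map_nsmul, G.act_e1, hg, Equiv.Perm.one_apply]

theorem sm (h : Pen f) (j : ℕ) : ∃ U : Subgroup (WG k Ω), Adm U ∧
    ∀ u ∈ U, ∀ a b, (2 : O) ^ j ∣ (G.ρ u - 1) a b := by
  let H : Subgroup (WG k Ω) :=
    { carrier := {u | wdeg u = 0 ∧ ∀ P, 2 ^ (j + 1) • P = 0 → pa (G.act u) P = P}
      mul_mem' := fun {x y} hx hy => ⟨by rw [wdeg_mul, hx.1, hy.1, add_zero], fun P hP => by
        rw [map_mul, pa_mul, hy.2 P hP, hx.2 P hP]⟩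
      one_mem' := ⟨wdeg_one, fun P _ => by rw [map_one, pa_one]⟩
      inv_mem' := fun {x} hx => ⟨by rw [wdeg_inv, hx.1, neg_zero], fun P hP => by
        nth_rewrite 1 [← hx.2 P hP]
        rw [← pa_mul, ← map_mul, inv_mul_cancel, map_one, pa_one]⟩ }
  choose S hS using fun c : Pic (Fb Ω) G.L => pa_fix c
  obtain ⟨S', hS'⟩ := G.fx ((G.B.card_tors (j + 1)).1.toFinset.biUnion S)
  refine ⟨H.normalCore, adm_core H (fun u hu => hu.1) S' (fun g h0 hg => ⟨h0, fun P hP =>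
    hS P _ fun a ha => hS' g hg a (Finset.mem_biUnion.2 ⟨P, (Set.Finite.mem_toFinset _).2 hP, ha⟩)⟩)
    fun g h0 => ⟨j + 1, ?_⟩, fun u hu => (G.B.mat_dvd_iff _ j).2 fun P hP =>
      (H.normalCore_le hu).2 P (by rw [pow_succ', mul_smul, hP, smul_zero])⟩
  obtain ⟨m, hm⟩ := pow_dvd_pow_of_dvd two_dvd_mo j
  rw [pow_succ', pow_mul, hm, pow_mul]
  refine H.pow_mem ⟨by rw [wdeg_pow, wdeg_pow, h0, mul_zero, mul_zero], fun P hP => ?_⟩ m
  rw [map_pow, ← pa_iter]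
  exact iter_fix _ (fun c hc => G.two_fix (r.pow_mo h g) hc) j hP

theorem exists_δ : ∃ δ : Z → Vb, (∀ g a, ((G.ρ g).map res).mulVec (δ a) = δ (r.π g a)) ∧
    (∀ c : Z → F2, ∑ a, c a • δ a = 0 → ∀ a b, c a = c b) ∧ ∑ a, δ a = 0 := by
  obtain ⟨e, he, h2, hf⟩ := G.B.exists_two
  choose δ hδ using fun a => h2 _ (G.C.kum_e1 (G.spt.sim a)).tors
  have h1 : ∀ c : Z → F2, e (∑ a, c a • δ a) = G.C.cls (fun a => algebraMap Ω (Fb Ω) (r.α a)) c :=
    fun c => by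
      rw [map_sum, Cub.cls]
      refine Finset.sum_congr rfl fun a _ => ?_
      rw [← hδ, ← map_nsmul, ← Nat.cast_smul_eq_nsmul F2, ZMod.natCast_zmod_val]
  refine ⟨δ, fun g a => he ?_, fun c hc => G.spt.cls_eq_zero.1 (by rw [← h1, hc, map_zero]), he ?_⟩
  · rw [ρ, hf, hδ, hδ, G.act_e1]
  · have h3 := h1 fun _ => 1
    simp only [one_smul] at h3
    rw [h3, map_zero, G.spt.cls_eq_zero]
    exact fun _ _ => rfl

theorem π_eq_one (h : Pen f) {g : WG k Ω} (hg : G.ρ g = 1) : r.π g = 1 := by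
  obtain ⟨δ, h1, h2, -⟩ := G.exists_δ
  ext a
  by_contra hne
  have h3 := h1 g a
  rw [hg, Matrix.map_one _ (map_zero _) (map_one _), Matrix.one_mulVec] at h3
  have h4 := h2 (Pi.single a 1 + Pi.single (r.π g a) 1) (by
    simp only [Pi.add_apply, add_smul, Finset.sum_add_distrib, Pi.single_apply, ite_smul, one_smul,
      zero_smul, Finset.sum_ite_eq', Finset.mem_univ, if_true]
    rw [← h3, vb_add_self])
  obtain ⟨z, -, hz⟩ := Finset.exists_mem_notMem_of_card_lt_card (s := {a, r.π g a})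
    (t := Finset.univ) (Finset.card_le_two.trans_lt (by
      rw [Finset.card_univ, r.card h]
      have := Par.gg_pos
      omega))
  have h5 := h4 a z
  rw [Finset.mem_insert, Finset.mem_singleton, not_or] at hz
  rw [Equiv.Perm.one_apply] at hne
  simp [hz.1, hz.2, Ne.symm hne] at h5

end Gc

end Pool.Agent.Hyp
end

-- merged part: Pool.Agent.Work.MP_60d5ce_nt.Hy.RedT
section
/-!
# Reduction of the torsion classes of `y ^ 2 = ∏ (x - A i)`  (task HY RedT)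

* `exists_red`: `exists_cub` for `ω = -1` (`IsPrimitiveRoot.neg_one`, `eq_neg_one_of_two_right`), `Hyp.exists_red`, `Pm.rp_prod`, `Cub.isFF`.
* `f_eq`: `Rp.unique`.  `exists_sa`: `C'.exists_sa θ 1`; `f'.map θ = f'` from `fρ` and `C.map_f` with `i = 0`; `R.stb`, `R.compat`.
* `ker_two`: `Spt.kum`, `mem_ker_iff` with `j = 1`: `g / lam ^ 2 ≡ 1` for `g = ∏ (x - A i) ^ (n i).val`, a unit of `R.m.w` (`R.aeval`, `un_iff`); so `lam` is a unit (`RedL_un`) and the reduction of `g` is a square; `cube_crit` for `C'`;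
  the multiplicity of `b` in `∏ (X - C (a i)) ^ m i` is the sum of the `m i` with `a i = b`.
* `ker_good`: if `c ≠ 0`, a multiple of `c` is a nonzero element of order two in the kernel (`ker_t3`); `Spt.two`, `cls_eq_zero`.  `ker_node`: same; `n + e` vanishes outside `a0, b0` and has equal values at `a0, b0` if they have the same
  reduction, and vanishes otherwise; `cls (n + e) = cls n`.
* `exists_redmap`: `RedL_total`, `RedL_Rc.sub`, `fn`, `ker`; the reduction of a class killed by `2 ^ j` is killed by `2 ^ j`; an injective map between finite sets of the same size (`Spt.card_tors` twice) is onto.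
-/

namespace Pool.Agent.Hyp

open scoped Classical
open PR0 Polynomial Pool.Agent.Ell.AT Pool.Agent.Quad Pool.Agent.Lef

variable {𝕜 L κ L' : Type} [Field 𝕜] [Field L] [Algebra 𝕜 L] [Field κ] [Field L'] [Algebra κ L']
  {ι : Type} [Fintype ι] {C : Cub 𝕜 L} {C' : Cub κ L'} {A : ι → 𝕜}

theorem RedT_prim (h2 : (2 : κ) ≠ 0) : IsPrimitiveRoot (-1 : κ) ll := by
  refine IsPrimitiveRoot.mk_of_lt _ ll_pos (by simp) fun l h0 hl e => h2 ?_
  obtain rfl : l = 1 := by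
    have h3 : l < 2 := hl
    omega
  rw [pow_one] at e
  linear_combination -e

theorem RedT_rp (o : Pm 𝕜 κ) (hA : ∀ i, A i ∈ o.w) (m : ι → ℕ) :
    o.Rp (∏ i, (X - Polynomial.C (A i)) ^ m i) (∏ i, (X - Polynomial.C (o.ρ (A i))) ^ m i) :=
  Pm.rp_prod _ fun i _ => (Pm.rp_X.sub (Pm.rp_C (hA i))).pow _

theorem RedT_rp1 (o : Pm 𝕜 κ) (hA : ∀ i, A i ∈ o.w) :
    o.Rp (∏ i, (X - Polynomial.C (A i))) (∏ i, (X - Polynomial.C (o.ρ (A i)))) :=
  Pm.rp_prod _ fun i _ => Pm.rp_X.sub (Pm.rp_C (hA i))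

theorem RedT_deg (a : ι → κ) : (∏ i, (X - Polynomial.C (a i))).natDegree = Fintype.card ι := by
  rw [natDegree_prod_of_monic _ _ fun i _ => monic_X_sub_C (a i),
    Finset.sum_congr rfl fun i _ => natDegree_X_sub_C (a i), Finset.sum_const, smul_eq_mul,
    mul_one, Finset.card_univ]

omit [Fintype ι] in
theorem RedT_ne (a : ι → κ) (m : ι → ℕ) (s : Finset ι) :
    ∏ i ∈ s, (X - Polynomial.C (a i)) ^ m i ≠ 0 :=
  Finset.prod_ne_zero_iff.2 fun _ _ => pow_ne_zero _ (X_sub_C_ne_zero _)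

omit [Fintype ι] in
theorem RedT_mult (a : ι → κ) (m : ι → ℕ) (b : κ) (s : Finset ι) :
    (∏ i ∈ s, (X - Polynomial.C (a i)) ^ m i).rootMultiplicity b =
      ∑ i ∈ s.filter fun i => a i = b, m i := by
  rw [Finset.sum_filter]
  induction s using Finset.induction_on with
  | empty => simp
  | insert j s hj ih =>
    have h0 := RedT_ne a m (insert j s)
    rw [Finset.prod_insert hj] at h0
    rw [Finset.prod_insert hj, Finset.sum_insert hj, rootMultiplicity_mul h0, ih]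
    congr 1
    split_ifs with h
    · rw [h, rootMultiplicity_X_sub_C_pow]
    · refine rootMultiplicity_eq_zero ?_
      rw [IsRoot.def, eval_pow, eval_sub, eval_X, eval_C]
      exact pow_ne_zero _ (sub_ne_zero.2 (Ne.symm h))

theorem Cub.Spt.exists_red (h : C.Spt A) (o : Pm 𝕜 κ) (h2 : (2 : κ) ≠ 0) (hA : ∀ i, A i ∈ o.w) :
    ∃ (L' : Type) (_ : Field L') (_ : Algebra κ L') (_ : Fact (IsFF κ L')) (C' : Cub κ L')
      (R : Red C C'), R.o = o := by
  have hd : ¬ ll ∣ (∏ i, (X - Polynomial.C (o.ρ (A i)))).natDegree := by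
    have h1 := C.deg
    rwa [h.eq, RedT_deg, ← RedT_deg fun i => o.ρ (A i)] at h1
  obtain ⟨L', _, _, C', h3, h4⟩ := exists_cub _ (-1) (RedT_prim h2) hd
  obtain ⟨R, hR⟩ := Hyp.exists_red C C' o (by rw [h.eq, h3]; exact RedT_rp1 o hA)
    (by rw [h4, C.hω.eq_neg_one_of_two_right, o.neg (one_mem _), o.one])
  exact ⟨L', _, _, ⟨C'.isFF⟩, C', R, hR⟩

namespace Red

variable (R : Red C C')

theorem f_eq (h : C.Spt A) (hA : ∀ i, A i ∈ R.o.w) :
    C'.f = ∏ i, (X - Polynomial.C (R.o.ρ (A i))) := by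
  have h1 := R.fρ
  rw [h.eq] at h1
  exact h1.unique (RedT_rp1 R.o hA)

theorem exists_sa {σ : SA 𝕜 L} (hs : Stb R.o.w (sc σ)) (hx : sl σ C.x = C.x) (hy : sl σ C.y = C.y)
    {θ : κ ≃+* κ} (hθ : ∀ c ∈ R.o.w, R.o.ρ (sc σ c) = θ (R.o.ρ c)) :
    ∃ σ' : SA κ L', sc σ' = θ ∧ sl σ' C'.x = C'.x ∧ sl σ' C'.y = C'.y ∧ Stb R.m.w (sl σ) ∧
      ∀ u ∈ R.m.w, R.m.ρ (sl σ u) = sl σ' (R.m.ρ u) := by
  have hy0 : sl σ C.y = algebraMap 𝕜 L (C.ω ^ 0) * C.y := by rw [pow_zero, map_one, one_mul, hy]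
  have h1 := R.RedB_map' hs hθ R.fρ
  rw [C.map_f hx hy0] at h1
  obtain ⟨σ', h2, h3, h4⟩ := C'.exists_sa θ 1 one_ne_zero
    (by rw [h1.unique R.fρ, one_pow, map_one, one_mul])
  subst h2
  exact ⟨σ', rfl, h3, by rw [h4, map_one, one_mul], R.stb hs hx hy0,
    R.compat hs hx hy0 hθ h3 (by rw [pow_zero]; exact h4)⟩

variable [IsAlgClosed 𝕜] [Fact (IsFF 𝕜 L)] [IsAlgClosed κ] [Fact (IsFF κ L')]

theorem ine_ker {τ : SA 𝕜 L} (hs : Ine R.o.w (sc τ)) (hx : sl τ C.x = C.x) (hy : sl τ C.y = C.y)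
    {c : Pic 𝕜 L} (hc : T3 c) : pa τ c - c ∈ Ker 𝕜 R.m.w := by
  have hy0 : sl τ C.y = algebraMap 𝕜 L (C.ω ^ 0) * C.y := by rw [pow_zero, map_one, one_mul, hy]
  have h1 := k1 R.prim (R.stb_s 0) (R.ine hs hx hy0) hc
  rwa [pow_zero, pa_one] at h1

theorem rc_zero : R.RedL_Rc 0 0 := by
  refine ⟨0, 1, (R.m.un_iff (one_mem _)).2 ?_, RedL_one _, ?_⟩
  · rw [R.m.one]
    exact one_ne_zero
  · rw [R.m.one]
    exact RedL_one _

theorem RedT_add {a b : Pic 𝕜 L} {a' b' : Pic κ L'} (h : R.RedL_Rc a a') (h' : R.RedL_Rc b b') :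
    R.RedL_Rc (a + b) (a' + b') := by
  have h1 := h.sub (R.rc_zero.sub h')
  rwa [zero_sub, zero_sub, sub_neg_eq_add, sub_neg_eq_add] at h1

theorem rc_nsmul {a : Pic 𝕜 L} {a' : Pic κ L'} (h : R.RedL_Rc a a') (n : ℕ) :
    R.RedL_Rc (n • a) (n • a') := by
  induction n with
  | zero =>
    rw [zero_nsmul, zero_nsmul]
    exact R.rc_zero
  | succ n ih =>
    rw [succ_nsmul, succ_nsmul]
    exact R.RedT_add ih h

theorem rc_t3 {a : Pic 𝕜 L} {a' : Pic κ L'} (h : R.RedL_Rc a a') : T3 a' := by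
  obtain ⟨j, u, -, -, h3⟩ := h
  exact ⟨j, h3.tors⟩

theorem ker_two (h : C.Spt A) (hA : ∀ i, A i ∈ R.o.w) {n : ι → F2}
    (hn : C.cls A n ∈ Ker 𝕜 R.m.w) :
    ∃ e : F2, ∀ b : κ, ∑ i ∈ Finset.univ.filter fun i => R.o.ρ (A i) = b, (n i + e) = 0 := by
  have hrp := RedT_rp R.o hA fun i => (n i).val
  have hne := RedT_ne (fun i => R.o.ρ (A i)) (fun i => (n i).val) Finset.univ
  have hk : Kum (ll ^ 1) (Polynomial.aeval C.x (∏ i, (X - Polynomial.C (A i)) ^ (n i).val))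
      (C.cls A n) := by
    simpa using h.kum n
  have hu := R.RedB_un hrp hne
  have hρ := (R.aeval hrp).2
  generalize Polynomial.aeval C.x (∏ i, (X - Polynomial.C (A i)) ^ (n i).val) = u at hk hu hρ
  obtain ⟨lam, h0, h1⟩ := (mem_ker_iff hk).1 hn
  rw [pow_one] at h1
  have hz : u / lam ^ ll ∈ R.m.w := by
    have h2 := add_mem (R.m.w.nonunits_subset h1 : _ ∈ R.m.w) (one_mem _)
    rwa [sub_add_cancel] at h2
  have h3 : R.m.ρ (u / lam ^ ll) = 1 := ((R.m.eq_iff hz (one_mem _)).2 h1).trans R.m.one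
  have h4 : Un R.m.w (u / lam ^ ll) := (R.m.un_iff hz).2 (h3.trans_ne one_ne_zero)
  have h5 : Un R.m.w (lam ^ ll) := by
    have h6 := hu.mul h4.inv
    rwa [inv_div, mul_div_cancel₀ _ hu.ne_zero] at h6
  rw [(R.m.div hu.1 h5).2, div_eq_one_iff_eq ((R.m.un_iff h5.1).1 h5), hρ,
    R.m.pow (RedL_un ll_ne_zero h5).1] at h3
  obtain ⟨k, hk⟩ := C'.cube_crit hne h3
  refine ⟨k, fun b => ?_⟩
  have h7 := hk b
  have h8 := RedT_mult (fun i => R.o.ρ (A i)) (fun _ => 1) b Finset.univ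
  simp only [pow_one] at h8
  rw [RedT_mult, R.f_eq h hA, h8] at h7
  have h9 := (ZMod.natCast_eq_natCast_iff _ _ _).2 h7
  simp only [Nat.cast_sum, ZMod.natCast_zmod_val, Finset.mul_sum, mul_one] at h9
  rw [Finset.sum_add_distrib, h9]
  exact CharTwo.add_self_eq_zero _

theorem RedT_two (h : C.Spt A) (hA : ∀ i, A i ∈ R.o.w) {c : Pic 𝕜 L} (hc : c ∈ Ker 𝕜 R.m.w)
    (h2 : 2 • c = 0) : ∃ n : ι → F2, c = C.cls A n ∧
      ∀ b : κ, ∑ i ∈ Finset.univ.filter fun i => R.o.ρ (A i) = b, n i = 0 := by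
  obtain ⟨n, rfl⟩ := h.two h2
  obtain ⟨e, he⟩ := R.ker_two h hA hc
  refine ⟨n + fun _ => e, ?_, he⟩
  rw [h.cls_add, (h.cls_eq_zero (n := fun _ => e)).2 fun _ _ => rfl, add_zero]

omit [IsAlgClosed κ] [Fact (IsFF κ L')] [Field κ] in
theorem RedT_one {a : ι → κ} {n : ι → F2}
    (hn : ∀ b : κ, ∑ i ∈ Finset.univ.filter fun i => a i = b, n i = 0) {i : ι}
    (hi : ∀ j, a j = a i → j = i) : n i = 0 := by
  rw [← hn (a i)]
  exact (Finset.sum_eq_single_of_mem i (by simp) fun j hj e =>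
    absurd (hi j (Finset.mem_filter.1 hj).2) e).symm

theorem ker_good (h : C.Spt A) (hA : ∀ i, A i ∈ R.o.w)
    (hi : Function.Injective fun i => R.o.ρ (A i)) {c : Pic 𝕜 L} (hc : c ∈ Ker 𝕜 R.m.w) :
    c = 0 := by
  obtain ⟨e, he⟩ := ker_t3 hc
  induction e generalizing c with
  | zero => simpa using he
  | succ e ih =>
    rw [pow_succ, mul_nsmul'] at he
    obtain ⟨n, rfl, hn⟩ := R.RedT_two h hA hc (ih (nsmul_mem hc _) he)
    have h1 : ∀ i, n i = 0 := fun i => RedT_one hn fun j hj => hi hj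
    exact h.cls_eq_zero.2 fun i j => by rw [h1, h1]

theorem RedT_node (h : C.Spt A) (hA : ∀ i, A i ∈ R.o.w) {a0 b0 : ι}
    (hn : ∀ a b, a ≠ b → R.o.ρ (A a) = R.o.ρ (A b) → (a = a0 ∧ b = b0) ∨ (a = b0 ∧ b = a0))
    {c : Pic 𝕜 L} (hc : c ∈ Ker 𝕜 R.m.w) (h2 : 2 • c = 0) (h0 : c ≠ 0) :
    c = C.cls A fun i => if i = a0 ∨ i = b0 then 1 else 0 := by
  obtain ⟨hab, he⟩ : a0 ≠ b0 ∧ R.o.ρ (A a0) = R.o.ρ (A b0) := by
    by_contra h1
    refine h0 (R.ker_good h hA (fun a b e => by_contra fun h3 => h1 ?_) hc)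
    rcases hn a b h3 e with ⟨rfl, rfl⟩ | ⟨rfl, rfl⟩
    · exact ⟨h3, e⟩
    · exact ⟨Ne.symm h3, e.symm⟩
  obtain ⟨n, rfl, h3⟩ := R.RedT_two h hA hc h2
  have h4 : ∀ i, ¬ (i = a0 ∨ i = b0) → n i = 0 := fun i hi =>
    RedT_one h3 fun j hj => by_contra fun h5 => hi (by
      rcases hn j i h5 hj with ⟨-, h6⟩ | ⟨-, h6⟩
      · exact Or.inr h6
      · exact Or.inl h6)
  have h5 : n a0 + n b0 = 0 := by
    rw [← h3 (R.o.ρ (A a0)), ← Finset.sum_pair hab]
    refine Finset.sum_subset (fun i hi => ?_) fun i _ hi => h4 i (by simpa using hi)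
    rcases Finset.mem_insert.1 hi with rfl | hi
    · simp
    · rw [Finset.mem_singleton.1 hi]
      simp [he]
  have h6 : n b0 = n a0 := by
    rw [eq_neg_of_add_eq_zero_right h5, ZMod.neg_eq_self_mod_two]
  have h7 : n a0 = 1 := by
    by_contra h8
    have h9 : n a0 = 0 := by
      generalize n a0 = z at h8
      revert z
      decide
    have h10 : ∀ i, n i = 0 := fun i => by
      by_cases hi : i = a0 ∨ i = b0
      · rcases hi with rfl | rfl
        · exact h9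
        · exact h6.trans h9
      · exact h4 i hi
    exact h0 (h.cls_eq_zero.2 fun i j => by rw [h10, h10])
  congr 1
  funext i
  split_ifs with hi
  · rcases hi with rfl | rfl
    · exact h7
    · exact h6.trans h7
  · exact h4 i hi

theorem ker_node (h : C.Spt A) (hA : ∀ i, A i ∈ R.o.w) {a0 b0 : ι}
    (hn : ∀ a b, a ≠ b → R.o.ρ (A a) = R.o.ρ (A b) → (a = a0 ∧ b = b0) ∨ (a = b0 ∧ b = a0))
    {c c' : Pic 𝕜 L} (hc : c ∈ Ker 𝕜 R.m.w) (hc' : c' ∈ Ker 𝕜 R.m.w) (h2 : 2 • c = 0)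
    (h2' : 2 • c' = 0) (h0 : c ≠ 0) (h0' : c' ≠ 0) : c = c' := by
  rw [R.RedT_node h hA hn hc h2 h0, R.RedT_node h hA hn hc' h2' h0']

theorem exists_redmap (h : C.Spt A) (hA : ∀ i, A i ∈ R.o.w)
    (hi : Function.Injective fun i => R.o.ρ (A i)) :
    ∃ red : Pic 𝕜 L → Pic κ L', (∀ c, T3 c → R.RedL_Rc c (red c)) ∧
      ∀ j : ℕ, AddOn (tors (Pic 𝕜 L) (2 ^ j)) red ∧ Set.InjOn red (tors (Pic 𝕜 L) (2 ^ j)) ∧
        red '' tors (Pic 𝕜 L) (2 ^ j) = tors (Pic κ L') (2 ^ j) := by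
  have h' : C'.Spt fun i => R.o.ρ (A i) := ⟨hi, R.f_eq h hA⟩
  have ht : ∀ c, ∃ c', T3 c → R.RedL_Rc c c' := fun c => by
    by_cases hc : T3 c
    · obtain ⟨c', hc'⟩ := RedL_total (R := R) h'.sims hc
      exact ⟨c', fun _ => hc'⟩
    · exact ⟨0, fun h1 => absurd h1 hc⟩
  choose red hred using ht
  refine ⟨red, hred, fun j => ?_⟩
  have t3 : ∀ c ∈ tors (Pic 𝕜 L) (2 ^ j), R.RedL_Rc c (red c) := fun c hc =>
    hred c ⟨j, mem_tors.1 hc⟩
  have hinj : Set.InjOn red (tors (Pic 𝕜 L) (2 ^ j)) := fun x hx y hy e => by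
    have h1 := (t3 x hx).sub (t3 y hy)
    rw [e, sub_self] at h1
    exact sub_eq_zero.1 (R.ker_good h hA hi h1.ker)
  refine ⟨fun x hx y hy => (t3 _ (add_mem hx hy)).fn (R.RedT_add (t3 x hx) (t3 y hy)), hinj,
    Set.eq_of_subset_of_ncard_le ?_ ?_ (h'.card_tors j).1⟩
  · rintro _ ⟨x, hx, rfl⟩
    have h1 := R.rc_nsmul (t3 x hx) (2 ^ j)
    rw [mem_tors.1 hx] at h1
    exact mem_tors.2 (h1.fn R.rc_zero)
  · rw [hinj.ncard_image, (h.card_tors j).2, (h'.card_tors j).2]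

end Red

end Pool.Agent.Hyp
end

-- merged part: Pool.Agent.Work.MP_60d5ce_nt.Hy.RedG
section
/-!
# Good reduction  (task HY RedG)

`Spt.exists_red` (then `subst`), `Red.f_eq`: the reduced curve satisfies `Spt`.
* `ine_fix`: `ine_ker`, `ker_good`.
* `fix_fin`: `exists_sa`, `exists_redmap`, `RedL_Rc.pa`, `RedL_Rc.fn`: the reduction maps the set injectively (`RedL_Rc.sub`, `ker`, `ker_good`) into the finite set of `Cub.frob_fin` (`rc_t3`, `cl_surj`, `dg_of_tors`).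
* `frob_tr`: `θ = iterateFrobeniusEquiv κ p n`, `σ'` from `exists_sa`, `γ = σ' * C'.s ^ e.val` satisfies `IsFr p γ Q`, fixes `x` and multiplies `y` by `(-1) ^ e.val` (`s_pow_x`, `s_pow_y`, `s_c`); `Spt.trace`, `s_neg`, `pa_mul`, `HasTr.congr`, `HasTr.comap`.
-/

namespace Pool.Agent.Hyp

open PR0 Polynomial Pool.Agent.Ell.AT Pool.Agent.Quad Pool.Agent.Lef

variable {𝕜 L κ : Type} [Field 𝕜] [Field L] [Algebra 𝕜 L] [Field κ] [IsAlgClosed 𝕜]
  [Fact (IsFF 𝕜 L)] [IsAlgClosed κ] {ι : Type} [Fintype ι] {C : Cub 𝕜 L} {A : ι → 𝕜}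
  {o : Pm 𝕜 κ} {σ : SA 𝕜 L}

namespace Cub

theorem Spt.ine_fix (h : C.Spt A) (h2 : (2 : κ) ≠ 0) (hA : ∀ i, A i ∈ o.w)
    (hi : Function.Injective fun i => o.ρ (A i)) (hs : Ine o.w (sc σ)) (hx : sl σ C.x = C.x)
    (hy : sl σ C.y = C.y) {c : Pic 𝕜 L} (hc : T3 c) : pa σ c = c := by
  obtain ⟨L', _, _, _, C', R, rfl⟩ := h.exists_red o h2 hA
  exact sub_eq_zero.1 (R.ker_good h hA hi (R.ine_ker hs hx hy hc))

theorem Spt.fix_fin (h : C.Spt A) (h2 : (2 : κ) ≠ 0) (hA : ∀ i, A i ∈ o.w)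
    (hi : Function.Injective fun i => o.ρ (A i)) (hs : Stb o.w (sc σ)) (hx : sl σ C.x = C.x)
    (hy : sl σ C.y = C.y) {θ : κ ≃+* κ} (hθ : ∀ c ∈ o.w, o.ρ (sc σ c) = θ (o.ρ c))
    (hfin : ∀ m : ℕ, 0 < m → {a : κ | (θ ^ m) a = a}.Finite) :
    {c : Pic 𝕜 L | T3 c ∧ pa σ c = c}.Finite := by
  obtain ⟨L', _, _, _, C', R, rfl⟩ := h.exists_red o h2 hA
  obtain ⟨σ', s1, s2, -, s4, s5⟩ := R.exists_sa hs hx hy hθ
  obtain ⟨red, r1, -⟩ := R.exists_redmap h hA hi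
  refine Set.Finite.of_injOn (f := red) (fun c hc => ?_) (fun a ha b hb e => ?_)
    (C'.frob_fin σ' s2 (by rwa [s1]))
  on_goal 1 => refine ⟨?_, ?_⟩
  · obtain ⟨j, hj⟩ := R.rc_t3 (r1 c hc.1)
    obtain ⟨D, hD⟩ := cl_surj (red c)
    exact ⟨D, dg_of_tors (pow_ne_zero j ll_ne_zero) (by rwa [hD]), hD⟩
  · have k := (r1 c hc.1).pa s4 s5
    rw [hc.2] at k
    exact k.fn (r1 c hc.1)
  · have k := (r1 a ha.1).sub (r1 b hb.1)
    rw [e, sub_self] at k
    exact sub_eq_zero.1 (R.ker_good h hA hi k.ker)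

theorem Spt.frob_tr (h : C.Spt A) (h2 : (2 : κ) ≠ 0) (hA : ∀ i, A i ∈ o.w)
    (hi : Function.Injective fun i => o.ρ (A i)) (hs : Stb o.w (sc σ)) (hx : sl σ C.x = C.x)
    (hy : sl σ C.y = C.y) {p : ℕ} [Fact p.Prime] [CharP κ p] {n Q : ℕ} (hn : 0 < n)
    (hQ : Q = p ^ n) (hθ : ∀ c ∈ o.w, o.ρ (sc σ c) = o.ρ c ^ Q) (e : F2) {d δ : κ}
    (hδ : δ ^ 2 = d) (h0 : δ ≠ 0) (hδe : δ ^ Q = (-1) ^ e.val * δ) (J : ℕ) :
    HasTr (2 ^ (J + 1)) (tors (Pic 𝕜 L) (2 ^ (J + 1))) (fun c => (-1 : ℤ) ^ e.val • pa σ c)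
      ((Q : ZMod (2 ^ (J + 1))) - (affN (∏ i, (X - Polynomial.C (o.ρ (A i)))) d Q : ℕ)) := by
  obtain ⟨L', _, _, _, C', R, rfl⟩ := h.exists_red o h2 hA
  have hF : ∀ c, iterateFrobeniusEquiv κ p n c = c ^ Q := fun c => by
    rw [iterateFrobeniusEquiv_def, hQ]
  obtain ⟨σ', s1, s2, s3, s4, s5⟩ := R.exists_sa hs hx hy (θ := iterateFrobeniusEquiv κ p n)
    fun c hc => by rw [hF, hθ c hc]
  obtain ⟨red, r1, r2⟩ := R.exists_redmap h hA hi
  have h' : C'.Spt fun i => R.o.ρ (A i) := ⟨hi, R.f_eq h hA⟩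
  have hω : C'.ω = -1 := C'.hω.eq_neg_one_of_two_right
  have gx : sl (σ' * C'.s ^ e.val) C'.x = C'.x := by
    rw [map_mul, RingAut.mul_apply, C'.s_pow_x, s2]
  have gy : sl (σ' * C'.s ^ e.val) C'.y = algebraMap κ L' ((-1) ^ e.val) * C'.y := by
    rw [map_mul, RingAut.mul_apply, C'.s_pow_y, map_mul, s3, sl_const, hω, map_pow, map_neg,
      map_one]
  have hγ : IsFr p (σ' * C'.s ^ e.val) Q := ⟨⟨n, hn, hQ⟩, fun c => by
    rw [map_mul, map_pow, C'.s_c, one_pow, mul_one, s1, hF], C'.x, C'.tr, gx⟩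
  have ht := h'.trace hγ gx gy (by rw [← pow_mul, mul_comm, pow_mul, neg_one_sq, one_pow])
    hδ h0 hδe J
  rw [h'.eq] at ht
  obtain ⟨a1, a2, a3⟩ := r2 (J + 1)
  have hf : ∀ c ∈ tors (Pic 𝕜 L) (2 ^ (J + 1)),
      (-1 : ℤ) ^ e.val • pa σ c ∈ tors (Pic 𝕜 L) (2 ^ (J + 1)) := fun c hc =>
    zsmul_mem (mem_tors.2 (by rw [← map_nsmul, mem_tors.1 hc, map_zero])) _
  refine ht.comap a1 a2 a3 hf fun c hc => ?_
  have hc' : T3 c := ⟨J + 1, hc⟩
  refine (r1 _ ⟨J + 1, hf c hc⟩).fn ?_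
  have k := (r1 c hc').pa s4 s5
  rcases F2_cases e with rfl | rfl
  · rwa [ZMod.val_zero, pow_zero, pow_zero, one_smul, mul_one]
  · have k' := R.rc_zero.sub k
    rw [ZMod.val_one, pow_one, pow_one, neg_smul, one_smul, pa_mul, s_neg (R.rc_t3 (r1 c hc')),
      map_neg]
    rwa [zero_sub, zero_sub] at k'

end Cub

end Pool.Agent.Hyp
end

-- merged part: Pool.Agent.Work.MP_60d5ce_nt.Hy.GenL
section
/-!
# The Tate module at the places of good and potentially good reduction  (task HY GenL)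

`exists_ov`; `OV.mem`, `OV.non`, `Pm.eq_iff` translate `w_le`, `w_good`.  `2 ≠ 0` in `Kb k Ω` by `two_ne_of_six`, `six_ne_map`.
* `pow_res`: induction, `OV.stb_σ`, `OV.res_σ`.
* `good`: `Spt.ine_fix`, `OV.ine_τ`, `mat_one`.  `loc_good`: `Spt.fix_fin` for `act (σ ^ 2)`, `OV.frob_fin`, `eq_zero_of_fin`.
* `loc_inf`: `N = (2 gg + 1) (2 gg)`, `D = f.discr.natDegree`.  Choose `θ : Ω` with `θ ^ (2 N) = tt k Ω` (`IsSepClosed.exists_pow_nat_eq`; `2 N ≠ 0` in `k` since `2`, `2 gg` and `2 gg + 1` divide `mo`), `β = θ ^ (2 D)`, `γ = θ ^ ((2 gg + 1) D)`, `w β ^ N = 2 ^ D` (`w_unif`).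
  The chart `G.C.chart 0 hβ hγ` satisfies `Spt` for the `α a / β`, which are integral with different residues (`w_inf`).  A positive power `σ ^ m` fixes `θ` (the orbit is finite), so `act (σ ^ (2 m))` fixes the coordinates of the chart.
* `red_eq`: both sides are the reduction (`Pm.Rp`, `Rp.unique`, `rp_prod`) of `f.map (pj Ω)`; `Loc.res_bp`.
* `trace`: `Spt.frob_tr` with `e = kum δ (gal (σ ^ m))` and the residue of `δ`; `δ` is a unit (`w_base`), `gal (σ ^ m) δ = (-1) ^ e.val * δ` (`kum_spec`), `pow_res`, `frob_pow_apply`; `TateI.hasTr`, `HasTr.unique`, `eq_of_rO`.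
-/

namespace Pool.Agent.Hyp

open scoped Classical
open PR0 Polynomial Pool.Agent.Ell.AT Pool.Agent.Quad Pool.Agent.Lef

variable [Par] {k : Type} [Field k] [Fintype k] {f : k[X][X]} {Ω : Type} [Field Ω]
  [Algebra (RatFunc k) Ω] [Algebra k Ω] [IsScalarTower k (RatFunc k) Ω]
  [IsSepClosure (RatFunc k) Ω] {v : Pl k} {Z : Type} [Fintype Z]

theorem OV.pow_res {l : Loc Ω v} {o : Pm (Fb Ω) (Kb k Ω)} (h : OV l o) (m : ℕ) :
    Stb o.w (psi k Ω (gal (l.σ ^ m))) ∧ ∀ a ∈ o.w, o.ρ (psi k Ω (gal (l.σ ^ m)) a) =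
      (((frob k Ω ^ pdg v : Kb k Ω ≃ₐ[k] Kb k Ω) : Kb k Ω ≃+* Kb k Ω) ^ m) (o.ρ a) := by
  induction m with
  | zero =>
    rw [pow_zero, map_one, map_one, pow_zero]
    exact ⟨fun _ => Iff.rfl, fun _ _ => rfl⟩
  | succ m ih =>
    rw [pow_succ, map_mul, map_mul, pow_succ]
    refine ⟨ih.1.mul h.stb_σ, fun a ha => ?_⟩
    rw [RingAut.mul_apply, RingAut.mul_apply, ih.2 _ ((h.stb_σ a).2 ha), h.res_σ a ha]

theorem GenL_bp {l : Loc Ω v} {o : Pm (Fb Ω) (Kb k Ω)} (h : OV l o) (hv : v ≠ none) (p : k[X]) :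
    algebraMap Ω (Fb Ω) (bp Ω p) ∈ o.w ∧ o.ρ (algebraMap Ω (Fb Ω) (bp Ω p)) = aeval l.x p := by
  have a1 := (h.mem _).2 (l.w_bp_le hv p)
  refine ⟨a1, ?_⟩
  rw [← h.const (aeval l.x p), o.eq_iff a1 (Ov_cmem h.mem _), ← map_sub, h.non]
  exact l.res_bp hv p

omit [IsSepClosure (RatFunc k) Ω] in
theorem GenL_key (v : Pl k) (n : ℕ) (a : Kb k Ω) :
    (((frob k Ω ^ pdg v : Kb k Ω ≃ₐ[k] Kb k Ω) : Kb k Ω ≃+* Kb k Ω) ^ n) a =
      a ^ Fintype.card k ^ (pdg v * n) := by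
  induction n generalizing a with
  | zero => simp
  | succ n ih =>
    rw [pow_succ, RingAut.mul_apply, ih, AlgEquiv.coe_ringEquiv, frob_pow_apply, ← pow_mul,
      ← pow_add, mul_add, mul_one, add_comm]

omit [Fintype k] [Algebra (RatFunc k) Ω] [IsScalarTower k (RatFunc k) Ω]
  [IsSepClosure (RatFunc k) Ω] in
theorem GenL_two (h6 : ((mo : ℕ) : k) ≠ 0) : (2 : Kb k Ω) ≠ 0 :=
  two_ne_of_six (six_ne_map (algebraMap k _) h6)

theorem GenL_inj {l : Loc Ω v} {o : Pm (Fb Ω) (Kb k Ω)} (h : OV l o) {A : Z → Ω}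
    (h1 : ∀ a, l.w (A a) ≤ 1) (h2 : ∀ a b, a ≠ b → l.w (A a - A b) = 1) :
    Function.Injective fun a => o.ρ (algebraMap Ω (Fb Ω) (A a)) := by
  intro a b e
  by_contra hab
  have a1 := (o.eq_iff ((h.mem _).2 (h1 a)) ((h.mem _).2 (h1 b))).1 e
  rw [← map_sub, h.non, h2 a b hab] at a1
  exact lt_irrefl _ a1

theorem Rts.red_eq (r : Rts Ω f Z) {l : Loc Ω v} {o : Pm (Fb Ω) (Kb k Ω)} (h : OV l o)
    (hv : v ≠ none) : ∏ a, (X - C (o.ρ (algebraMap Ω (Fb Ω) (r.α a)))) =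
      f.map (aeval l.x : k[X] →ₐ[k] Kb k Ω) := by
  have a1 : o.Rp ((f.map (bp Ω)).map (algebraMap Ω (Fb Ω)))
      (f.map (aeval l.x : k[X] →ₐ[k] Kb k Ω)) := fun i => by
    rw [coeff_map, coeff_map, coeff_map]
    exact ⟨(GenL_bp h hv _).1, (GenL_bp h hv _).2.symm⟩
  refine Pm.Rp.unique ?_ a1
  rw [r.eq, Polynomial.map_prod]
  refine Pm.rp_prod _ fun a _ => ?_
  rw [Polynomial.map_sub, map_X, map_C]
  exact Pm.rp_X.sub (Pm.rp_C ((h.mem _).2 (r.w_le l hv a)))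

namespace Gc

variable {r : Rts Ω f Z} (G : Gc r)

theorem good (h : Pen f) (h6 : ((mo : ℕ) : k) ≠ 0) (l : Loc Ω v) (hv : v ≠ none)
    (hv' : v ∉ fac f.discr) : G.ρ l.τ = 1 := by
  obtain ⟨o, ho⟩ := exists_ov l
  refine G.B.mat_one fun j P hP => ?_
  exact G.spt.ine_fix (GenL_two h6) (fun a => (ho.mem _).2 (r.w_le l hv a))
    (GenL_inj ho (r.w_le l hv) fun a b => r.w_good h l hv hv')
    (by rw [G.act_c]; exact ho.ine_τ) (G.act_x _) (G.act_y _) ⟨j, hP⟩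

theorem GenL_fix (g : WG k Ω) {t : V} (ht : (G.ρ g).mulVec ((G.ρ g).mulVec t) = t) (n : ℕ) :
    (G.ρ (g ^ (2 * n))).mulVec t = t := by
  induction n with
  | zero => rw [mul_zero, pow_zero, G.ρ_one, Matrix.one_mulVec]
  | succ n ih =>
    rw [mul_add, mul_one, pow_add, pow_two, G.ρ_mul, G.ρ_mul, ← Matrix.mulVec_mulVec,
      ← Matrix.mulVec_mulVec, ht, ih]

theorem GenL_zero (h6 : ((mo : ℕ) : k) ≠ 0) (l : Loc Ω v) {C : Cub (Fb Ω) G.L} {A : Z → Ω}
    (hC : C.Spt fun a => algebraMap Ω (Fb Ω) (A a)) (h1 : ∀ a, l.w (A a) ≤ 1)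
    (h2 : ∀ a b, a ≠ b → l.w (A a - A b) = 1) {m : ℕ} (hm : 0 < m)
    (hx : sl (G.act (l.σ ^ m)) C.x = C.x) (hy : sl (G.act (l.σ ^ m)) C.y = C.y) {t : V}
    (ht : (G.ρ (l.σ ^ m)).mulVec t = t) : t = 0 := by
  obtain ⟨o, ho⟩ := exists_ov l
  have a1 := hC.fix_fin (GenL_two h6) (fun a => (ho.mem _).2 (h1 a)) (GenL_inj ho h1 h2)
    (by rw [G.act_c]; exact (ho.pow_res m).1) hx hy
    (by rw [G.act_c]; exact (ho.pow_res m).2) fun n hn => by
      rw [← pow_mul]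
      exact OV.frob_fin v _ (Nat.mul_pos hm hn)
  refine G.B.eq_zero_of_fin (a1.subset ?_)
  rintro _ ⟨j, rfl⟩
  exact ⟨⟨j, G.B.pow_smul_pt j t⟩, by rw [G.ρ_pt, ht]⟩

theorem loc_good (h : Pen f) (h6 : ((mo : ℕ) : k) ≠ 0) (l : Loc Ω v) (hv : v ≠ none)
    (hv' : v ∉ fac f.discr) {t : V} (ht : (G.ρ l.σ).mulVec ((G.ρ l.σ).mulVec t) = t) : t = 0 := by
  exact G.GenL_zero h6 l G.spt (r.w_le l hv) (fun a b => r.w_good h l hv hv') two_pos
    (G.act_x _) (G.act_y _) (G.GenL_fix l.σ ht 1)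

theorem loc_inf (h : Pen f) (h6 : ((mo : ℕ) : k) ≠ 0) (l : Loc Ω (none : Pl k)) {t : V}
    (ht : (G.ρ l.σ).mulVec ((G.ρ l.σ).mulVec t) = t) : t = 0 := by
  haveI : IsSepClosed Ω := IsSepClosure.sep_closed (RatFunc k)
  have a0 : ∀ n : ℕ, n ∣ mo → (n : Ω) ≠ 0 := by
    rintro n ⟨c, hc⟩ e
    refine six_ne_map (algebraMap k Ω) h6 ?_
    rw [hc, Nat.cast_mul, e, zero_mul]
  have hg := Par.gg_pos
  obtain ⟨N, hN⟩ : ∃ N, N = (2 * gg + 1) * (2 * gg) := ⟨_, rfl⟩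
  obtain ⟨D, hD⟩ : ∃ D, D = f.discr.natDegree := ⟨_, rfl⟩
  have hN0 : N ≠ 0 := by
    rw [hN]
    positivity
  haveI : NeZero ((2 * N : ℕ) : Ω) := ⟨by
    rw [hN, Nat.cast_mul, Nat.cast_mul]
    exact mul_ne_zero (a0 2 two_dvd_mo) (mul_ne_zero
      (a0 _ ((Nat.dvd_factorial (by omega) le_rfl).trans h.fac))
      (a0 _ ((Nat.dvd_factorial (by omega) (by omega)).trans h.fac)))⟩
  obtain ⟨θ, hθ⟩ := IsSepClosed.exists_pow_nat_eq (bp Ω (X : k[X])) (2 * N)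
  have a1 : θ ≠ 0 := fun e => bp_ne (Ω := Ω) (X_ne_zero (R := k)) (by
    rw [← hθ, e, zero_pow (mul_ne_zero two_ne_zero hN0)])
  have a2 : l.w (θ ^ (2 * D)) ^ N = 2 ^ D := by
    have := l.w_bp_inf (X_ne_zero (R := k))
    rw [← hθ, natDegree_X, pow_one] at this
    rw [← this, ← map_pow, ← map_pow, ← pow_mul, ← pow_mul, mul_right_comm]
  have hβ : algebraMap Ω (Fb Ω) (θ ^ (2 * D)) ≠ 0 := (_root_.map_ne_zero _).2 (pow_ne_zero _ a1)
  have hγ : algebraMap Ω (Fb Ω) (θ ^ ((2 * gg + 1) * D)) ≠ 0 :=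
    (_root_.map_ne_zero _).2 (pow_ne_zero _ a1)
  obtain ⟨b1, b2⟩ := r.w_inf h l
  rw [← hN, ← hD] at b1 b2
  obtain ⟨n, hn, -, hσ⟩ := (gb_fix k {θ}).exists_pow_mem_of_index_ne_zero
    (gb_fix_index (k := k) {θ}).index_ne_zero (l.σ ^ 2)
  have a3 : gal (l.σ ^ (2 * n)) θ = θ := by
    rw [pow_mul]
    exact hσ θ (Finset.mem_singleton_self θ)
  have a4 : ∀ i : ℕ, sl (G.act (l.σ ^ (2 * n)))
      (algebraMap (Fb Ω) G.L (algebraMap Ω (Fb Ω) (θ ^ i))) =
      algebraMap (Fb Ω) G.L (algebraMap Ω (Fb Ω) (θ ^ i)) := fun i => by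
    rw [sl_const, G.act_c, psi_alg, map_pow, a3]
  have a5 : (0 : ℝ) < 2 ^ D := by positivity
  refine G.GenL_zero h6 l (C := G.C.chart 0 hβ hγ) (A := fun a => r.α a / θ ^ (2 * D))
    ⟨fun a b e => r.inj ?_, ?_⟩ (fun a => ?_) (fun a b hab => ?_) (m := 2 * n) (by omega) ?_ ?_
    (G.GenL_fix l.σ ht n)
  · exact (div_left_inj' (pow_ne_zero _ a1)).1 ((algebraMap Ω (Fb Ω)).injective e)
  · have c1 : (algebraMap Ω (Fb Ω) (θ ^ ((2 * gg + 1) * D)))⁻¹ ^ ll =
        ∏ _a : Z, (algebraMap Ω (Fb Ω) (θ ^ (2 * D)))⁻¹ := by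
      rw [Finset.prod_const, Finset.card_univ, r.card h, inv_pow, inv_pow, ← map_pow, ← map_pow,
        ← pow_mul, ← pow_mul]
      congr 3
      ring
    change G.C.chf _ _ _ = _
    rw [Cub.chf, G.spt.eq, c1, map_prod, Polynomial.prod_comp, ← Finset.prod_mul_distrib]
    refine Finset.prod_congr rfl fun a _ => ?_
    rw [sub_comp, X_comp, C_comp, map_zero, zero_add, mul_sub, ← mul_assoc, ← C_mul, ← C_mul,
      inv_mul_cancel₀ hβ, C_1, one_mul, map_div₀, div_eq_inv_mul]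
  · refine (pow_le_one_iff_of_nonneg (l.w.nonneg _) hN0).1 ?_
    rw [map_div₀, div_pow, a2, div_le_one a5]
    exact b1 a
  · refine (pow_eq_one_iff_of_nonneg (l.w.nonneg _) hN0).1 ?_
    rw [← sub_div, map_div₀, div_pow, a2, b2 a b hab, div_self a5.ne']
  · change sl _ ((G.C.x - _) / _) = (G.C.x - _) / _
    rw [map_div₀, map_sub, G.act_x, a4, map_zero, map_zero]
  · change sl _ (G.C.y / _) = G.C.y / _
    rw [map_div₀, G.act_y, a4]

theorem trace (h : Pen f) (h6 : ((mo : ℕ) : k) ≠ 0) (l : Loc Ω v) (hv : v ≠ none) {d : k[X]}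
    (hd : ¬ pl v ∣ d * f.discr) {δ : Ω} (hδ : δ ^ 2 = bp Ω d) {m : ℕ} (hm : 0 < m) :
    (sg (kum δ (gal (l.σ ^ m))) • G.ρ (l.σ ^ m)).trace =
      ((Fintype.card k ^ (pdg v * m) : ℕ) : O) -
        (affN (f.map (aeval l.x : k[X] →ₐ[k] Kb k Ω)) (aeval l.x d)
          (Fintype.card k ^ (pdg v * m)) : ℕ) := by
  obtain ⟨o, ho⟩ := exists_ov l
  obtain ⟨p, hp⟩ := CharP.exists k
  obtain ⟨n, hp', hn⟩ := FiniteField.card k p
  haveI : Fact p.Prime := ⟨hp'⟩
  haveI : CharP (Kb k Ω) p := charP_of_injective_algebraMap (algebraMap k _).injective p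
  have hv' : v ∉ fac f.discr := fun e =>
    hd (Dvd.dvd.mul_left ((mem_fac_iff h.ne).1 e).2 d)
  have a1 : aeval l.x d ≠ 0 := fun e =>
    hd (Dvd.dvd.mul_right ((l.aeval_eq_zero hv d).1 e) _)
  have a2 : algebraMap Ω (Fb Ω) δ ∈ o.w := by
    rw [← Ov_pow_mem o.w _ two_ne_zero, ← map_pow, hδ]
    exact (GenL_bp ho hv d).1
  have a3 : o.ρ (algebraMap Ω (Fb Ω) δ) ^ 2 = aeval l.x d := by
    rw [← o.pow a2, ← map_pow, hδ, (GenL_bp ho hv d).2]
  have a4 : o.ρ (algebraMap Ω (Fb Ω) δ) ≠ 0 := fun e => a1 (by rw [← a3, e, zero_pow two_ne_zero])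
  have a5 : δ ≠ 0 := fun e => a4 (by rw [e, map_zero, o.zero])
  have a6 : ∀ c ∈ o.w, o.ρ (sc (G.act (l.σ ^ m)) c) = o.ρ c ^ Fintype.card k ^ (pdg v * m) := by
    intro c hc
    rw [G.act_c, (ho.pow_res m).2 c hc, GenL_key]
  have a7 := kum_spec h6 a5 (g := gal (l.σ ^ m)) (by rw [hδ, fix_bp])
  generalize kum δ (gal (l.σ ^ m)) = e at a7 ⊢
  have a8 : o.ρ (algebraMap Ω (Fb Ω) δ) ^ Fintype.card k ^ (pdg v * m) =
      (-1) ^ e.val * o.ρ (algebraMap Ω (Fb Ω) δ) := by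
    rw [← a6 _ a2, G.act_c, psi_alg, a7, map_mul, map_pow, map_neg, map_one,
      o.mul (pow_mem (neg_mem (one_mem _)) _) a2, o.pow (neg_mem (one_mem _)),
      o.neg (one_mem _), o.one]
  refine eq_of_rO fun J => ?_
  have b1 := G.spt.frob_tr (GenL_two h6) (fun a => (ho.mem _).2 (r.w_le l hv a))
    (GenL_inj ho (r.w_le l hv) fun a b => r.w_good h l hv hv')
    (by rw [G.act_c]; exact (ho.pow_res m).1) (G.act_x _) (G.act_y _) (p := p)
    (n := n * (pdg v * m)) (Nat.mul_pos n.pos (Nat.mul_pos (pdg_pos v) hm))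
    (by rw [hn, ← pow_mul]) a6 e a3 a4 a8 J
  rw [r.red_eq ho hv] at b1
  have b2 := G.B.hasTr (j := J + 1) (f := fun c => (-1 : ℤ) ^ e.val • pa (G.act (l.σ ^ m)) c)
    (m := sg e • G.ρ (l.σ ^ m)) fun a => by
      rw [G.ρ_pt, Matrix.smul_mulVec]
      rcases F2_cases e with rfl | rfl
      · rw [sg_zero, one_smul, ZMod.val_zero, pow_zero, one_smul]
      · rw [sg_one, neg_smul, one_smul, map_neg, GalKum_val1, pow_one, neg_smul, one_smul]
  rw [b2.unique b1, map_sub, map_natCast, map_natCast]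

end Gc

end Pool.Agent.Hyp
end

-- merged part: Pool.Agent.Work.MP_60d5ce_nt.Hy.RedN
section
/-!
# Nodal reduction  (task HY RedN)

* `rc_iff`: let `u` be a unit with `Kum (2 ^ j) u c`, `N = 2 ^ j`, and `P = C'.pt (some ξ)`.  At the places not over `ξ` the order of `ρ u` is divisible by `N` (`k2_pt`).  The places over `ξ` are `P` and `C'.s • P` (`pr_eq_iff`, `ll = 2`), and the degree
  of `dv (ρ u)` is zero, so `N` divides the order at `P` iff it divides all the orders (if `C'.s • P = P` both hold); `k2_of`.  Conversely compare `u` with the unit of level `j'` in `RedL_Rc`: `Kum.pow`, `Kum.eq_iff`, `RedL_un`.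
* `exists_phi`: `φ j t = ord P (ρ u)` in `ZMod (2 ^ j)` for a unit `u` with `Kum (2 ^ j) u (B.pt j t)` (`exists_kum_un R.prim`) does not depend on `u` (`Kum.eq_iff`, `RedL_un`), is additive (`Kum.mul`), and compatible with the levels:
  `Kum (2 ^ (j + 1)) u c` gives `Kum (2 ^ j) u (2 • c)`, `B.two`.  Take the limit (`TateMod_lim` or `PadicInt.lift`; see `exists_form` in `WeT.lean`); `O`-linearity by `TateI.pt_smul`, `eq_of_rO`.
* `node`: `exists_red`; `ξ = ρ (A a0)`; the other roots of `C'.f` are simple (`f_eq`).  `K = {t | ∀ j, B.pt j t ∈ Ker}`; `dep_of_sat` with `pt_pow_smul` or `B.two`, `ker_node`, `B.ker`; `ine_ker`; `exists_sa`, `RedL_Rc.pa`;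
  for the last part `RedL_seq` with `p = 2 •` and the finite set of `Cub.frob_fin` (`rc_nsmul`, `rc_zero`, `fn`, `rc_t3`, `dg_of_tors`), then `RedL_Rc.ker`.
-/

namespace Pool.Agent.Hyp

open PR0 Polynomial Pool.Agent.Ell.AT Pool.Agent.Quad Pool.Agent.Lef

variable {𝕜 L κ L' : Type} [Field 𝕜] [Field L] [Algebra 𝕜 L] [Field κ] [Field L'] [Algebra κ L']
  [IsAlgClosed 𝕜] [Fact (IsFF 𝕜 L)] [IsAlgClosed κ]
  {ι : Type} [Fintype ι] {C : Cub 𝕜 L} {C' : Cub κ L'} {A : ι → 𝕜}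
  {I : Type} [Fintype I] [DecidableEq I]

theorem RedN_cmp [Fact (IsFF κ L')] (R : Red C C') {N : ℕ} (hN : N ≠ 0) {u v : L} {c : Pic 𝕜 L}
    (hu : Un R.m.w u) (hv : Un R.m.w v) (ku : Kum N u c) (kv : Kum N v c) (P : Place κ L') :
    (N : ℤ) ∣ P.ord (R.m.ρ u) - P.ord (R.m.ρ v) := by
  obtain ⟨b, -, hb⟩ := (Kum.eq_iff hN ku kv).1 rfl
  have h1 : Un R.m.w b := by
    refine RedL_un hN ?_
    rw [← inv_mul_cancel_left₀ hv.ne_zero (b ^ N), ← hb]
    exact hv.inv.mul hu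
  have h2 := (R.m.un_iff h1.1).1 h1
  rw [hb, R.m.mul hv.1 (pow_mem h1.1 N), R.m.pow h1.1,
    P.ord_mul ((R.m.un_iff hv.1).1 hv) (pow_ne_zero N h2), P.ord_pow h2, add_sub_cancel_left]
  exact dvd_mul_right _ _

omit [IsAlgClosed 𝕜] [Fact (IsFF 𝕜 L)] in
theorem RedN_dg [Fact (IsFF κ L')] {D : Dv κ L'} (hD : dg D = 0) {N : ℤ} {P : Place κ L'}
    (h : ∀ Q, Q ≠ P → N ∣ D Q) : N ∣ D P := by
  classical
  have h1 : N ∣ dg (D.erase P) := Finset.dvd_sum fun Q _ => by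
    by_cases e : Q = P
    · rw [e, Finsupp.erase_same]
      exact dvd_zero _
    · rw [Finsupp.erase_ne e]
      exact h Q e
  rw [← Finsupp.single_add_erase P D, dg_add, dg_single] at hD
  rw [eq_neg_of_add_eq_zero_left hD]
  exact h1.neg_right

theorem RedN_half {N : ℕ} {u : L} {c : Pic 𝕜 L} (h : Kum (N * 2) u c) : Kum N u (2 • c) := by
  obtain ⟨h0, D, e, rfl⟩ := h
  exact ⟨h0, 2 • D, by rw [e, mul_smul], map_nsmul _ _ _⟩

theorem RedN_int {j : ℕ} {n : ℤ} : (2 : O) ^ j ∣ (n : O) ↔ ((2 ^ j : ℕ) : ℤ) ∣ n := by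
  have h := PadicInt.pow_p_dvd_int_iff (p := 2) j n
  rw [Nat.cast_pow]
  exact h

theorem Red.rc_iff [Fact (IsFF κ L')] (R : Red C C') {ξ : κ}
    (hξ : ∀ b, C'.f.IsRoot b → b ≠ ξ → C'.Sim b) {j : ℕ} {u : L} {c : Pic 𝕜 L}
    (hu : Un R.m.w u) (hk : Kum (2 ^ j) u c) :
    (∃ c', R.RedL_Rc c c') ↔ ((2 ^ j : ℕ) : ℤ) ∣ (C'.pt (some ξ)).ord (R.m.ρ u) := by
  have hN : ∀ i : ℕ, 2 ^ i ≠ 0 := fun i => pow_ne_zero i two_ne_zero
  have n1 := (R.m.un_iff hu.1).1 hu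
  have hP := C'.pr_pt (some ξ)
  generalize C'.pt (some ξ) = P at hP
  constructor
  · rintro ⟨c', i, v, hv, kv, -, D, hD, -⟩
    have n2 := (R.m.un_iff hv.1).1 hv
    have k2 := kv.pow (2 ^ j)
    rw [mul_comm] at k2
    have h1 := RedN_cmp R (mul_ne_zero (hN i) (hN j)) (RedL_un_pow hu _) (RedL_un_pow hv _)
      (hk.pow (2 ^ i)) k2 P
    have h2 : P.ord (R.m.ρ v) = ((2 ^ i : ℕ) : ℤ) * D P := by
      rw [← dv_apply n2, hD, Finsupp.smul_apply, nsmul_eq_mul]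
    rw [R.m.pow hu.1, R.m.pow hv.1, P.ord_pow n1, P.ord_pow n2, h2, mul_left_comm, ← mul_sub,
      Nat.cast_mul, mul_dvd_mul_iff_left (Nat.cast_ne_zero.2 (hN i))] at h1
    exact (dvd_sub_left (dvd_mul_right _ _)).1 h1
  · intro h
    have h1 : ∀ Q : Place κ L', Q ≠ C'.s • P → ((2 ^ j : ℕ) : ℤ) ∣ Q.ord (R.m.ρ u) := by
      intro Q hQ
      by_cases e : C'.pr Q = some ξ
      · obtain ⟨i, hi, rfl⟩ := C'.pr_eq_iff.1 (hP.trans e.symm)
        obtain rfl | rfl : i = 0 ∨ i = 1 := by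
          have : i < 2 := hi
          omega
        · rwa [pow_zero, one_smul]
        · exact absurd (by rw [pow_one]) hQ
      · exact R.k2_pt (hN j) hu hk fun b hb hr => hξ b hr fun k => e (k ▸ hb)
    obtain ⟨c', hc⟩ := R.k2_of (N := 2 ^ j) hu fun Q => by
      by_cases e : Q = C'.s • P
      · rw [← dv_apply n1, e]
        exact RedN_dg (dg_dv _) fun Q hQ => by
          rw [dv_apply n1]
          exact h1 Q hQ
      · exact h1 Q e
    exact ⟨c', j, u, hu, hk, hc⟩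

theorem Red.exists_phi [Fact (IsFF κ L')] (R : Red C C') {ξ : κ}
    (hξ : ∀ b, C'.f.IsRoot b → b ≠ ξ → C'.Sim b) (B : TateI I (Pic 𝕜 L)) :
    ∃ φ : (I → O) →ₗ[O] O, ∀ t, φ t = 0 ↔ ∀ j, ∃ c', R.RedL_Rc (B.pt j t) c' := by
  have hN : ∀ i : ℕ, 2 ^ i ≠ 0 := fun i => pow_ne_zero i two_ne_zero
  choose u hu ku using fun (j : ℕ) (t : I → O) => exists_kum_un R.prim (B.pow_smul_pt j t)
  obtain ⟨P, hP⟩ : ∃ P, P = C'.pt (some ξ) := ⟨_, rfl⟩
  have key : ∀ j t v, Un R.m.w v → Kum (2 ^ j) v (B.pt j t) →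
      (2 : O) ^ j ∣ (P.ord (R.m.ρ v) : O) - (P.ord (R.m.ρ (u j t)) : O) := fun j t v hv kv => by
    rw [← Int.cast_sub, RedN_int]
    exact RedN_cmp R (hN j) hv (hu j t) kv (ku j t) P
  choose x hx using fun t : I → O => TateMod_lim (fun j => (P.ord (R.m.ρ (u j t)) : O)) fun j =>
    key j t _ (hu (j + 1) t) (B.two j t ▸ RedN_half (ku (j + 1) t))
  have hx' : ∀ j t v, Un R.m.w v → Kum (2 ^ j) v (B.pt j t) →
      (2 : O) ^ j ∣ x t - (P.ord (R.m.ρ v) : O) := fun j t v hv kv => by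
    have h1 := dvd_sub (hx t j) (key j t v hv kv)
    rwa [sub_sub_sub_cancel_right] at h1
  have ad : ∀ s t, x (s + t) = x s + x t := fun s t => sub_eq_zero.1 (TateMod_zero fun j => by
    have h1 := hx' j (s + t) _ ((hu j s).mul (hu j t)) (map_add (B.pt j) s t ▸ (ku j s).mul (ku j t))
    rw [R.m.mul (hu j s).1 (hu j t).1, P.ord_mul ((R.m.un_iff (hu j s).1).1 (hu j s))
      ((R.m.un_iff (hu j t).1).1 (hu j t)), Int.cast_add] at h1
    have h2 := dvd_sub h1 (dvd_add (hx s j) (hx t j))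
    rwa [← add_sub_add_comm, sub_sub_sub_cancel_right] at h2)
  have sm : ∀ (c : O) t, x (c • t) = c • x t := fun c t => sub_eq_zero.1 (TateMod_zero fun j => by
    have h1 := hx' j (c • t) _ (hu j (c.appr j • t)) (by
      rw [B.pt_smul, ← map_nsmul]
      exact ku j _)
    have h2 := dvd_sub h1 (hx (c.appr j • t) j)
    have h3 : x (c.appr j • t) = c.appr j • x t := map_nsmul (AddMonoidHom.mk' x ad) _ t
    rw [sub_sub_sub_cancel_right, h3, nsmul_eq_mul] at h2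
    have h4 := dvd_sub h2 ((TateMod_appr j c).mul_right (x t))
    rwa [sub_mul, sub_sub_sub_cancel_right] at h4)
  refine ⟨⟨⟨x, ad⟩, sm⟩, fun t => ?_⟩
  simp only [fun j => R.rc_iff hξ (hu j t) (ku j t), ← hP, ← RedN_int]
  refine ⟨fun h j => ?_, fun h => TateMod_zero fun j => ?_⟩
  · have h1 := hx t j
    rwa [show x t = 0 from h, zero_sub, dvd_neg] at h1
  · exact (dvd_sub_left (h j)).1 (hx t j)

theorem Cub.Spt.node (h : C.Spt A) (o : Pm 𝕜 κ) (h2 : (2 : κ) ≠ 0) (hA : ∀ i, A i ∈ o.w)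
    {a0 b0 : ι}
    (hn : ∀ a b, a ≠ b → o.ρ (A a) = o.ρ (A b) → (a = a0 ∧ b = b0) ∨ (a = b0 ∧ b = a0))
    (B : TateI I (Pic 𝕜 L)) : ∃ (K : Submodule O (I → O)) (φ : (I → O) →ₗ[O] O),
      (∀ s ∈ K, ∀ t ∈ K, ∃ a b : O, (a ≠ 0 ∨ b ≠ 0) ∧ a • s = b • t) ∧
      (∀ τ : SA 𝕜 L, Ine o.w (sc τ) → sl τ C.x = C.x → sl τ C.y = C.y →
        ∀ t, (B.mat (pa τ)).mulVec t - t ∈ K) ∧
      ∀ (σ : SA 𝕜 L) (θ : κ ≃+* κ), Stb o.w (sc σ) → sl σ C.x = C.x → sl σ C.y = C.y →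
        (∀ c ∈ o.w, o.ρ (sc σ c) = θ (o.ρ c)) →
        (∀ t, φ t = 0 → φ ((B.mat (pa σ)).mulVec t) = 0) ∧
          ((∀ m : ℕ, 0 < m → {a : κ | (θ ^ m) a = a}.Finite) →
            ∀ t, φ t = 0 → (B.mat (pa σ)).mulVec t = t → t ∈ K) := by
  classical
  obtain ⟨L', _, _, _, C', R, rfl⟩ := h.exists_red o h2 hA
  have hξ : ∀ b, C'.f.IsRoot b → b ≠ R.o.ρ (A a0) → C'.Sim b := by
    intro b hb hne
    rw [Cub.Sim]
    rw [R.f_eq h hA] at hb ⊢
    rw [IsRoot.def, eval_prod, Finset.prod_eq_zero_iff] at hb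
    obtain ⟨i, -, h3⟩ := hb
    rw [eval_sub, eval_X, eval_C, sub_eq_zero] at h3
    subst h3
    have h1 : ¬ (∏ k ∈ Finset.univ.erase i, (X - Polynomial.C (R.o.ρ (A k)))).IsRoot
        (R.o.ρ (A i)) := by
      rw [IsRoot.def, eval_prod, Finset.prod_eq_zero_iff]
      rintro ⟨k, hk, h4⟩
      rw [eval_sub, eval_X, eval_C, sub_eq_zero] at h4
      rcases hn i k (Finset.ne_of_mem_erase hk).symm h4 with e | e
      · exact hne (by rw [e.1])
      · exact hne (by rw [h4, e.2])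
    rw [← Finset.prod_erase_mul _ _ (Finset.mem_univ i), ← pow_one (X - Polynomial.C (R.o.ρ (A i))),
      rootMultiplicity_mul_X_sub_C_pow (fun e => h1 (by rw [e]; exact IsRoot.def.2 eval_zero)),
      rootMultiplicity_eq_zero h1, zero_add]
    exact ll_not_dvd_one
  obtain ⟨φ, hφ⟩ := R.exists_phi hξ B
  let K : Submodule O (I → O) :=
    { carrier := {t | ∀ j, B.pt j t ∈ Ker 𝕜 R.m.w}
      add_mem' := fun ha hb j => by
        rw [map_add]
        exact add_mem (ha j) (hb j)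
      zero_mem' := fun j => by
        rw [map_zero]
        exact zero_mem _
      smul_mem' := fun c t ht j => by
        rw [B.pt_smul]
        exact nsmul_mem (ht j) _ }
  have hK : ∀ t, t ∈ K ↔ ∀ j, B.pt j t ∈ Ker 𝕜 R.m.w := fun _ => Iff.rfl
  refine ⟨K, φ, dep_of_sat K (fun t ht => (hK t).2 fun j => ?_) fun s hs t ht n1 n2 => ?_,
    fun τ hτ hx hy t => (hK _).2 fun j => ?_, fun σ θ hs hx hy hθ => ?_⟩
  · rw [← B.pt_pow_smul 1 j t, pow_one]
    exact (hK _).1 ht _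
  · rw [← B.ker] at n1 n2 ⊢
    rw [map_sub, sub_eq_zero]
    exact R.ker_node h hA hn ((hK s).1 hs 1) ((hK t).1 ht 1) (B.pow_smul_pt 1 s)
      (B.pow_smul_pt 1 t) n1 n2
  · rw [map_sub, ← B.mat_spec]
    exact R.ine_ker hτ hx hy ⟨j, B.pow_smul_pt j t⟩
  obtain ⟨σ', rfl, k2, -, k4, k5⟩ := R.exists_sa hs hx hy hθ
  refine ⟨fun t ht => (hφ _).2 fun j => ?_, fun hfin t ht hf => (hK t).2 fun j => ?_⟩
  · obtain ⟨c', hc⟩ := (hφ t).1 ht j
    exact ⟨_, B.mat_spec (pa σ) j t ▸ hc.pa k4 k5⟩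
  choose c hc using (hφ t).1 ht
  have h0 : B.pt 0 t = 0 := by
    have h1 := B.pow_smul_pt 0 t
    rwa [pow_zero, one_smul] at h1
  have h1 := RedL_seq (nsmulAddMonoidHom 2) c ((h0 ▸ hc 0).fn R.rc_zero)
    (fun n => (B.two n t ▸ R.rc_nsmul (hc (n + 1)) 2).fn (hc n)) (C'.frob_fin σ' k2 hfin)
    (fun n => ?_) j
  · exact (h1 ▸ hc j).ker
  obtain ⟨D, hD⟩ := cl_surj (c n)
  obtain ⟨e, he⟩ := R.rc_t3 (hc n)
  refine ⟨⟨D, dg_of_tors (pow_ne_zero e ll_ne_zero) (hD ▸ he), hD⟩, ?_⟩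
  have h3 := (hc n).pa k4 k5
  rw [B.mat_spec, hf] at h3
  exact h3.fn (hc n)

end Pool.Agent.Hyp
end

-- merged part: Pool.Agent.Work.MP_60d5ce_nt.Hy.RtMon
section
/-!
# The geometric monodromy group is the symmetric group  (task HY RtMon)

Let `S` be the set of the permutations `π (g * τ v * g⁻¹)`, `g ∈ WG`, `v ∈ fac f.discr`; these are swaps (`w_node`, `IsSwap` is stable under conjugation: `Equiv.swap_apply_apply`), and they come from elements of
degree zero.  Let `H` be the closure of `S`; it is normalised by all `π g`.  Let `a ~ b` be the orbit relation of `H`.  The product `D'` of the `α a - α b` over the ordered pairs with `¬ a ~ b` is fixed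
by `WG`, has size one at all finite places (`w_good`; at a node the only close pair is related by the swap), so it is a polynomial (`exists_bp`) without prime factors (`w_base`, `sum_fac`), of degree zero, so of size
one at infinity (`w_bp_inf`).  All differences have size `> 1` at infinity (`w_inf`, `Pen.pos`), so the product is empty.  Hence `H` is transitive:
`closure_of_isSwap_of_isPretransitive`.
-/

namespace Pool.Agent.Hyp

open scoped Classical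
open Pool.Agent.Quad Polynomial

variable [Par] {k : Type} [Field k] [Fintype k] {f : k[X][X]} {Ω : Type} [Field Ω]
  [Algebra (RatFunc k) Ω] [Algebra k Ω] [IsScalarTower k (RatFunc k) Ω]
  [IsSepClosure (RatFunc k) Ω] {v : Pl k} {Z : Type} [Fintype Z]

/-- the conjugates of the local monodromies -/
def RtMon_S (r : Rts Ω f Z) (ℓ : Locs k Ω) : Set (Equiv.Perm Z) :=
  {s | ∃ g : WG k Ω, ∃ v ∈ fac f.discr, s = r.π g * r.π (ℓ v).τ * (r.π g)⁻¹}

omit [IsSepClosure (RatFunc k) Ω] in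
theorem RtMon_deg (r : Rts Ω f Z) (ℓ : Locs k Ω) {s : Equiv.Perm Z}
    (hs : s ∈ Subgroup.closure (RtMon_S r ℓ)) : ∃ z, wdeg z = 0 ∧ r.π z = s := by
  have hinv : ∀ g : WG k Ω, wdeg g⁻¹ = -wdeg g := fun g => rfl
  induction hs using Subgroup.closure_induction with
  | mem s hs =>
    obtain ⟨g, v, -, rfl⟩ := hs
    refine ⟨g * (ℓ v).τ * g⁻¹, ?_, by rw [map_mul, map_mul, map_inv]⟩
    rw [wdeg_mul, wdeg_mul, hinv, (ℓ v).deg_τ]
    ring
  | one => exact ⟨1, rfl, map_one _⟩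
  | mul a b _ _ ha hb =>
    obtain ⟨y, hy, rfl⟩ := ha
    obtain ⟨z, hz, rfl⟩ := hb
    exact ⟨y * z, by rw [wdeg_mul, hy, hz, add_zero], map_mul _ _ _⟩
  | inv a _ ha =>
    obtain ⟨y, hy, rfl⟩ := ha
    exact ⟨y⁻¹, by rw [hinv, hy, neg_zero], map_inv _ _⟩

omit [IsSepClosure (RatFunc k) Ω] in
theorem RtMon_conj (r : Rts Ω f Z) (ℓ : Locs k Ω) (g : WG k Ω) {s : Equiv.Perm Z}
    (hs : s ∈ Subgroup.closure (RtMon_S r ℓ)) :
    r.π g * s * (r.π g)⁻¹ ∈ Subgroup.closure (RtMon_S r ℓ) := by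
  induction hs using Subgroup.closure_induction with
  | mem s hs =>
    obtain ⟨g', v, hv, rfl⟩ := hs
    refine Subgroup.subset_closure ⟨g * g', v, hv, ?_⟩
    rw [map_mul]
    group
  | one => simp
  | mul a b _ _ ha hb =>
    have e : r.π g * (a * b) * (r.π g)⁻¹ =
        (r.π g * a * (r.π g)⁻¹) * (r.π g * b * (r.π g)⁻¹) := by group
    rw [e]
    exact Subgroup.mul_mem _ ha hb
  | inv a _ ha =>
    have e : r.π g * a⁻¹ * (r.π g)⁻¹ = (r.π g * a * (r.π g)⁻¹)⁻¹ := by group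
    rw [e]
    exact Subgroup.inv_mem _ ha

theorem RtMon_swap (r : Rts Ω f Z) (h : Pen f) (ℓ : Locs k Ω) :
    ∀ s ∈ RtMon_S r ℓ, s.IsSwap := by
  rintro s ⟨g, v, hv, rfl⟩
  obtain ⟨a0, b0, hab, e, -⟩ := r.w_node h (ℓ v) hv
  refine ⟨r.π g a0, r.π g b0, (r.π g).injective.ne hab, ?_⟩
  rw [e, Equiv.swap_apply_apply]

theorem RtMon_one (r : Rts Ω f Z) (h : Pen f) (ℓ : Locs k Ω) {v : Pl k} (hv : v ≠ none) {a b : Z}
    (hab : ¬ ∃ s ∈ Subgroup.closure (RtMon_S r ℓ), s a = b) :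
    (ℓ v).w (r.α a - r.α b) = 1 := by
  have hne : a ≠ b := fun e => hab ⟨1, Subgroup.one_mem _, e⟩
  by_cases hv' : v ∈ fac f.discr
  · obtain ⟨a0, b0, -, e, hc⟩ := r.w_node h (ℓ v) hv'
    have hm : Equiv.swap a0 b0 ∈ Subgroup.closure (RtMon_S r ℓ) :=
      Subgroup.subset_closure ⟨1, v, hv', by rw [map_one, e]; simp⟩
    refine le_antisymm ?_ (not_lt.1 fun hlt => hab ⟨_, hm, ?_⟩)
    · have h1 : (ℓ v).w (r.α a - r.α b) ≤ max ((ℓ v).w (r.α a)) ((ℓ v).w (-r.α b)) := by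
        rw [sub_eq_add_neg, Loc.w_apply, Loc.w_apply, Loc.w_apply, map_add]
        exact (ℓ v).wΛ_na _ _
      rw [AbsoluteValue.map_neg] at h1
      exact h1.trans (max_le (r.w_le _ hv a) (r.w_le _ hv b))
    · rcases hc a b hne hlt with ⟨rfl, rfl⟩ | ⟨rfl, rfl⟩
      · exact Equiv.swap_apply_left _ _
      · exact Equiv.swap_apply_right _ _
  · exact r.w_good h (ℓ v) hv hv' hne

theorem RtMon_trans (r : Rts Ω f Z) (h : Pen f) (ℓ : Locs k Ω) (a b : Z) :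
    ∃ s ∈ Subgroup.closure (RtMon_S r ℓ), s a = b := by
  set T : Finset (Z × Z) :=
    Finset.univ.filter fun p => ¬ ∃ s ∈ Subgroup.closure (RtMon_S r ℓ), s p.1 = p.2 with hT
  have hmem : ∀ p : Z × Z, p ∈ T ↔ ¬ ∃ s ∈ Subgroup.closure (RtMon_S r ℓ), s p.1 = p.2 :=
    fun p => by simp only [hT, Finset.mem_filter, Finset.mem_univ, true_and]
  have hne : ∀ p ∈ T, p.1 ≠ p.2 := fun p hp e => (hmem p).1 hp ⟨1, Subgroup.one_mem _, e⟩
  have hfix : ∀ g : WG k Ω, gal g (∏ p ∈ T, (r.α p.1 - r.α p.2)) =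
      ∏ p ∈ T, (r.α p.1 - r.α p.2) := by
    intro g
    rw [map_prod]
    refine Finset.prod_equiv (Equiv.prodCongr (r.π g) (r.π g)) (fun p => ?_) (fun p _ => ?_)
    · rw [hmem, hmem]
      refine not_congr ⟨?_, ?_⟩
      · rintro ⟨s, hs, e⟩
        refine ⟨_, RtMon_conj r ℓ g hs, ?_⟩
        simp [e]
      · rintro ⟨s, hs, e⟩
        refine ⟨_, RtMon_conj r ℓ g⁻¹ hs, ?_⟩
        simp only [Equiv.prodCongr_apply, Prod.map_fst, Prod.map_snd] at e
        simp [e]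
    · simp only [map_sub, r.gal_α, Equiv.prodCongr_apply, Prod.map_fst, Prod.map_snd]
  have hw : ∀ v, v ≠ none → (ℓ v).w (∏ p ∈ T, (r.α p.1 - r.α p.2)) = 1 := by
    intro v hv
    rw [map_prod]
    exact Finset.prod_eq_one fun p hp => RtMon_one r h ℓ hv ((hmem p).1 hp)
  obtain ⟨q, hq⟩ := exists_bp ℓ hfix fun v hv => (hw v hv).le
  have hq0 : q ≠ 0 := by
    rintro rfl
    rw [map_zero] at hq
    exact Finset.prod_ne_zero_iff.2
      (fun p hp => sub_ne_zero.2 (r.inj.ne (hne p hp))) hq.symm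
  have hm : ∀ v, mult q v = 0 := by
    intro v
    by_cases hv : v = none
    · subst hv
      rfl
    · have e := (ℓ v).w_base hv hq0
      rw [hq, hw v hv] at e
      have e2 := (zpow_eq_one_iff_right₀ (by norm_num : (0 : ℝ) ≤ 2) (by norm_num)).1 e.symm
      omega
  have hd : q.natDegree = 0 := by
    rw [← sum_fac hq0]
    exact Finset.sum_eq_zero fun v _ => by rw [hm v, zero_mul]
  have h1 := (ℓ none).w_bp_inf hq0
  rw [hq, hd, pow_zero, map_prod] at h1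
  have h2 : ((2 : ℝ) ^ f.discr.natDegree) ^ T.card = 1 := by
    rw [← Finset.prod_const, ← Finset.prod_congr rfl
      fun p hp => (r.w_inf h (ℓ none)).2 p.1 p.2 (hne p hp), Finset.prod_pow, h1, one_pow]
  have h3 : (1 : ℝ) < 2 ^ f.discr.natDegree := one_lt_pow₀ (by norm_num) h.pos.ne'
  have h4 : T.card = 0 := by
    by_contra h5
    exact (one_lt_pow₀ h3 h5).ne' h2
  by_contra h5
  exact Finset.notMem_empty _ (Finset.card_eq_zero.1 h4 ▸ (hmem (a, b)).2 h5)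

theorem Rts.surj (r : Rts Ω f Z) (h : Pen f) (ℓ : Locs k Ω) (s : Equiv.Perm Z) :
    ∃ z, wdeg z = 0 ∧ r.π z = s := by
  have : MulAction.IsPretransitive (Subgroup.closure (RtMon_S r ℓ)) Z :=
    ⟨fun a b => by
      obtain ⟨s, hs, e⟩ := RtMon_trans r h ℓ a b
      exact ⟨⟨s, hs⟩, e⟩⟩
  refine RtMon_deg r ℓ ?_
  rw [closure_of_isSwap_of_isPretransitive (RtMon_swap r h ℓ)]
  exact Subgroup.mem_top _

end Pool.Agent.Hyp
end

-- merged part: Pool.Agent.Work.MP_60d5ce_nt.Hy.RtCoc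
section
/-!
# Kummer cocycles for the roots, the pigeonhole step  (task HY RtCoc)

Template: `Qt/EllCoc.lean`.
* `exists_coc`: `s z = sqr (a z)`, `gal g (s z) = ± s (π g z)` (`sqr_spec`); `c g (π g z)` is the sign.  Smoothness: `adm_core` for the subgroup of the `u` in the subgroup of `Rts.adm` that fix all `s z`.
* `exists_beta`: let `ρ z : Kb k Ω` be the residue of `α z` (`Loc.w_res`, `w_le`), `φ = frob ^ pdg v`; `ρ (π σ z) = φ (ρ z)` (`Loc.σ_res`, `frob_pow_apply`, `Loc.w_const`).  `h = ∏ z ∈ M, (X - C (ρ z))` is monic of degree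
  `M.card` and `h.map φ = h`.  For `β : k[X][X]` let `β' = β.map (aeval l.x)`; `β'.map φ = β'` (`frob_pdg`), so the `M.card` coefficients of `β' %ₘ h` lie in `{c | c ^ Q = c}`, which has at most `Q = q ^ pdg v` elements
  (`map_modByMonic`).  There are `q ^ (n * (m + 1))` polynomials `β = ∑ i < n, monomial i (c i)` with `c i ∈ degreeLT k (m + 1)`, `m = M.card * pdg v / n`, `n = 2 gg + 1` (`StatA_degreeLT`).  For two of them with the same
  remainder, `h` divides the difference, which so vanishes at the `ρ z`; `Loc.res_bp`.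
-/

namespace Pool.Agent.Hyp

open scoped Classical
open Pool.Agent.Quad Polynomial

/-- the sign relating two square roots -/
noncomputable def RtCoc_sg {K : Type} [Field K] (r s : K) : F2 := if r = s then 0 else 1

theorem RtCoc_sg_spec {K : Type} [Field K] {r s : K} (h : r ^ 2 = s ^ 2) :
    r = (-1 : K) ^ (RtCoc_sg r s).val * s := by
  unfold RtCoc_sg
  split_ifs with e
  · rw [ZMod.val_zero, pow_zero, one_mul, e]
  · rw [show (1 : F2).val = 1 from rfl, pow_one, (sq_eq_sq_iff_eq_or_eq_neg.1 h).resolve_left e]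
    ring

theorem RtCoc_sg_eq {K : Type} [Field K] (h2 : (2 : K) ≠ 0) {r s : K} (hs : s ≠ 0) {n : F2}
    (h : r = (-1 : K) ^ n.val * s) : RtCoc_sg r s = n := by
  unfold RtCoc_sg
  rcases F2_cases n with rfl | rfl
  · rw [if_pos (by rw [h, ZMod.val_zero, pow_zero, one_mul])]
  · rw [if_neg]
    rw [h, show (1 : F2).val = 1 from rfl]
    intro e
    exact mul_ne_zero h2 hs (by linear_combination -e)

theorem RtCoc_add {K : Type} [Field K] {w : AbsoluteValue K ℝ} (hw : IsNonarchimedean w) {a b : K}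
    (ha : w a < 1) (hb : w b < 1) : w (a + b) < 1 := (hw a b).trans_lt (max_lt ha hb)

/-- the pigeonhole principle for remainders -/
theorem RtCoc_pig {ι K : Type} [Field K] (φ : K →+* K) {q d : ℕ} (hq : 1 < q) (hd : d ≠ 0)
    (hφ : ∀ c, φ c = c ^ q ^ d) {h : K[X]} (hm : h.Monic) (hh : h.map φ = h) (A : Finset ι)
    (β : ι → K[X]) (hβ : ∀ i, (β i).map φ = β i) (hA : q ^ (d * h.natDegree) < A.card) :
    ∃ i ∈ A, ∃ j ∈ A, i ≠ j ∧ ∀ x, h.eval x = 0 → (β i - β j).eval x = 0 := by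
  have h1 : (Fintype.piFinset fun _ : Fin h.natDegree =>
      (X ^ q ^ d - X : K[X]).roots.toFinset).card < A.card := by
    refine lt_of_le_of_lt ?_ hA
    rw [Fintype.card_piFinset_const, pow_mul]
    refine Nat.pow_le_pow_left ((Multiset.toFinset_card_le _).trans ((card_roots' _).trans ?_)) _
    rw [FiniteField.X_pow_card_pow_sub_X_natDegree_eq K hd hq]
  obtain ⟨i, hi, j, hj, hne, e⟩ := Finset.exists_ne_map_eq_of_card_lt_of_maps_to h1
    (f := fun i (n : Fin h.natDegree) => (β i %ₘ h).coeff n) fun i _ => by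
      refine Finset.mem_coe.2 (Fintype.mem_piFinset.2 fun n => ?_)
      have h2 := congrArg (fun p => p.coeff n) (map_modByMonic (p := β i) φ hm)
      rw [hβ, hh, coeff_map, hφ] at h2
      rw [Multiset.mem_toFinset, mem_roots (FiniteField.X_pow_card_pow_sub_X_ne_zero K hd hq),
        IsRoot, eval_sub, eval_pow, eval_X, h2, sub_self]
  have h3 : β i %ₘ h = β j %ₘ h := by
    ext n
    by_cases hn : n < h.natDegree
    · exact congrFun e ⟨n, hn⟩
    have h4 : ∀ p : K[X], (p %ₘ h).coeff n = 0 := fun p =>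
      coeff_eq_zero_of_degree_lt ((degree_modByMonic_lt p hm).trans_le
        (degree_le_natDegree.trans (by exact_mod_cast not_lt.1 hn)))
    rw [h4, h4]
  refine ⟨i, hi, j, hj, hne, fun x hx => ?_⟩
  rw [← modByMonic_add_div (β i) h, ← modByMonic_add_div (β j) h, h3]
  simp [hx]

variable [Par] {k : Type} [Field k] [Fintype k] {f : k[X][X]} {Ω : Type} [Field Ω]
  [Algebra (RatFunc k) Ω] [Algebra k Ω] [IsScalarTower k (RatFunc k) Ω]
  [IsSepClosure (RatFunc k) Ω] {v : Pl k} {Z : Type} [Fintype Z]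

omit [IsSepClosure (RatFunc k) Ω] in
theorem RtCoc_const (l : Loc Ω v) (c : Kb k Ω) : l.w c ≤ 1 := by
  by_cases h : c = 0
  · simp [h]
  · exact (l.w_const c h).le

omit [IsSepClosure (RatFunc k) Ω] in
theorem RtCoc_eval (l : Loc Ω v) (hv : v ≠ none) {a : Ω} {c : Kb k Ω} (ha : l.w a ≤ 1)
    (hc : l.w (a - c) < 1) (β : k[X][X]) : l.w (β.eval₂ (bp Ω) a -
      ((β.map (aeval l.x : k[X] →ₐ[k] Kb k Ω).toRingHom).eval c : Kb k Ω)) < 1 := by
  induction β using Polynomial.induction_on with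
  | C p => simpa using l.res_bp hv p
  | add p q hp hq =>
    refine lt_of_eq_of_lt (congrArg l.w ?_) (RtCoc_add l.w_na hp hq)
    rw [eval₂_add, Polynomial.map_add, eval_add]
    push_cast
    ring
  | monomial n p hp =>
    rw [pow_succ, ← mul_assoc, eval₂_mul_X, Polynomial.map_mul, map_X, eval_mul_X]
    generalize eval₂ (bp Ω) a (C p * X ^ n) = E at hp ⊢
    generalize eval c (Polynomial.map _ (C p * X ^ n)) = E' at hp ⊢
    have h1 : l.w ((E - E') * a) < 1 := by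
      rw [map_mul]
      exact mul_lt_one_of_nonneg_of_lt_one_left (l.w.nonneg _) hp ha
    have h2 : l.w (E' * (a - c)) < 1 := by
      rw [map_mul]
      exact mul_lt_one_of_nonneg_of_lt_one_right (RtCoc_const l E') (l.w.nonneg _) hc
    refine lt_of_eq_of_lt (congrArg l.w ?_) (RtCoc_add l.w_na h1 h2)
    push_cast
    ring

namespace Rts

variable (r : Rts Ω f Z)

theorem exists_coc (h : Pen f) (h6 : ((mo : ℕ) : k) ≠ 0) (ℓ : Locs k Ω) (a : Z → Ω)
    (ha : ∀ z, a z ≠ 0) (hg : ∀ (g : WG k Ω) z, gal g (a z) = a (r.π g z)) :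
    ∃ c : WG k Ω → Z → F2, (tame h6 ℓ).Sm c ∧
      (∀ g g' z, c (g * g') (r.π g z) = c g (r.π g z) + c g' z) ∧
      ∀ g, r.π g = 1 → ∀ z, c g z = kum (sqr (a z)) (gal g) := by
  have h2 : (2 : Ω) ≠ 0 := GalKum_two h6
  have hs : ∀ z, sqr (a z) ^ 2 = a z := fun z => sqr_spec h6 _
  have hs0 : ∀ z, sqr (a z) ≠ 0 := fun z e => ha z (by rw [← hs z, e]; ring)
  set η : Z → WG k Ω → F2 := fun z g =>
    RtCoc_sg (gal g (sqr (a z))) (sqr (a (r.π g z))) with hη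
  have spec : ∀ z g, gal g (sqr (a z)) = (-1 : Ω) ^ (η z g).val * sqr (a (r.π g z)) := fun z g =>
    RtCoc_sg_spec (by rw [← map_pow, hs, hs, hg])
  have coc : ∀ z g g', η z (g * g') = η z g' + η (r.π g' z) g := fun z g g' => by
    refine RtCoc_sg_eq h2 (hs0 _) ?_
    rw [map_mul, AlgEquiv.mul_apply, spec z g', map_mul, map_pow, map_neg, map_one, spec _ g,
      GalKum_pow_add, map_mul r.π, Equiv.Perm.mul_apply, mul_assoc]
  refine ⟨fun g z => η ((r.π g)⁻¹ z) g, ?_, fun g g' z => ?_, fun g h1 z => ?_⟩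
  · obtain ⟨U, hU', r1⟩ := r.adm h
    let H : Subgroup (WG k Ω) :=
      { carrier := {u | u ∈ U ∧ ∀ z, gal u (sqr (a z)) = sqr (a z)}
        mul_mem' := fun {x y} hx hy => ⟨U.mul_mem hx.1 hy.1, fun n => by
          rw [map_mul, AlgEquiv.mul_apply, hy.2, hx.2]⟩
        one_mem' := ⟨U.one_mem, fun n => by rw [map_one, AlgEquiv.one_apply]⟩
        inv_mem' := fun {x} hx => ⟨U.inv_mem hx.1, fun n => by
          nth_rewrite 1 [← hx.2 n]
          rw [← AlgEquiv.mul_apply, ← map_mul, inv_mul_cancel, map_one, AlgEquiv.one_apply]⟩ }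
    obtain ⟨S, hS⟩ := hU'.2.2.1
    have hH : Adm H.normalCore := by
      refine adm_core H (fun u hu => hU'.2.1 u hu.1) (S ∪ Finset.univ.image fun n => sqr (a n))
        (fun g h0 h => ⟨hS g h0 fun b hb => h b (Finset.mem_union_left _ hb), fun n =>
          h _ (Finset.mem_union_right _ (Finset.mem_image_of_mem _ (Finset.mem_univ n)))⟩)
        fun g h0 => ?_
      obtain ⟨j, hj⟩ := hU'.2.2.2 g h0
      obtain ⟨m, hm⟩ := two_dvd_mo
      refine ⟨j + 1, ?_⟩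
      rw [pow_succ, pow_mul]
      generalize g ^ mo ^ j = u at hj ⊢
      rw [hm, pow_mul]
      refine H.pow_mem ⟨U.pow_mem hj 2, fun n => ?_⟩ m
      have e := spec n u
      rw [r1 _ hj, Equiv.Perm.one_apply] at e
      rw [pow_two, map_mul, AlgEquiv.mul_apply, e, map_mul, map_pow, map_neg, map_one, e,
        ← mul_assoc, ← mul_pow, neg_mul_neg, one_mul, one_pow, one_mul]
    refine ⟨H.normalCore, hH, fun g u hu => funext fun z => ?_⟩
    have hu' := H.normalCore_le hu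
    have e : ∀ n, η n u = 0 := fun n => RtCoc_sg_eq h2 (hs0 _) (by
      rw [r1 u hu'.1, Equiv.Perm.one_apply, hu'.2 n, ZMod.val_zero, pow_zero, one_mul])
    show η ((r.π (g * u))⁻¹ z) (g * u) = η ((r.π g)⁻¹ z) g
    rw [coc, e, zero_add, map_mul, r1 u hu'.1, mul_one, Equiv.Perm.one_apply]
  · show η ((r.π (g * g'))⁻¹ (r.π g z)) (g * g') =
      η ((r.π g)⁻¹ (r.π g z)) g + η ((r.π g')⁻¹ z) g'
    rw [coc, map_mul, mul_inv_rev, Equiv.Perm.mul_apply, add_comm]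
    simp
  · simp only [hη, h1, inv_one, Equiv.Perm.one_apply]
    rfl

theorem exists_beta (l : Loc Ω v) (hv : v ≠ none) (M : Finset Z)
    (hM : ∀ z, r.π l.σ z ∈ M ↔ z ∈ M) : ∃ β : k[X][X], β ≠ 0 ∧ β.natDegree < 2 * gg + 1 ∧
      (∀ i, (2 * gg + 1) * (β.coeff i).natDegree ≤ M.card * pdg v) ∧
      ∀ z ∈ M, l.w (β.eval₂ (bp Ω) (r.α z)) < 1 := by
  choose ρ hρ using fun z => l.w_res (r.w_le l hv z)
  set φ : Kb k Ω ≃ₐ[k] Kb k Ω := frob k Ω ^ pdg v with hφ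
  have h1 : ∀ z, φ (ρ z) = ρ (r.π l.σ z) := fun z => by
    have e1 := hρ z
    rw [← l.w_σ, map_sub, r.gal_α, gal_const, l.deg_σ, zpow_natCast, ← hφ, l.w.map_sub] at e1
    have e2 := RtCoc_add l.w_na e1 (hρ (r.π l.σ z))
    by_contra hne
    rw [sub_add_sub_cancel] at e2
    have e3 := l.w_const _ (sub_ne_zero.2 hne)
    rw [← l.w_apply] at e3
    push_cast at e3
    exact e2.ne e3
  have hm : (∏ z ∈ M, (X - C (ρ z))).Monic := monic_prod_of_monic _ _ fun z _ => monic_X_sub_C _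
  have hd : (∏ z ∈ M, (X - C (ρ z))).natDegree = M.card := natDegree_finsetProd_X_sub_C_eq_card _ _
  have hh : (∏ z ∈ M, (X - C (ρ z))).map (φ : Kb k Ω →+* Kb k Ω) = ∏ z ∈ M, (X - C (ρ z)) := by
    rw [Polynomial.map_prod]
    refine Finset.prod_equiv (r.π l.σ) (fun z => (hM z).symm) fun z _ => ?_
    rw [Polynomial.map_sub, map_X, map_C, ← h1]
    rfl
  set n := 2 * gg + 1 with hn
  set m := M.card * pdg v / n with hmd
  obtain ⟨hfin, hcard⟩ := StatA_degreeLT (k := k) (m + 1)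
  obtain ⟨x, hx, y, hy, hne, hxy⟩ := RtCoc_pig (φ : Kb k Ω →+* Kb k Ω) Fintype.one_lt_card
    (pdg_pos v).ne' (frob_pow_apply _) hm hh (Fintype.piFinset fun _ : Fin n => hfin.toFinset)
    (fun c => (ofFn n c).map (aeval l.x : k[X] →ₐ[k] Kb k Ω).toRingHom) (fun c => by
      rw [Polynomial.map_map]
      congr 1
      refine RingHom.ext fun p => ?_
      have e := aeval_algHom_apply φ l.x p
      rw [frob_pdg l hv] at e
      exact e.symm) (by
      rw [Fintype.card_piFinset_const, ← Set.ncard_eq_toFinset_card _ hfin, hcard, hd, ← pow_mul]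
      refine Nat.pow_lt_pow_right Fintype.one_lt_card ?_
      rw [mul_comm (pdg v), mul_comm (m + 1)]
      exact Nat.lt_mul_div_succ _ (Nat.succ_pos _))
  refine ⟨ofFn n (x - y), fun e => hne (sub_eq_zero.1 (injective_ofFn n (e.trans (map_zero _).symm))),
    ofFn_natDegree_lt (Nat.succ_pos _) _, fun i => ?_, fun z hz => ?_⟩
  · by_cases hi : i < n
    · rw [ofFn_coeff_eq_val_of_lt _ hi]
      have e1 : (x - y) ⟨i, hi⟩ ∈ degreeLT k (m + 1) :=
        Submodule.sub_mem _ (hfin.mem_toFinset.1 (Fintype.mem_piFinset.1 hx _))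
          (hfin.mem_toFinset.1 (Fintype.mem_piFinset.1 hy _))
      rw [degreeLT_succ_eq_degreeLE, mem_degreeLE] at e1
      exact (Nat.mul_le_mul_left n (natDegree_le_iff_degree_le.2 e1)).trans (Nat.mul_div_le _ _)
    · rw [ofFn_coeff_eq_zero_of_ge _ (not_lt.1 hi)]
      simp
  · have e1 := RtCoc_eval l hv (r.w_le l hv z) (hρ z) (ofFn n (x - y))
    have e2 := hxy (ρ z) (by
      rw [eval_prod]
      exact Finset.prod_eq_zero hz (by simp))
    rw [← Polynomial.map_sub, ← map_sub] at e2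
    rwa [e2, ZeroMemClass.coe_zero, sub_zero] at e1

end Rts

end Pool.Agent.Hyp
end

-- merged part: Pool.Agent.Work.MP_60d5ce_nt.Hy.RtChi
section
/-!
# Cocycles ramified at one prescribed place  (task HY RtChi)

Template: `Qt/EllChi.lean`.  `M = {z | m z = 1}`, `β` from `exists_beta`, `a z = β.eval₂ (bp Ω) (α z)`; `gal g (a z) = a (π g z)`.
* `beta_ne`: if one `a z` vanishes then all do (`surj`), and `β.map (bp Ω) ≠ 0` has degree less than the number of its roots.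
* `exists_norm`: the product is fixed by `WG` and integral at the finite places (`exists_bp`).  At infinity, with `c ≥ 1`, `c ^ N = 2 ^ D` (`w_inf`; `N = n (n - 1)`, `n = 2 gg + 1`): `w (a z) ≤ 2 ^ m * c ^ (n - 1)` where `m` is the largest degree of a
  coefficient, `n m ≤ e`.
* `chi`: for `u ∉ badS f`: `π τ = 1` (`π_good`, `Pen.fac_sub`), so the `a z` have sizes `2 ^ (- j z)` with `j z ≥ 0` (`Loc.disc`), `∑ j z = mult N u` (`w_base`).  At `v`: `j z ≥ 1` on `M`.  By `sum_fac`,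
  `∑ mult N u * pdg u ≤ M.card * pdg v + D` and `D < pdg u`: so `mult N v = M.card`, `mult N u = 0` for `u ≠ v`.  `Loc.kum_tau` with `sqr_spec`.
-/

namespace Pool.Agent.Hyp

open scoped Classical
open Pool.Agent.Quad Polynomial

theorem RtChi_sum {K ι : Type} [Field K] {w : AbsoluteValue K ℝ} (hw : IsNonarchimedean w)
    (s : Finset ι) (g : ι → K) {B : ℝ} (hB : 0 ≤ B) (h : ∀ i ∈ s, w (g i) ≤ B) :
    w (∑ i ∈ s, g i) ≤ B := by
  induction s using Finset.induction_on with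
  | empty => simpa using hB
  | insert a s ha ih =>
    rw [Finset.sum_insert ha]
    exact (hw _ _).trans (max_le (h a (Finset.mem_insert_self _ _))
      (ih fun i hi => h i (Finset.mem_insert_of_mem hi)))

theorem RtChi_eval {K R : Type} [Field K] [CommRing R] {w : AbsoluteValue K ℝ}
    (hw : IsNonarchimedean w) (φ : R →+* K) {β : R[X]} {x : K} {B c : ℝ} {d : ℕ} (hB : 0 ≤ B)
    (hc : 1 ≤ c) (hd : β.natDegree ≤ d) (h1 : ∀ i, w (φ (β.coeff i)) ≤ B) (h2 : w x ≤ c) :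
    w (β.eval₂ φ x) ≤ B * c ^ d := by
  rw [eval₂_eq_sum_range]
  refine RtChi_sum hw _ _ (by positivity) fun i hi => ?_
  rw [map_mul, map_pow]
  refine mul_le_mul (h1 i) ((pow_le_pow_left₀ (w.nonneg x) h2 i).trans
    (pow_le_pow_right₀ hc ?_)) (pow_nonneg (w.nonneg x) i) hB
  have := Finset.mem_range.1 hi
  omega

variable [Par] {k : Type} [Field k] [Fintype k] {f : k[X][X]} {Ω : Type} [Field Ω]
  [Algebra (RatFunc k) Ω] [Algebra k Ω] [IsScalarTower k (RatFunc k) Ω]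
  [IsSepClosure (RatFunc k) Ω] {v : Pl k} {Z : Type} [Fintype Z]

theorem RtChi_le {N : k[X]} (hN : N ≠ 0) (S : Finset (Pl k)) :
    ∑ u ∈ S, mult N u * pdg u ≤ N.natDegree := by
  rw [← sum_fac hN]
  exact Finset.sum_le_sum_of_ne_zero fun u _ hu => (mem_fac hN).2 (left_ne_zero_of_mul hu)

namespace Rts

variable (r : Rts Ω f Z)

omit [Par] [IsScalarTower k (RatFunc k) Ω] [IsSepClosure (RatFunc k) Ω] in
theorem RtChi_gal (β : k[X][X]) (g : WG k Ω) (z : Z) :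
    gal g (β.eval₂ (bp Ω) (r.α z)) = β.eval₂ (bp Ω) (r.α (r.π g z)) := by
  have h1 := hom_eval₂ β (bp Ω) (gal g : Ω →+* Ω) (r.α z)
  have h2 : (gal g : Ω →+* Ω).comp (bp Ω) = bp Ω := RingHom.ext fun p => fix_bp _ p
  rw [h2] at h1
  rw [← r.gal_α]
  exact h1

theorem RtChi_int (l : Loc Ω v) (hv : v ≠ none) (β : k[X][X]) (z : Z) :
    l.w (β.eval₂ (bp Ω) (r.α z)) ≤ 1 := by
  simpa using RtChi_eval l.w_na (bp Ω) zero_le_one le_rfl le_rfl
    (fun i => l.w_bp_le hv (β.coeff i)) (r.w_le l hv z)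

theorem beta_ne (h : Pen f) (ℓ : Locs k Ω) {β : k[X][X]} (h0 : β ≠ 0)
    (hd : β.natDegree < 2 * gg + 1) (z : Z) : β.eval₂ (bp Ω) (r.α z) ≠ 0 := by
  intro hz
  have hinj : Function.Injective (bp (k := k) Ω) :=
    (injective_iff_map_eq_zero _).2 fun p hp => by_contra fun hp' => bp_ne hp' hp
  refine (Polynomial.map_ne_zero_iff hinj).2 h0
    (eq_zero_of_natDegree_lt_card_of_eval_eq_zero _ r.inj (fun z' => ?_) ?_)
  · obtain ⟨g, -, hg⟩ := r.surj h ℓ (Equiv.swap z z')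
    have h1 := r.RtChi_gal β g z
    rw [hz, map_zero, hg, Equiv.swap_apply_left] at h1
    rw [eval_map]
    exact h1.symm
  · rw [r.card h]
    exact natDegree_map_le.trans_lt hd

theorem exists_norm (h : Pen f) (ℓ : Locs k Ω) {β : k[X][X]} (h0 : β ≠ 0)
    (hd : β.natDegree < 2 * gg + 1) {e : ℕ} (he : ∀ i, (2 * gg + 1) * (β.coeff i).natDegree ≤ e) :
    ∃ N : k[X], N ≠ 0 ∧ bp Ω N = ∏ z, β.eval₂ (bp Ω) (r.α z) ∧
      N.natDegree ≤ e + f.discr.natDegree := by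
  obtain ⟨N, hN⟩ := exists_bp ℓ (a := ∏ z, β.eval₂ (bp Ω) (r.α z)) (fun g => by
      rw [map_prod]
      simp only [r.RtChi_gal]
      exact Equiv.prod_comp (r.π g) fun z => β.eval₂ (bp Ω) (r.α z)) fun u hu => by
      rw [map_prod]
      exact Finset.prod_le_one (fun z _ => (ℓ u).w.nonneg _) fun z _ => r.RtChi_int _ hu β z
  have hN0 : N ≠ 0 := by
    rintro rfl
    rw [map_zero] at hN
    exact Finset.prod_ne_zero_iff.2 (fun z _ => r.beta_ne h ℓ h0 hd z) hN.symm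
  refine ⟨N, hN0, hN, ?_⟩
  have hg := Par.gg_pos
  have hn : (2 * gg + 1) * (2 * gg) ≠ 0 := by positivity
  obtain ⟨c, hc0, hc⟩ : ∃ c : ℝ, 0 ≤ c ∧ c ^ ((2 * gg + 1) * (2 * gg)) = 2 ^ f.discr.natDegree :=
    ⟨_, by positivity, Real.rpow_inv_natCast_pow (by positivity) hn⟩
  have hc1 : 1 ≤ c := by
    rw [← one_le_pow_iff_of_nonneg hc0 hn, hc]
    exact one_le_pow₀ one_le_two
  have h1 : ∀ z, (ℓ none).w (β.eval₂ (bp Ω) (r.α z)) ≤ 2 ^ (e / (2 * gg + 1)) * c ^ (2 * gg) := by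
    intro z
    refine RtChi_eval (ℓ none).w_na _ (by positivity) hc1 (by omega) (fun i => ?_) ?_
    · by_cases hi : β.coeff i = 0
      · rw [hi, map_zero, map_zero]
        positivity
      · rw [(ℓ none).w_bp_inf hi]
        refine pow_le_pow_right₀ one_le_two ?_
        rw [Nat.le_div_iff_mul_le (by omega), mul_comm]
        exact he i
    · rw [← pow_le_pow_iff_left₀ ((ℓ none).w.nonneg _) hc0 hn, hc]
      exact (r.w_inf h (ℓ none)).1 z
  have h2 := Finset.prod_le_prod (s := Finset.univ) (fun z _ => (ℓ none).w.nonneg _)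
    fun z _ => h1 z
  rw [← map_prod, ← hN, (ℓ none).w_bp_inf hN0, Finset.prod_const, Finset.card_univ, r.card h,
    mul_pow, ← pow_mul, ← pow_mul, mul_comm (2 * gg), hc, ← pow_add,
    pow_le_pow_iff_right₀ one_lt_two] at h2
  have h3 := Nat.div_mul_le_self e (2 * gg + 1)
  omega

theorem chi (h : Pen f) (h6 : ((mo : ℕ) : k) ≠ 0) (ℓ : Locs k Ω) (hv : v ∉ badS f) (m : Z → F2)
    (hm : ∀ a, m (r.π (ℓ v).σ a) = m a) : ∃ c : WG k Ω → Z → F2, (tame h6 ℓ).Sm c ∧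
      (∀ g g' a, c (g * g') (r.π g a) = c g (r.π g a) + c g' a) ∧
      (∀ w ∉ insert v (badS f), c (ℓ w).τ = 0) ∧ c (ℓ v).τ = m := by
  have hfin : ∀ u ∉ badS f, u ≠ none := fun u hu e => hu (e ▸ h.inf_mem)
  obtain ⟨β, h0, hd, he, hlt⟩ := r.exists_beta (ℓ v) (hfin v hv) (Finset.univ.filter (m · = 1))
    fun z => by simp only [Finset.mem_filter, Finset.mem_univ, hm]
  obtain ⟨N, hN, hprod, hdeg⟩ := r.exists_norm h ℓ h0 hd he
  obtain ⟨a, ha0⟩ : ∃ a : Z → Ω, ∀ z, β.eval₂ (bp Ω) (r.α z) = a z := ⟨_, fun _ => rfl⟩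
  have ha := r.beta_ne h ℓ h0 hd
  have hg := r.RtChi_gal β
  have hint := fun u hu => r.RtChi_int (ℓ u) hu β
  simp only [ha0] at hprod ha hg hint hlt
  obtain ⟨c, hc1, hc2, hc3⟩ := r.exists_coc h h6 ℓ a ha hg
  have key : ∀ u ∉ badS f, ∃ j : Z → ℕ, (∀ z, (ℓ u).w (a z) = 2 ^ (-(j z : ℤ))) ∧
      ∑ z, j z = mult N u ∧ ∀ z, c (ℓ u).τ z = (j z : F2) := by
    intro u hu
    have hu1 := hfin u hu
    have hr := r.π_good h (ℓ u) hu1 fun k => hu (h.fac_sub k)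
    have hτ : ∀ z, gal (ℓ u).τ (a z) = a z := fun z => by rw [hg, hr, Equiv.Perm.one_apply]
    obtain ⟨U, hU, hU1⟩ := r.adm h
    have h1 : ∀ z, ∃ j : ℕ, (ℓ u).w (a z) = 2 ^ (-(j : ℤ)) := fun z => by
      obtain ⟨j, hj⟩ := (ℓ u).disc U hU (a z) (ha z) (fun g hg' => by
        rw [hg, hU1 g hg', Equiv.Perm.one_apply]) (hτ z)
      replace hj : (ℓ u).w (a z) = 2 ^ j := hj
      have h2 := hint u hu1 z
      rw [hj, zpow_le_one_iff_right₀ one_lt_two] at h2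
      exact ⟨(-j).toNat, by rw [hj]; congr 1; omega⟩
    choose j hj using h1
    refine ⟨j, hj, ?_, fun z => ?_⟩
    · have h2 := congrArg (ℓ u).w hprod
      rw [map_prod, (ℓ u).w_base hu1 hN] at h2
      simp only [hj, zpow_neg, zpow_natCast, Finset.prod_inv_distrib, Finset.prod_pow_eq_pow_sum,
        inv_inj] at h2
      exact (pow_right_injective₀ two_pos one_lt_two.ne' h2).symm
    · have h3 := sqr_spec (k := k) h6 (a z)
      rw [hc3 _ hr, ← Int.cast_natCast]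
      refine (ℓ u).kum_tau h6 (fun e => ha z ?_) (by rw [h3, hτ]) (by rw [h3, hj])
      rw [← h3, e, zero_pow two_ne_zero]
  obtain ⟨j, j1, j2, j3⟩ := key v hv
  have hle : ∀ z ∈ Finset.univ, (if m z = 1 then 1 else 0) ≤ j z := fun z _ => by
    split_ifs with hz
    · have := hlt z (Finset.mem_filter.2 ⟨Finset.mem_univ z, hz⟩)
      rw [j1, zpow_lt_one_iff_right₀ one_lt_two] at this
      omega
    · exact Nat.zero_le _
  have h1 := Finset.sum_le_sum hle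
  rw [j2, ← Finset.card_filter] at h1
  have hv1 := not_le.1 (mt mem_badS.2 hv)
  have h2 := Nat.mul_le_mul_right (pdg v) h1
  have h3 : (Finset.univ.filter (m · = 1)).card = mult N v := by
    refine h1.antisymm (not_lt.1 fun h4 => ?_)
    have h5 := RtChi_le hN {v}
    have h7 := Nat.mul_le_mul_right (pdg v) (Nat.succ_le_of_lt h4)
    rw [Finset.sum_singleton] at h5
    rw [Nat.succ_mul] at h7
    omega
  refine ⟨c, hc1, hc2, fun u hu => ?_, funext fun z => ?_⟩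
  · rw [Finset.mem_insert, not_or] at hu
    obtain ⟨i, -, i2, i3⟩ := key u hu.2
    have hu1 := not_le.1 (mt mem_badS.2 hu.2)
    have h5 := RtChi_le hN {u, v}
    rw [Finset.sum_pair hu.1] at h5
    have h7 : mult N u = 0 := by
      by_contra h7
      have := Nat.le_mul_of_pos_left (pdg u) (Nat.pos_of_ne_zero h7)
      omega
    funext z
    rw [i3, Finset.sum_eq_zero_iff.1 (i2.trans h7) z (Finset.mem_univ z), Nat.cast_zero,
      Pi.zero_apply]
  · rw [← j2, Finset.card_filter] at h3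
    rw [j3, ← (Finset.sum_eq_sum_iff_of_le hle).1 h3 z (Finset.mem_univ z)]
    have h4 : ∀ x : F2, x ≠ 1 → x = 0 := by decide
    split_ifs with hz
    · rw [hz, Nat.cast_one]
    · rw [h4 _ hz, Nat.cast_zero]

end Rts

end Pool.Agent.Hyp
end

-- merged part: Pool.Agent.Work.MP_60d5ce_nt.Hy.GenJ
section
/-!
# The abstract data of the Jacobian  (task HY GenJ)

* `node`: `exists_ov`, `w_node`, `Spt.node` (equal residues: `Pm.eq_iff`, `OV.non`).  First part: `OV.ine_τ`.  Second part: `Nod.loc` with `Q = (tame h6 ℓ).Q v`; `symp`, `cyc`, `cq_σ`, `cq_of_deg_zero`, `Lat.rho_rel` for `G.lat`,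
  `π_eq_one`; the last clause of `Spt.node` for `act σ` and for `act (σ ^ 2)` (`OV.pow_res`, `OV.frob_fin`, `ρ_mul`).
* `exists_jd`: collect; `S = badS f`, `Nd = fac f.discr`.
-/

namespace Pool.Agent.Hyp

open scoped Classical
open PR0 Polynomial Pool.Agent.Ell.AT Pool.Agent.Quad Pool.Agent.Lef

variable [Par] {k : Type} [Field k] [Fintype k] {f : k[X][X]} {Ω : Type} [Field Ω]
  [Algebra (RatFunc k) Ω] [Algebra k Ω] [IsScalarTower k (RatFunc k) Ω]
  [IsSepClosure (RatFunc k) Ω] {v : Pl k} {Z : Type} [Fintype Z]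

namespace Gc

variable {r : Rts Ω f Z} (G : Gc r)

/-- the lattice -/
noncomputable def lat (h : Pen f) (h6 : ((mo : ℕ) : k) ≠ 0) (ℓ : Locs k Ω) :
    Lat (tame h6 ℓ) Ix where
  ρ := G.ρ
  ρ_one := G.ρ_one
  ρ_mul := G.ρ_mul
  S := badS f
  inf_mem := h.inf_mem
  unr v hv := G.good h h6 (ℓ v) (fun e => hv (e ▸ h.inf_mem)) fun e => hv (h.fac_sub e)
  sm := G.sm h

theorem GenJ_symp (h6 : ((mo : ℕ) : k) ≠ 0) (ℓ : Locs k Ω) (g : WG k Ω) (a b : V) :
    ee ((G.ρ g).mulVec a) ((G.ρ g).mulVec b) = (tame h6 ℓ).cq g * ee a b :=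
  G.symp _ _ (G.cyc h6 ℓ g) a b

theorem GenJ_pow (g : WG k Ω) (n : ℕ) : G.ρ (g ^ n) = G.ρ g ^ n := by
  induction n with
  | zero => rw [pow_zero, pow_zero, G.ρ_one]
  | succ n ih => rw [pow_succ, pow_succ, G.ρ_mul, ih]

theorem node (h : Pen f) (h6 : ((mo : ℕ) : k) ≠ 0) (ℓ : Locs k Ω) (hv : v ∈ fac f.discr) :
    (∀ s t : V, ∃ a b : O, (a ≠ 0 ∨ b ≠ 0) ∧
      a • ((G.ρ (ℓ v).τ).mulVec s - s) = b • ((G.ρ (ℓ v).τ).mulVec t - t)) ∧
    ∀ t : V, (G.ρ (ℓ v).σ).mulVec ((G.ρ (ℓ v).σ).mulVec t) = t →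
      (G.ρ (ℓ v).τ).mulVec ((G.ρ (ℓ v).τ).mulVec t) = t → t = 0 := by
  have hv0 : v ≠ none := fun e => none_not_fac _ (e ▸ hv)
  obtain ⟨o, ho⟩ := exists_ov (ℓ v)
  obtain ⟨a0, b0, hab, hπ, hc⟩ := r.w_node h (ℓ v) hv
  have hA : ∀ i, algebraMap Ω (Fb Ω) (r.α i) ∈ o.w := fun i => (ho.mem _).2 (r.w_le _ hv0 i)
  have h2 : (2 : Kb k Ω) ≠ 0 := two_ne_of_six (six_ne_map (algebraMap k (Kb k Ω)) h6)
  obtain ⟨K, φ, hK, hτ, hσ⟩ := G.spt.node o h2 hA (a0 := a0) (b0 := b0)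
    (fun a b hne e => hc a b hne (by
      rw [o.eq_iff (hA a) (hA b), ← map_sub, ho.non] at e
      exact e)) G.B
  have hN : ∀ t, (G.ρ (ℓ v).τ).mulVec t - t ∈ K :=
    hτ (G.act (ℓ v).τ) (by rw [G.act_c]; exact ho.ine_τ) (G.act_x _) (G.act_y _)
  have hrk := fun s t => hK _ (hN s) _ (hN t)
  refine ⟨hrk, fun t h3 h4 => ?_⟩
  have nod : Nod (G.ρ (ℓ v).σ) (G.ρ (ℓ v).τ) ((tame h6 ℓ).Q v) := by
    refine ⟨(tame h6 ℓ).one_lt_Q v, fun a b => ?_, fun a b => ?_, ?_, fun e => ?_, hrk⟩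
    · rw [G.GenJ_symp h6 ℓ, ← (tame h6 ℓ).cq_σ v]
      rfl
    · rw [G.GenJ_symp h6 ℓ, (tame h6 ℓ).cq_of_deg_zero (ℓ v).deg_τ, one_mul]
    · rw [← G.GenJ_pow, ← G.ρ_mul, ← G.ρ_mul]
      exact Lat.rho_rel (R := G.lat h h6 ℓ) v
    · rw [G.π_eq_one h e] at hπ
      exact hab (Equiv.swap_eq_one_iff.1 hπ.symm)
  refine nod.loc K φ hK hN ?_ (fun u hu e => ?_) t h3 h4
  · exact (hσ (G.act (ℓ v).σ) _ (by rw [G.act_c]; exact ho.stb_σ) (G.act_x _) (G.act_y _)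
      (by rw [G.act_c]; exact ho.res_σ)).1
  · refine (hσ (G.act ((ℓ v).σ ^ 2)) _ (by rw [G.act_c]; exact (ho.pow_res 2).1) (G.act_x _)
      (G.act_y _) (by rw [G.act_c]; exact (ho.pow_res 2).2)).2 (fun m hm => ?_) u hu ?_
    · rw [← pow_mul]
      exact OV.frob_fin v (2 * m) (by omega)
    · change (G.ρ ((ℓ v).σ ^ 2)).mulVec u = u
      rw [pow_two, G.ρ_mul, ← Matrix.mulVec_mulVec]
      exact e

end Gc

/-- the traces of Frobenius are given by point counts -/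
def JD.Cnt {h6 : ((mo : ℕ) : k) ≠ 0} {ℓ : Locs k Ω} (J : JD (tame h6 ℓ) Z) (f : k[X][X]) : Prop :=
  ∀ (v : Pl k) (d : k[X]) (δ : Ω) (m : ℕ), v ≠ none → ¬ pl v ∣ d * f.discr → δ ^ 2 = bp Ω d →
    0 < m → J.cS (fun g => kum δ (gal g)) v m = ((Fintype.card k ^ (pdg v * m) : ℕ) : O) -
      (affN (f.map (aeval (ℓ v).x : k[X] →ₐ[k] Kb k Ω)) (aeval (ℓ v).x d)
        (Fintype.card k ^ (pdg v * m)) : ℕ)

theorem exists_jd (h : Pen f) (h6 : ((mo : ℕ) : k) ≠ 0) (ℓ : Locs k Ω) :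
    ∃ (Z : Type) (_ : Fintype Z) (J : JD (tame h6 ℓ) Z), J.Nd = fac f.discr ∧ J.Cnt f := by
  obtain ⟨r⟩ := exists_rts Ω h
  obtain ⟨G⟩ := exists_gc r h h6
  obtain ⟨δ, d1, d2, d3⟩ := G.exists_δ
  refine ⟨Fin (2 * gg + 1), inferInstance,
    { toLat := G.lat h h6 ℓ
      symp := G.GenJ_symp h6 ℓ
      π := r.π
      card := r.card h
      surj := r.surj h ℓ
      δ := δ
      δ_eq := d1
      δ_rel := d2
      δ_sum := d3
      Nd := fac f.discr
      Nd_sub := h.fac_sub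
      inf_not := none_not_fac _
      good := fun v hv hv' => G.good h h6 (ℓ v) hv' hv
      swap := fun v hv => ?_
      rk1 := fun v hv => (G.node h h6 ℓ hv).1
      loc := fun v t h1 h2 => ?_
      chi := fun v hv m hm => ?_ }, rfl, ?_⟩
  · obtain ⟨a0, b0, hab, hπ, -⟩ := r.w_node h (ℓ v) hv
    exact ⟨a0, b0, hab, hπ⟩
  · by_cases hv : v ∈ fac f.discr
    · exact (G.node h h6 ℓ hv).2 t h1 h2
    · by_cases hv' : v = none
      · subst hv'
        exact G.loc_inf h h6 (ℓ none) h1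
      · exact G.loc_good h h6 (ℓ v) hv' hv h1
  · obtain ⟨c, c1, c2, c3, c4⟩ := r.chi h h6 ℓ hv m hm
    exact ⟨c, c1, c2, fun w hw => c3 w (by
      simp only [Finset.mem_insert] at hw ⊢
      exact hw), c4⟩
  · intro v d δ m hv hd hδ hm
    exact G.trace h h6 (ℓ v) hv hd hδ hm

end Pool.Agent.Hyp
end

-- merged part: Pool.Agent.Work.MP_60d5ce_nt.Hy.ECnt
section
/-!
# Sums over points of the line as sums over places  (task HY ECnt)

Port of `Lb/DCnt.lean` (do not import it; copy the proofs).  `affN_map`: the bijection `(x, y) ↦ (ι x, ι y)`; `eval_map`, `eval₂_map`, `hom_eval₂`, `aeval_algHom_apply`.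
`Cnt.eul_eq`: `mem_Pd`, `mem_fac_iff`; see `erep_lser` in `Lb/Main.lean`.
-/

namespace Pool.Agent.Hyp

open scoped Classical
open Polynomial Pool.Agent.Quad Pool.Agent.Lef

variable {k : Type} [Field k] [Fintype k] {f : k[X][X]} {d : k[X]}

theorem exists_emb_fix {κ : Type} [Field κ] [Algebra k κ] [IsAlgClosed κ] {F : Type} [Field F]
    [Algebra k F] {n : ℕ} (hn : 0 < n) (hF : Module.finrank k F = n) :
    Finite F ∧ Nat.card F = Fintype.card k ^ n ∧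
      ∃ ι : F →ₐ[k] κ, ∀ c, c ∈ Set.range ι ↔ c ^ Fintype.card k ^ n = c := by
  have : Module.Finite k F := Module.finite_of_finrank_pos (hF ▸ hn)
  have hfin : Finite F := Module.finite_of_finite k
  have hc : Nat.card F = Fintype.card k ^ n := by
    rw [Module.natCard_eq_pow_finrank (K := k), hF, Nat.card_eq_fintype_card]
  have := Fintype.ofFinite F
  have hQ : 1 < Fintype.card k ^ n := Nat.one_lt_pow hn.ne' Fintype.one_lt_card
  refine ⟨hfin, hc, IsAlgClosed.lift, fun c => ?_⟩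
  generalize (IsAlgClosed.lift : F →ₐ[k] κ) = ι
  generalize Fintype.card k ^ n = Q at hc hQ
  rw [Nat.card_eq_fintype_card] at hc
  have hm : ∀ c, c ∈ (X ^ Q - X : κ[X]).roots.toFinset ↔ c ^ Q = c := fun c => by
    rw [Multiset.mem_toFinset, mem_roots (FiniteField.X_pow_card_sub_X_ne_zero _ hQ), IsRoot,
      eval_sub, eval_pow, eval_X, sub_eq_zero]
  have h1 : Finset.univ.image ι = (X ^ Q - X : κ[X]).roots.toFinset := by
    refine Finset.eq_of_subset_of_card_le (fun z hz => ?_) ?_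
    · obtain ⟨t, -, rfl⟩ := Finset.mem_image.1 hz
      rw [hm, ← map_pow, ← hc, FiniteField.pow_card]
    · rw [Finset.card_image_of_injective _ (f := ι) ι.toRingHom.injective, Finset.card_univ, hc]
      exact (Multiset.toFinset_card_le _).trans ((card_roots' _).trans
        (FiniteField.X_pow_card_sub_X_natDegree_eq _ hQ).le)
  rw [← hm, ← h1, ← Finset.mem_coe, Finset.coe_image, Finset.coe_univ, Set.image_univ]

theorem affN_map {κ F : Type} [Field κ] [Field F] (ι : F →+* κ) (g : F[X]) (a : F) {Q : ℕ}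
    (h : ∀ c, c ^ Q = c → c ∈ Set.range ι) : affN (g.map ι) (ι a) Q = affN g a Q := by
  have e : ∀ x : F, (g.map ι).eval (ι x) = ι (g.eval x) := fun x => by
    rw [eval_map, eval₂_at_apply]
  rw [affN, affN, ← Set.ncard_image_of_injective _ (ι.injective.prodMap ι.injective)]
  congr 1
  ext ⟨x, y⟩
  constructor
  · rintro ⟨h1, h2, h3⟩
    obtain ⟨x, rfl⟩ := h x h2
    obtain ⟨y, rfl⟩ := h y h3
    refine ⟨(x, y), ⟨ι.injective ?_, ι.injective ?_, ι.injective ?_⟩, rfl⟩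
    · simpa only [map_mul, map_pow, e] using h1
    · simpa only [map_pow] using h2
    · simpa only [map_pow] using h3
  · rintro ⟨⟨x, y⟩, ⟨h1, h2, h3⟩, ⟨⟩⟩
    refine ⟨?_, ?_, ?_⟩
    · simpa only [map_mul, map_pow, e] using congrArg ι h1
    · simpa only [map_pow] using congrArg ι h2
    · simpa only [map_pow] using congrArg ι h3

omit [Fintype k] in
theorem ECnt_map {κ F : Type} [Field κ] [Field F] [Algebra k κ] [Algebra k F] (ι : F →ₐ[k] κ)
    (f : k[X][X]) (d : k[X]) (t : F) {Q : ℕ} (h : ∀ c, c ^ Q = c → c ∈ Set.range ι) :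
    affN (f.map (aeval (ι t) : k[X] →ₐ[k] κ)) (aeval (ι t) d) Q =
      affN (f.map (aeval t : k[X] →ₐ[k] F)) (aeval t d) Q := by
  rw [← affN_map ι.toRingHom _ _ h, Polynomial.map_map, aeval_algHom_apply]
  congr 2
  exact RingHom.ext fun p => aeval_algHom_apply ι t p

theorem frobSum_eq {κ : Type} [Field κ] [Algebra k κ] [IsAlgClosed κ] {F : Type} [Field F]
    [Algebra k F] {n : ℕ} (hn : 0 < n) (hF : Module.finrank k F = n) (f : k[X][X]) (d : k[X])
    (S : Finset κ) (hS : ∀ c, c ∈ S ↔ c ^ Fintype.card k ^ n = c ∧ aeval c (d * f.discr) ≠ 0) :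
    frobSum F f d = ∑ c ∈ S, (((Fintype.card k ^ n : ℕ) : ℤ) -
      affN (f.map (aeval c : k[X] →ₐ[k] κ)) (aeval c d) (Fintype.card k ^ n)) := by
  obtain ⟨h1, h2, ι, h3⟩ := exists_emb_fix (κ := κ) hn hF
  have := Fintype.ofFinite F
  have inj : Function.Injective ι := ι.toRingHom.injective
  have h4 : ∀ t : F, aeval (ι t) (d * f.discr) ≠ 0 ↔ aeval t (d * f.discr) ≠ 0 :=
    fun t => by rw [aeval_algHom_apply, map_ne_zero_iff _ inj]
  have h5 : ∀ t : F, t ^ Fintype.card k ^ n = t := fun t =>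
    inj (by rw [map_pow, (h3 _).1 ⟨t, rfl⟩])
  rw [frobSum, finsum_eq_sum_of_fintype]
  simp only [finsum_eq_if]
  rw [← Finset.sum_filter]
  refine Finset.sum_nbij ι (fun t ht => ?_) inj.injOn (fun c hc => ?_) fun t _ => ?_
  · exact (hS _).2 ⟨(h3 _).1 ⟨t, rfl⟩, (h4 t).2 (Finset.mem_filter.1 ht).2⟩
  · obtain ⟨h6, h7⟩ := (hS c).1 hc
    obtain ⟨t, rfl⟩ := (h3 c).2 h6
    exact ⟨t, Finset.mem_coe.2 (Finset.mem_filter.2 ⟨Finset.mem_univ _, (h4 t).1 h7⟩), rfl⟩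
  · rw [h2, ECnt_map ι f d t fun c => (h3 c).2]
    refine congrArg (fun m : ℕ => ((Fintype.card k ^ n : ℕ) : ℤ) - m) ?_
    simp only [affN, h5, and_true, eval_map]
    exact Nat.card_coe_set_eq _

variable [Par] {Ω : Type} [Field Ω] [Algebra (RatFunc k) Ω] [Algebra k Ω]
  [IsScalarTower k (RatFunc k) Ω] [IsSepClosure (RatFunc k) Ω]

omit [IsSepClosure (RatFunc k) Ω] in
theorem ECnt_min {v : Pl k} (l : Loc Ω v) (hv : v ≠ none) (i : ℕ) :
    minpoly k ((frob k Ω ^ i) l.x) = pl v := by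
  obtain ⟨p, rfl⟩ := Option.ne_none_iff_exists'.1 hv
  rw [minpoly.algEquiv_eq, ← galloc_min]
  rfl

theorem sum_places (h6 : ((mo : ℕ) : k) ≠ 0) (ℓ : Locs k Ω) {D : k[X]} (hD : D ≠ 0) {n : ℕ}
    (hn : 0 < n) (c : Kb k Ω → ℤ) (hc : ∀ a, c (frob k Ω a) = c a) : ∃ S : Finset (Kb k Ω),
      (∀ a, a ∈ S ↔ a ^ Fintype.card k ^ n = a ∧ aeval a D ≠ 0) ∧
      ∑ a ∈ S, c a = ∑ v ∈ Pd (tame h6 ℓ) (insert none (fac D)) n, (pdg v : ℤ) * c (ℓ v).x := by
  have h1 : ∀ v, v ∈ Pd (tame h6 ℓ) (insert none (fac D)) n ↔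
      v ≠ none ∧ pdg v ∣ n ∧ ¬ pl v ∣ D := fun v => by
    rw [mem_Pd, Finset.mem_insert, mem_fac_iff hD]
    exact ⟨fun h => ⟨fun e => h.1 (Or.inl e), h.2.1, fun e => h.1 (Or.inr ⟨fun e' =>
      h.1 (Or.inl e'), e⟩)⟩, fun h => ⟨fun e => e.elim h.1 fun e' => h.2.2 e'.2, h.2.1, hn.ne'⟩⟩
  have h2 : ∀ v, v ≠ none → ∀ i : ℕ, ((frob k Ω ^ i) (ℓ v).x ^ Fintype.card k ^ n =
      (frob k Ω ^ i) (ℓ v).x ∧ aeval ((frob k Ω ^ i) (ℓ v).x) D ≠ 0 ↔ pdg v ∣ n ∧ ¬ pl v ∣ D) :=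
    fun v hv i => by
      rw [← frob_pow_apply, galloc_fix, Ne, ← minpoly.dvd_iff, ECnt_min _ hv, natDegree_pl hv]
  have h3 : ∀ (i : ℕ) a, c ((frob k Ω ^ i) a) = c a := fun i a => by
    induction i with
    | zero => rfl
    | succ i ih => rw [pow_succ', AlgEquiv.mul_apply, hc, ih]
  refine ⟨((Pd (tame h6 ℓ) (insert none (fac D)) n).sigma fun v => Finset.range (pdg v)).image
    fun z => (frob k Ω ^ z.2) (ℓ z.1).x, fun a => ⟨fun h => ?_, fun h => ?_⟩, ?_⟩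
  · obtain ⟨⟨v, i⟩, h', rfl⟩ := Finset.mem_image.1 h
    have h4 := Finset.mem_sigma.1 h'
    exact (h2 v ((h1 v).1 h4.1).1 i).2 ((h1 v).1 h4.1).2
  · obtain ⟨v, i, hv, hi, rfl⟩ := exists_place ℓ a
    exact Finset.mem_image.2 ⟨⟨v, i⟩, Finset.mem_sigma.2
      ⟨(h1 v).2 ⟨hv, (h2 v hv i).1 h⟩, Finset.mem_range.2 hi⟩, rfl⟩
  · rw [Finset.sum_image, Finset.sum_sigma]
    · simp only [h3, Finset.sum_const, Finset.card_range, nsmul_eq_mul]
    · rintro ⟨v, i⟩ h ⟨v', i'⟩ h' e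
      have h4 := Finset.mem_sigma.1 (Finset.mem_coe.1 h)
      have h5 := Finset.mem_sigma.1 (Finset.mem_coe.1 h')
      obtain ⟨rfl, rfl⟩ := place_unique ℓ ((h1 v).1 h4.1).1 ((h1 v').1 h5.1).1
        (Finset.mem_range.1 h4.2) (Finset.mem_range.1 h5.2) e
      rfl

theorem frobSum_places (h6 : ((mo : ℕ) : k) ≠ 0) (ℓ : Locs k Ω) (hD : d * f.discr ≠ 0)
    {F : Type} [Field F] [Algebra k F] {n : ℕ} (hn : 0 < n) (hF : Module.finrank k F = n) :
    frobSum F f d = ∑ v ∈ Pd (tame h6 ℓ) (insert none (fac (d * f.discr))) n,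
      (pdg v : ℤ) * (((Fintype.card k ^ n : ℕ) : ℤ) -
        affN (f.map (aeval (ℓ v).x : k[X] →ₐ[k] Kb k Ω)) (aeval (ℓ v).x d)
          (Fintype.card k ^ n)) := by
  obtain ⟨S, h1, h2⟩ := sum_places h6 ℓ hD hn (fun c => ((Fintype.card k ^ n : ℕ) : ℤ) -
    affN (f.map (aeval c : k[X] →ₐ[k] Kb k Ω)) (aeval c d) (Fintype.card k ^ n)) fun c =>
      congrArg (fun m : ℕ => ((Fintype.card k ^ n : ℕ) : ℤ) - m)
        (ECnt_map (frob k Ω : Kb k Ω →ₐ[k] Kb k Ω) f d c fun a _ => (frob k Ω).surjective a)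
  exact (frobSum_eq hn hF f d S h1).trans h2

theorem JD.Cnt.eul_eq {h6 : ((mo : ℕ) : k) ≠ 0} {ℓ : Locs k Ω} {Z : Type} [Fintype Z]
    {J : JD (tame h6 ℓ) Z} (h : J.Cnt f) (hD : d * f.discr ≠ 0) {δ : Ω} (hδ : δ ^ 2 = bp Ω d)
    {F : Type} [Field F] [Algebra k F] {n : ℕ} (hn : 0 < n) (hF : Module.finrank k F = n) :
    (frobSum F f d : O) = eul (tame h6 ℓ) (insert none (fac (d * f.discr)))
      (J.cS fun g => kum δ (gal g)) n := by
  rw [frobSum_places h6 ℓ hD hn hF, Int.cast_sum]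
  refine Finset.sum_congr rfl fun v hv => ?_
  obtain ⟨h1, ⟨i, hi⟩, -⟩ := (mem_Pd (T := tame h6 ℓ)).1 hv
  rw [Finset.mem_insert, not_or, mem_fac_iff hD] at h1
  have hi' : n = pdg v * i := hi
  have hi0 : 0 < i := Nat.pos_of_ne_zero fun e => by
    rw [e, mul_zero] at hi'
    exact hn.ne' hi'
  have hdiv : n / (tame h6 ℓ).dg v = i := by
    rw [hi]
    exact Nat.mul_div_cancel_left _ ((tame h6 ℓ).dg_pos v)
  rw [hdiv, h v d δ i h1.1 (fun e => h1.2 ⟨h1.1, e⟩) hδ hi0, ← hi', Int.cast_mul, Int.cast_natCast,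
    Int.cast_sub, Int.cast_natCast, Int.cast_natCast]
  rfl

end Pool.Agent.Hyp
end
end

-- merged part: Pool.Agent.Work.MP_60d5ce_nt.Bs.SMain
section
-- merged part: Pool.Agent.Work.MP_60d5ce_nt.Hy.PFour
section
/-!
# The leading coefficient modulo four  (task HY PFour)

* `zeta_poly`: `L2.zz`, `lf_cp`, `lf_loc`, `eul_split` for `∅ ⊆ A`, `cp_lead`, `natDegree_prod`, `leadingCoeff_prod`, `natDegree_expand`, `leadingCoeff_expand`.
* `cp_two`: over `F2` the linear map `c ↦ (∑ c • δ, ∑ c)` from `X → F2` to `Vb × F2` is bijective (`span`, `even_inj`, `card` is odd) and carries the permutation action to `rb g ⊕ 1` (`rb_sum`); compare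
  `LinearMap.charpoly` (`LinearEquiv.charpoly_conj`, `LinearMap.charpoly_prodMap`), `Matrix.reverse_charpoly`, `Matrix.charpoly_map`, `Matrix.charpoly_transpose`.
* `sign_recip`: `T.recip` for `θ g h = x g * ys h` on `A`, `Tame.inv_mul_hom`, `π_good`, `swap`.
-/

namespace Pool.Agent.Hyp

open Pool.Agent.Lef

open scoped Classical
open Pool.Agent.Quad Polynomial

variable {W P : Type} [Group W] {T : Tame W P}

/-- the double covering given by `x` -/
def twH {Z : Type} (π : W →* Equiv.Perm Z) {x : W → F2} (hx : T.IsHom x) :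
    W →* Equiv.Perm (Z × F2) :=
  MonoidHom.mk' (fun g => tw (π g) (x g)) fun g h => by rw [map_mul, hx.2, tw_mul]

theorem PFour_map {I R S : Type} [Fintype I] [DecidableEq I] [CommRing R] [CommRing S]
    (φ : R →+* S) (M : Matrix I I R) : M.charpolyRev.map φ = (M.map φ).charpolyRev := by
  rw [Matrix.charpolyRev, Matrix.charpolyRev, ← coe_mapRingHom, RingHom.map_det]
  congr 1
  ext i j : 2
  by_cases h : i = j <;> simp [h]

theorem zeta_poly (L2 : LefAx2 T) {Z : Type} [Fintype Z] [Nonempty Z] (π : W →* Equiv.Perm Z)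
    (hs : ∃ U, T.Adm U ∧ ∀ u ∈ U, π u = 1) (ht : ∀ z z', ∃ g, T.deg g = 0 ∧ π g z = z')
    (A : Finset P) {F : P → O[X]}
    (hF : ∀ v ∈ A, LF (fun m => (fo (π (T.σ v) ^ m) (π (T.τ v)) : O)) (F v)) :
    ∃ (r : ℕ) (Z : O[X]), LF (fun n => 1 + (T.q : O) ^ n -
        eul T A (fun v m => (fo (π (T.σ v) ^ m) (π (T.τ v)) : O)) n) Z ∧
      Z.natDegree = 2 * r + ∑ v ∈ A, T.dg v * (F v).natDegree ∧
      Z.leadingCoeff = (T.q : O) ^ r * ∏ v ∈ A, (F v).leadingCoeff := by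
  obtain ⟨r, Φ, h1, h2⟩ := L2.zz Z π hs ht
  have hd : Φ.det ≠ 0 := by rw [h1]; exact (T.isUnit_q.pow r).ne_zero
  obtain ⟨k1, k2⟩ := cp_lead hd
  have k3 : Fintype.card (Fin r ⊕ Fin r) = 2 * r := by simp [two_mul]
  have n1 : Φ.charpolyRev ≠ 0 := fun e => by simpa [e] using (lf_cp Φ).coeff_zero
  have n2 : ∀ v ∈ A, expand O (T.dg v) (F v) ≠ 0 := fun v hv =>
    (expand_ne_zero (T.dg_pos v)).2 fun e => by simpa [e] using (hF v hv).coeff_zero
  refine ⟨r, _, ((lf_cp Φ).mul (lf_loc (T := T) hF)).congr fun n hn => ?_, ?_, ?_⟩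
  · rw [h2 n hn, eul_split (Finset.empty_subset A) _ hn, Finset.sdiff_empty]
    ring
  · rw [natDegree_mul n1 (Finset.prod_ne_zero_iff.2 n2), natDegree_prod _ _ n2, k1, k3]
    simp only [natDegree_expand, mul_comm]
  · rw [leadingCoeff_mul, leadingCoeff_prod, k2, k3, h1, pow_mul, neg_one_sq, one_pow, one_mul]
    exact congrArg _ (Finset.prod_congr rfl fun v _ => leadingCoeff_expand (T.dg_pos v))

variable [Par]

namespace JD

variable {X : Type} [Fintype X] (J : JD T X) {x y : W → F2} {A A' : Finset P} {p p' : O[X]}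

theorem cp_two (g : W) :
    ((J.ρ g).charpolyRev * (1 - Polynomial.X)).map res = (pp (J.π g)).map res := by
  let L : (X → F2) →ₗ[F2] Vb × F2 :=
    (Fintype.linearCombination F2 J.δ).prod (Fintype.linearCombination F2 fun _ => (1 : F2))
  have hL : ∀ c, L c = (∑ a, c a • J.δ a, ∑ a, c a) := fun c => by
    simp [L, Fintype.linearCombination_apply]
  have hb : Function.Bijective L := by
    refine ⟨fun c c' e => ?_, fun n => ?_⟩
    · rw [hL, hL, Prod.mk.injEq] at e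
      exact J.even_inj e.2 e.1
    · obtain ⟨c, h1, h2⟩ := J.span n.1
      refine ⟨fun a => c a + n.2, ?_⟩
      rw [hL]
      simp only [add_smul, Finset.sum_add_distrib, ← Finset.smul_sum, J.δ_sum, ← h2, h1,
        Finset.sum_const, Finset.card_univ, J.card, smul_zero, add_zero, zero_add]
      rw [nsmul_eq_mul, Nat.cast_mul, Nat.cast_ofNat, F2_two, zero_mul, zero_mul, zero_add,
        one_smul]
  have hc : (LinearEquiv.ofBijective L hb).conj ((J.π g)⁻¹.permMatrix F2).mulVecLin =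
      (J.rb g).mulVecLin.prodMap 1 := by
    refine LinearMap.ext fun n => ?_
    obtain ⟨c, rfl⟩ := (LinearEquiv.ofBijective L hb).surjective n
    rw [LinearEquiv.conj_apply_apply, LinearEquiv.symm_apply_apply, LinearEquiv.ofBijective_apply,
      LinearEquiv.ofBijective_apply, hL, hL, LinearMap.prodMap_apply, Matrix.mulVecLin_apply,
      Matrix.mulVecLin_apply, Matrix.permMatrix_mulVec, J.rb_sum]
    exact Prod.ext rfl (Equiv.sum_comp (J.π g)⁻¹ c)
  have h1 := (LinearEquiv.ofBijective L hb).charpoly_conj ((J.π g)⁻¹.permMatrix F2).mulVecLin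
  rw [hc, LinearMap.charpoly_prodMap, Matrix.charpoly_mulVecLin, Matrix.charpoly_mulVecLin,
    LinearMap.charpoly_one, Module.finrank_self, pow_one, ← Matrix.transpose_permMatrix,
    Matrix.charpoly_transpose] at h1
  have h2 : (Polynomial.X - 1 : F2[X]).reverse = 1 - Polynomial.X := by
    rw [← C_1, sub_eq_add_neg, ← C_neg, reverse_add_C, natDegree_X, ← one_mul Polynomial.X,
      reverse_mul_X, ← C_1, reverse_C]
    simp [sub_eq_add_neg, -ZMod.neg_eq_self_mod_two]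
  rw [pp, Polynomial.map_mul, PFour_map, PFour_map, PEquiv.map_toMatrix,
    ← Matrix.reverse_charpoly ((J.π g).permMatrix F2), ← h1, reverse_mul_of_domain,
    Matrix.reverse_charpoly, h2]
  simp [Lat.rb]

/-- the sign character -/
noncomputable def ys (g : W) : F2 := if Equiv.Perm.sign (J.π g) = 1 then 0 else 1

theorem sg_ys (g : W) : sg (J.ys g) = ((Equiv.Perm.sign (J.π g) : ℤ) : O) := by
  unfold ys
  rcases Int.units_eq_one_or (Equiv.Perm.sign (J.π g)) with h | h <;> rw [h] <;> simp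

theorem ys_hom : T.IsHom J.ys := by
  obtain ⟨U, hU, h⟩ := J.π_sm
  refine ⟨⟨U, hU, fun g u hu => by rw [ys, ys, map_mul, h u hu, mul_one]⟩, fun g g' => ?_⟩
  unfold ys
  rw [map_mul, map_mul]
  rcases Int.units_eq_one_or (Equiv.Perm.sign (J.π g)) with k | k <;>
    rcases Int.units_eq_one_or (Equiv.Perm.sign (J.π g')) with k' | k' <;> rw [k, k'] <;> decide

variable {J}

theorem sign_recip (h : J.Ex x A) :
    ∑ v ∈ A \ J.A0, J.ys (T.σ v) + ∑ v ∈ J.Nd, x (T.σ v) =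
      x (T.σ T.inf) * J.ys (T.τ T.inf) + x (T.τ T.inf) * J.ys (T.σ T.inf) +
        T.eps * (x (T.τ T.inf) * J.ys (T.τ T.inf)) := by
  have g0 : ∀ v ∉ J.A0, J.ys (T.τ v) = 0 := fun v hv => by
    rw [A0, Finset.mem_insert, not_or] at hv
    rw [ys, J.π_good hv.2 hv.1, map_one, if_pos rfl]
  have g1 : ∀ v ∈ J.Nd, J.ys (T.τ v) = 1 := fun v hv => by
    rw [ys, (J.swap v hv).sign_eq, if_neg (by decide)]
  have k := T.basic_recip h.hom J.ys_hom A fun v hv => by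
    rw [h.unr v hv, g0 v fun k => hv (h.sub k)]
    simp
  rw [← Finset.sum_sdiff h.sub, A0, Finset.sum_insert J.inf_not, ← A0,
    Finset.sum_congr rfl (g := fun v => J.ys (T.σ v)) fun v hv => by
      rw [g0 v (Finset.mem_sdiff.1 hv).2, h.ram v (Finset.mem_sdiff.1 hv).1 (Finset.mem_sdiff.1 hv).2]
      simp,
    Finset.sum_congr (s₁ := J.Nd) rfl (g := fun v => x (T.σ v)) fun v hv => by
      rw [g1 v hv, h.nd v hv]
      simp, T.dg_inf, Nat.cast_one, mul_one] at k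
  rw [← F2_neg (_ + _ + _)]
  linear_combination k

end JD

end Pool.Agent.Hyp
end

-- merged part: Pool.Agent.Work.MP_60d5ce_nt.Hy.PFourB
section
/-!
# The leading coefficient modulo four, second part  (task HY PFourB)

* `four`: let `D = A \ A0`, `d = ∑ v ∈ D, dg v`, `p0` the series of `x = 0` for `A0` (`exists_L`, fixed once and for all), `pA = p0 * ∏ v ∈ D, expand (charpolyRev (ρ (σ v)))` the one for `A`.
  `euler_congr res` (`scale_res`): `p ≡ pA`, so `natDegree p = natDegree p0 + 2 gg d`.  `zeta_poly` for `Y = X × F2` and for `Unit × F2` (`twH`; transitive since `τ v`, `v ∈ D`, acts by `tw 1 1`), local factors: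
  on `D`: `pp (π σ)` and `1 - X` (`fo_ram`); on `Nd`: `b(ε T) * b` with `b` from `exists_fo` (`fo_un`, `fo_swap`), and `(1 - ε T) * (1 - T)`; at `T.inf`: chosen by `exists_fo`, as functions of the two values
  of `x`.  `euler_congr (rO 2)` with `four_trick`, `cp_two`: `p * pA * P± ≡ PY`.  `lead_map`: the degrees give `gY = g± + gg d + c` in `ℤ`, with `c` depending only on the values at `T.inf`; the leading coefficients give
  `lead p * lead p0 * q ^ (gg d) * q ^ g± * ∏ ε * l± ≡ q ^ gY * ∏ sign * lY` up to the common factor `(-1) ^ card D`; `sign_recip`.  It is easiest to prove first the comparison of two twists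
  (the statement below) by doing the computation for both; `rO 2 q ^ 2 = 1`.
-/

namespace Pool.Agent.Hyp

open Pool.Agent.Lef

variable [Par]

open scoped Classical
open Pool.Agent.Quad Polynomial

namespace JD

variable {W P : Type} [Group W] {T : Tame W P} {X : Type} [Fintype X] {J : JD T X}
  {x y : W → F2} {A A' : Finset P} {p p' : O[X]}

omit [Par] in
theorem PFourB_sg_nsmul (a : F2) (n : ℕ) : sg (n • a) = sg a ^ n := by
  induction n with
  | zero => rw [zero_nsmul, sg_zero, pow_zero]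
  | succ n ih => rw [succ_nsmul, sg_add, ih, pow_succ]

omit [Par] in
theorem PFourB_sg_sum {ι : Type} (s : Finset ι) (f : ι → F2) :
    sg (∑ i ∈ s, f i) = ∏ i ∈ s, sg (f i) := by
  induction s using Finset.induction_on with
  | empty => rw [Finset.sum_empty, Finset.prod_empty, sg_zero]
  | insert a s ha ih => rw [Finset.sum_insert ha, Finset.prod_insert ha, sg_add, ih]

omit [Par] in
theorem PFourB_sg_ne (a : F2) : sg a ≠ 0 := left_ne_zero_of_mul_eq_one (sg_mul_self a)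

omit [Par] in
/-- the local factor of the double covering at a place where the twist is unramified -/
theorem PFourB_un {Z : Type} [Fintype Z] {s t : Equiv.Perm Z} (a : F2) {b : O[X]}
    (hb : LF (fun m => (fo (s ^ m) t : O)) b) :
    LF (fun m => (fo (tw s a ^ m) (tw t 0) : O)) (b.comp (C (sg a) * Polynomial.X) * b) := by
  refine ((hb.scale (sg a)).mul hb).congr fun n _ => ?_
  rw [tw_pow, fo_un, PFourB_sg_nsmul]
  ring

omit [Par] in
/-- the local factor of the double covering at a good place where the twist is ramified -/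
theorem PFourB_ram {Z : Type} [Fintype Z] (s : Equiv.Perm Z) (a : F2) :
    LF (fun m => (fo (tw s a ^ m) (tw (1 : Equiv.Perm Z) 1) : O)) (pp s) := by
  refine (lf_pp s).congr fun n _ => ?_
  rw [tw_pow, fo_ram]

omit [Par] in
theorem PFourB_deg (a : F2) {b : O[X]} (hb : b.leadingCoeff ^ 2 = 1) :
    (b.comp (C (sg a) * Polynomial.X) * b).natDegree = 2 * b.natDegree ∧
      (b.comp (C (sg a) * Polynomial.X) * b).leadingCoeff = sg a ^ b.natDegree := by
  obtain ⟨h1, h2⟩ := scale_lead (PFourB_sg_ne a) b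
  have h3 : b.leadingCoeff ≠ 0 := fun h => by
    rw [h, zero_pow two_ne_zero] at hb
    exact zero_ne_one hb
  have h4 : (b.comp (C (sg a) * Polynomial.X)).leadingCoeff ≠ 0 := by
    rw [h2]
    exact mul_ne_zero (pow_ne_zero _ (PFourB_sg_ne a)) h3
  refine ⟨?_, ?_⟩
  · rw [natDegree_mul (leadingCoeff_ne_zero.1 h4) (leadingCoeff_ne_zero.1 h3), h1, two_mul]
  · rw [leadingCoeff_mul, h2, mul_assoc, ← sq, hb, mul_one]

omit [Par] in
theorem PFourB_rel {Z : Type} {s t : Equiv.Perm Z} {Q : ℕ} (h : s * t = t ^ Q * s)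
    (hQ : (Q : F2) = 1) (a b : F2) : tw s a * tw t b = tw t b ^ Q * tw s a := by
  rw [← tw_mul, tw_pow, ← tw_mul, h, nsmul_eq_mul, hQ, one_mul, add_comm]

/-- the zeta function of the double covering -/
theorem PFourB_zeta (L2 : LefAx2 T) (hx : J.Ex x A) (hA : (A \ J.A0).Nonempty) {Z : Type}
    [Fintype Z] [Nonempty Z] (π : W →* Equiv.Perm Z) (hs : ∃ U, T.Adm U ∧ ∀ u ∈ U, π u = 1)
    (ht : ∀ z z', ∃ g, T.deg g = 0 ∧ π g z = z') (hg : ∀ v ∉ J.A0, π (T.τ v) = 1)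
    (hr : ∀ v, π (T.σ v) * π (T.τ v) = π (T.τ v) ^ T.Q v * π (T.σ v)) {k : ℕ}
    (hk : ∀ v ∈ J.Nd, fo 1 (π (T.τ v)) = k) {F : O[X]}
    (hF : LF (fun m => (fo (tw (π (T.σ T.inf)) (x (T.σ T.inf)) ^ m)
      (tw (π (T.τ T.inf)) (x (T.τ T.inf))) : O)) F) :
    ∃ (r : ℕ) (Y : O[X]), LF (fun n => 1 + (T.q : O) ^ n - eul T A (fun v m =>
        (fo (tw (π (T.σ v)) (x (T.σ v)) ^ m) (tw (π (T.τ v)) (x (T.τ v))) : O)) n) Y ∧
      Y.natDegree = 2 * r + (F.natDegree + (∑ v ∈ J.Nd, T.dg v) * (2 * k) +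
        (∑ v ∈ A \ J.A0, T.dg v) * Fintype.card Z) ∧
      Y.leadingCoeff = (T.q : O) ^ r * (F.leadingCoeff * (∏ v ∈ J.Nd, sg (x (T.σ v)) ^ k) *
        ∏ v ∈ A \ J.A0, (-1) ^ Fintype.card Z * ((Equiv.Perm.sign (π (T.σ v)) : ℤ) : O)) := by
  choose b hb hb1 hb2 using fun v => exists_fo (hr v)
  have s1 : ∃ U, T.Adm U ∧ ∀ u ∈ U, twH π hx.hom u = 1 := by
    obtain ⟨U, hU, h⟩ := hs
    obtain ⟨U', hU', h'⟩ := hx.hom.1
    refine ⟨_, T.adm_inf _ _ hU hU', fun u hu => ?_⟩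
    have h1 : x u = 0 := by
      have h2 := h' 1 u hu.2
      rwa [one_mul, Tame.hom_one hx.hom] at h2
    change tw (π u) (x u) = 1
    rw [h u hu.1, h1]
    exact Equiv.ext fun z => by
      rw [tw_apply, add_zero]
      rfl
  have s2 : ∀ z z', ∃ g, T.deg g = 0 ∧ twH π hx.hom g z = z' := by
    rintro ⟨z, c⟩ ⟨z', c'⟩
    obtain ⟨g, g1, g2⟩ := ht z z'
    obtain ⟨v, hv⟩ := hA
    obtain ⟨v1, v2⟩ := Finset.mem_sdiff.1 hv
    have key : ∀ c c' a : F2, c + a = c' ∨ c + (a + 1) = c' := by decide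
    rcases key c c' (x g) with h | h
    · exact ⟨g, g1, Prod.ext g2 h⟩
    · refine ⟨g * T.τ v, by rw [T.deg_mul, g1, T.deg_τ, add_zero], ?_⟩
      change tw (π (g * T.τ v)) (x (g * T.τ v)) (z, c) = (z', c')
      rw [map_mul, hg v v2, mul_one, hx.hom.2, hx.ram v v1 v2]
      exact Prod.ext g2 h
  let G : P → O[X] := fun v => if v = T.inf then F else if v ∈ J.Nd then
    (b v).comp (C (sg (x (T.σ v))) * Polynomial.X) * b v else pp (π (T.σ v))
  have G1 : G T.inf = F := if_pos rfl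
  have G2 : ∀ v ∈ J.Nd, G v = (b v).comp (C (sg (x (T.σ v))) * Polynomial.X) * b v :=
    fun v hv => (if_neg fun h : v = T.inf => J.inf_not (h ▸ hv)).trans (if_pos hv)
  have G3 : ∀ v ∉ J.A0, G v = pp (π (T.σ v)) := fun v hv =>
    (if_neg fun h : v = T.inf => hv (h ▸ Finset.mem_insert_self _ _)).trans
      (if_neg fun h => hv (Finset.mem_insert_of_mem h))
  obtain ⟨r, Y, h1, h2, h3⟩ := zeta_poly L2 (twH π hx.hom) s1 s2 A (F := G) fun v hv => by
    change LF (fun m => (fo (tw (π (T.σ v)) (x (T.σ v)) ^ m)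
      (tw (π (T.τ v)) (x (T.τ v))) : O)) (G v)
    by_cases h0 : v ∈ J.A0
    · rcases Finset.mem_insert.1 h0 with rfl | h
      · rw [G1]
        exact hF
      · rw [G2 v h, hx.nd v h]
        exact PFourB_un _ (hb v)
    · rw [G3 v h0, hg v h0, hx.ram v hv h0]
      exact PFourB_ram _ _
  refine ⟨r, Y, h1, ?_, ?_⟩
  · have e1 : ∑ v ∈ J.Nd, T.dg v * (G v).natDegree = (∑ v ∈ J.Nd, T.dg v) * (2 * k) := by
      rw [Finset.sum_mul]
      refine Finset.sum_congr rfl fun v hv => ?_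
      rw [G2 v hv, (PFourB_deg _ (hb2 v)).1, hb1, hk v hv]
    have e2 : ∑ v ∈ A \ J.A0, T.dg v * (G v).natDegree =
        (∑ v ∈ A \ J.A0, T.dg v) * Fintype.card Z := by
      rw [Finset.sum_mul]
      refine Finset.sum_congr rfl fun v hv => ?_
      rw [G3 v (Finset.mem_sdiff.1 hv).2, (pp_lead _).1]
    rw [h2, ← Finset.sum_sdiff hx.sub, e2, A0, Finset.sum_insert J.inf_not, e1, G1, T.dg_inf]
    ring
  · have e1 : ∏ v ∈ J.Nd, (G v).leadingCoeff = ∏ v ∈ J.Nd, sg (x (T.σ v)) ^ k := by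
      refine Finset.prod_congr rfl fun v hv => ?_
      rw [G2 v hv, (PFourB_deg _ (hb2 v)).2, hb1, hk v hv]
    have e2 : ∏ v ∈ A \ J.A0, (G v).leadingCoeff = ∏ v ∈ A \ J.A0,
        (-1) ^ Fintype.card Z * ((Equiv.Perm.sign (π (T.σ v)) : ℤ) : O) := by
      refine Finset.prod_congr rfl fun v hv => ?_
      rw [G3 v (Finset.mem_sdiff.1 hv).2, (pp_lead _).2]
    rw [h3, ← Finset.prod_sdiff hx.sub, e2, A0, Finset.prod_insert J.inf_not, e1, G1]
    ring

theorem PFourB_pow (g : W) (n : ℕ) : J.ρ (g ^ n) = J.ρ g ^ n := by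
  induction n with
  | zero => rw [pow_zero, pow_zero, J.ρ_one]
  | succ n ih => rw [pow_succ, pow_succ, J.ρ_mul, ih]

theorem PFourB_cS (hx : T.IsHom x) (v : P) : LF (J.cS x v)
    ((J.ρ (T.σ v)).charpolyRev.comp (C (sg (x (T.σ v))) * Polynomial.X)) := by
  refine ((lf_cp (J.ρ (T.σ v))).scale (sg (x (T.σ v)))).congr fun n _ => ?_
  change _ = (sg (x (T.σ v ^ n)) • J.ρ (T.σ v ^ n)).trace
  rw [Matrix.trace_smul, Tame.hom_pow hx, PFourB_sg_nsmul, PFourB_pow, smul_eq_mul]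

theorem PFourB_cS0 (v : P) : LF (J.cS 0 v) (J.ρ (T.σ v)).charpolyRev := by
  refine (lf_cp (J.ρ (T.σ v))).congr fun n _ => ?_
  change _ = (sg 0 • J.ρ (T.σ v ^ n)).trace
  rw [sg_zero, one_smul, PFourB_pow]

theorem PFourB_cp (v : P) : (J.ρ (T.σ v)).charpolyRev.natDegree = 2 * gg ∧
    (J.ρ (T.σ v)).charpolyRev.leadingCoeff = (T.q : O) ^ (T.dg v * gg) := by
  have h1 : (J.ρ (T.σ v)).det = (T.q : O) ^ (T.dg v * gg) := by
    rw [det_sim (c := T.cq (T.σ v)) (Units.isUnit _) (J.symp _), Tame.cq_σ, Pre.Q, Nat.cast_pow,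
      pow_mul]
  obtain ⟨h2, h3⟩ := cp_lead (M := J.ρ (T.σ v)) (by
    rw [h1]
    exact (T.isUnit_q.pow _).ne_zero)
  rw [card_Ix] at h2 h3
  exact ⟨h2, by rw [h3, h1, pow_mul, neg_one_sq, one_pow, one_mul]⟩

/-- the series of the trivial twist outside a larger set -/
theorem PFourB_pA (hA : J.A0 ⊆ A) {p0 : O[X]} (h0 : J.HasL 0 J.A0 p0)
    (u0 : IsUnit p0.leadingCoeff) : ∃ pA : O[X], J.HasL 0 A pA ∧
      pA.natDegree = p0.natDegree + (∑ v ∈ A \ J.A0, T.dg v) * gg * 2 ∧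
      pA.leadingCoeff = p0.leadingCoeff * (T.q : O) ^ ((∑ v ∈ A \ J.A0, T.dg v) * gg) := by
  have e1 : ∀ v, (expand O (T.dg v) (J.ρ (T.σ v)).charpolyRev).leadingCoeff =
      (T.q : O) ^ (T.dg v * gg) := fun v => by
    rw [leadingCoeff_expand (T.dg_pos v), (PFourB_cp v).2]
  have e2 : ∀ v ∈ A \ J.A0, expand O (T.dg v) (J.ρ (T.σ v)).charpolyRev ≠ 0 := fun v _ => by
    rw [← leadingCoeff_ne_zero, e1]
    exact (T.isUnit_q.pow _).ne_zero
  refine ⟨p0 * ∏ v ∈ A \ J.A0, expand O (T.dg v) (J.ρ (T.σ v)).charpolyRev,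
    (LF.mul h0 (lf_loc fun v _ => PFourB_cS0 v)).congr fun n hn => ?_, ?_, ?_⟩
  · rw [eul_split hA _ hn]
    ring
  · rw [natDegree_mul (leadingCoeff_ne_zero.1 u0.ne_zero) (Finset.prod_ne_zero_iff.2 e2),
      natDegree_prod _ _ e2, Finset.sum_mul, Finset.sum_mul]
    congr 1
    refine Finset.sum_congr rfl fun v _ => ?_
    rw [natDegree_expand, (PFourB_cp v).1]
    ring
  · rw [leadingCoeff_mul, leadingCoeff_prod, Finset.prod_congr rfl fun v _ => e1 v,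
      Finset.prod_pow_eq_pow_sum, Finset.sum_mul]

/-- the computation for one twist -/
theorem PFourB_one (L : LefAx T) (L2 : LefAx2 T) (hx : J.Ex x A) (hA : (A \ J.A0).Nonempty)
    (hp : J.HasL x A p) {p0 F G : O[X]} (h0 : J.HasL 0 J.A0 p0) (u0 : IsUnit p0.leadingCoeff)
    {a b : F2} (ha : x (T.σ T.inf) = a) (hb : x (T.τ T.inf) = b)
    (hF : LF (fun m => (fo (tw (J.π (T.σ T.inf)) a ^ m) (tw (J.π (T.τ T.inf)) b) : O)) F)
    (uF : IsUnit F.leadingCoeff)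
    (hG : LF (fun m => (fo (tw (1 : Equiv.Perm Unit) a ^ m) (tw (1 : Equiv.Perm Unit) b) : O)) G)
    (uG : IsUnit G.leadingCoeff) :
    p.natDegree % 2 = p0.natDegree % 2 ∧ ∃ r1 r2 : ℕ,
      2 * p0.natDegree + 2 * r1 + G.natDegree + (∑ v ∈ J.Nd, T.dg v) * 2 =
        2 * r2 + F.natDegree + (∑ v ∈ J.Nd, T.dg v) * (2 * (2 * gg)) ∧
      rO 2 (p.leadingCoeff * (p0.leadingCoeff * G.leadingCoeff) * (T.q : O) ^ r1) =
        rO 2 ((T.q : O) ^ r2 * (sg (a * J.ys (T.τ T.inf) + b * J.ys (T.σ T.inf) +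
          T.eps * (b * J.ys (T.τ T.inf))) * F.leadingCoeff)) := by
  subst ha hb
  have : Nontrivial (ZMod (2 ^ 2)) := ⟨0, 1, by decide⟩
  have : Nonempty X := Fintype.card_pos_iff.1 (by rw [J.card]; omega)
  have hgood : ∀ v ∉ J.A0, J.π (T.τ v) = 1 := fun v hv =>
    J.π_good (fun h => hv (Finset.mem_insert_of_mem h)) fun h => hv (h ▸ Finset.mem_insert_self _ _)
  have up := lead_unit L L2 hx.toTw hp
  obtain ⟨pA, hpA, a1, a2⟩ := PFourB_pA hx.sub h0 u0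
  have uA : IsUnit pA.leadingCoeff := by
    rw [a2]
    exact u0.mul (T.isUnit_q.pow _)
  have d1 : p.natDegree = pA.natDegree := by
    refine (lead_map res up uA (euler_congr (T := T) (A := A) res (d := fun _ => 0)
      (c := J.cS x) (c' := J.cS 0) (LF.congr hp fun n _ => (zero_sub _).symm)
      (LF.congr hpA fun n _ => (zero_sub _).symm) fun v _ => ?_)).1
    exact ⟨_, _, PFourB_cS hx.hom v, PFourB_cS0 v, scale_res _ _⟩
  obtain ⟨r, Y, y1, y2, y3⟩ := PFourB_zeta L2 hx hA J.π J.π_sm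
    (fun z z' => (J.surj (Equiv.swap z z')).imp fun g h =>
      ⟨h.1, by rw [h.2, Equiv.swap_apply_left]⟩) hgood J.π_rel (k := 2 * gg)
    (fun v hv => by
      have h := fo_swap (J.swap v hv)
      rw [J.card] at h
      omega) hF
  obtain ⟨s, Z, z1, z2, z3⟩ := PFourB_zeta L2 hx hA (1 : W →* Equiv.Perm Unit)
    ⟨_, T.adm_G0, fun _ _ => rfl⟩ (fun _ _ => ⟨1, T.deg_one, rfl⟩) (fun _ _ => rfl)
    (fun _ => Subsingleton.elim _ _) (k := 1) (fun _ _ => (fo_one _).trans fx_unit) hG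
  have hE : ∏ v ∈ J.Nd, sg (x (T.σ v)) ^ (2 * gg) = 1 := Finset.prod_eq_one fun v _ => by
    rw [pow_mul, sq, sg_mul_self, one_pow]
  have hS : ∏ v ∈ A \ J.A0, (-1) ^ Fintype.card X * ((Equiv.Perm.sign (J.π (T.σ v)) : ℤ) : O) =
      (-1) ^ (A \ J.A0).card * sg (∑ v ∈ A \ J.A0, J.ys (T.σ v)) := by
    rw [Finset.prod_mul_distrib, PFourB_sg_sum, J.card, pow_succ, pow_mul, neg_one_sq, one_pow,
      one_mul, Finset.prod_const]
    congr 1
    exact Finset.prod_congr rfl fun v _ => (J.sg_ys _).symm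
  have hE' : ∏ v ∈ J.Nd, sg (x (T.σ v)) ^ 1 = sg (∑ v ∈ J.Nd, x (T.σ v)) := by
    rw [PFourB_sg_sum]
    exact Finset.prod_congr rfl fun v _ => pow_one _
  rw [hE, hS] at y3
  rw [hE', Finset.prod_congr rfl (g := fun _ => (-1 : O)) (fun v _ => by simp),
    Finset.prod_const] at z3
  rw [J.card] at y2
  rw [Fintype.card_unit] at z2
  have hM : ((-1 : O) ^ (A \ J.A0).card) * (-1) ^ (A \ J.A0).card = 1 := by
    rw [← mul_pow, neg_mul_neg, one_mul, one_pow]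
  have usg : ∀ c : F2, IsUnit (sg c) := fun c => IsUnit.of_mul_eq_one _ (sg_mul_self c)
  have uM : IsUnit ((-1 : O) ^ (A \ J.A0).card) := IsUnit.of_mul_eq_one _ hM
  have uY : IsUnit Y.leadingCoeff := by
    rw [y3]
    exact (T.isUnit_q.pow _).mul ((uF.mul isUnit_one).mul (uM.mul (usg _)))
  have uZ : IsUnit Z.leadingCoeff := by
    rw [z3]
    exact (T.isUnit_q.pow _).mul ((uG.mul (usg _)).mul uM)
  have lin : LF (fun m => (fo ((1 : Equiv.Perm Unit) ^ m) 1 : O)) (1 - Polynomial.X) := by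
    have h := lf_lin 1
    rw [C_1, one_mul] at h
    refine h.congr fun n _ => ?_
    rw [one_pow, one_pow, fo_one, fx_unit, Nat.cast_one]
  have main : (p * pA * Z).map (rO 2) = Y.map (rO 2) := by
    refine euler_congr (T := T) (A := A) (rO 2) (d := fun n => 1 + (T.q : O) ^ n)
      (c := fun v m => J.cS x v m + J.cS 0 v m +
        (fo (tw (1 : Equiv.Perm Unit) (x (T.σ v)) ^ m) (tw 1 (x (T.τ v))) : O))
      (((LF.mul hp hpA).mul z1).congr fun n _ => ?_) y1 fun v hv => ?_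
    · rw [eul_add, eul_add]
      simp only [MonoidHom.one_apply]
      ring
    · have hv0 : v ∉ J.A0 := fun h => hv (hx.sub h)
      rw [hx.unr v hv, hgood v hv0]
      refine ⟨_, _, ((PFourB_cS hx.hom v).mul (PFourB_cS0 v)).mul (PFourB_un _ lin),
        PFourB_un _ ((lf_pp (J.π (T.σ v))).congr fun n _ => by rw [fo_one]), ?_⟩
      rw [← four_trick (J.cp_two (T.σ v)), mul_comp]
      congr 1
      ring
  obtain ⟨m1, m2⟩ := lead_map (rO 2) (by
    rw [leadingCoeff_mul, leadingCoeff_mul]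
    exact (up.mul uA).mul uZ) uY main
  have n1 := leadingCoeff_ne_zero.1 up.ne_zero
  have n2 := leadingCoeff_ne_zero.1 uA.ne_zero
  rw [natDegree_mul (mul_ne_zero n1 n2) (leadingCoeff_ne_zero.1 uZ.ne_zero), natDegree_mul n1 n2,
    d1, a1, y2, z2] at m1
  rw [leadingCoeff_mul, leadingCoeff_mul, a2, y3, z3] at m2
  refine ⟨by omega, s + (∑ v ∈ A \ J.A0, T.dg v) * gg, r, by linarith, ?_⟩
  have m3 := congrArg (· * rO 2 ((-1) ^ (A \ J.A0).card * sg (∑ v ∈ J.Nd, x (T.σ v)))) m2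
  simp only [← map_mul] at m3
  have hN := sg_mul_self (∑ v ∈ J.Nd, x (T.σ v))
  rw [← sign_recip hx, sg_add]
  generalize ((-1 : O) ^ (A \ J.A0).card) = M at hM m3
  generalize sg (∑ v ∈ J.Nd, x (T.σ v)) = E at hN m3
  refine Eq.trans (congrArg _ ?_) (m3.trans (congrArg _ ?_))
  · rw [pow_add]
    linear_combination (-(p.leadingCoeff * p0.leadingCoeff * G.leadingCoeff * (T.q : O) ^ s *
      (T.q : O) ^ ((∑ v ∈ A \ J.A0, T.dg v) * gg))) * (E * E * hM + hN)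
  · linear_combination ((T.q : O) ^ r * F.leadingCoeff * E *
      sg (∑ v ∈ A \ J.A0, J.ys (T.σ v))) * hM

theorem four (L : LefAx T) (L2 : LefAx2 T) (hx : J.Ex x A) (hy : J.Ex y A')
    (hA : (A \ J.A0).Nonempty) (hA' : (A' \ J.A0).Nonempty)
    (hσ : x (T.σ T.inf) = y (T.σ T.inf)) (hτ : x (T.τ T.inf) = y (T.τ T.inf))
    (hp : J.HasL x A p) (hp' : J.HasL y A' p') :
    rO 2 p.leadingCoeff = rO 2 p'.leadingCoeff ∧ p.natDegree % 2 = p'.natDegree % 2 := by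
  have t0 : J.Tw 0 J.A0 := ⟨Tame.hom_zero, subset_rfl, fun _ _ => rfl⟩
  obtain ⟨p0, h0⟩ : ∃ p0, J.HasL 0 J.A0 p0 := by
    obtain ⟨_, _, _, -, h0, -⟩ := exists_L L L2 t0
    exact ⟨_, h0⟩
  have u0 := lead_unit L L2 t0 h0
  obtain ⟨F, hF, -, uF⟩ := exists_fo (PFourB_rel (J.π_rel T.inf) (Tame.Q_cast _)
    (y (T.σ T.inf)) (y (T.τ T.inf)))
  obtain ⟨G, hG, -, uG⟩ := exists_fo (PFourB_rel (s := (1 : Equiv.Perm Unit)) (t := 1)
    (Subsingleton.elim _ _) Nat.cast_one (y (T.σ T.inf)) (y (T.τ T.inf)))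
  replace uF := IsUnit.of_mul_eq_one _ ((sq _).symm.trans uF)
  replace uG := IsUnit.of_mul_eq_one _ ((sq _).symm.trans uG)
  obtain ⟨a1, r1, r2, a2, a3⟩ := PFourB_one L L2 hx hA hp h0 u0 hσ hτ hF uF hG uG
  obtain ⟨b1, s1, s2, b2, b3⟩ := PFourB_one L L2 hy hA' hp' h0 u0 rfl rfl hF uF hG uG
  refine ⟨?_, a1.trans b1.symm⟩
  have e : (T.q : O) ^ r1 * (T.q : O) ^ s2 = (T.q : O) ^ s1 * (T.q : O) ^ r2 := by
    rw [← pow_add, ← pow_add]
    congr 1
    omega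
  have e' := congrArg (rO 2) e
  refine ((((u0.mul uG).mul ((T.isUnit_q.pow r1).mul (T.isUnit_q.pow s2))).map
    (rO 2)).mul_left_inj).1 ?_
  simp only [map_mul] at a3 b3 e' ⊢
  linear_combination rO 2 ((T.q : O) ^ s2) * a3 - rO 2 ((T.q : O) ^ r2) * b3 -
    rO 2 p'.leadingCoeff * rO 2 p0.leadingCoeff * rO 2 G.leadingCoeff * e'

end JD

end Pool.Agent.Hyp
end

-- merged part: Pool.Agent.Work.MP_60d5ce_nt.Hy.PRecB
section
/-!
# The functional equation, second part  (task HY PRecB)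

* `mult_add`: `p' = p * ∏ v ∈ A' \ A, expand (dg v) (charpolyRev (mat x (σ v)))` (`eul_split`, `lf_loc`, `LF.unique`).  If a factor vanished at `qi T`, then `S t = Q • t` for some `t ≠ 0`
  (`Matrix.exists_mulVec_eq_zero_iff`), so `ee t ((S - 1) u) = 0` for all `u`: from `Q * ee t (S u) = ee (S t) (S u) = Q * ee t u`; but `det (S - 1) ≠ 0` by `loc_sg`, use the adjugate.
* `recip`: with `G = charpolyRev Ψ`, `G' = charpolyRev Ψ'`, `F = ∏ v ∈ Nd, expand (dg v) (charpolyRev (mat x (σ v)))`, `F'` the same for `(σ v)⁻¹`: `Rc (G * F) (G' * F')`, and the power sums of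
  `G' * F'` are those of `G * F` plus the term of `T.inf`, which is the same for `x` and `y`.  So `H = (G x * F x) * (G' y * F' y)` equals `(G' x * F' x) * (G y * F y)` (`LF.unique`), `Rc H H`, `Rc.self`,
  `Rc.mult`, `Rc.lead`, `mult_expand`, `node_par`; `leadingCoeff (F x) = leadingCoeff (F y)` (`cp_lead`, `det_sim`, `card_Ix`), `scale_lead`, `scale_mult`.
-/

namespace Pool.Agent.Hyp

open Pool.Agent.Lef

variable [Par]

open scoped Classical
open Pool.Agent.Quad Polynomial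

namespace JD

variable {W P : Type} [Group W] {T : Tame W P} {X : Type} [Fintype X] {J : JD T X}
  {x y : W → F2} {A A' : Finset P} {p p' : O[X]}

theorem PRecB_pow (hx : T.IsHom x) (g : W) (m : ℕ) :
    mat J.rep x (g ^ m) = mat J.rep x g ^ m := map_pow (CZ_hom hx) g m

theorem PRecB_lf (hx : T.IsHom x) (v : P) :
    LF (J.cS x v) (mat J.rep x (T.σ v)).charpolyRev :=
  (lf_cp _).congr fun n _ => by rw [cS, PRecB_pow hx]

theorem PRecB_lf' (hx : T.IsHom x) (v : P) :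
    LF (fun m => (mat J.rep x (T.σ v ^ m)⁻¹).trace) (mat J.rep x (T.σ v)⁻¹).charpolyRev :=
  (lf_cp _).congr fun n _ => by rw [← inv_pow, PRecB_pow hx]

omit [Par] in
theorem PRecB_ne {c : ℕ → O} {a : O[X]} (h : LF c a) : a ≠ 0 := fun e => by
  have h1 := h.coeff_zero
  rw [e, coeff_zero] at h1
  exact zero_ne_one h1

omit [Par] in
theorem PRecB_eval {I : Type} [Fintype I] [DecidableEq I] (M : Matrix I I O) (w : O) :
    M.charpolyRev.eval w = (1 - w • M).det := by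
  rw [Matrix.charpolyRev, ← coe_evalRingHom, RingHom.map_det]
  congr 1
  ext i j
  by_cases h : i = j <;> simp [h, mul_comm w]

theorem PRecB_root (h : J.Tw x A) {v : P} (hv : v ∉ A) :
    (expand O (T.dg v) (mat J.rep x (T.σ v)).charpolyRev).eval (qi T) ≠ 0 := by
  rw [expand_eval, PRecB_eval]
  intro h0
  obtain ⟨t, t0, ht⟩ := Matrix.exists_mulVec_eq_zero_iff.2 h0
  have hQ : (T.Q v : O) * qi T ^ T.dg v = 1 := by
    rw [Pre.Q, Nat.cast_pow, ← mul_pow, q_mul_qi, one_pow]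
  have hQ0 : (T.Q v : O) ≠ 0 := left_ne_zero_of_mul_eq_one hQ
  rw [Matrix.sub_mulVec, Matrix.one_mulVec, Matrix.smul_mulVec, sub_eq_zero] at ht
  have h1 : (mat J.rep x (T.σ v)).mulVec t = (T.Q v : O) • t := by
    conv_rhs => rw [ht, smul_smul, hQ, one_smul]
  have h2 : ∀ u, ee t ((mat J.rep x (T.σ v) - 1).mulVec u) = 0 := fun u => by
    have h3 := mat_symp (R := J.rep) (x := x) (T.σ v) t u
    rw [h1, ee_smul_left, Tame.cq_σ] at h3
    rw [Matrix.sub_mulVec, Matrix.one_mulVec, ee_sub_right, mul_left_cancel₀ hQ0 h3, sub_self]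
  have h4 : (mat J.rep x (T.σ v) - 1).det ≠ 0 := fun h5 => by
    obtain ⟨s, s0, hs⟩ := Matrix.exists_mulVec_eq_zero_iff.2 h5
    rw [Matrix.sub_mulVec, Matrix.one_mulVec, sub_eq_zero, mat, Matrix.smul_mulVec] at hs
    have h6 := congrArg (fun M => Matrix.mulVec M s) (h.mat_τ v hv)
    simp only [mat, Matrix.smul_mulVec, Matrix.one_mulVec] at h6
    exact s0 (J.loc_sg v _ _ s hs h6)
  refine t0 (eq_zero_of_ee' fun b => ?_)
  have h7 := h2 ((mat J.rep x (T.σ v) - 1).adjugate.mulVec b)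
  rw [Matrix.mulVec_mulVec, Matrix.mul_adjugate, Matrix.smul_mulVec, Matrix.one_mulVec,
    ee_smul_right] at h7
  exact (mul_eq_zero.1 h7).resolve_left h4

theorem mult_add (h : J.Tw x A) (hA : A ⊆ A') (hp : J.HasL x A p) (hp' : J.HasL x A' p') :
    p'.rootMultiplicity (qi T) = p.rootMultiplicity (qi T) := by
  have h1 := LF.mul hp (lf_loc (T := T) (A := A' \ A) fun v _ => PRecB_lf (J := J) h.hom v)
  have h2 := LF.unique hp' h1 fun n hn => by rw [eul_split hA _ hn]; ring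
  have h3 := PRecB_ne h1
  rw [h2, rootMultiplicity_mul h3, rootMultiplicity_eq_zero (x := qi T)
    (p := ∏ v ∈ A' \ A, expand O (T.dg v) (mat J.rep x (T.σ v)).charpolyRev), add_zero]
  rw [IsRoot.def, eval_prod]
  exact Finset.prod_ne_zero_iff.2 fun v hv => PRecB_root h (Finset.mem_sdiff.1 hv).2

variable (J) in
/-- the product of the local factors at the nodes -/
noncomputable def PRecB_F (x : W → F2) : O[X] :=
  ∏ v ∈ J.Nd, expand O (T.dg v) (mat J.rep x (T.σ v)).charpolyRev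

variable (J) in
/-- the local terms of the trace formula -/
noncomputable def PRecB_E (x : W → F2) (v : P) (m : ℕ) : O :=
  ∑ i ∈ Finset.range (T.Q v ^ m - 1), (mat J.rep x (T.σ v ^ m * T.τ v ^ i)⁻¹).trace

theorem PRecB_sum (hx : J.Ex x A) {n : ℕ} (hn : 0 < n) :
    lsum T A (J.PRecB_E x) n + lsum T J.Nd (fun v m => (mat J.rep x (T.σ v ^ m)⁻¹).trace) n =
      lsum T J.Nd (J.cS x) n + lsum T {T.inf} (J.PRecB_E x) n := by
  have h1 : lsum T A (J.PRecB_E x) n = lsum T J.A0 (J.PRecB_E x) n := by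
    refine (Finset.sum_subset (Finset.filter_subset_filter _ hx.sub) fun v h2 h3 => ?_).symm
    obtain ⟨h4, h5⟩ := Finset.mem_filter.1 h2
    have h6 : v ∉ J.A0 := fun h => h3 (Finset.mem_filter.2 ⟨h, h5⟩)
    rw [PRecB_E, E_ram hx.hom h6 (hx.ram v h4 h6), mul_zero]
  have h2 : lsum T J.A0 (J.PRecB_E x) n =
      lsum T {T.inf} (J.PRecB_E x) n + lsum T J.Nd (J.PRecB_E x) n := by
    simp only [lsum, Finset.sum_filter, A0, Finset.sum_insert J.inf_not, Finset.sum_singleton]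
  have h3 : lsum T J.Nd (J.PRecB_E x) n = lsum T J.Nd
      (fun v m => J.cS x v m - (mat J.rep x (T.σ v ^ m)⁻¹).trace) n :=
    lsum_congr (fun v hv m hm => E_node hx.hom hv (hx.nd v hv) hm) hn
  rw [h1, h2, h3]
  simp only [lsum, mul_sub, Finset.sum_sub_distrib]
  ring

theorem PRecB_data (L : LefAx T) (L2 : LefAx2 T) (hx : J.Ex x A) (hp : J.HasL x A p) :
    ∃ (G K : O[X]) (a : ℕ → O), p = G.comp (C (T.q : O) * Polynomial.X) ∧
      Rc (G * J.PRecB_F x) K ∧ LF a (G * J.PRecB_F x) ∧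
      LF (fun n => a n + lsum T {T.inf} (J.PRecB_E x) n) K := by
  obtain ⟨r, Ψ, Ψ', h1, h2, h3⟩ := exists_L L L2 hx.toTw
  refine ⟨Ψ.charpolyRev, Ψ'.charpolyRev *
      ∏ v ∈ J.Nd, expand O (T.dg v) (mat J.rep x (T.σ v)⁻¹).charpolyRev, _,
    LF.unique hp h2 fun _ _ => rfl,
    (rc_cp h1).mul (rc_prod _ fun v _ => (rc_cp ?_).expand (T.dg_pos v)),
    (lf_cp Ψ).mul (lf_loc fun v _ => PRecB_lf hx.hom v),
    ((lf_cp Ψ').mul (lf_loc fun v _ => PRecB_lf' hx.hom v)).congr fun n hn => ?_⟩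
  · rw [← mat_mul hx.hom, mul_inv_cancel, mat_one hx.hom]
  · have h4 := PRecB_sum hx hn
    have h5 : (Ψ' ^ n).trace = (Ψ ^ n).trace + lsum T A (J.PRecB_E x) n := h3 n hn
    linear_combination h5 + h4

theorem PRecB_lead (x y : W → F2) : (J.PRecB_F x).leadingCoeff = (J.PRecB_F y).leadingCoeff := by
  have h1 : ∀ (z : W → F2) (g : W), (mat J.rep z g).det = T.cq g ^ gg := fun z g =>
    det_sim (Units.isUnit _) (mat_symp g)
  have h2 : ∀ (z : W → F2) (g : W), (mat J.rep z g).det ≠ 0 := fun z g => by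
    rw [h1]
    exact pow_ne_zero _ (Units.ne_zero _)
  rw [PRecB_F, PRecB_F, leadingCoeff_prod, leadingCoeff_prod]
  refine Finset.prod_congr rfl fun v _ => ?_
  rw [leadingCoeff_expand (T.dg_pos v), leadingCoeff_expand (T.dg_pos v), (cp_lead (h2 x _)).2,
    (cp_lead (h2 y _)).2, h1, h1]

omit [Par] in
theorem PRecB_mult {ι : Type} (s : Finset ι) (f : ι → O[X]) (h : ∏ i ∈ s, f i ≠ 0) (u : O) :
    (∏ i ∈ s, f i).rootMultiplicity u = ∑ i ∈ s, (f i).rootMultiplicity u := by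
  induction s using Finset.induction_on with
  | empty => simp
  | insert i s hi ih =>
    rw [Finset.prod_insert hi] at h ⊢
    rw [Finset.sum_insert hi, rootMultiplicity_mul h, ih (right_ne_zero_of_mul h)]

theorem PRecB_par (hx : J.PRecB_F x ≠ 0) (hy : J.PRecB_F y ≠ 0) :
    (((J.PRecB_F x).rootMultiplicity 1 + (J.PRecB_F y).rootMultiplicity 1 : ℕ) : F2) =
      ∑ v ∈ J.Nd, (x (T.σ v) + y (T.σ v)) := by
  rw [PRecB_F, PRecB_F, PRecB_mult _ _ hx, PRecB_mult _ _ hy, ← Finset.sum_add_distrib,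
    Nat.cast_sum]
  refine Finset.sum_congr rfl fun v hv => ?_
  rw [mult_expand (T.dg_pos v), mult_expand (T.dg_pos v), node_par hv]

omit [Par] in
theorem PRecB_sg (n : ℕ) : sg (n : F2) = (-1) ^ n := by
  induction n with
  | zero => simp
  | succ n ih => rw [Nat.cast_succ, sg_add, ih, sg_one, pow_succ]

omit [Par] in
theorem PRecB_hom (hx : T.IsHom x) (hy : T.IsHom y) {g : W} (h : x g = y g) (m : ℕ) :
    x (g ^ m) = y (g ^ m) := by
  induction m with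
  | zero => rw [pow_zero, Tame.hom_one hx, Tame.hom_one hy]
  | succ m ih => rw [pow_succ, hx.2, hy.2, ih, h]

theorem PRecB_inf (hx : T.IsHom x) (hy : T.IsHom y) {v : P} (hσ : x (T.σ v) = y (T.σ v))
    (hτ : x (T.τ v) = y (T.τ v)) (m : ℕ) : J.PRecB_E x v m = J.PRecB_E y v m := by
  refine Finset.sum_congr rfl fun i _ => ?_
  have h1 : x (T.σ v ^ m * T.τ v ^ i) = y (T.σ v ^ m * T.τ v ^ i) := by
    rw [hx.2, hy.2, PRecB_hom hx hy hσ, PRecB_hom hx hy hτ]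
  have h2 := hx.2 (T.σ v ^ m * T.τ v ^ i) (T.σ v ^ m * T.τ v ^ i)⁻¹
  have h3 := hy.2 (T.σ v ^ m * T.τ v ^ i) (T.σ v ^ m * T.τ v ^ i)⁻¹
  rw [mul_inv_cancel, Tame.hom_one hx] at h2
  rw [mul_inv_cancel, Tame.hom_one hy] at h3
  have h4 : x (T.σ v ^ m * T.τ v ^ i)⁻¹ = y (T.σ v ^ m * T.τ v ^ i)⁻¹ := by
    linear_combination h3 - h2 - h1
  rw [mat, mat, h4]

theorem recip (L : LefAx T) (L2 : LefAx2 T) (hx : J.Ex x A) (hy : J.Ex y A')
    (hσ : x (T.σ T.inf) = y (T.σ T.inf)) (hτ : x (T.τ T.inf) = y (T.τ T.inf))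
    (hp : J.HasL x A p) (hp' : J.HasL y A' p') :
    p.leadingCoeff * (T.q : O) ^ p'.natDegree =
      sg ((p.rootMultiplicity (qi T) + p'.rootMultiplicity (qi T) : ℕ) +
        ∑ v ∈ J.Nd, (x (T.σ v) + y (T.σ v))) * (p'.leadingCoeff * (T.q : O) ^ p.natDegree) := by
  obtain ⟨G, K, a, rfl, r1, l1, l2⟩ := PRecB_data L L2 hx hp
  obtain ⟨G', K', a', rfl, r1', l1', l2'⟩ := PRecB_data L L2 hy hp'
  have hI : ∀ n, 0 < n → lsum T {T.inf} (J.PRecB_E x) n = lsum T {T.inf} (J.PRecB_E y) n :=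
    fun n hn => lsum_congr (fun v hv m _ => by
      rw [Finset.mem_singleton.1 hv]
      exact PRecB_inf hx.hom hy.hom hσ hτ m) hn
  have e : K * (G' * J.PRecB_F y) = G * J.PRecB_F x * K' :=
    LF.unique (l2.mul l1') (l1.mul l2') fun n hn => by rw [hI n hn]; ring
  have r2 := r1.mul r1'.symm
  rw [e] at r2
  have n1 := PRecB_ne l1
  have n1' := PRecB_ne l1'
  have h1 := r2.self
  rw [rootMultiplicity_mul (PRecB_ne (l1.mul l2')), r1'.mult, rootMultiplicity_mul n1,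
    rootMultiplicity_mul n1', leadingCoeff_mul, leadingCoeff_mul, add_add_add_comm, ← PRecB_sg,
    Nat.cast_add, PRecB_par (right_ne_zero_of_mul n1) (right_ne_zero_of_mul n1'),
    PRecB_lead x y] at h1
  have h2 := r1'.lead
  rw [leadingCoeff_mul] at h2
  have hq : (T.q : O) ≠ 0 := T.isUnit_q.ne_zero
  rw [scale_mult (q_mul_qi T), scale_mult (q_mul_qi T), (scale_lead hq G).1, (scale_lead hq G).2,
    (scale_lead hq G').1, (scale_lead hq G').2, ← h1]
  linear_combination (-((T.q : O) ^ G.natDegree * (T.q : O) ^ G'.natDegree * G.leadingCoeff)) * h2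

end JD

end Pool.Agent.Hyp
end

-- merged part: Pool.Agent.Work.MP_60d5ce_nt.Hy.PMain
section
/-!
# The parity of the order of vanishing  (task HY PMain)

* `parity`: `recip`, `four`, `lead_unit`; apply `rO 2`; `q ^ 2 = 1` in `ZMod 4`, units cancel, and `-1 ≠ 1` in `ZMod 4`.
* `lser_eq`: as `lser_poly` in `Lb/CPoly.lean` (`LD.map`, `LD.unique`, `eq_rootMultiplicity_map` twice).
* `half`: let `N r` be the number of `d ∈ C n` with `Z r d`.  Outside `B n` exactly one of `Z 0`, `Z 1` holds.  `β` is a bijection of the finite set `C n`; it maps `{Z r} \ (B ∪ β⁻¹ B)` into `{Z (1 - r)}`.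
  So `|2 * N r - #C| ≤ 3 * #B`.
-/

namespace Pool.Agent.Hyp

open Pool.Agent.Lef

open scoped Classical Topology
open Pool.Agent.Quad Polynomial Filter

theorem lser_eq {p : O[X]} {q : ℕ} {u : O} (hq : (q : O) * u = 1) (a : ℕ → ℤ) {c : ℕ → O}
    (h : ∀ n, (a n : O) = -c (n + 1)) (hp : LF c p) :
    ∃ P : ℚ[X], (PowerSeries.exp ℚ).subst
      (PowerSeries.X * PowerSeries.mk fun n => (a n : ℚ) / (n + 1)) = (P : PowerSeries ℚ) ∧
      P.rootMultiplicity (q : ℚ)⁻¹ = p.rootMultiplicity u := by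
  obtain ⟨Z, hZ⟩ : ∃ Z, Z = (PowerSeries.exp ℚ).subst
    (PowerSeries.X * PowerSeries.mk fun n => (a n : ℚ) / (n + 1)) := ⟨_, rfl⟩
  have h1 := (Lib.Dwork.ld_exp_subst
    (g := PowerSeries.X * PowerSeries.mk fun n => (a n : ℚ) / (n + 1)) (by simp)).map
    (algebraMap ℚ ℚ_[2])
  rw [← hZ] at h1 ⊢
  have h2 : PowerSeries.map (algebraMap ℚ ℚ_[2]) Z = p.map (algebraMap O ℚ_[2]) := by
    rw [polynomial_map_coe]
    refine h1.unique (Eq.subst (motive := fun w => Lib.Dwork.LD w _) ?_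
      (Lib.Dwork.LD.map (algebraMap O ℚ_[2]) hp))
    ext n
    rw [PowerSeries.coeff_map, PowerSeries.coeff_map, Lib.Dwork.coeff_X_mul_deriv, map_neg,
      PowerSeries.coeff_mk]
    cases n with
    | zero => simp
    | succ n =>
      rw [PowerSeries.coeff_succ_X_mul, PowerSeries.coeff_mk, if_neg n.succ_ne_zero, ← h,
        Nat.cast_succ, mul_div_cancel₀ _ (Nat.cast_add_one_ne_zero n), map_intCast, map_intCast]
  have h3 : ((PowerSeries.trunc ((p.map (algebraMap O ℚ_[2])).natDegree + 1) Z : ℚ[X]) :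
      PowerSeries ℚ) = Z := by
    ext n
    rw [coeff_coe, PowerSeries.coeff_trunc]
    split_ifs with e
    · rfl
    · refine (algebraMap ℚ ℚ_[2]).injective ?_
      rw [← PowerSeries.coeff_map, h2, coeff_coe, coeff_eq_zero_of_natDegree_lt (by omega), map_zero]
  refine ⟨_, h3.symm, ?_⟩
  have h4 := congrArg (algebraMap O ℚ_[2]) hq
  rw [map_mul, map_natCast, map_one] at h4
  rw [eq_rootMultiplicity_map (algebraMap ℚ ℚ_[2]).injective,
    coe_injective _ (polynomial_map_coe.trans ((congrArg _ h3).trans h2)), map_inv₀, map_natCast,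
    eq_rootMultiplicity_map (FaithfulSMul.algebraMap_injective O ℚ_[2]),
    eq_inv_of_mul_eq_one_right h4]

theorem PMain_cnt {α : Type} {C B : Set α} {Z Z' : α → Prop} {β : α → α} (hC : C.Finite)
    (h1 : Set.MapsTo β C C) (h2 : Set.InjOn β C)
    (h3 : ∀ d ∈ C, d ∉ B → β d ∉ B → Z d → Z' (β d)) :
    {d | d ∈ C ∧ Z d}.ncard ≤ {d | d ∈ C ∧ Z' d}.ncard + 2 * (B ∩ C).ncard := by
  have a1 : {d | d ∈ C ∧ d ∉ B ∧ β d ∉ B ∧ Z d}.ncard ≤ {d | d ∈ C ∧ Z' d}.ncard :=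
    Set.ncard_le_ncard_of_injOn β (fun d hd => ⟨h1 hd.1, h3 d hd.1 hd.2.1 hd.2.2.1 hd.2.2.2⟩)
      (h2.mono fun d hd => hd.1) (hC.subset fun d hd => hd.1)
  have a2 : {d | d ∈ C ∧ β d ∈ B}.ncard ≤ (B ∩ C).ncard :=
    Set.ncard_le_ncard_of_injOn β (fun d hd => ⟨hd.2, h1 hd.1⟩)
      (h2.mono fun d hd => hd.1) (hC.inter_of_right B)
  have a3 : {d | d ∈ C ∧ Z d}.ncard ≤
      ({d | d ∈ C ∧ d ∉ B ∧ β d ∉ B ∧ Z d} ∪ (B ∩ C ∪ {d | d ∈ C ∧ β d ∈ B})).ncard := by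
    refine Set.ncard_le_ncard (fun d hd => ?_) (hC.subset ?_)
    · by_cases e1 : d ∈ B
      · exact .inr (.inl ⟨e1, hd.1⟩)
      by_cases e2 : β d ∈ B
      · exact .inr (.inr ⟨hd.1, e2⟩)
      · exact .inl ⟨hd.1, e1, e2, hd.2⟩
    · rintro d (hd | hd | hd)
      exacts [hd.1, hd.2, hd.1]
  have a4 := Set.ncard_union_le {d | d ∈ C ∧ d ∉ B ∧ β d ∉ B ∧ Z d} (B ∩ C ∪ {d | d ∈ C ∧ β d ∈ B})
  have a5 := Set.ncard_union_le (B ∩ C) {d | d ∈ C ∧ β d ∈ B}
  omega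

theorem PMain_tot {α : Type} {C B : Set α} {Z Z' : α → Prop} (hC : C.Finite)
    (h1 : ∀ d, Z d → ¬ Z' d) (h2 : ∀ d ∈ C, d ∉ B → Z d ∨ Z' d) :
    {d | d ∈ C ∧ Z d}.ncard + {d | d ∈ C ∧ Z' d}.ncard ≤ C.ncard ∧
      C.ncard ≤ {d | d ∈ C ∧ Z d}.ncard + {d | d ∈ C ∧ Z' d}.ncard + (B ∩ C).ncard := by
  have f1 : {d | d ∈ C ∧ Z d}.Finite := hC.subset fun d hd => hd.1
  have f2 : {d | d ∈ C ∧ Z' d}.Finite := hC.subset fun d hd => hd.1
  rw [← Set.ncard_union_eq (Set.disjoint_left.2 fun d hd hd' => h1 d hd.2 hd'.2) f1 f2]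
  refine ⟨Set.ncard_le_ncard (Set.union_subset (fun d hd => hd.1) fun d hd => hd.1) hC,
    le_trans (Set.ncard_le_ncard (fun d hd => ?_) ((f1.union f2).union (hC.inter_of_right B)))
      (Set.ncard_union_le _ _)⟩
  by_cases e : d ∈ B
  · exact .inr ⟨e, hd⟩
  · exact .inl ((h2 d hd e).imp (fun h => ⟨hd, h⟩) fun h => ⟨hd, h⟩)

theorem half {α : Type} (C B : ℕ → Set α) (Z : ℕ → α → Prop) (β : α → α)
    (hC : ∀ n, (C n).Finite) (hZ : ∀ d r r', Z r d → Z r' d → r = r')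
    (hβ : ∀ᶠ n in atTop, (C n).Nonempty ∧ Set.MapsTo β (C n) (C n) ∧ Set.InjOn β (C n) ∧
      (∀ d ∈ C n, d ∉ B n → Z 0 d ∨ Z 1 d) ∧
      ∀ d ∈ C n, d ∉ B n → β d ∉ B n → ∀ r, Z r d → ¬ Z r (β d))
    (hB : ∀ ε : ℝ, 0 < ε → ∀ᶠ n in atTop, ((B n ∩ C n).ncard : ℝ) ≤ ε * (C n).ncard)
    {r : ℕ} (hr : r ≤ 1) :
    Tendsto (fun n => ({d | d ∈ C n ∧ Z r d}.ncard : ℝ) / ((C n).ncard : ℝ)) atTop (𝓝 (1 / 2)) := by
  refine Metric.tendsto_nhds.2 fun ε hε => ?_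
  filter_upwards [hβ, hB (ε / 2) (half_pos hε)] with n ⟨h0, h1, h2, h3, h4⟩ h5
  have a1 := PMain_cnt (hC n) h1 h2 (Z := Z 0) (Z' := Z 1) fun d hd e1 e2 e3 =>
    (h3 _ (h1 hd) e2).resolve_left (h4 d hd e1 e2 0 e3)
  have a2 := PMain_cnt (hC n) h1 h2 (Z := Z 1) (Z' := Z 0) fun d hd e1 e2 e3 =>
    (h3 _ (h1 hd) e2).resolve_right (h4 d hd e1 e2 1 e3)
  obtain ⟨a3, a4⟩ := PMain_tot (hC n) (fun d e1 e2 => zero_ne_one (hZ d 0 1 e1 e2)) h3
  have a5 : 2 * {d | d ∈ C n ∧ Z r d}.ncard ≤ (C n).ncard + 3 * (B n ∩ C n).ncard ∧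
      (C n).ncard ≤ 2 * {d | d ∈ C n ∧ Z r d}.ncard + 3 * (B n ∩ C n).ncard := by
    interval_cases r <;> omega
  have a6 : (0 : ℝ) < (C n).ncard := Nat.cast_pos.2 ((Set.ncard_pos (hC n)).2 h0)
  obtain ⟨b1, b2⟩ := a5
  rify at b1 b2
  have b3 := mul_pos hε a6
  rw [Real.dist_eq, abs_sub_lt_iff, sub_lt_iff_lt_add, div_lt_iff₀ a6, sub_lt_comm,
    lt_div_iff₀ a6]
  constructor <;> linarith

variable [Par] {W P : Type} [Group W] {T : Tame W P} {X : Type} [Fintype X] {J : JD T X}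
  {x y : W → F2} {A A' : Finset P} {p p' : O[X]}

theorem JD.parity (L : LefAx T) (L2 : LefAx2 T) (hx : J.Ex x A) (hy : J.Ex y A')
    (hA : (A \ J.A0).Nonempty) (hA' : (A' \ J.A0).Nonempty)
    (hσ : x (T.σ T.inf) = y (T.σ T.inf)) (hτ : x (T.τ T.inf) = y (T.τ T.inf))
    (hp : J.HasL x A p) (hp' : J.HasL y A' p') :
    ((p.rootMultiplicity (qi T) + p'.rootMultiplicity (qi T) : ℕ) : F2) =
      ∑ v ∈ J.Nd, (x (T.σ v) + y (T.σ v)) := by
  have h1 := congrArg (rO 2) (JD.recip L L2 hx hy hσ hτ hp hp')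
  obtain ⟨h2, h3⟩ := JD.four L L2 hx hy hA hA' hσ hτ hp hp'
  have h4 : rO 2 T.q ^ 2 = 1 :=
    (by decide : ∀ u v : ZMod (2 ^ 2), u * v = 1 → u ^ 2 = 1) _ (rO 2 (qi T))
      (by rw [← map_mul, q_mul_qi, map_one])
  have h5 := ((JD.lead_unit L L2 hx.toTw hp).mul (T.isUnit_q.pow p'.natDegree)).map (rO 2)
  rw [map_mul (rO 2) (sg _), map_mul (rO 2) p'.leadingCoeff, ← h2, map_pow, pow_eq_pow_mod _ h4, h3,
    ← pow_eq_pow_mod _ h4, ← map_pow, ← map_mul (rO 2) p.leadingCoeff, eq_comm,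
    h5.mul_eq_right] at h1
  rw [← sub_eq_zero, F2_sub]
  refine (F2_cases _).resolve_right fun e => ?_
  rw [e, sg_one, map_neg, map_one] at h1
  exact absurd h1 (by decide)

end Pool.Agent.Hyp
end

-- merged part: Pool.Agent.Work.MP_60d5ce_nt.Hy.Main
section
/-!
# Assembly  (task HY Main)

* `tw_full`, `ex_odd`: `xq_hom`, `xq_tau`, `mem_fac`, `mem_fac_iff`, `mult_mul`.  `zr_full`: `lser_eq` with `q_mul_qi`, `Cnt.eul_eq`, `sqr_spec`.  `zr_odd`: `exists_L` for the full set, `mult_add`, `zr_full`.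
* `zr_le`: `mult_le`, `kum_eq_xd`, `ram_xd`, `exists_L`, `zr_full`.
* `zr_beta`: `JD.parity` for `d` and `beta D u d`, `exists_L`, `zr_odd`, `Zr.unique`; `xq_inf` (`beta_deg`), `xq_fin`, `xq_mul` (`beta_dvd`); a place with odd multiplicity in `d` is not in `A0` since `d` is prime to the discriminant.
* `main_half`: `Ω = SeparableClosure (RatFunc k)` as in `Lb/Main.lean`; `half` with `C = Cn f.discr`, `B n = {d | ¬ ∀ m, Good ..} ∪ {d | ∀ v, Even (mult d v)}`; `good_density`, `sq_small`, `Pn_le_Cn`.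
-/

namespace Pool.Agent.Hyp

open scoped Classical Topology
open Polynomial Filter Pool.Agent.Quad Pool.Agent.Lef

variable {k : Type} [Field k] [Fintype k] {f : k[X][X]} {d : k[X]}

/-- the `L`-series is a polynomial that vanishes to order `r` at the central point -/
def Zr (F : ℕ → Type) [∀ n, Field (F n)] [∀ n, Algebra k (F n)] (f : k[X][X]) (r : ℕ) (d : k[X]) :
    Prop :=
  ∃ p : ℚ[X], LSer F f d = (p : PowerSeries ℚ) ∧ p.rootMultiplicity (Fintype.card k : ℚ)⁻¹ = r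

variable {F : ℕ → Type} [∀ n, Field (F n)] [∀ n, Algebra k (F n)]

theorem Zr.unique {r r' : ℕ} (h : Zr F f r d) (h' : Zr F f r' d) : r = r' := by
  obtain ⟨p, h1, rfl⟩ := h
  obtain ⟨p', h2, rfl⟩ := h'
  rw [Polynomial.coe_injective ℚ (h1.symm.trans h2)]

variable [Par]

section

variable {Ω : Type} [Field Ω] [Algebra (RatFunc k) Ω] [Algebra k Ω]
  [IsScalarTower k (RatFunc k) Ω] [IsSepClosure (RatFunc k) Ω]
  {h6 : ((mo : ℕ) : k) ≠ 0} {ℓ : Locs k Ω} {Z : Type} [Fintype Z] {J : JD (tame h6 ℓ) Z}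
  {p : O[X]}

/-- the exact set of bad places -/
noncomputable def JD.Ao (J : JD (tame h6 ℓ) Z) (d : k[X]) : Finset (Pl k) :=
  J.A0 ∪ (fac d).filter fun v => Odd (mult d v)

omit [Par] in
theorem Main_cop {D : k[X]} (hc : IsCoprime d D) {v : Pl k} (hv : v ≠ none) (h1 : pl v ∣ D) :
    ¬ pl v ∣ d := by
  obtain ⟨q, rfl⟩ := Option.ne_none_iff_exists'.1 hv
  exact fun h2 => q.2.2.not_isUnit (hc.isUnit_of_dvd' h2 h1)

theorem Main_A0 (hN : J.Nd = fac f.discr) {v : Pl k} :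
    v ∈ J.A0 ↔ v = none ∨ v ∈ fac f.discr := by
  rw [← hN, JD.A0]
  exact @Finset.mem_insert _ (Classical.decEq _) _ _ _

theorem Main_mul (hd : d ≠ 0) {D : k[X]} (hD : D ≠ 0) {v : Pl k} :
    v ∈ fac (d * D) ↔ v ∈ fac d ∨ v ∈ fac D := by
  rw [mem_fac (mul_ne_zero hd hD), mem_fac hd, mem_fac hD, mult_mul hd hD]
  omega


theorem tw_full (h : Pen f) (hN : J.Nd = fac f.discr) (hd : d ≠ 0) :
    J.Tw (xq d) (insert none (fac (d * f.discr))) := by
  refine ⟨xq_hom h6 ℓ hd, fun v hv => ?_, fun v hv => ?_⟩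
  · rw [Finset.mem_insert, Main_mul hd h.ne]
    exact ((Main_A0 hN).1 hv).imp_right Or.inr
  · rw [Finset.mem_insert, Main_mul hd h.ne, mem_fac hd, not_or, not_or, not_not] at hv
    refine (xq_tau h6 (ℓ v) hv.1 hd).trans ?_
    rw [hv.2.1, Nat.cast_zero]

theorem ex_odd (h : Pen f) (hN : J.Nd = fac f.discr) (hd : d ≠ 0) (hc : IsCoprime d f.discr) :
    J.Ex (xq d) (J.Ao d) := by
  refine ⟨⟨xq_hom h6 ℓ hd, Finset.subset_union_left, fun v hv => ?_⟩, fun v hv => ?_,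
    fun v hv h0 => ?_⟩
  · rw [JD.Ao, Finset.mem_union, Finset.mem_filter, Main_A0 hN, mem_fac hd, not_or, not_or] at hv
    refine (xq_tau h6 (ℓ v) hv.1.1 hd).trans (ZMod.natCast_eq_zero_iff_even.2 ?_)
    by_contra he
    have ho := Nat.not_even_iff_odd.1 he
    exact hv.2 ⟨ho.pos.ne', ho⟩
  · rw [hN, mem_fac_iff h.ne] at hv
    refine (xq_tau h6 (ℓ v) hv.1 hd).trans ?_
    have h1 : v ∉ fac d := fun e => Main_cop hc hv.1 hv.2 ((mem_fac_iff hd).1 e).2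
    rw [mem_fac hd, not_not] at h1
    rw [h1, Nat.cast_zero]
  · obtain ⟨h1, h2⟩ := Finset.mem_filter.1 ((Finset.mem_union.1 hv).resolve_left h0)
    exact (xq_tau h6 (ℓ v) ((mem_fac_iff hd).1 h1).1 hd).trans
      (ZMod.natCast_eq_one_iff_odd.2 h2)

theorem zr_full (h : Pen f) (hC : J.Cnt f) (hF : ∀ n, Module.finrank k (F n) = n + 1) (hd : d ≠ 0)
    (hp : J.HasL (xq d) (insert none (fac (d * f.discr))) p) :
    Zr F f (p.rootMultiplicity (qi (tame h6 ℓ))) d :=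
  lser_eq (q_mul_qi (tame h6 ℓ)) (fun n => frobSum (F n) f d) (fun n => by
    rw [neg_neg]
    exact hC.eul_eq (mul_ne_zero hd h.ne) (sqr_spec h6 _) n.succ_pos (hF n)) hp

theorem zr_odd (h : Pen f) (hN : J.Nd = fac f.discr) (hC : J.Cnt f)
    (hF : ∀ n, Module.finrank k (F n) = n + 1) (hd : d ≠ 0) (hc : IsCoprime d f.discr)
    (hp : J.HasL (xq d) (J.Ao d) p) : Zr F f (p.rootMultiplicity (qi (tame h6 ℓ))) d := by
  obtain ⟨r, Ψ, -, -, hp', -⟩ := J.exists_L (lefAx h6 ℓ) (lefAx2 h6 ℓ) (tw_full h hN hd)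
  rw [← J.mult_add (ex_odd h hN hd hc).toTw (fun v hv => ?_) hp hp']
  · exact zr_full h hC hF hd hp'
  · rcases Finset.mem_union.1 hv with e | e
    · exact (tw_full h hN hd).sub e
    · exact Finset.mem_insert_of_mem ((Main_mul hd h.ne).2 (Or.inl (Finset.mem_filter.1 e).1))

theorem zr_le (h : Pen f) (hN : J.Nd = fac f.discr) (hC : J.Cnt f)
    (hF : ∀ n, Module.finrank k (F n) = n + 1) : ∃ c0 : ℕ, ∀ d : k[X], d ≠ 0 →
      (∀ m, J.rep.Good (Ad J.rep d) (xd ℓ d m) c0) → Zr F f 0 d ∨ Zr F f 1 d := by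
  obtain ⟨c0, hc⟩ := J.mult_le (lefAx h6 ℓ)
  refine ⟨c0, fun d hd hG => ?_⟩
  obtain ⟨m, hm⟩ := kum_eq_xd h6 ℓ hd (sqr_spec h6 (bp Ω d))
  have he : xq d = xd ℓ d m := funext hm
  obtain ⟨r, Ψ, -, -, hp, -⟩ := J.exists_L (lefAx h6 ℓ) (lefAx2 h6 ℓ) (tw_full h hN hd)
  have h1 := hc (xq d) (Ad J.rep d) _ _ (he ▸ ram_xd J.rep hd m) (he ▸ hG m) (tw_full h hN hd) hp
  have h2 := zr_full h hC hF hd hp
  rcases Nat.le_one_iff_eq_zero_or_eq_one.1 h1 with e | e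
  · exact Or.inl (e ▸ h2)
  · exact Or.inr (e ▸ h2)

theorem Main_ne (h : Pen f) (hN : J.Nd = fac f.discr) (hd : d ≠ 0) (hc : IsCoprime d f.discr)
    (h1 : ¬ ∀ v, Even (mult d v)) : ∃ v, v ∈ J.Ao d ∧ v ∉ J.A0 := by
  obtain ⟨v, hv⟩ := not_forall.1 h1
  have ho := Nat.not_even_iff_odd.1 hv
  have hm := (mem_fac hd).2 ho.pos.ne'
  obtain ⟨k1, k2⟩ := (mem_fac_iff hd).1 hm
  refine ⟨v, Finset.mem_union_right _ (Finset.mem_filter.2 ⟨hm, ho⟩), ?_⟩
  rw [Main_A0 hN, mem_fac_iff h.ne]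
  rintro (e | e)
  · exact k1 e
  · exact Main_cop hc k1 e.2 k2


theorem zr_beta (h : Pen f) (hN : J.Nd = fac f.discr) (hC : J.Cnt f)
    (hF : ∀ n, Module.finrank k (F n) = n + 1) {u : k[X]} (hu : IsCoprime u f.discr)
    (hs : ∑ v ∈ fac f.discr, xq u (ℓ v).σ = 1) {n : ℕ} (hn : f.discr.natDegree ≤ n)
    (hd : d ∈ Cn f.discr n) (h1 : ¬ ∀ v, Even (mult d v))
    (h2 : ¬ ∀ v, Even (mult (beta f.discr u d) v)) {r : ℕ} (hr : Zr F f r d) :
    ¬ Zr F f r (beta f.discr u d) := by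
  intro hr'
  obtain ⟨d1, -, d3⟩ := beta_mem h.ne hu hn hd
  obtain ⟨d0, dn, dc⟩ := hd
  have e := ex_odd h hN d0 dc
  have e' := ex_odd h hN d1 d3
  obtain ⟨_, Ψ, -, -, hp, -⟩ := J.exists_L (lefAx h6 ℓ) (lefAx2 h6 ℓ) e.toTw
  obtain ⟨_, Ψ', -, -, hp', -⟩ := J.exists_L (lefAx h6 ℓ) (lefAx2 h6 ℓ) e'.toTw
  have hdeg : (beta f.discr u d - d).degree < d.degree := by
    refine (beta_deg h.ne u d).trans_le ?_
    rw [degree_eq_natDegree h.ne, degree_eq_natDegree d0, dn]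
    exact Nat.cast_le.2 hn
  obtain ⟨i1, i2⟩ := xq_inf h6 (ℓ none) hdeg
  have key := JD.parity (lefAx h6 ℓ) (lefAx2 h6 ℓ) e e'
    ((Main_ne h hN d0 dc h1).imp fun _ => (@Finset.mem_sdiff _ (Classical.decEq _) _ _ _).2)
    ((Main_ne h hN d1 d3 h2).imp fun _ => (@Finset.mem_sdiff _ (Classical.decEq _) _ _ _).2)
    i1.symm i2.symm hp hp'
  rw [(zr_odd h hN hC hF d0 dc hp).unique hr, (zr_odd h hN hC hF d1 d3 hp').unique hr', hN,
    Nat.cast_add, F2_add_self] at key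
  refine zero_ne_one (key.trans (Eq.trans (Finset.sum_congr rfl fun v hv => ?_) hs))
  obtain ⟨k1, k2⟩ := (mem_fac_iff h.ne).1 hv
  have u0 : u ≠ 0 := fun e0 => Main_cop hu k1 k2 (e0 ▸ dvd_zero _)
  have k3 := xq_fin h6 (ℓ v) k1 (Main_cop (hu.mul_left dc) k1 k2)
    (k2.trans (beta_dvd f.discr u d))
  change xq d (ℓ v).σ + xq (beta f.discr u d) (ℓ v).σ = _
  rw [k3, xq_mul h6 u0 d0, add_left_comm, F2_add_self, add_zero]

end

theorem main_half (h6 : ((mo : ℕ) : k) ≠ 0) (h : Pen f)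
    (hF : ∀ n, Module.finrank k (F n) = n + 1) {r : ℕ} (hr : r ≤ 1) :
    Tendsto (fun n => ({d | d ∈ Cn f.discr n ∧ Zr F f r d}.ncard : ℝ) /
      ((Cn f.discr n).ncard : ℝ)) atTop (𝓝 (1 / 2)) := by
  let : Algebra k (SeparableClosure (RatFunc k)) :=
    ((algebraMap (RatFunc k) (SeparableClosure (RatFunc k))).comp
      (algebraMap k (RatFunc k))).toAlgebra
  have : IsScalarTower k (RatFunc k) (SeparableClosure (RatFunc k)) :=
    IsScalarTower.of_algebraMap_eq fun _ => rfl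
  let ℓ : Locs k (SeparableClosure (RatFunc k)) := fun v => (exists_loc h6 v).some
  obtain ⟨Z, _, J, hN, hC⟩ := exists_jd h h6 ℓ
  obtain ⟨c0, hc⟩ := zr_le h hN hC hF
  obtain ⟨u, hu, hs⟩ := exists_u h6 ℓ h.sqf h.pos
  refine half (Cn f.discr) (fun _ => {d | ¬ ∀ m, J.rep.Good (Ad J.rep d) (xd ℓ d m) c0} ∪
    {d | ∀ v, Even (mult d v)}) (Zr F f) (beta f.discr u) (Cn_finite _)
    (fun _ _ _ => Zr.unique) ?_ (fun ε hε => ?_) hr
  · filter_upwards [eventually_ge_atTop f.discr.natDegree] with n hn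
    refine ⟨Cn_nonempty h.pos hn, beta_mem h.ne hu hn, (beta_inj hu).injOn, fun d hd hB => ?_,
      fun d hd hB hB' r hr => ?_⟩
    · exact hc d hd.1 (not_not.1 fun e => hB (Or.inl e))
    · exact zr_beta h hN hC hF hu hs hn hd (fun e => hB (Or.inr e)) (fun e => hB' (Or.inr e)) hr
  · have hq : (0 : ℝ) < (Fintype.card k : ℝ) ^ f.discr.natDegree :=
      pow_pos (Nat.cast_pos.2 Fintype.card_pos) _
    have hε' : 0 < ε / (2 * (Fintype.card k : ℝ) ^ f.discr.natDegree) := by positivity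
    filter_upwards [eventually_ge_atTop f.discr.natDegree, good_density h6 ℓ J.rep c0 hε',
      sq_small k hε'] with n hn h1 h2
    have h3 : ((Pn k n).ncard : ℝ) ≤
        (Fintype.card k : ℝ) ^ f.discr.natDegree * (Cn f.discr n).ncard := by
      exact_mod_cast Pn_le_Cn h.pos hn
    have h4 := (Set.ncard_le_ncard (s := ({d | ¬ ∀ m, J.rep.Good (Ad J.rep d) (xd ℓ d m) c0} ∪
        {d | ∀ v, Even (mult d v)}) ∩ Cn f.discr n)
      (t := {d | d ∈ Pn k n ∧ ¬ ∀ m, J.rep.Good (Ad J.rep d) (xd ℓ d m) c0} ∪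
        {d | d ∈ Pn k n ∧ ∀ v, Even (mult d v)})
      (fun d hd => hd.1.imp (fun e => ⟨⟨hd.2.1, hd.2.2.1⟩, e⟩) fun e => ⟨⟨hd.2.1, hd.2.2.1⟩, e⟩)
      ((Pn_finite n).subset fun d hd => hd.elim (·.1) (·.1))).trans (Set.ncard_union_le _ _)
    refine (Nat.cast_le.2 h4).trans ?_
    rw [Nat.cast_add]
    refine (add_le_add h1 h2).trans ?_
    have h5 := mul_le_mul_of_nonneg_left h3 hε'.le
    have h7 : ε / (2 * (Fintype.card k : ℝ) ^ f.discr.natDegree) *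
        ((Fintype.card k : ℝ) ^ f.discr.natDegree * (Cn f.discr n).ncard) * 2 =
        ε * (Cn f.discr n).ncard := by
      field_simp
    linarith

end Pool.Agent.Hyp
end

-- merged part: Pool.Agent.Work.MP_60d5ce_nt.Bs.Gm
section
/-!
# The points of the Jacobian of the twist over the separable closure as a Galois module
-/

namespace Pool.Agent.Hyp

open scoped Classical
open PR0 Polynomial Pool.Agent.Ell.AT Pool.Agent.Quad Pool.Agent.Lef Pool.Agent.Bs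

theorem TateI.transfer {I A A' A'' : Type} [Fintype I] [DecidableEq I] [AddCommGroup A]
    [AddCommGroup A'] [AddCommGroup A''] (B : TateI I A) (η : A →+ A') (ι : A'' →+ A')
    (hι : Function.Injective ι) (h1 : ∀ (j : ℕ) c, 2 ^ j • c = 0 → η c = 0 → c = 0)
    (h2 : ∀ (j : ℕ) y, 2 ^ j • y = 0 → ∃ z, ι z = y)
    (h3 : ∀ (j : ℕ) y, 2 ^ j • y = 0 → ∃ c, 2 ^ j • c = 0 ∧ η c = y) :
    ∃ B' : TateI I A'', ∀ j t, ι (B'.pt j t) = η (B.pt j t) := by
  choose p hp using fun j t => h2 j (η (B.pt j t)) (by rw [← map_nsmul, B.pow_smul_pt, map_zero])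
  refine ⟨⟨fun j => AddMonoidHom.mk' (p j) fun s t => hι (by simp only [map_add, hp]),
    fun j t => hι ?_, fun j t => ?_, fun j y hy => ?_⟩, hp⟩
  · rw [map_nsmul, AddMonoidHom.mk'_apply, AddMonoidHom.mk'_apply, hp, hp, ← map_nsmul, B.two]
  · rw [← B.ker, ← map_eq_zero_iff ι hι, AddMonoidHom.mk'_apply, hp]
    exact ⟨h1 j _ (B.pow_smul_pt j t), fun h => by rw [h, map_zero]⟩
  · obtain ⟨c, hc, e⟩ := h3 j (ι y) (by rw [← map_nsmul, hy, map_zero])
    obtain ⟨t, rfl⟩ := B.surj j c hc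
    exact ⟨t, hι ((hp j t).trans e)⟩

section

variable {F : Type} [Field F] {D : F[X]} {g : ℕ} {K L : Type} [Field K] [Field L] [Algebra F K]
  [Algebra F L]

theorem jm_map (φ : K →ₐ[F] L) :
    (D.map (algebraMap F K)).map (φ : K →+* L) = D.map (algebraMap F L) := by
  rw [Polynomial.map_map, φ.comp_algebraMap]

theorem jm_inj (H : Hy D g) (φ : K →ₐ[F] L) : Function.Injective (jmap D φ) :=
  (H.map _ rfl).pmap_injective _ _

theorem jm_fin (H : Hy D g) (y : Jac D K) :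
    ∃ S : Finset K, ∀ σ : K ≃ₐ[F] K, (∀ a ∈ S, σ a = a) ↔ jmap D σ.toAlgHom y = y := by
  obtain ⟨S, hS, -⟩ := (H.map (algebraMap F K) rfl).exists_coords y.toMul
  refine ⟨S, fun σ => ((hS K σ.toAlgHom (.id K) _ (jm_map _) map_id).symm.trans ?_)⟩
  rw [pmap_id]
  rfl

theorem jm_fixed (H : Hy D g) [IsGalois F K] {y : Jac D K}
    (h : ∀ σ : K ≃ₐ[F] K, jmap D σ.toAlgHom y = y) : ∃ z, jmap D (Algebra.ofId F K) z = y := by
  obtain ⟨S, h1, h2⟩ := (H.map (algebraMap F K) rfl).exists_coords y.toMul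
  refine (h2 F (Algebra.ofId F K) _ (jm_map _)).2 fun s hs =>
    (InfiniteGalois.mem_range_algebraMap_iff_fixed s).2 fun σ =>
      (h1 K σ.toAlgHom (.id K) _ (jm_map _) map_id).1 ?_ s hs
  rw [pmap_id]
  exact h σ

end

variable [Par] {k : Type} [Field k] [Fintype k] {f : k[X][X]} {d : k[X]} {Ω : Type} [Field Ω]
  [Algebra (RatFunc k) Ω] [Algebra k Ω] [IsScalarTower k (RatFunc k) Ω]
  [IsSepClosure (RatFunc k) Ω] {Z : Type} [Fintype Z] {h6 : ((mo : ℕ) : k) ≠ 0} {ℓ : Locs k Ω}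

/-- the polynomial of the twist -/
noncomputable abbrev twp (f : k[X][X]) (d : k[X]) : (RatFunc k)[X] :=
  (C d * f).map (algebraMap k[X] (RatFunc k))

omit [Fintype k] in
theorem hy_map (h6 : ((mo : ℕ) : k) ≠ 0) (h : Pen f) {K : Type} [Field K] (φ : k[X] →+* K)
    (h1 : φ d ≠ 0) (h2 : φ f.discr ≠ 0) : Hy ((C d * f).map φ) gg := by
  rw [Polynomial.map_mul, map_C]
  refine ⟨two_ne_of_six (six_ne_map (φ.comp C) h6), ?_, ?_⟩
  · exact (Rt_sep _ h.monic (by rw [h.deg]; omega) h2).unit_mul (isUnit_C.2 h1.isUnit)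
  · rw [natDegree_C_mul h1, h.monic.natDegree_map, h.deg]

omit [Fintype k] in
theorem hy_twp (h6 : ((mo : ℕ) : k) ≠ 0) (h : Pen f) (hd : d ≠ 0) : Hy (twp f d) gg :=
  hy_map h6 h _ (RatFunc.algebraMap_ne_zero hd) (RatFunc.algebraMap_ne_zero h.ne)

omit [Par] [Fintype k] [Algebra k Ω] [IsScalarTower k (RatFunc k) Ω] in
theorem jm_insep {D : (RatFunc k)[X]} {g : ℕ} (H : Hy D g) {y : Jac D (Fb Ω)} {j : ℕ}
    {z : Jac D Ω} (h : jmap D (IsScalarTower.toAlgHom (RatFunc k) Ω (Fb Ω)) z = 2 ^ j • y) :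
    ∃ z, jmap D (IsScalarTower.toAlgHom (RatFunc k) Ω (Fb Ω)) z = y := by
  obtain ⟨p, hp⟩ := ExpChar.exists Ω
  have := expChar_of_injective_algebraMap (algebraMap Ω (Fb Ω)).injective p
  have := IsSepClosure.sep_closed (RatFunc k) (K := Ω)
  have : IsPurelyInseparable Ω (Fb Ω) := Algebra.IsAlgebraic.isPurelyInseparable_of_isSepClosed
  exact (H.map _ rfl).mem_range_of_two_pow _ _ p (fun a => IsPurelyInseparable.pow_mem Ω p a)
    ⟨z, h⟩

theorem Gc.exists_gm {r : Rts Ω f Z} (G : Gc r) (h : Pen f) (hd : d ≠ 0) {R : Rep (tame h6 ℓ)}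
    (hR : R.ρ = G.ρ) : (∀ y : Jac (twp f d) Ω, ∃ z, 2 • z = y) ∧
      ∃ M : GM R (xq d) (Jac (twp f d) Ω), ∀ g, M.a g = jmap _ (gal g).toAlgHom := by
  have H := hy_twp h6 h hd
  have hδ := sqr_spec h6 (bp Ω d)
  have hδ0 := EKum_ne (Ω := Ω) h6 hd
  obtain ⟨η, h1, h2, h3⟩ := G.C.exists_eta (δ := algebraMap Ω (Fb Ω) (sqr (bp Ω d)))
    (D := (twp f d).map (algebraMap (RatFunc k) (Fb Ω))) (fun b => by
      by_cases hb : G.C.f.IsRoot b
      · obtain ⟨i, rfl⟩ := G.spt.of_root hb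
        exact (G.spt.mult i).le
      · exact (rootMultiplicity_eq_zero hb).trans_le zero_le_one)
    ((_root_.map_ne_zero _).2 hδ0) (by
      rw [← map_pow, hδ, G.spt.eq, IsScalarTower.algebraMap_eq (RatFunc k) Ω, ← Polynomial.map_map,
        twp, Polynomial.map_map (algebraMap k[X] _), Polynomial.map_mul, map_C,
        ← bp, r.eq, Polynomial.map_mul, map_C, Polynomial.map_prod]
      simp)
  have h4 : ∀ (j : ℕ) E, 2 ^ j • cl (𝕜 := Fb Ω) (L := G.L) E = 0 → dg E = 0 := fun j E =>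
    dg_of_tors (pow_ne_zero j two_ne_zero)
  constructor
  · intro y
    obtain ⟨E, e1, e2⟩ := h1 (jmap _ (IsScalarTower.toAlgHom (RatFunc k) Ω (Fb Ω)) y)
    obtain ⟨a, E', -, e3⟩ := pic_div (N := 2) G.C.three_ne e1
    have e4 := congrArg (fun E => η (cl E)) e3
    simp only [cl_dv, map_zero, map_add, map_nsmul, e2] at e4
    obtain ⟨z, hz⟩ := jm_insep H (j := 1) (y := -η (cl E')) (z := y) (by
      rw [pow_one, smul_neg]
      exact eq_neg_of_add_eq_zero_left e4.symm)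
    exact ⟨z, jm_inj H _ (by
      rw [map_nsmul, hz, smul_neg]
      exact (eq_neg_of_add_eq_zero_left e4.symm).symm)⟩
  obtain ⟨B, hB⟩ := G.B.transfer η _ (jm_inj H (IsScalarTower.toAlgHom (RatFunc k) Ω (Fb Ω)))
    (fun j c hc e => by
      obtain ⟨E, rfl⟩ := cl_surj c
      exact h2 E (h4 j E hc) e) (fun j y hy => jm_insep H (z := 0) (by rw [hy, map_zero]))
    fun j y hy => by
      obtain ⟨E, e1, rfl⟩ := h1 y
      refine ⟨_, ?_, rfl⟩
      rw [← map_nsmul]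
      refine h2 _ ?_ (by rw [map_nsmul, map_nsmul, hy])
      rw [← natCast_zsmul, dg_smul, e1, mul_zero]
  refine ⟨⟨B, fun g => jmap _ (gal g).toAlgHom, fun g j t =>
    jm_inj H (IsScalarTower.toAlgHom (RatFunc k) Ω (Fb Ω)) ?_⟩, fun _ => rfl⟩
  let ψ : Fb Ω →ₐ[RatFunc k] Fb Ω := ⟨psi k Ω (gal g), psi_base (gal g)⟩
  have e1 := kum_spec h6 hδ0 (EKum_gal h6 d (gal g))
  rw [hB, jm_sq (gal g).toAlgHom _ (IsScalarTower.toAlgHom (RatFunc k) Ω (Fb Ω)) ψ
    fun x => (psi_alg (gal g) x).symm, hB, Lat.act, hR]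
  change _ = η (G.B.pt j (sg (kum _ _) • _))
  rcases F2_cases (kum (sqr (bp Ω d)) (gal g)) with e | e <;> rw [e] at e1 ⊢
  · rw [sg_zero, one_smul, ← G.ρ_pt]
    refine h3 (G.act g) ψ _ (fun a => by rw [G.act_c]; rfl) (G.act_x g) ?_ _
    rw [map_mul, sl_const, G.act_y, G.act_c, psi_alg, e1, ZMod.val_zero, pow_zero, one_mul]
  · rw [sg_one, neg_smul, one_smul, map_neg, ← G.ρ_pt, ← map_neg,
      ← Cub.s_neg (C := G.C) ⟨j, G.B.pow_smul_pt j t⟩, ← pa_mul]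
    refine h3 (G.act g * G.C.s) ψ _ (fun a => by rw [map_mul, G.C.s_c, mul_one, G.act_c]; rfl)
      (by rw [phi_mul, G.C.s_x, G.act_x]) ?_ _
    rw [phi_mul, map_mul, G.C.s_const, G.C.s_y, G.C.hω.eq_neg_one_of_two_right, map_mul, map_mul,
      sl_const, sl_const, G.act_y, G.act_c, psi_alg, e1, ZMod.val_one]
    simp

end Pool.Agent.Hyp
end

-- merged part: Pool.Agent.Work.MP_60d5ce_nt.Bs.HNor
section
/-!
# The product formula and the Northcott property for `k(t)`, through valuation subrings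
-/

namespace Pool.Agent.Bs

open Polynomial

theorem HNor_int {S K : Type} [CommRing S] [Field K] [Algebra S K] {y : K} :
    IsIntegral S y ↔ ∀ O : ValuationSubring K, (∀ s, algebraMap S K s ∈ O) → y ∈ O := by
  constructor
  · rintro ⟨p, hm, hp⟩ O hO
    have h : IsIntegral O y := ⟨p.map ((algebraMap S K).codRestrict O hO), hm.map _, by
      rw [eval₂_map]; exact hp⟩
    obtain ⟨z, rfl⟩ := IsIntegrallyClosed.isIntegral_iff.1 h
    exact z.2
  · intro h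
    by_contra hy
    obtain ⟨O, h1, h2⟩ := Subring.exists_le_valuationSubring_of_isIntegrallyClosedIn
      (R := (integralClosure S K).toSubring) hy
    exact h2 (h O fun s => h1 ((integralClosure S K).algebraMap_mem s))

theorem HNor_bdd {F K : Type} [Field F] [Field K] [Algebra F K] [Algebra.IsAlgebraic F K]
    (S : Type) [CommRing S] [IsDomain S] [Algebra S F] [IsFractionRing S F] (x : K) :
    ∃ δ : F, δ ≠ 0 ∧ ∀ O : ValuationSubring K, (∀ s : S, algebraMap F K (algebraMap S F s) ∈ O) →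
      algebraMap F K δ ∈ O ∧ algebraMap F K δ * x ∈ O := by
  let _ : Algebra S K := ((algebraMap F K).comp (algebraMap S F)).toAlgebra
  have : IsScalarTower S F K := IsScalarTower.of_algebraMap_eq fun _ => rfl
  obtain ⟨d, hd, h⟩ := ((IsFractionRing.isAlgebraic_iff S F K).2
    (Algebra.IsAlgebraic.isAlgebraic x)).exists_integral_multiple
  refine ⟨algebraMap S F d, by simpa using hd, fun O hO => ⟨hO d, ?_⟩⟩
  rw [Algebra.smul_def] at h
  exact HNor_int.1 h O hO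

theorem HNor_prim {A F : Type} [CommRing A] [IsDomain A] [IsPrincipalIdealRing A] [Field F]
    [Algebra A F] [IsFractionRing A F] {U : F[X]} (hU : U ≠ 0) :
    ∃ (p : A[X]) (l : F), l ≠ 0 ∧ p.map (algebraMap A F) = C l * U ∧
      ∀ J : Ideal A, (∀ i, p.coeff i ∈ J) → J = ⊤ := by
  classical
  obtain ⟨_⟩ : Nonempty (NormalizedGCDMonoid A) := inferInstance
  obtain ⟨b, hb, e⟩ := IsLocalization.integerNormalization_spec (nonZeroDivisors A) U
  generalize IsLocalization.integerNormalization (nonZeroDivisors A) U = q at e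
  have hb' : algebraMap A F b ≠ 0 := by simpa using nonZeroDivisors.ne_zero hb
  rw [← algebraMap_smul F, smul_eq_C_mul] at e
  have hc : algebraMap A F q.content ≠ 0 := by
    rw [Ne, FaithfulSMul.algebraMap_eq_zero_iff, content_eq_zero_iff]
    rintro rfl
    rw [Polynomial.map_zero] at e
    exact mul_ne_zero (C_ne_zero.2 hb') hU e.symm
  refine ⟨q.primPart, (algebraMap A F q.content)⁻¹ * algebraMap A F b,
    mul_ne_zero (inv_ne_zero hc) hb', ?_, fun J hJ => ?_⟩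
  · have e' := congrArg (Polynomial.map (algebraMap A F)) q.eq_C_content_mul_primPart
    rw [Polynomial.map_mul, map_C] at e'
    rw [C_mul, mul_assoc, ← e, e', ← mul_assoc, ← C_mul, inv_mul_cancel₀ hc, C_1, one_mul]
  · obtain ⟨r, rfl⟩ := (IsPrincipalIdealRing.principal J).principal
    exact Ideal.span_singleton_eq_top.2 (q.isPrimitive_primPart r
      ((C_dvd_iff_dvd_coeff _ _).2 fun i => Ideal.mem_span_singleton.1 (hJ i)))

theorem HNor_fin (k : Type) [Field k] [Finite k] (c : ℕ) : {q : k[X] | q.natDegree ≤ c}.Finite :=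
  Set.Finite.of_finite_image (f := fun q (i : Fin (c + 1)) => q.coeff i) (Set.toFinite _)
    fun _ hx _ hy e => (ext_iff_natDegree_le hx hy).2 fun i hi =>
      congrFun e ⟨i, Nat.lt_succ_of_le hi⟩

theorem northcott (k : Type) [Field k] [Finite k] (K : Type) [Field K] [Algebra (RatFunc k) K]
    [Algebra.IsAlgebraic (RatFunc k) K] (g : ℕ) (P : ValuationSubring K → RatFunc k → Prop)
    (hP : ∀ 𝒱 : Set (ValuationSubring K), (∀ x : K, ∃ δ : RatFunc k, δ ≠ 0 ∧ ∀ O ∈ 𝒱,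
      algebraMap _ K δ ∈ O ∧ algebraMap _ K δ * x ∈ O) → ∃ κ, κ ≠ 0 ∧ ∀ O ∈ 𝒱, P O κ) :
    ∃ Z : Set K, Z.Finite ∧ ∀ (U : (RatFunc k)[X]) (x : RatFunc k) (m : ℕ), U.Monic →
      U.natDegree ≤ g → x ≠ 0 → 0 < m →
      (∀ O κ, P O κ → ∀ i, algebraMap _ K (x * (κ * U.coeff i) ^ m) ∈ O) →
      ∀ a ∈ (U.map (algebraMap _ K)).roots, a ∈ Z := by
  classical
  let φ : k[X] →+* K := (algebraMap (RatFunc k) K).comp (algebraMap k[X] (RatFunc k))
  obtain ⟨κ₁, h₁, H₁⟩ := hP {O | ∀ s, φ s ∈ O} (HNor_bdd k[X])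
  obtain ⟨O, hO⟩ : ∃ O : ValuationSubring K, algebraMap (RatFunc k) K RatFunc.X ∉ O := by
    let _ : Algebra k K := ((algebraMap (RatFunc k) K).comp (algebraMap k (RatFunc k))).toAlgebra
    have : IsScalarTower k (RatFunc k) K := IsScalarTower.of_algebraMap_eq fun _ => rfl
    by_contra h
    exact (transcendental_algebraMap_iff (algebraMap (RatFunc k) K).injective).2
      RatFunc.transcendental_X (HNor_int.2 fun O _ => not_not.1 fun e => h ⟨O, e⟩).isAlgebraic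
  obtain ⟨κ₂, h₂, H₂⟩ := hP {O} fun x => by
    obtain ⟨δ, h0, h⟩ := HNor_bdd (F := RatFunc k) (O.comap (algebraMap (RatFunc k) K)) x
    exact ⟨δ, h0, fun O' e => e ▸ h O fun s => s.2⟩
  let w := O.valuation.comap (algebraMap (RatFunc k) K)
  have hw : 1 < w RatFunc.X := not_le.1 fun e => hO ((O.valuation_le_one_iff _).1 e)
  have hv : ∀ p : k[X], p ≠ 0 →
      w (algebraMap k[X] (RatFunc k) p) = w RatFunc.X ^ p.natDegree := fun p hp =>
    valuation_eq_valuation_X_pow_natDegree_of_one_lt_valuation_X k hw hp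
  have hv1 : ∀ p : k[X], p ≠ 0 → 1 ≤ w (algebraMap k[X] (RatFunc k) p) := fun p hp =>
    hv p hp ▸ one_le_pow₀ hw.le
  refine ⟨_, bUnion_roots_finite φ g (HNor_fin k (κ₁ / κ₂).num.natDegree),
    fun U x m hU hg hx hm h a ha => ?_⟩
  obtain ⟨p, l, hl, e, hp⟩ := HNor_prim (A := k[X]) hU.ne_zero
  have ec : ∀ i, algebraMap k[X] (RatFunc k) (p.coeff i) = l * U.coeff i := fun i => by
    rw [← coeff_map, e, coeff_C_mul]
  have hY : ∃ y : k[X], algebraMap k[X] (RatFunc k) y = x * (κ₁ / l) ^ m := by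
    let _ : Algebra k[X] K := φ.toAlgebra
    have : IsScalarTower k[X] (RatFunc k) K := IsScalarTower.of_algebraMap_eq fun _ => rfl
    refine IsIntegrallyClosed.isIntegral_iff.1 ((isIntegral_algebraMap_iff
      (algebraMap (RatFunc k) K).injective).1 (HNor_int.2 fun O' hO' => ?_))
    obtain ⟨i, hi⟩ : ∃ i, IsUnit (φ.codRestrict O' hO' (p.coeff i)) := by
      by_contra hn
      exact Ideal.comap_ne_top _ (IsLocalRing.maximalIdeal.isMaximal O').ne_top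
        (hp ((IsLocalRing.maximalIdeal O').comap (φ.codRestrict O' hO')) fun i e => hn ⟨i, e⟩)
    obtain ⟨z, hz⟩ := hi.exists_right_inv
    have hz' : φ (p.coeff i) * z = 1 := congrArg Subtype.val hz
    have := O'.mul_mem _ _ (h O' κ₁ (H₁ O' hO') i) (pow_mem z.2 m)
    rwa [show x * (κ₁ * U.coeff i) ^ m = x * (κ₁ / l) ^ m *
        algebraMap k[X] (RatFunc k) (p.coeff i) ^ m by
      rw [ec, mul_assoc, ← mul_pow, ← mul_assoc, div_mul_cancel₀ _ hl], map_mul, map_pow, mul_assoc,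
      ← mul_pow, show algebraMap (RatFunc k) K (algebraMap k[X] (RatFunc k) (p.coeff i)) * z = 1
        from hz', one_pow, mul_one] at this
  obtain ⟨y, hy⟩ := hY
  have y0 : y ≠ 0 := by
    rintro rfl
    exact mul_ne_zero hx (pow_ne_zero m (div_ne_zero h₁ hl)) (by rw [← hy, map_zero])
  simp only [Set.mem_iUnion, Finset.mem_coe, Multiset.mem_toFinset]
  refine ⟨p, ⟨?_, fun i => ?_⟩, ?_⟩
  · rwa [← natDegree_map_eq_of_injective (IsFractionRing.injective k[X] (RatFunc k)), e,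
      natDegree_C_mul hl]
  · by_cases h0 : p.coeff i = 0
    · rw [h0]; exact Nat.zero_le _
    have k1 : w (x * (κ₂ * U.coeff i) ^ m) ≤ 1 :=
      (O.valuation_le_one_iff _).2 (h O κ₂ (H₂ O rfl) i)
    rw [show x * (κ₂ * U.coeff i) ^ m = algebraMap k[X] (RatFunc k) y *
        (algebraMap k[X] (RatFunc k) (p.coeff i) / (κ₁ / κ₂)) ^ m by
      rw [hy, ec, mul_assoc, ← mul_pow]
      congr 2
      field_simp, map_mul, map_pow] at k1
    have k2 := (pow_le_one_iff_of_nonneg zero_le hm.ne').1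
      ((le_mul_of_one_le_left' (hv1 y y0)).trans k1)
    have n0 := RatFunc.num_ne_zero (div_ne_zero h₁ h₂)
    rw [← RatFunc.num_div_denom (κ₁ / κ₂), div_div_eq_mul_div, map_div₀, map_mul,
      div_le_one₀ (zero_lt_one.trans_le (hv1 _ n0))] at k2
    have k3 := (le_mul_of_one_le_right' (hv1 _ (RatFunc.denom_ne_zero _))).trans k2
    rwa [hv _ h0, hv _ n0, pow_le_pow_iff_right₀ hw] at k3
  · rwa [← Polynomial.map_map, e, Polynomial.map_mul, map_C, roots_C_mul _ (by simpa using hl)]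

end Pool.Agent.Bs
end

-- merged part: Pool.Agent.Work.MP_60d5ce_nt.Bs.HFin
section
/-!
# Finiteness of the classes `R` with `m R = Q`, over `F_q(t)`
-/

namespace Pool.Agent.Bs

open Polynomial CommRing QuadraticAlgebra

theorem arith {Γ : Type} [LinearOrderedCommGroupWithZero Γ] {B k L L₁ L₂ c G : Γ} {g r M j : ℕ}
    (hk : k ≤ 1) (hL : 1 ≤ L) (h1 : k ^ g * L₁ ≤ 1) (h2 : k ^ g * L₂ ≤ 1) (hr : r ≤ g)
    (hM : M ≤ g * (j + g) + g) (hj : g + 1 ≤ j)
    (h : B ^ 2 * (k ^ r * L ^ (2 * g + 1)) ^ (j + g) ≤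
      (c * ((L₁ * L) ^ (j + g) * L₂)) ^ r * L ^ M * G ^ (j + g)) :
    B ^ 2 * (k ^ (2 * g + 4 * g ^ 2) * L) ^ j ≤ c ^ r * G ^ (j + g) := by
  have L0 : 0 < L ^ ((j + g) * r + M) := pow_pos (zero_lt_one.trans_le hL) _
  refine le_of_mul_le_mul_right ?_ L0
  have e1 : r * (j + g) + g * (j + g + 1) * r ≤ (2 * g + 4 * g ^ 2) * j := by
    calc _ ≤ g * (2 * j) + g * (4 * j) * g := by gcongr <;> omega
      _ = _ := by ring
  have e2 : j + ((j + g) * r + M) ≤ (2 * g + 1) * (j + g) := by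
    calc _ ≤ j + ((j + g) * g + (g * (j + g) + g)) := by gcongr
      _ = _ := by ring
  calc _ = B ^ 2 * (k ^ ((2 * g + 4 * g ^ 2) * j) * L ^ (j + ((j + g) * r + M))) := by
        rw [mul_pow, ← pow_mul, pow_add L j]; simp only [mul_assoc]
    _ ≤ B ^ 2 * (k ^ (r * (j + g) + g * (j + g + 1) * r) * L ^ ((2 * g + 1) * (j + g))) :=
        mul_le_mul' le_rfl (mul_le_mul' (pow_le_pow_right_of_le_one' hk e1)
          (pow_le_pow_right' hL e2))
    _ = B ^ 2 * (k ^ r * L ^ (2 * g + 1)) ^ (j + g) * ((k ^ g) ^ (j + g) * k ^ g) ^ r := by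
        rw [pow_add k, mul_pow, ← pow_mul, ← pow_mul, ← pow_succ, ← pow_mul, ← pow_mul,
          ← mul_assoc g]
        simp only [mul_assoc, mul_comm, mul_left_comm]
    _ ≤ _ := mul_le_mul' h le_rfl
    _ = c ^ r * G ^ (j + g) * L ^ ((j + g) * r + M) *
        ((k ^ g * L₁) ^ (j + g) * (k ^ g * L₂)) ^ r := by
        rw [pow_add L, pow_mul L]
        simp only [mul_pow, mul_assoc, mul_comm, mul_left_comm]
    _ ≤ _ := mul_le_of_le_one_right' (pow_le_one' (mul_le_one' (pow_le_one' h1 _) h2) _)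

variable {F K : Type} [Field F] [Field K] {D : F[X]} {g : ℕ}

theorem split_coprime (W : F[X]) (n : ℕ) : ∀ U : F[X], U.Monic → U.natDegree = n →
    ∃ U₁ U₂ : F[X], U = U₁ * U₂ ∧ U₂.Monic ∧ IsCoprime U₂ W ∧ U₁ ∣ W ^ n := by
  classical
  induction n using Nat.strong_induction_on with
  | _ n ih =>
  intro U hU hn
  by_cases h : IsCoprime U W
  · exact ⟨1, U, (one_mul U).symm, hU, h, one_dvd _⟩
  obtain ⟨U', e⟩ := gcd_dvd_left U W
  have hm : (gcd U W).Monic := by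
    rw [← normalize_gcd]; exact monic_normalize (gcd_ne_zero_of_left hU.ne_zero)
  have hU' : U'.Monic := hm.of_mul_monic_left (e ▸ hU)
  have hd : (gcd U W).natDegree ≠ 0 := fun h0 =>
    h ((gcd_isUnit_iff U W).mp (hm.natDegree_eq_zero.mp h0 ▸ isUnit_one))
  have hs : U.natDegree = (gcd U W).natDegree + U'.natDegree := by
    rw [← hm.natDegree_mul hU', ← e]
  obtain ⟨U₁, U₂, e', m, c, d⟩ := ih U'.natDegree (by omega) U' hU' rfl
  refine ⟨gcd U W * U₁, U₂, by rw [mul_assoc, ← e', ← e], m, c, ?_⟩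
  refine (mul_dvd_mul (gcd_dvd_right U W) d).trans ?_
  rw [← pow_succ']
  exact pow_dvd_pow _ (by omega)

theorem rat_prod [IsAlgClosed K] (ι : F →+* K) {U : F[X]} (hU : U.Monic) (G : F[X]) :
    ∃ β : F, ι β = ((U.map ι).roots.map (G.map ι).eval).prod := by
  refine ⟨resultant U G U.natDegree G.natDegree, ?_⟩
  rw [← resultant_map_map, ← natDegree_map ι (p := U),
    resultant_eq_prod_eval _ _ _ natDegree_map_le (IsAlgClosed.splits _), (hU.map ι).leadingCoeff,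
    one_pow, one_mul]

/-- Evaluation at a point. -/
noncomputable def ev {D : K[X]} {a b : K} (h : b ^ 2 = D.eval a) : Crd D →+* K where
  toFun z := z.re.eval a + b * z.im.eval a
  map_one' := by simp
  map_mul' z w := by
    simp
    linear_combination (-z.im.eval a * w.im.eval a) * h
  map_zero' := by simp
  map_add' z w := by simp; ring

theorem lam_le (O : ValuationSubring K) {κ : K} (hκ : κ ∈ O) {s : Multiset K} (hs : s.card ≤ g)
    (h : ∀ a ∈ s, κ * a ∈ O) :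
    O.valuation κ ^ g * (s.map fun a => max 1 (O.valuation a)).prod ≤ 1 := by
  have k1 := (O.valuation_le_one_iff _).mpr hκ
  refine (mul_le_mul' (pow_le_pow_right_of_le_one' k1 hs) le_rfl).trans ?_
  rw [← Multiset.prod_replicate, ← Multiset.map_const', ← Multiset.prod_map_mul]
  refine (Multiset.prod_map_le_prod_map _ (fun _ => 1) fun a ha => ?_).trans (by simp)
  rw [mul_max, mul_one, ← map_mul]
  exact max_le k1 ((O.valuation_le_one_iff _).mpr (h a ha))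

theorem Hy.data [IsAlgClosed K] (ι : F →+* K) (H : Hy D g) {Q R : Pic (Crd D)} {U V U' V' : F[X]}
    (rQ : Rep D g Q U' V') (r : Rep D g R U V) {j : ℕ} (hj : g + 1 ≤ j) (h : R ^ (j + g) = Q) :
    ∃ (U₂ : F[X]) (x : F), U₂.Monic ∧ U₂.natDegree ≤ g ∧ x ≠ 0 ∧
      (∀ a ∈ (U.map ι).roots, a ∈ ((D * U').map ι).roots ∨ a ∈ (U₂.map ι).roots) ∧
      ∀ (O : ValuationSubring K) (κ : F), ι κ ∈ O → (∀ a ∈ ((D * U').map ι).roots, ι κ * a ∈ O) →
        Good (D.map ι) g O (ι κ) → ∀ i, ι (x * (κ ^ (2 * g + 4 * g ^ 2) * U₂.coeff i) ^ j) ∈ O := by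
  have := H.isDomain
  have HK := H.map ι rfl
  have c1 := (r.cls.pow (j + g)).mul (rQ.inv H).cls
  rw [h, mul_inv_cancel] at c1
  obtain ⟨φ, hφ, e⟩ := c1.principal
  obtain ⟨c, hc, eN⟩ : ∃ c : F, c ≠ 0 ∧ norm φ = C c * (U ^ (j + g) * U') := by
    have e1 := span_norm φ
    rw [← e, Ideal.map_mul, Ideal.map_pow, star_mum, star_mum, neg_neg, mul_mul_mul_comm, ← mul_pow,
      mul_comm (Mum D U' (-V')), mum_mul_neg H.unit H.sep r.dvd, mum_mul_neg H.unit H.sep rQ.dvd,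
      Ideal.span_singleton_pow, Ideal.span_singleton_mul_span_singleton] at e1
    simp only [← QuadraticAlgebra.algebraMap_eq, ← map_pow, ← map_mul] at e1
    have d1 := Ideal.mem_span_singleton.mp (e1 ▸ Ideal.mem_span_singleton_self _)
    have d2 := Ideal.mem_span_singleton.mp (e1.symm ▸ Ideal.mem_span_singleton_self _)
    rw [algebraMap_dvd_iff_dvd] at d1 d2
    obtain ⟨u, hu⟩ := associated_of_dvd_dvd d1 d2
    obtain ⟨c, hc, e⟩ := Polynomial.isUnit_iff.mp u.isUnit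
    exact ⟨c, hc.ne_zero, by rw [e, mul_comm, hu]⟩
  obtain ⟨U₁, U₂, eU, m₂, hco, hdv⟩ := split_coprime (D * U') _ U r.monic rfl
  have m₁ : U₁.Monic := m₂.of_mul_monic_right (eU ▸ r.monic)
  have hdeg : U₁.natDegree + U₂.natDegree ≤ g := by
    rw [← m₁.natDegree_mul m₂, ← eU]; exact r.le
  have W0 : (D * U').map ι ≠ 0 := map_ne_zero (mul_ne_zero H.ne_zero rQ.monic.ne_zero)
  have hroots : (U.map ι).roots = (U₁.map ι).roots + (U₂.map ι).roots := by
    rw [eU, Polynomial.map_mul, roots_mul ((m₁.map ι).mul (m₂.map ι)).ne_zero]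
  have r1 : ∀ a ∈ (U₁.map ι).roots, a ∈ ((D * U').map ι).roots := fun a ha => by
    have := (isRoot_of_mem_roots ha).dvd (Polynomial.map_dvd ι hdv)
    rw [Polynomial.map_pow, IsRoot, eval_pow] at this
    exact (mem_roots W0).mpr (pow_eq_zero_iff'.mp this).1
  have r2 : ∀ a ∈ (U'.map ι).roots, a ∈ ((D * U').map ι).roots := fun a ha =>
    (mem_roots W0).mpr ((isRoot_of_mem_roots ha).dvd (Polynomial.map_dvd ι (dvd_mul_left _ _)))
  have r3 : ∀ a ∈ (U₂.map ι).roots, (D.map ι).eval a * (U'.map ι).eval a ≠ 0 := fun a ha h0 => by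
    obtain ⟨p, q, hpq⟩ := hco
    have := congrArg (fun f => (f.map ι).eval a) hpq
    simp [(isRoot_of_mem_roots ha).eq_zero, h0] at this
  have rK := r.map ι rfl
  have r4 : ∀ a ∈ (U₂.map ι).roots, (V.map ι).eval a ^ 2 = (D.map ι).eval a := fun a ha =>
    sq_eval_of_root rK.dvd (hroots ▸ Multiset.mem_add.mpr (Or.inr ha))
  obtain ⟨β, hβ⟩ := rat_prod ι m₂ (φ.re - V * φ.im)
  obtain ⟨γ, hγ⟩ := rat_prod ι m₂ D
  have β0 : ι β ≠ 0 := by
    rw [hβ]
    refine Multiset.prod_ne_zero fun h0 => ?_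
    obtain ⟨a, ha, h0⟩ := Multiset.mem_map.mp h0
    have hb : (-(V.map ι).eval a) ^ 2 = (D.map ι).eval a := by rw [neg_sq, r4 a ha]
    have hp := RingHom.ker_isPrime ((ev hb).comp (cmap ι rfl))
    have : Ideal.span {φ} ≤ RingHom.ker ((ev hb).comp (cmap ι rfl)) := by
      rw [Ideal.span_singleton_le_iff_mem, RingHom.mem_ker]
      simpa [ev, cmap, sub_eq_add_neg] using h0
    rcases hp.mul_le.mp (e ▸ this) with h | h
    · have := RingHom.mem_ker.mp (hp.le_of_pow_le h right_mem_mum)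
      simp only [ev, cmap, RingHom.comp_apply, RingHom.coe_mk, MonoidHom.coe_mk, OneHom.coe_mk,
        Polynomial.map_neg, eval_neg, Polynomial.map_one, eval_one] at this
      have h2 : (V.map ι).eval a = 0 := (mul_eq_zero.mp (show 2 * (V.map ι).eval a = 0 by
        linear_combination -this)).resolve_left HK.two
      exact r3 a ha (by rw [← r4 a ha, h2]; simp)
    · have := RingHom.mem_ker.mp (h left_mem_mum)
      exact r3 a ha (by simp [show (U'.map ι).eval a = 0 by simpa [ev, cmap] using this])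
  have γ0 : ι γ ≠ 0 := by
    rw [hγ]
    refine Multiset.prod_ne_zero fun h0 => ?_
    obtain ⟨a, ha, h0⟩ := Multiset.mem_map.mp h0
    exact r3 a ha (by simp [h0])
  have hγ0 : γ ≠ 0 := (map_ne_zero ι).mp γ0
  refine ⟨U₂, β ^ 2 / (c ^ U₂.natDegree * γ ^ (j + g)), m₂, by omega,
    div_ne_zero (pow_ne_zero _ ((map_ne_zero ι).mp β0)) (by simp [hc, hγ0]),
    fun a ha => (Multiset.mem_add.mp (hroots ▸ ha)).imp_left (r1 a), fun O κ hκ hW hG i => ?_⟩
  have sp : ∀ {p : F[X]}, p.Monic → p.map ι = ((p.map ι).roots.map (X - C ·)).prod := fun hp =>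
    (IsAlgClosed.splits _).eq_prod_roots_of_monic (hp.map ι)
  have cd : ∀ p : F[X], (p.map ι).roots.card = p.natDegree := fun p => by
    rw [← (IsAlgClosed.splits _).natDegree_eq_card_roots, natDegree_map]
  let t := (j + g) • (U.map ι).roots + (U'.map ι).roots
  have hN : norm (cmap ι rfl φ) = C (ι c) * (t.map (X - C ·)).prod := by
    rw [norm_cmap, eN, Multiset.map_add, Multiset.prod_add, Multiset.map_nsmul, Multiset.prod_nsmul,
      ← sp r.monic, ← sp rQ.monic]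
    simp
  have hM : t.card ≤ g * (j + g) + g := by
    rw [Multiset.card_add, Multiset.card_nsmul, cd, cd, mul_comm]
    exact add_le_add (Nat.mul_le_mul_right _ r.le) rQ.le
  have hmem : ∀ a ∈ (U₂.map ι).roots,
      cmap ι rfl φ ∈ PI (D.map ι) (a, (V.map ι).eval a) ^ (j + g) := fun a ha => by
    have := Ideal.mem_map_of_mem (cmap ι rfl) (Ideal.mul_le_left
      (e ▸ Ideal.mem_span_singleton_self φ))
    rw [Ideal.map_pow, map_mum] at this
    refine Ideal.pow_right_mono ?_ _ this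
    rw [Mum, Ideal.span_le]
    rintro _ (rfl | rfl) <;> rw [SetLike.mem_coe, mem_PI (r4 a ha)]
    · simpa using (isRoot_of_mem_roots (hroots ▸ Multiset.mem_add.mpr (Or.inr ha))).eq_zero
    · simp
  have R := Multiset.prod_map_le_prod_map (s := (U₂.map ι).roots) _ _ fun a ha =>
    hG _ _ t a _ (j + g) hN (hM.trans (by nlinarith)) (r4 a ha) (hmem a ha)
  set v := O.valuation
  have vβ : ((U₂.map ι).roots.map fun a => v ((cmap ι rfl φ).re.eval a -
      (V.map ι).eval a * (cmap ι rfl φ).im.eval a)).prod = v (ι β) := by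
    rw [hβ, map_multiset_prod, Multiset.map_map]
    simp [cmap]
  have vγ : ((U₂.map ι).roots.map fun a => v ((V.map ι).eval a) ^ 2).prod = v (ι γ) := by
    rw [hγ, map_multiset_prod, Multiset.map_map]
    exact congrArg _ (Multiset.map_congr rfl fun a ha => by rw [← map_pow, r4 a ha]; rfl)
  simp only [Multiset.prod_map_mul, Multiset.prod_map_pow (n := j + g),
    Multiset.prod_map_pow (n := t.card), Multiset.prod_map_pow (n := 2 * g + 1), vγ,
    Multiset.map_const', Multiset.prod_replicate, cd] at R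
  rw [Multiset.prod_map_pow, vβ, Multiset.map_add, Multiset.prod_add,
    Multiset.map_nsmul, Multiset.prod_nsmul, hroots, Multiset.map_add, Multiset.prod_add] at R
  have k1 := (O.valuation_le_one_iff _).mpr hκ
  have A := arith k1 (Multiset.one_le_prod_of_one_le fun x hx => by
      obtain ⟨a, -, rfl⟩ := Multiset.mem_map.mp hx; exact le_max_left ..)
    (lam_le O hκ (by rw [cd]; omega) fun a ha => hW a (r1 a ha))
    (lam_le O hκ (by rw [cd]; exact rQ.le) fun a ha => hW a (r2 a ha)) (by omega) hM hj R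
  have hi := val_coeff_prod v (U₂.map ι).roots i
  rw [← sp m₂, coeff_map] at hi
  rw [← O.valuation_le_one_iff]
  simp only [map_mul, map_pow, map_div₀]
  rw [div_mul_eq_mul_div, div_le_one₀ (zero_lt_iff.mpr (by simp [hc, hγ0]))]
  exact le_trans (by gcongr) A

theorem Hy.finite_root {k : Type} [Field k] [Finite k] {D : (RatFunc k)[X]} (H : Hy D g)
    (Q : Pic (Crd D)) : {R | ∃ m, 2 * g + 1 ≤ m ∧ R ^ m = Q}.Finite := by
  classical
  let K := AlgebraicClosure (RatFunc k)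
  let ι := algebraMap (RatFunc k) K
  have HK := H.map ι rfl
  have := HK.isDomain
  obtain ⟨U', V', rQ⟩ := H.exists_rep Q
  obtain ⟨Z, hZ, h⟩ := northcott k K g (fun O κ => ∃ κ', κ = κ' ^ (2 * g + 4 * g ^ 2) ∧ ι κ' ∈ O ∧
      (∀ a ∈ ((D * U').map ι).roots, ι κ' * a ∈ O) ∧ Good (D.map ι) g O (ι κ')) fun 𝒱 hb => by
    obtain ⟨κ, h0, h⟩ := exists_good HK ι hb ((D * U').map ι).roots.toFinset
    exact ⟨_, pow_ne_zero _ h0, fun O hO => ⟨κ, rfl, (h O hO).1,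
      fun a ha => (h O hO).2.1 a (Multiset.mem_toFinset.mpr ha), (h O hO).2.2⟩⟩
  have hT : {P : K × K | P.1 ∈ ↑((D * U').map ι).roots.toFinset ∪ Z ∧
      P.2 ^ 2 = (D.map ι).eval P.1}.Finite := by
    refine (((Finset.finite_toSet ((D * U').map ι).roots.toFinset).union hZ).biUnion fun a _ =>
      ((nthRoots 2 ((D.map ι).eval a)).toFinset.finite_toSet.image (Prod.mk a))).subset ?_
    rintro ⟨a, b⟩ ⟨ha, hb⟩
    exact Set.mem_biUnion ha ⟨b, by simpa using hb, rfl⟩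
  refine Set.Finite.of_finite_image (f := pmap ι rfl) ?_ (H.pmap_injective ι rfl).injOn
  refine ((Set.finite_Iic (g • hT.toFinset.val)).image
    fun s => (s.map fun P => pt (D.map ι) P.1 P.2).prod).subset ?_
  rintro _ ⟨R, ⟨m, hm, e⟩, rfl⟩
  obtain ⟨U, V, r⟩ := H.exists_rep R
  obtain ⟨j, rfl⟩ : ∃ j, m = j + g := ⟨m - g, by omega⟩
  obtain ⟨U₂, x, m₂, d₂, hx, hr, hO⟩ := H.data ι rQ r (by omega) e
  have hU := h U₂ x j m₂ d₂ hx (by omega) (by
    rintro O _ ⟨κ, rfl, h1, h2, h3⟩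
    exact hO O κ h1 h2 h3)
  have rK := r.map ι rfl
  have hs : ∀ P ∈ (U.map ι).roots.map fun a => (a, (V.map ι).eval a),
      P.1 ∈ (U.map ι).roots ∧ P.2 ^ 2 = (D.map ι).eval P.1 := fun P hP => by
    obtain ⟨a, ha, rfl⟩ := Multiset.mem_map.mp hP
    exact ⟨ha, sq_eval_of_root rK.dvd ha⟩
  refine ⟨_, ?_, (rK.cls.unique (HK.mum_split rK.monic (IsAlgClosed.splits _) rK.dvd ▸
    HK.cls_prod _ fun P hP => (hs P hP).2)).symm⟩
  rw [Set.mem_Iic, Multiset.le_iff_count]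
  intro P
  by_cases hP : P ∈ (U.map ι).roots.map fun a => (a, (V.map ι).eval a)
  · rw [Multiset.count_nsmul, Multiset.count_eq_one_of_mem hT.toFinset.nodup, mul_one]
    · refine (Multiset.count_le_card ..).trans ?_
      rw [Multiset.card_map]
      exact (card_roots' _).trans rK.le
    · rw [Finset.mem_val, Set.Finite.mem_toFinset]
      exact ⟨(hr _ (hs P hP).1).imp (fun h => by simpa using h) (hU _), (hs P hP).2⟩
  · rw [Multiset.count_eq_zero_of_notMem hP]; exact Nat.zero_le _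

/-- If a fixed multiple of every class is infinitely `2`-divisible, the group is finite. -/
theorem Hy.finite_of_div {k : Type} [Field k] [Finite k] {D : (RatFunc k)[X]} {g : ℕ}
    (H : Hy D g) {N : ℕ} (hN : 0 < N)
    (h : ∀ (P : Pic (Crd D)) (j : ℕ), ∃ R, R ^ 2 ^ j = P ^ N) : Finite (Pic (Crd D)) := by
  rw [← Set.finite_univ_iff]
  refine (H.finite_root 1).subset fun P _ => ?_
  choose R hR using h P
  have hm : ∀ j, 2 * g + 1 ≤ 2 ^ (j + 2 * g) := fun j =>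
    (Nat.lt_two_pow_self (n := 2 * g)).trans_le (Nat.pow_le_pow_right two_pos (by omega))
  obtain ⟨i, j, hij, e⟩ := Set.Finite.exists_lt_map_eq_of_forall_mem (f := fun j => R (j + 2 * g))
    (fun j => by exact ⟨_, hm j, hR _⟩) (H.finite_root (P ^ N))
  obtain ⟨d, rfl⟩ := Nat.exists_eq_add_of_lt hij
  have e1 : (P ^ N) ^ 2 ^ (d + 1) = P ^ N := by
    conv_lhs => rw [← hR (i + 2 * g), ← pow_mul, ← pow_add, e]
    rw [show i + 2 * g + (d + 1) = i + d + 1 + 2 * g by ring, hR]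
  obtain ⟨n, hn⟩ := Nat.exists_eq_add_of_lt (Nat.one_lt_two_pow (n := d + 1) d.succ_ne_zero)
  rw [hn, add_assoc, pow_add, pow_one, mul_eq_left] at e1
  refine ⟨N * (n + 1) * (2 * g + 1), Nat.le_mul_of_pos_left _ (by positivity), ?_⟩
  rw [pow_mul, pow_mul, e1, one_pow]

end Pool.Agent.Bs
end

-- merged part: Pool.Agent.Work.MP_60d5ce_nt.Bs.Main
section
/-!
# Analytic rank zero gives finitely many points and a finite two-primary Tate-Shafarevich group
-/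

namespace Pool.Agent.Hyp

open scoped Classical Topology
open PR0 Polynomial Pool.Agent.Ell.AT Pool.Agent.Quad Pool.Agent.Lef Pool.Agent.Bs Filter

variable [Par] {k : Type} [Field k] [Fintype k] {f : k[X][X]} {d : k[X]} {Ω : Type} [Field Ω]
  [Algebra (RatFunc k) Ω] {F : ℕ → Type} [∀ n, Field (F n)] [∀ n, Algebra k (F n)]
  [IsSepClosure (RatFunc k) Ω]

section

variable [Algebra k Ω] [IsScalarTower k (RatFunc k) Ω] {v : Pl k}

theorem exists_jd' (h : Pen f) (h6 : ((mo : ℕ) : k) ≠ 0) (ℓ : Locs k Ω) :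
    ∃ (r : Rts Ω f (Fin (2 * gg + 1))) (G : Gc r) (J : JD (tame h6 ℓ) (Fin (2 * gg + 1))),
      J.Nd = fac f.discr ∧ J.Cnt f ∧ J.rep.ρ = G.ρ := by
  obtain ⟨r⟩ := exists_rts Ω h
  obtain ⟨G⟩ := exists_gc r h h6
  obtain ⟨δ, d1, d2, d3⟩ := G.exists_δ
  refine ⟨r, G,
    { toLat := G.lat h h6 ℓ
      symp := G.GenJ_symp h6 ℓ
      π := r.π
      card := r.card h
      surj := r.surj h ℓ
      δ := δ
      δ_eq := d1
      δ_rel := d2
      δ_sum := d3
      Nd := fac f.discr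
      Nd_sub := h.fac_sub
      inf_not := none_not_fac _
      good := fun v hv hv' => G.good h h6 (ℓ v) hv' hv
      swap := fun v hv => ?_
      rk1 := fun v hv => (G.node h h6 ℓ hv).1
      loc := fun v t h1 h2 => ?_
      chi := fun v hv m hm => ?_ }, rfl, ?_, rfl⟩
  · obtain ⟨a0, b0, hab, hπ, -⟩ := r.w_node h (ℓ v) hv
    exact ⟨a0, b0, hab, hπ⟩
  · by_cases hv : v ∈ fac f.discr
    · exact (G.node h h6 ℓ hv).2 t h1 h2
    · by_cases hv' : v = none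
      · subst hv'
        exact G.loc_inf h h6 (ℓ none) h1
      · exact G.loc_good h h6 (ℓ v) hv' hv h1
  · obtain ⟨c, c1, c2, c3, c4⟩ := r.chi h h6 ℓ hv m hm
    exact ⟨c, c1, c2, fun w hw => c3 w (by
      simp only [Finset.mem_insert] at hw ⊢
      exact hw), c4⟩
  · intro v d δ m hv hd hδ hm
    exact G.trace h h6 (ℓ v) hv hd hδ hm

/-- split at a local model -/
def Loc.Spl (l : Loc Ω v) {D : (RatFunc k)[X]} (c : Gam k Ω → Jac D Ω) : Prop :=
  ∃ P : Jac D (Fb l.Λ), ∀ (τ : Fb l.Λ ≃ₐ[RatFunc k] Fb l.Λ) (σ : Gam k Ω),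
    (∀ y, τ (algebraMap l.L _ y) = algebraMap l.L _ y) → (∀ x, l.ib (σ x) = τ (l.ib x)) →
    jmap D l.ib (c σ) = jmap D τ.toAlgHom P - P

omit [IsSepClosure (RatFunc k) Ω] [IsScalarTower k (RatFunc k) Ω] in
theorem Loc.Spl.sub {l : Loc Ω v} {D : (RatFunc k)[X]} {c : Gam k Ω → Jac D Ω} (h : l.Spl c)
    (y : Jac D Ω) : l.Spl (c - fun σ => jmap D σ.toAlgHom y - y) := by
  obtain ⟨P, hP⟩ := h
  refine ⟨P - jmap D l.ib y, fun τ σ h1 h2 => ?_⟩
  rw [Pi.sub_apply, map_sub, hP τ σ h1 h2, map_sub, map_sub, jm_sq σ.toAlgHom l.ib l.ib τ.toAlgHom h2]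
  abel

theorem Loc.Spl.unr {l : Loc Ω v} (h6 : ((mo : ℕ) : k) ≠ 0) (h : Pen f) (hv : v ≠ none)
    (hd : ¬ pl v ∣ d * f.discr) {c : Gam k Ω → Jac (twp f d) Ω} (hc : l.Spl c) (ht : Tor2 c) :
    c (gal l.τ) = 0 := by
  have H := hy_twp h6 h (d := d) fun e => hd (by simp [e])
  obtain ⟨P, hP⟩ := hc
  obtain ⟨j, hj⟩ := ht
  obtain ⟨w, τ, h1, h2, h3, h4, h5, h7⟩ := l.exists_bar
  let O : ValuationSubring (Fb l.Λ) :=
    { carrier := {a | w a ≤ 1}
      mul_mem' := fun {a b} ha hb => (map_mul w a b).trans_le (mul_le_one₀ ha (w.nonneg b) hb)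
      one_mem' := w.map_one.le
      add_mem' := fun ha hb => Rt_add_le h1 ha hb
      zero_mem' := w.map_zero.trans_le zero_le_one
      neg_mem' := fun {a} ha => (w.map_neg a).trans_le ha
      mem_or_inv_mem' := fun a => (le_total (w a) 1).imp_right fun ha =>
        (map_inv₀ w a).trans_le (inv_le_one_of_one_le₀ ha) }
  have hO : ∀ a, O.valuation a < 1 ↔ w a < 1 := fun a => by
    rw [← O.mem_nonunits_iff, O.mem_nonunits_iff_or]
    change a = 0 ∨ ¬ w a⁻¹ ≤ 1 ↔ _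
    rw [map_inv₀, not_le, one_lt_inv_iff₀, w.pos_iff]
    exact ⟨fun e => e.elim (fun e => by simp [e]) (·.2), fun e => (em _).imp_right (⟨·, e⟩)⟩
  let φ : k[X] →+* O := (l.ib.toRingHom.comp (bp Ω)).codRestrict O fun p =>
    (h2 _).trans_le (l.w_bp_le hv p)
  have hφ : ∀ p, ¬ pl v ∣ p → (IsLocalRing.residue O).comp φ p ≠ 0 := fun p hp e => by
    have e1 := (hO _).1 ((O.valuation_lt_one_iff _).1 ((IsLocalRing.residue_eq_zero_iff _).1 e))
    exact (e1.trans_eq ((h2 _).trans (EKum_eq l hv hp)).symm).false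
  have h8 := hP τ _ h7 h5
  have h9 : jmap _ τ.toAlgHom P = P := Hy.red O ((C d * f).map φ) (by
      rw [Polynomial.map_map, Polynomial.map_map]
      exact congrArg (fun s => (C d * f).map s) (RingHom.ext fun p => l.ib.commutes _))
    (H.map _ rfl) (by
      rw [Polynomial.map_map]
      exact hy_map h6 h _ (hφ d fun e => hd (e.mul_right _)) (hφ _ fun e => hd (e.mul_left _)))
    _ _ (fun a => by
      change w (τ a) ≤ 1 ↔ w a ≤ 1
      rw [h3]) (fun a ha => (hO _).2 (h4 a ha)) P j (by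
      change 2 ^ j • (jmap _ τ.toAlgHom P - P) = 0
      rw [← h8, ← map_nsmul, show 2 ^ j • c _ = 0 from congrFun hj _, map_zero])
  exact jm_inj H l.ib (by rw [h8, h9, sub_self, map_zero])

end

theorem bsd_zero (h6 : ((mo : ℕ) : k) ≠ 0) (h : Pen f) (hF : ∀ n, Module.finrank k (F n) = n + 1)
    (hd : d ≠ 0) (h0 : Zr F f 0 d) :
    Finite (Jac (twp f d) (RatFunc k)) ∧ ShaTwoFinite (twp f d) Ω := by
  let : Algebra k Ω := ((algebraMap (RatFunc k) Ω).comp (algebraMap k (RatFunc k))).toAlgebra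
  have : IsScalarTower k (RatFunc k) Ω := IsScalarTower.of_algebraMap_eq fun _ => rfl
  let ℓ : Locs k Ω := fun v => (exists_loc h6 v).some
  have H := hy_twp h6 h hd
  obtain ⟨r, G, J, hN, hC, hJ⟩ := exists_jd' h h6 ℓ
  obtain ⟨hdiv, M, hM⟩ := G.exists_gm h hd hJ
  have tw := tw_full h hN hd
  obtain ⟨e, S, hS, h1⟩ := coh_fin M (lefAx h6 ℓ) tw.hom tw.PRec_ne tw.mat_τ (PRec_deg _)
    fun r Ψ hΨ => by
      rw [← scale_mult (q_mul_qi (tame h6 ℓ))]
      exact (zr_full h hC hF hd (((lf_cp Ψ).scale _).congr hΨ)).unique h0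
  have hρ : GA fun σ : Gam k Ω => jmap (twp f d) σ.toAlgHom :=
    ⟨fun σ τ y => (jm_comp τ.toAlgHom σ.toAlgHom _ (fun _ => rfl) y).symm,
      fun y => (jm_fin H y).imp fun S hS σ => (hS σ).1⟩
  obtain ⟨S', hS', h2⟩ := sel_fin M hM hρ tw.hom tw.mat_τ hS h1
  have h3 : ∀ (j : ℕ) (y : Jac (twp f d) Ω), ∃ z, 2 ^ j • z = y := fun j => by
    induction j with
    | zero => exact fun y => ⟨y, by simp⟩
    | succ j ih =>
      intro y
      obtain ⟨z, rfl⟩ := ih y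
      obtain ⟨u, rfl⟩ := hdiv z
      exact ⟨u, by rw [pow_succ, mul_smul]⟩
  have h4 := fun c (a : Cc _ c) (b : Tor2 c) (hc : ∀ v, (ℓ v).Spl c) => h2 c a b fun v hv => by
    rw [Finset.mem_insert, mem_fac_iff (mul_ne_zero hd h.ne), not_or, not_and] at hv
    exact (hc v).unr h6 h hv.1 (hv.2 hv.1) b
  refine ⟨(H.map _ rfl).finite_of_div (pow_pos two_pos e) fun P j => ?_, S', hS', ?_⟩
  · have k0 : ∀ (σ : Gam k Ω) z, jmap (twp f d) σ.toAlgHom (jmap _ (Algebra.ofId _ Ω) z) =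
        jmap _ (Algebra.ofId _ Ω) z := fun σ => jm_comp _ _ _ σ.commutes
    obtain ⟨Q, hQ⟩ := h3 j (jmap _ (Algebra.ofId _ Ω) (.ofMul P))
    have k1 : ∀ σ : Gam k Ω, 2 ^ j • (jmap (twp f d) σ.toAlgHom Q - Q) = 0 := fun σ => by
      rw [smul_sub, ← map_nsmul, hQ, k0, sub_self]
    obtain ⟨⟨y, hy, k2⟩, -⟩ := h4 _ (hρ.cob Q) ⟨j, funext k1⟩ fun v =>
      ⟨jmap _ (ℓ v).ib Q, fun τ σ _ h => by
        rw [map_sub, jm_sq σ.toAlgHom (ℓ v).ib (ℓ v).ib τ.toAlgHom h]⟩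
    obtain ⟨z, hz⟩ := jm_fixed H (y := 2 ^ e • Q - y) fun σ => by
      rw [map_sub, map_nsmul, sub_eq_sub_iff_sub_eq_sub, ← smul_sub, k2]
    have k3 : 2 ^ j • y = 0 := fix_zero (ρ := fun σ => jmap _ σ.toAlgHom) M hM (hy.imp fun i hi => by rw [smul_comm, hi, smul_zero])
      fun g _ => by rw [map_nsmul, ← sub_eq_zero, ← smul_sub, ← k2, smul_comm, k1, smul_zero]
    refine ⟨z.toMul, show 2 ^ j • z = 2 ^ e • Additive.ofMul P from
      jm_inj H (Algebra.ofId _ Ω) ?_⟩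
    rw [map_nsmul, map_nsmul, hz, smul_sub, k3, sub_zero, smul_comm, hQ]
  · rintro c hc ⟨j, y, hy⟩
    obtain ⟨z, rfl⟩ := h3 j y
    have k0 : c 1 = 0 := by
      have := hc.1.2 1 1
      rwa [mul_one, (hρ.fin _).choose_spec 1 fun _ _ => rfl, left_eq_add] at this
    have k1 : Cc (fun σ : Gam k Ω => jmap (twp f d) σ.toAlgHom) c :=
      ⟨(ShaAsc.nhds_one_iff _).1 ((hc.1.1.isOpen_fiber 0).mem_nhds k0), hc.1.2⟩
    obtain ⟨-, s, hs, u, hu⟩ := h4 _ (k1.sub (hρ.cob z)) ⟨j, funext fun σ => by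
      rw [Pi.smul_apply, Pi.sub_apply, smul_sub, ← Pi.smul_apply, hy, map_nsmul, smul_sub, sub_self,
        Pi.zero_apply]⟩ fun v => Loc.Spl.sub ((ℓ v).split hc) z
    refine ⟨s, hs, u + z, fun σ => ?_⟩
    have k2 := hu σ
    simp only [Pi.sub_apply, map_add] at k2 ⊢
    rw [add_sub_add_comm, ← k2]
    abel

variable (Ω) in
theorem main_bsd (h6 : ((mo : ℕ) : k) ≠ 0) (h : Pen f)
    (hF : ∀ n, Module.finrank k (F n) = n + 1) {r : ℕ} (hr : r ≤ 1) :
    Tendsto (fun n => ({d | d ∈ Cn f.discr n ∧ Zr F f r d ∧ (r = 0 →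
      Finite (Jac (twp f d) (RatFunc k)) ∧ ShaTwoFinite (twp f d) Ω)}.ncard : ℝ) /
      ((Cn f.discr n).ncard : ℝ)) atTop (𝓝 (1 / 2)) := by
  refine (main_half h6 h hF hr).congr fun n => ?_
  congr 3
  exact Set.ext fun d => and_congr_right fun hd =>
    (and_iff_left_of_imp fun h0 (e : r = 0) => bsd_zero h6 h hF hd.1 (e ▸ h0)).symm

end Pool.Agent.Hyp
end

-- merged part: Pool.Agent.Work.MP_60d5ce_nt.Bs.SMain
section
/-!
# The main theorem over the short definitions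
-/

namespace Pool.Agent.Hyp

open scoped Topology
open Polynomial Filter

private theorem split_bridge {F : Type} [Field F] {D : F[X]} {Ω : Type} [Field Ω] [Algebra F Ω]
    (L Λ : Type) [Field L] [Field Λ] [Algebra F L] [Algebra L Λ] [Algebra F Λ] [IsScalarTower F L Λ]
    {c : (Ω ≃ₐ[F] Ω) → Bs.Jac D Ω} (h : Bsd.SplitsVia D L Λ c) :
    ∃ (ι : Ω →ₐ[F] Λ) (P : Bs.Jac D Λ), ∀ (τ : Λ ≃ₐ[L] Λ) (σ : Ω ≃ₐ[F] Ω),
      (∀ x, ι (σ x) = τ (ι x)) →
        Bs.jmap D ι (c σ) = Bs.jmap D (τ.toAlgHom.restrictScalars F) P - P := by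
  obtain ⟨ι, P, hP⟩ := h
  exact ⟨ι, P, fun τ σ e => hP (τ.restrictScalars F) σ τ.commutes e⟩

theorem sha_bridge {F : Type} [Field F] {D : F[X]} {Ω : Type} [Field Ω] [Algebra F Ω]
    (h : Bs.ShaTwoFinite D Ω) : Bsd.ShaTwoFinite D Ω := by
  obtain ⟨S, hS, h⟩ := h
  exact ⟨S, hS, fun c hc => h c ⟨hc.1, fun v hv =>
    split_bridge v.Completion (SeparableClosure v.Completion) (hc.2 v hv)⟩⟩

variable [Par] {k : Type} [Field k] [Fintype k] {f : k[X][X]} (Ω : Type) [Field Ω]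
  [Algebra (RatFunc k) Ω] {F : ℕ → Type} [∀ n, Field (F n)] [∀ n, Algebra k (F n)]
  [IsSepClosure (RatFunc k) Ω]

theorem main_bsd' (h6 : ((mo : ℕ) : k) ≠ 0) (h : Pen f)
    (hF : ∀ n, Module.finrank k (F n) = n + 1) {r : ℕ} (hr : r ≤ 1) :
    Tendsto (fun n => ({d | d ∈ Cn f.discr n ∧ Zr F f r d ∧ (r = 0 →
      Finite (Bsd.Jac (twp f d) (RatFunc k)) ∧ Bsd.ShaTwoFinite (twp f d) Ω)}.ncard : ℝ) /
      ((Cn f.discr n).ncard : ℝ)) atTop (𝓝 (1 / 2)) := by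
  refine (main_half h6 h hF hr).congr fun n => ?_
  congr 3
  exact Set.ext fun d => and_congr_right fun hd => (and_iff_left_of_imp fun h0 (e : r = 0) =>
    (bsd_zero h6 h hF hd.1 (e ▸ h0)).imp_right sha_bridge).symm

end Pool.Agent.Hyp
end
end
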