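import Mathlib

/-!
# The Jacobian of `y ^ 2 = D(x)` and the two-primary part of its Tate-Shafarevich group

`Ω` is a separable closure of `F`.  `H^1(F, J)` is the group of continuous (locally constant)
1-cocycles `Gal(Ω/F) → J(Ω)` modulo coboundaries.
-/

namespace Pool.Agent.Bsd

open Polynomial

/-- The coordinate ring `A[x, y] / (y ^ 2 - D(x))`; the pair `⟨a, b⟩` is `a(x) + b(x) y`. -/
abbrev Crd {A : Type} [CommRing A] (D : A[X]) : Type := QuadraticAlgebra A[X] D 0

/-- The map of coordinate rings that applies `φ` to the coefficients. -/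
noncomputable def cmap {A B : Type} [CommRing A] [CommRing B] (φ : A →+* B) {D : A[X]} {E : B[X]}
    (h : D.map φ = E) : Crd D →+* Crd E where
  toFun z := ⟨z.re.map φ, z.im.map φ⟩
  map_one' := by ext1 <;> simp [QuadraticAlgebra.re_one, QuadraticAlgebra.im_one]
  map_mul' z w := by ext1 <;> simp [h]
  map_zero' := by ext1 <;> simp
  map_add' z w := by ext1 <;> simp

variable {F : Type} [Field F] (D : F[X])

/-- The Picard group (written multiplicatively) of the coordinate ring of `y ^ 2 = D(x)` over an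
extension `K` of `F`. -/
noncomputable def Jac (K : Type) [Field K] [Algebra F K] : CommGrpCat :=
  CommRing.Pic.functor.obj (CommSemiRingCat.of (Crd (D.map (algebraMap F K))))

/-- The map `Jac D K → Jac D L` induced by an embedding `K → L` over `F`. -/
noncomputable def jmap {K L : Type} [Field K] [Algebra F K] [Field L] [Algebra F L]
    (φ : K →ₐ[F] L) : Jac D K ⟶ Jac D L :=
  CommRing.Pic.functor.map (CommSemiRingCat.ofHom (cmap (φ : K →+* L)
    ((Polynomial.map_map _ _ D).trans (congrArg D.map φ.comp_algebraMap))))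

variable {Ω : Type} [Field Ω] [Algebra F Ω]

/-- Continuous (= locally constant for the Krull topology) 1-cocycles `Gal(Ω/F) → J(Ω)`. -/
def IsCocycle (c : (Ω ≃ₐ[F] Ω) → Jac D Ω) : Prop :=
  IsLocallyConstant c ∧ ∀ σ τ, c (σ * τ) = c σ * jmap D σ.toAlgHom (c τ)

/-- 1-coboundaries `σ ↦ σ P / P`, `P ∈ J(Ω)`. -/
def IsCob (c : (Ω ≃ₐ[F] Ω) → Jac D Ω) : Prop :=
  ∃ P : Jac D Ω, ∀ σ, c σ = jmap D σ.toAlgHom P / P

/-- The class of `c` restricts to the trivial class in `H^1(L, J)`, for an extension field `L` of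
`F`: there are a separable closure `Λ` of `L`, an embedding `ι` of `Ω` in `Λ` and a point `P` over
`Λ` with `ι (c σ) = τ P / P` whenever `τ ∈ Gal(Λ/L)` restricts to `σ ∈ Gal(Ω/F)`. -/
def SplitsOver (L : Type) [Field L] [Algebra F L] (c : (Ω ≃ₐ[F] Ω) → Jac D Ω) : Prop :=
  ∃ (Λ : Type) (_ : Field Λ) (_ : Algebra L Λ) (_ : Algebra F Λ) (_ : IsScalarTower F L Λ)
    (_ : IsSepClosure L Λ) (ι : Ω →ₐ[F] Λ) (P : Jac D Λ), ∀ (τ : Λ ≃ₐ[L] Λ) (σ : Ω ≃ₐ[F] Ω),
      (∀ x, ι (σ x) = τ (ι x)) → jmap D ι (c σ) = jmap D (τ.toAlgHom.restrictScalars F) P / P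

/-- `c` is a continuous cocycle whose class lies in the Tate-Shafarevich group, the kernel of
`H^1(F, J) → ∏_v H^1(F_v, J)`, `v` running over all nontrivial real absolute values of `F`. -/
def InSha (c : (Ω ≃ₐ[F] Ω) → Jac D Ω) : Prop :=
  IsCocycle D c ∧ ∀ v : AbsoluteValue F ℝ, v.IsNontrivial → SplitsOver D v.Completion c

variable (Ω) in
/-- The classes of two-power order in the Tate-Shafarevich group are finitely many. -/
def ShaTwoFinite : Prop :=
  ∃ S : Set ((Ω ≃ₐ[F] Ω) → Jac D Ω), S.Finite ∧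
    ∀ c, InSha D c → (∃ j : ℕ, IsCob D (c ^ 2 ^ j)) → ∃ s ∈ S, IsCob D (c / s)

end Pool.Agent.Bsd
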